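import Mathlib

/-! Pointwise algebra for the pair `(ζ, λ² / conj ζ)`. -/

open MeasureTheory Set Filter Topology Metric
open scoped ContDiff ENNReal NNReal Real

namespace Pool.Agent.H.MP_09f213_an

/-- `mf l a = l² / conj a`, written as `(l²/|a|²) a`. -/
noncomputable def mf (l : ℝ) (a : ℂ) : ℂ := ((l ^ 2 / ‖a‖ ^ 2 : ℝ) : ℂ) * a

/-- The `x` derivative built from `f_z = a`. -/
noncomputable def pf (l : ℝ) (a : ℂ) : ℂ := a + mf l a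

/-- The `y` derivative built from `f_z = a`. -/
noncomputable def rf (l : ℝ) (a : ℂ) : ℂ := Complex.I * (a - mf l a)

/-- The determinant of the difference. -/
noncomputable def Pf (l : ℝ) (a b : ℂ) : ℝ := ‖a - b‖ ^ 2 * (1 - l ^ 4 / (‖a‖ ^ 2 * ‖b‖ ^ 2))

lemma norm_sq_eq (z : ℂ) : ‖z‖ ^ 2 = z.re * z.re + z.im * z.im := by
  rw [← Complex.normSq_eq_norm_sq, Complex.normSq_apply]

lemma norm_mf_sub_sq (l : ℝ) {a b : ℂ} (ha : a ≠ 0) (hb : b ≠ 0) :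
    ‖mf l b - mf l a‖ ^ 2 = ‖a - b‖ ^ 2 * (l ^ 4 / (‖a‖ ^ 2 * ‖b‖ ^ 2)) := by
  have ha' : ‖a‖ ^ 2 ≠ 0 := by positivity
  have hb' : ‖b‖ ^ 2 ≠ 0 := by positivity
  rw [norm_sq_eq, norm_sq_eq (a - b)]
  unfold mf
  simp only [Complex.sub_re, Complex.sub_im, Complex.mul_re, Complex.mul_im, Complex.ofReal_re,
    Complex.ofReal_im, zero_mul, sub_zero, add_zero]
  have e1 := norm_sq_eq a
  have e2 := norm_sq_eq b
  set A := ‖a‖ ^ 2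
  set B := ‖b‖ ^ 2
  have key : (l ^ 2 / B * b.re - l ^ 2 / A * a.re) * (l ^ 2 / B * b.re - l ^ 2 / A * a.re) +
      (l ^ 2 / B * b.im - l ^ 2 / A * a.im) * (l ^ 2 / B * b.im - l ^ 2 / A * a.im) =
      l ^ 4 / (A * A * B * B) * (A * A * (b.re * b.re + b.im * b.im) +
        B * B * (a.re * a.re + a.im * a.im) - 2 * A * B * (a.re * b.re + a.im * b.im)) := by
    field_simp
    ring
  rw [key, ← e1, ← e2]
  have : (a.re - b.re) * (a.re - b.re) + (a.im - b.im) * (a.im - b.im) =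
      (a.re * a.re + a.im * a.im) + (b.re * b.re + b.im * b.im) -
        2 * (a.re * b.re + a.im * b.im) := by ring
  rw [this, ← e1, ← e2]
  field_simp

lemma det_eq_Pf (l : ℝ) {a b : ℂ} (ha : a ≠ 0) (hb : b ≠ 0) :
    (pf l b - pf l a).re * (rf l b - rf l a).im - (rf l b - rf l a).re * (pf l b - pf l a).im =
      Pf l a b := by
  have h1 := norm_mf_sub_sq l ha hb
  unfold Pf
  rw [mul_sub, mul_one, ← h1, norm_sq_eq, norm_sq_eq (mf l b - mf l a)]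
  unfold pf rf
  simp
  ring

lemma frac_le_one {l : ℝ} {a b : ℂ} (hl : 0 < l) (ha : l ≤ ‖a‖) (hb : l ≤ ‖b‖) :
    l ^ 4 / (‖a‖ ^ 2 * ‖b‖ ^ 2) ≤ 1 := by
  have ha2 : l ^ 2 ≤ ‖a‖ ^ 2 := pow_le_pow_left₀ hl.le ha 2
  have hb2 : l ^ 2 ≤ ‖b‖ ^ 2 := pow_le_pow_left₀ hl.le hb 2
  have hap : 0 < ‖a‖ ^ 2 := lt_of_lt_of_le (by positivity) ha2
  have hbp : 0 < ‖b‖ ^ 2 := lt_of_lt_of_le (by positivity) hb2
  rw [div_le_one (by positivity)]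
  have : l ^ 4 = l ^ 2 * l ^ 2 := by ring
  rw [this]
  exact mul_le_mul ha2 hb2 (by positivity) hap.le

lemma Pf_nonneg {l : ℝ} {a b : ℂ} (hl : 0 < l) (ha : l ≤ ‖a‖) (hb : l ≤ ‖b‖) : 0 ≤ Pf l a b :=
  mul_nonneg (sq_nonneg _) (sub_nonneg.2 (frac_le_one hl ha hb))

lemma Pf_comm (l : ℝ) (a b : ℂ) : Pf l a b = Pf l b a := by
  unfold Pf; rw [norm_sub_rev, mul_comm (‖a‖ ^ 2)]

/-- (A1) -/
lemma sq_le_Pf_of_large {l : ℝ} {a b : ℂ} (hl : 0 < l) (hl1 : l ≤ 1) (ha : l ≤ ‖a‖)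
    (hb : l ≤ ‖b‖) (h : 2 ≤ ‖a‖ ∨ 2 ≤ ‖b‖) : ‖a - b‖ ^ 2 ≤ 4 / 3 * Pf l a b := by
  wlog hA : 2 ≤ ‖a‖ generalizing a b
  · have := this hb ha h.symm (h.resolve_left hA)
    rwa [norm_sub_rev, Pf_comm] at this
  have ha2 : (4 : ℝ) ≤ ‖a‖ ^ 2 := by nlinarith
  have hb2 : l ^ 2 ≤ ‖b‖ ^ 2 := pow_le_pow_left₀ hl.le hb 2
  have hlsq : 0 < l ^ 2 := by positivity
  have hfrac : l ^ 4 / (‖a‖ ^ 2 * ‖b‖ ^ 2) ≤ 1 / 4 := by
    have hap : 0 < ‖a‖ ^ 2 := by linarith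
    have hbp : 0 < ‖b‖ ^ 2 := by linarith
    rw [div_le_div_iff₀ (by positivity) (by norm_num)]
    have h1 : l ^ 4 ≤ l ^ 2 := pow_le_pow_of_le_one hl.le hl1 (by norm_num)
    nlinarith [mul_le_mul ha2 hb2 hlsq.le (by positivity)]
  unfold Pf
  nlinarith [sq_nonneg ‖a - b‖]

lemma norm_rf {l : ℝ} {a : ℂ} (hl : 0 < l) (ha : l ≤ ‖a‖) : ‖rf l a‖ = ‖a‖ - l ^ 2 / ‖a‖ := by
  have hap : 0 < ‖a‖ := hl.trans_le ha
  unfold rf mf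
  rw [norm_mul, Complex.norm_I, one_mul]
  have : a - ((l ^ 2 / ‖a‖ ^ 2 : ℝ) : ℂ) * a = ((1 - l ^ 2 / ‖a‖ ^ 2 : ℝ) : ℂ) * a := by
    push_cast; ring
  rw [this, norm_mul, Complex.norm_real, Real.norm_eq_abs, abs_of_nonneg]
  · field_simp
  · rw [sub_nonneg, div_le_one (by positivity)]
    exact pow_le_pow_left₀ hl.le ha 2

lemma norm_mf {l : ℝ} {a : ℂ} (hl : 0 < l) (ha : l ≤ ‖a‖) : ‖mf l a‖ = l ^ 2 / ‖a‖ := by
  have hap : 0 < ‖a‖ := hl.trans_le ha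
  unfold mf
  rw [norm_mul, Complex.norm_real, Real.norm_eq_abs, abs_of_nonneg (by positivity)]
  field_simp

lemma Pf_ge {l : ℝ} {a c : ℂ} (hl : 0 < l) (ha : l ≤ ‖a‖) (hc : l ≤ ‖c‖) :
    ‖a - c‖ ^ 2 * ((‖c‖ - l ^ 2 / ‖c‖) / ‖c‖) ≤ Pf l a c := by
  have hcp : 0 < ‖c‖ := hl.trans_le hc
  have hap : 0 < ‖a‖ := hl.trans_le ha
  unfold Pf
  refine mul_le_mul_of_nonneg_left ?_ (sq_nonneg _)
  have h1 : (‖c‖ - l ^ 2 / ‖c‖) / ‖c‖ = 1 - l ^ 2 / ‖c‖ ^ 2 := by field_simp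
  rw [h1]
  have h2 : l ^ 4 / (‖a‖ ^ 2 * ‖c‖ ^ 2) ≤ l ^ 2 / ‖c‖ ^ 2 := by
    rw [div_le_div_iff₀ (by positivity) (by positivity)]
    have ha2 : l ^ 2 ≤ ‖a‖ ^ 2 := pow_le_pow_left₀ hl.le ha 2
    have : 0 ≤ l ^ 2 * ‖c‖ ^ 2 := by positivity
    nlinarith [mul_le_mul_of_nonneg_right ha2 this]
  linarith

/-- (A2) -/
lemma sq_mul_le_Pf {l : ℝ} {a b c : ℂ} (hl : 0 < l) (ha : l ≤ ‖a‖) (hb : l ≤ ‖b‖)
    (hc : l ≤ ‖c‖) (ha2 : ‖a‖ ≤ 2) (hb2 : ‖b‖ ≤ 2) :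
    ‖a - b‖ ^ 2 * (‖c‖ - l ^ 2 / ‖c‖) ≤ 8 * (Pf l a c + Pf l c b) := by
  have hcp : 0 < ‖c‖ := hl.trans_le hc
  have hs : 0 ≤ ‖c‖ - l ^ 2 / ‖c‖ := by
    rw [sub_nonneg, div_le_iff₀ hcp]
    nlinarith
  set s := ‖c‖ - l ^ 2 / ‖c‖ with hsdef
  have h1 : ‖a - c‖ ^ 2 * (s / ‖c‖) ≤ Pf l a c := Pf_ge hl ha hc
  have h2 : ‖c - b‖ ^ 2 * (s / ‖c‖) ≤ Pf l c b := by
    rw [Pf_comm, norm_sub_rev]; exact Pf_ge hl hb hc
  rcases le_total ‖c‖ 4 with h4 | h4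
  · have h3 : ‖a - b‖ ^ 2 ≤ 2 * (‖a - c‖ ^ 2 + ‖c - b‖ ^ 2) := by
      have h5 : ‖a - b‖ ≤ ‖a - c‖ + ‖c - b‖ := norm_sub_le_norm_sub_add_norm_sub a c b
      have h6 : ‖a - b‖ ^ 2 ≤ (‖a - c‖ + ‖c - b‖) ^ 2 := pow_le_pow_left₀ (norm_nonneg _) h5 2
      nlinarith [sq_nonneg (‖a - c‖ - ‖c - b‖)]
    have h5 : s = ‖c‖ * (s / ‖c‖) := by field_simp
    have h6 : 0 ≤ s / ‖c‖ := div_nonneg hs hcp.le
    calc ‖a - b‖ ^ 2 * s ≤ 2 * (‖a - c‖ ^ 2 + ‖c - b‖ ^ 2) * s :=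
          mul_le_mul_of_nonneg_right h3 hs
      _ = 2 * ‖c‖ * (‖a - c‖ ^ 2 * (s / ‖c‖) + ‖c - b‖ ^ 2 * (s / ‖c‖)) := by
          rw [h5]; field_simp
      _ ≤ 2 * ‖c‖ * (Pf l a c + Pf l c b) :=
          mul_le_mul_of_nonneg_left (add_le_add h1 h2) (by positivity)
      _ ≤ 8 * (Pf l a c + Pf l c b) := by
          refine mul_le_mul_of_nonneg_right (by linarith) ?_
          exact add_nonneg (Pf_nonneg hl ha hc) (Pf_nonneg hl hc hb)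
  · have h5 : ‖a - b‖ ≤ 4 := (norm_sub_le a b).trans (by linarith)
    have h5' : ‖a - b‖ ^ 2 ≤ 16 := by nlinarith [norm_nonneg (a - b)]
    have h6 : ‖c‖ / 2 ≤ ‖a - c‖ := by
      have : ‖c‖ ≤ ‖c - a‖ + ‖a‖ := norm_le_norm_sub_add c a
      rw [norm_sub_rev] at this
      linarith
    have h7 : ‖c‖ / 2 ≤ ‖c - b‖ := by
      have : ‖c‖ ≤ ‖c - b‖ + ‖b‖ := norm_le_norm_sub_add c b
      linarith
    have h8 : ‖c‖ ^ 2 / 4 ≤ ‖a - c‖ ^ 2 := by nlinarith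
    have h9 : ‖c‖ ^ 2 / 4 ≤ ‖c - b‖ ^ 2 := by nlinarith
    have h10 : 0 ≤ s / ‖c‖ := div_nonneg hs hcp.le
    have h11 : ‖c‖ * s / 4 ≤ Pf l a c := by
      refine le_trans ?_ h1
      refine le_trans (le_of_eq ?_) (mul_le_mul_of_nonneg_right h8 h10)
      field_simp
    have h12 : ‖c‖ * s / 4 ≤ Pf l c b := by
      refine le_trans ?_ h2
      refine le_trans (le_of_eq ?_) (mul_le_mul_of_nonneg_right h9 h10)
      field_simp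
    have h13 : 4 * s ≤ ‖c‖ * s := mul_le_mul_of_nonneg_right h4 hs
    nlinarith [mul_le_mul_of_nonneg_right h5' hs]

/-- (A3) -/
lemma rf_eq_of_Pf_zero {l : ℝ} {a b : ℂ} (hl : 0 < l) (ha : l ≤ ‖a‖) (hb : l ≤ ‖b‖)
    (h : Pf l a b = 0) : rf l b - rf l a = 0 := by
  have ha0 : 0 < ‖a‖ := hl.trans_le ha
  have hb0 : 0 < ‖b‖ := hl.trans_le hb
  have ha2 : l ^ 2 ≤ ‖a‖ ^ 2 := pow_le_pow_left₀ hl.le ha 2
  have hb2 : l ^ 2 ≤ ‖b‖ ^ 2 := pow_le_pow_left₀ hl.le hb 2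
  rcases mul_eq_zero.1 h with h1 | h1
  · have : a - b = 0 := by simpa using h1
    rw [sub_eq_zero.1 this]; simp
  · have h2 : l ^ 4 / (‖a‖ ^ 2 * ‖b‖ ^ 2) = 1 := by linarith
    rw [div_eq_one_iff_eq (by positivity)] at h2
    have h3 : ‖a‖ ^ 2 = l ^ 2 := by
      by_contra hne
      have h4 : l ^ 2 < ‖a‖ ^ 2 := lt_of_le_of_ne ha2 (Ne.symm hne)
      have : l ^ 2 * l ^ 2 < ‖a‖ ^ 2 * ‖b‖ ^ 2 :=
        mul_lt_mul h4 hb2 (by positivity) (by positivity)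
      nlinarith
    have h4 : ‖b‖ ^ 2 = l ^ 2 := by
      by_contra hne
      have h4 : l ^ 2 < ‖b‖ ^ 2 := lt_of_le_of_ne hb2 (Ne.symm hne)
      have : l ^ 2 * l ^ 2 < ‖b‖ ^ 2 * ‖a‖ ^ 2 :=
        mul_lt_mul h4 ha2 (by positivity) (by positivity)
      nlinarith
    have hl2 : l ^ 2 ≠ 0 := by positivity
    unfold rf mf
    rw [h3, h4, div_self hl2]
    simp

/-- (A4) -/
lemma norm_mf_sub_le {l : ℝ} {a b : ℂ} (hl : 0 < l) (ha : l ≤ ‖a‖) (hb : l ≤ ‖b‖) :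
    ‖mf l b - mf l a‖ ≤ ‖a - b‖ := by
  have ha0 : a ≠ 0 := norm_pos_iff.1 (hl.trans_le ha)
  have hb0 : b ≠ 0 := norm_pos_iff.1 (hl.trans_le hb)
  have h1 := norm_mf_sub_sq l ha0 hb0
  have h2 := frac_le_one hl ha hb
  refine le_of_sq_le_sq ?_ (norm_nonneg _)
  rw [h1]
  exact mul_le_of_le_one_right (sq_nonneg _) h2

lemma norm_pf_sub_le {l : ℝ} {a b : ℂ} (hl : 0 < l) (ha : l ≤ ‖a‖) (hb : l ≤ ‖b‖) :
    ‖pf l b - pf l a‖ ≤ 2 * ‖a - b‖ := by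
  unfold pf
  have : b + mf l b - (a + mf l a) = (b - a) + (mf l b - mf l a) := by ring
  rw [this]
  refine (norm_add_le _ _).trans ?_
  rw [norm_sub_rev b a]
  linarith [norm_mf_sub_le hl ha hb]

lemma norm_rf_sub_le {l : ℝ} {a b : ℂ} (hl : 0 < l) (ha : l ≤ ‖a‖) (hb : l ≤ ‖b‖) :
    ‖rf l b - rf l a‖ ≤ 2 * ‖a - b‖ := by
  unfold rf
  have : Complex.I * (b - mf l b) - Complex.I * (a - mf l a) =
    Complex.I * ((b - a) - (mf l b - mf l a)) := by ring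
  rw [this, norm_mul, Complex.norm_I, one_mul]
  refine (norm_sub_le _ _).trans ?_
  rw [norm_sub_rev b a]
  linarith [norm_mf_sub_le hl ha hb]

lemma norm_rf_le {l : ℝ} {a : ℂ} (hl : 0 < l) (ha : l ≤ ‖a‖) : ‖rf l a‖ ≤ ‖a‖ := by
  rw [norm_rf hl ha]
  have : 0 ≤ l ^ 2 / ‖a‖ := by positivity
  linarith

lemma norm_pf_le {l : ℝ} {a : ℂ} (hl : 0 < l) (ha : l ≤ ‖a‖) : ‖pf l a‖ ≤ 2 * ‖a‖ := by
  have hap : 0 < ‖a‖ := hl.trans_le ha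
  unfold pf
  refine (norm_add_le _ _).trans ?_
  rw [norm_mf hl ha]
  have : l ^ 2 / ‖a‖ ≤ ‖a‖ := by rw [div_le_iff₀ hap]; nlinarith
  linarith

lemma measurable_mf (l : ℝ) : Measurable (mf l) := by unfold mf; fun_prop

lemma measurable_pf (l : ℝ) : Measurable (pf l) := by
  unfold pf; exact measurable_id.add (measurable_mf l)

lemma measurable_rf (l : ℝ) : Measurable (rf l) := by
  unfold rf; exact (measurable_id.sub (measurable_mf l)).const_mul _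

lemma measurable_Pf (l : ℝ) : Measurable fun p : ℂ × ℂ => Pf l p.1 p.2 := by
  unfold Pf; fun_prop

lemma Pf_le_sq {l : ℝ} {a b : ℂ} : Pf l a b ≤ ‖a - b‖ ^ 2 := by
  unfold Pf
  have : 0 ≤ l ^ 4 / (‖a‖ ^ 2 * ‖b‖ ^ 2) := by positivity
  nlinarith [sq_nonneg ‖a - b‖]

end Pool.Agent.H.MP_09f213_an
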