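import Pool.Agent.H.MP_09f213_an.MaxP

/-! The Courant-Lebesgue oscillation estimate. -/

open MeasureTheory Set Filter Topology Metric
open scoped ContDiff ENNReal NNReal Real

namespace Pool.Agent.H.MP_09f213_an

/-- Cauchy-Schwarz on an interval. -/
lemma sq_integral_le {g' : ℝ → ℝ} (hc : Continuous g') {x y : ℝ} (hxy : x ≤ y) :
    (∫ t in x..y, g' t) ^ 2 ≤ (y - x) * ∫ t in x..y, g' t ^ 2 := by
  rcases hxy.eq_or_lt with h | h
  · subst h; simp
  set m := ∫ t in x..y, g' t with hm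
  set q := ∫ t in x..y, g' t ^ 2 with hq
  have h0 : 0 ≤ ∫ t in x..y, ((y - x) * g' t - m) ^ 2 :=
    intervalIntegral.integral_nonneg hxy (fun t _ => sq_nonneg _)
  have hi1 : IntervalIntegrable (fun t => (y - x) ^ 2 * g' t ^ 2) volume x y :=
    (continuous_const.mul (hc.pow 2)).intervalIntegrable _ _
  have hi2 : IntervalIntegrable (fun t => 2 * (y - x) * m * g' t) volume x y :=
    (continuous_const.mul hc).intervalIntegrable _ _
  have hi3 : IntervalIntegrable (fun _ : ℝ => m ^ 2) volume x y :=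
    continuous_const.intervalIntegrable _ _
  have h1 : ∫ t in x..y, ((y - x) * g' t - m) ^ 2 =
      (y - x) ^ 2 * q - 2 * (y - x) * m * m + (y - x) * m ^ 2 := by
    have : (fun t => ((y - x) * g' t - m) ^ 2) =
        fun t => (y - x) ^ 2 * g' t ^ 2 - 2 * (y - x) * m * g' t + m ^ 2 := by
      funext t; ring
    rw [this, intervalIntegral.integral_add (hi1.sub hi2) hi3, intervalIntegral.integral_sub hi1 hi2,
      intervalIntegral.integral_const_mul, intervalIntegral.integral_const_mul,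
      intervalIntegral.integral_const]
    simp [hq, hm]
  rw [h1] at h0
  have h2 : 0 ≤ (y - x) * ((y - x) * q - m ^ 2) := by nlinarith
  have h3 : 0 < y - x := by linarith
  nlinarith [(mul_nonneg_iff_of_pos_left h3).1 h2]

lemma sq_sub_le_integral {g g' : ℝ → ℝ} (hg : ∀ x, HasDerivAt g (g' x) x) (hc : Continuous g')
    {a b x y : ℝ} (hx : x ∈ Icc a b) (hy : y ∈ Icc a b) :
    (g x - g y) ^ 2 ≤ (b - a) * ∫ t in a..b, g' t ^ 2 := by
  wlog hxy : x ≤ y generalizing x y
  · have := this hy hx (le_of_not_ge hxy)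
    nlinarith
  have h1 : ∫ t in x..y, g' t = g y - g x :=
    intervalIntegral.integral_eq_sub_of_hasDerivAt (fun t _ => hg t) (hc.intervalIntegrable _ _)
  have h2 := sq_integral_le hc hxy
  rw [h1] at h2
  have h3 : ∫ t in x..y, g' t ^ 2 ≤ ∫ t in a..b, g' t ^ 2 :=
    intervalIntegral.integral_mono_interval hx.1 hxy hy.2
      (.of_forall fun t => sq_nonneg _) ((hc.pow 2).intervalIntegrable _ _)
  have h4 : 0 ≤ ∫ t in x..y, g' t ^ 2 :=
    intervalIntegral.integral_nonneg hxy (fun t _ => sq_nonneg _)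
  calc (g x - g y) ^ 2 = (g y - g x) ^ 2 := by ring
    _ ≤ (y - x) * ∫ t in x..y, g' t ^ 2 := h2
    _ ≤ (b - a) * ∫ t in a..b, g' t ^ 2 :=
      mul_le_mul (by linarith [hx.1, hy.2]) h3 h4 (by linarith [hx.1, hy.2])

/-- The density `k(U)² |∇ U|²`. -/
noncomputable def Wd (U : ℂ → ℝ) (z : ℂ) : ℝ :=
  kf (U z) ^ 2 * (fderiv ℝ U z 1 ^ 2 + fderiv ℝ U z Complex.I ^ 2)

lemma Wd_nonneg (U : ℂ → ℝ) (z : ℂ) : 0 ≤ Wd U z := by unfold Wd; positivity

lemma Wd_continuous {U : ℂ → ℝ} (hU : ContDiff ℝ 1 U) : Continuous (Wd U) := by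
  unfold Wd
  have h1 : ∀ e : ℂ, Continuous fun z => fderiv ℝ U z e := fun e =>
    (hU.continuous_fderiv (by norm_num)).clm_apply continuous_const
  exact ((kf_continuous.comp hU.continuous).pow 2).mul (((h1 _).pow 2).add ((h1 _).pow 2))

lemma arc_estimate {U : ℂ → ℝ} (hU : ContDiff ℝ 1 U) {ρ : ℝ} {z z' : ℂ}
    (hz : ‖z‖ = ρ) (hz' : ‖z'‖ = ρ) :
    (Tf (U z) - Tf (U z')) ^ 2 ≤ 2 * π * (ρ ^ 2 * ∫ θ in (-π)..π,
      Wd U (ρ * Complex.exp (θ * Complex.I))) := by
  set c : ℝ → ℂ := fun θ => ρ * Complex.exp (θ * Complex.I) with hcdef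
  have hcc : Continuous c := by simp only [hcdef]; fun_prop
  have hcd : ∀ θ, HasDerivAt c (c θ * Complex.I) θ := by
    intro θ
    have h1 : HasDerivAt (fun θ : ℝ => ((θ : ℂ) * Complex.I)) Complex.I θ := by
      simpa using (Complex.ofRealCLM.hasDerivAt (x := θ)).mul_const Complex.I
    have h2 := (h1.cexp).const_mul (ρ : ℂ)
    simpa [hcdef, mul_assoc] using h2
  have hcn : ∀ θ, ‖c θ‖ ^ 2 = ρ ^ 2 := by
    intro θ
    simp only [hcdef, norm_mul, Complex.norm_exp_ofReal_mul_I, mul_one]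
    simp
  have hUd : ∀ z, HasFDerivAt U (fderiv ℝ U z) z := fun z =>
    (hU.differentiable (by norm_num) z).hasFDerivAt
  have hg : ∀ θ, HasDerivAt (fun θ => Tf (U (c θ)))
      (kf (U (c θ)) * fderiv ℝ U (c θ) (c θ * Complex.I)) θ := by
    intro θ
    have h1 : HasDerivAt (fun θ => U (c θ)) (fderiv ℝ U (c θ) (c θ * Complex.I)) θ :=
      (hUd (c θ)).comp_hasDerivAt θ (hcd θ)
    exact (hasDerivAt_Tf (U (c θ))).comp θ h1
  have hgc : Continuous fun θ => kf (U (c θ)) * fderiv ℝ U (c θ) (c θ * Complex.I) := by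
    refine (kf_continuous.comp (hU.continuous.comp hcc)).mul ?_
    exact ((hU.continuous_fderiv (by norm_num)).comp hcc).clm_apply (hcc.mul continuous_const)
  have hez : ∀ w : ℂ, ‖w‖ = ρ → c (Complex.arg w) = w := by
    intro w hw
    simp only [hcdef, ← hw]
    exact Complex.norm_mul_exp_arg_mul_I w
  have hmem : ∀ w : ℂ, Complex.arg w ∈ Icc (-π) π := fun w =>
    ⟨(Complex.neg_pi_lt_arg w).le, Complex.arg_le_pi w⟩
  have h1 := sq_sub_le_integral hg hgc (hmem z) (hmem z')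
  rw [hez z hz, hez z' hz'] at h1
  refine h1.trans ?_
  have hpi : π - -π = 2 * π := by ring
  rw [hpi]
  refine mul_le_mul_of_nonneg_left ?_ (by positivity)
  rw [← intervalIntegral.integral_const_mul]
  refine intervalIntegral.integral_mono_on (by linarith [Real.pi_pos])
    ((hgc.pow 2).intervalIntegrable _ _)
    ((continuous_const.mul ((Wd_continuous hU).comp hcc)).intervalIntegrable _ _) ?_
  intro θ _
  rw [← hcn θ]
  unfold Wd
  change _ ≤ ‖c θ‖ ^ 2 * (kf (U (c θ)) ^ 2 * (fderiv ℝ U (c θ) 1 ^ 2 +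
    fderiv ℝ U (c θ) Complex.I ^ 2))
  set L := fderiv ℝ U (c θ)
  set w := c θ
  have hL : L (w * Complex.I) = -w.im * L 1 + w.re * L Complex.I := by
    have : w * Complex.I = (-w.im) • (1 : ℂ) + w.re • Complex.I := by
      apply Complex.ext <;> simp
    rw [this, map_add, map_smul, map_smul]; simp
  rw [hL, mul_pow, ← Complex.normSq_eq_norm_sq, Complex.normSq_apply]
  have : (-w.im * L 1 + w.re * L Complex.I) ^ 2 ≤
      (w.re * w.re + w.im * w.im) * (L 1 ^ 2 + L Complex.I ^ 2) := by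
    nlinarith [sq_nonneg (w.re * L 1 + w.im * L Complex.I)]
  have h2 := mul_le_mul_of_nonneg_left this (sq_nonneg (kf (U w)))
  linarith


lemma exp_eq_polar (ρ θ : ℝ) : Complex.polarCoord.symm (ρ, θ) =
    ρ * Complex.exp (θ * Complex.I) := by
  rw [Complex.polarCoord_symm_apply, Complex.exp_mul_I]
  push_cast
  rfl

lemma circle_integral_continuous {W : ℂ → ℝ} (hW : Continuous W) :
    Continuous fun ρ : ℝ => ∫ θ in (-π)..π, W (ρ * Complex.exp (θ * Complex.I)) := by
  apply intervalIntegral.continuous_parametric_intervalIntegral_of_continuous'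
  fun_prop

lemma lintegral_polar_le {W : ℂ → ℝ} (hW : Continuous W) (hW0 : ∀ z, 0 ≤ W z) {ρ0 R : ℝ}
    (hρ0 : 0 < ρ0) :
    ∫⁻ ρ in Ioo ρ0 R, ENNReal.ofReal (ρ * ∫ θ in (-π)..π, W (ρ * Complex.exp (θ * Complex.I))) ≤
      ∫⁻ z in ball (0 : ℂ) R, ENNReal.ofReal (W z) := by
  rw [← lintegral_indicator measurableSet_ball, ← Complex.lintegral_comp_polarCoord_symm]
  have hsub : Ioo ρ0 R ×ˢ Ioo (-π) π ⊆ polarCoord.target := by
    rintro ⟨ρ, θ⟩ ⟨h1, h2⟩
    exact ⟨hρ0.trans h1.1, h2⟩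
  refine le_trans ?_ (lintegral_mono_set hsub)
  have hms : MeasurableSet (Ioo ρ0 R ×ˢ Ioo (-π) π) := measurableSet_Ioo.prod measurableSet_Ioo
  have heq : ∫⁻ p in Ioo ρ0 R ×ˢ Ioo (-π) π, ENNReal.ofReal p.1 •
      (ball (0 : ℂ) R).indicator (fun z => ENNReal.ofReal (W z)) (Complex.polarCoord.symm p) =
      ∫⁻ p in Ioo ρ0 R ×ˢ Ioo (-π) π, ENNReal.ofReal p.1 *
        ENNReal.ofReal (W (p.1 * Complex.exp (p.2 * Complex.I))) := by
    refine setLIntegral_congr_fun hms ?_
    rintro ⟨ρ, θ⟩ ⟨h1, h2⟩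
    have hb : Complex.polarCoord.symm (ρ, θ) ∈ ball (0 : ℂ) R := by
      rw [mem_ball_zero_iff, Complex.norm_polarCoord_symm, abs_of_pos (hρ0.trans h1.1)]
      exact h1.2
    simp only [smul_eq_mul]
    rw [indicator_of_mem hb, exp_eq_polar]
  rw [heq]
  have hcont : Continuous fun p : ℝ × ℝ => W (p.1 * Complex.exp (p.2 * Complex.I)) := by fun_prop
  have hmeas : Measurable fun p : ℝ × ℝ => ENNReal.ofReal p.1 *
      ENNReal.ofReal (W (p.1 * Complex.exp (p.2 * Complex.I))) :=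
    (measurable_fst.ennreal_ofReal).mul hcont.measurable.ennreal_ofReal
  rw [Measure.volume_eq_prod, setLIntegral_prod _ hmeas.aemeasurable]
  refine setLIntegral_mono' measurableSet_Ioo ?_
  intro ρ hρ
  have hρp : 0 < ρ := hρ0.trans hρ.1
  have hc2 : Continuous fun θ : ℝ => W (ρ * Complex.exp (θ * Complex.I)) := by fun_prop
  change _ ≤ ∫⁻ (θ : ℝ) in Ioo (-π) π,
      ENNReal.ofReal ρ * ENNReal.ofReal (W (ρ * Complex.exp (θ * Complex.I)))
  rw [intervalIntegral.integral_of_le (by linarith [Real.pi_pos]), integral_Ioc_eq_integral_Ioo,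
    ENNReal.ofReal_mul hρp.le, ofReal_integral_eq_lintegral_ofReal, lintegral_const_mul]
  · exact hc2.measurable.ennreal_ofReal
  · exact (hc2.integrableOn_Icc).mono_set Ioo_subset_Icc_self
  · exact .of_forall fun θ => hW0 _

/-- Courant-Lebesgue estimate. -/
theorem courant_lebesgue {R : ℝ} {V : ℕ → ℂ → ℂ} {v vx vy : ℂ → ℂ} (hA : Approx R V v vx vy)
    (hae : ∀ᵐ z ∂(volume.restrict (ball (0 : ℂ) R)), Tendsto (fun n => V n z) atTop (𝓝 (v z)))
    (hdet : ∀ᵐ z ∂(volume.restrict (ball (0 : ℂ) R)),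
      0 ≤ (vx z).re * (vy z).im - (vy z).re * (vx z).im)
    (hdet0 : ∀ᵐ z ∂(volume.restrict (ball (0 : ℂ) R)),
      (vx z).re * (vy z).im - (vy z).re * (vx z).im = 0 → vy z = 0)
    {ρ0 a b : ℝ} (hρ0 : 0 < ρ0) (hρR : ρ0 < R) (hab : a < b)
    (hb : ¬ ∀ᵐ z ∂(volume.restrict (ball (0 : ℂ) ρ0)), (v z).re ≤ b)
    (ha : ¬ ∀ᵐ z ∂(volume.restrict (ball (0 : ℂ) ρ0)), a ≤ (v z).re) :
    (Tf b - Tf a) ^ 2 * Real.log (R / ρ0) ≤
      2 * π * ∫ z in ball (0 : ℂ) R, kf (v z).re ^ 2 * ((vx z).re ^ 2 + (vy z).re ^ 2) := by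
  have hUs : ∀ n, ContDiff ℝ 1 (fun z => (V n z).re) := fun n =>
    (Complex.reCLM.contDiff.comp (hA.smooth n)).of_le (by norm_num)
  set U : ℕ → ℂ → ℝ := fun n z => (V n z).re with hUdef
  set D := (Tf b - Tf a) ^ 2 with hD
  -- level sets reach every circle
  have hsub : ∀ ρ, ρ0 < ρ → ρ < R → (∀ᶠ n in atTop, ∃ z ∈ sphere (0 : ℂ) ρ, b ≤ (V n z).re) := by
    intro ρ h1 h2
    by_contra hcon
    rw [not_eventually] at hcon
    obtain ⟨φ, hφ, hφ2⟩ := extraction_of_frequently_atTop hcon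
    have hae2 : ∀ᵐ z ∂(volume.restrict (ball (0 : ℂ) R)),
        Tendsto (fun n => V (φ n) z) atTop (𝓝 (v z)) := by
      filter_upwards [hae] with z hz
      exact hz.comp hφ.tendsto_atTop
    have := max_principle (hA.comp hφ.tendsto_atTop) hae2 hdet hdet0 h2 (b := b)
      (fun n z hz => by
        have := hφ2 n
        push Not at this
        exact this z hz)
    exact hb (ae_mono (Measure.restrict_mono (ball_subset_ball h1.le) le_rfl) this)
  have hsub2 : ∀ ρ, ρ0 < ρ → ρ < R → (∀ᶠ n in atTop, ∃ z ∈ sphere (0 : ℂ) ρ, (V n z).re ≤ a) := by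
    intro ρ h1 h2
    by_contra hcon
    rw [not_eventually] at hcon
    obtain ⟨φ, hφ, hφ2⟩ := extraction_of_frequently_atTop hcon
    have hae2 : ∀ᵐ z ∂(volume.restrict (ball (0 : ℂ) R)),
        Tendsto (fun n => (-1 : ℂ) * V (φ n) z) atTop (𝓝 ((-1 : ℂ) * v z)) := by
      filter_upwards [hae] with z hz
      exact (hz.comp hφ.tendsto_atTop).const_mul (-1 : ℂ)
    have := max_principle ((hA.comp hφ.tendsto_atTop).const_mul (-1 : ℂ)) hae2
      (by
        filter_upwards [hdet] with z hz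
        simpa using hz)
      (by
        filter_upwards [hdet0] with z hz h
        rw [hz (by simpa using h)]
        simp) h2 (b := -a)
      (fun n z hz => by
        have := hφ2 n
        push Not at this
        have := this z hz
        simpa using this)
    refine ha ?_
    filter_upwards [ae_mono (Measure.restrict_mono (ball_subset_ball h1.le) le_rfl) this] with z hz
    simp at hz
    exact hz
  set I : ℕ → ℝ → ℝ := fun n ρ => ρ * ∫ θ in (-π)..π,
    Wd (U n) (ρ * Complex.exp (θ * Complex.I)) with hI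
  have hIc : ∀ n, Continuous (I n) := fun n =>
    continuous_id.mul (circle_integral_continuous (Wd_continuous (hUs n)))
  have hT : 0 ≤ Tf b - Tf a := sub_nonneg.2 (Tf_mono hab.le)
  have hpt : ∀ ρ ∈ Ioo ρ0 R, ∀ᶠ n in atTop, D / ρ ≤ 2 * π * I n ρ := by
    rintro ρ ⟨h1, h2⟩
    have hρ : 0 < ρ := hρ0.trans h1
    filter_upwards [hsub ρ h1 h2, hsub2 ρ h1 h2] with n hn1 hn2
    obtain ⟨z, hz, hzb⟩ := hn1
    obtain ⟨z', hz', hza⟩ := hn2
    have h3 := arc_estimate (hUs n) (mem_sphere_zero_iff_norm.1 hz) (mem_sphere_zero_iff_norm.1 hz')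
    have h4 : D ≤ (Tf (V n z).re - Tf (V n z').re) ^ 2 := by
      have h5 := Tf_mono hzb
      have h6 := Tf_mono hza
      rw [hD]
      exact pow_le_pow_left₀ hT (by linarith) 2
    have h5 := h4.trans h3
    rw [div_le_iff₀ hρ]
    calc D ≤ _ := h5
      _ = 2 * π * I n ρ * ρ := by simp only [hI, hUdef]; ring
  -- Fatou
  have hfat : ∫⁻ ρ in Ioo ρ0 R, ENNReal.ofReal (D / ρ) ≤
      liminf (fun n => ∫⁻ ρ in Ioo ρ0 R, ENNReal.ofReal (2 * π * I n ρ)) atTop := by
    refine le_trans ?_ (lintegral_liminf_le' (fun n => ((continuous_const.mul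
      (hIc n)).measurable.ennreal_ofReal).aemeasurable))
    refine setLIntegral_mono' measurableSet_Ioo ?_
    intro ρ hρ
    refine le_liminf_of_le ?_ ?_
    · isBoundedDefault
    · filter_upwards [hpt ρ hρ] with n hn
      exact ENNReal.ofReal_le_ofReal hn
  have hWint : ∀ n, IntegrableOn (Wd (U n)) (ball (0 : ℂ) R) := fun n =>
    integrableOn_ball_of_continuous (Wd_continuous (hUs n)) R
  have hup : ∀ n, ∫⁻ ρ in Ioo ρ0 R, ENNReal.ofReal (2 * π * I n ρ) ≤
      ENNReal.ofReal (2 * π * ∫ z in ball (0 : ℂ) R, Wd (U n) z) := by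
    intro n
    have h1 : ∀ ρ, ENNReal.ofReal (2 * π * I n ρ) =
        ENNReal.ofReal (2 * π) * ENNReal.ofReal (I n ρ) := fun ρ =>
      ENNReal.ofReal_mul (by positivity)
    simp only [h1]
    rw [lintegral_const_mul _ (hIc n).measurable.ennreal_ofReal,
      ENNReal.ofReal_mul (show (0 : ℝ) ≤ 2 * π by positivity),
      ofReal_integral_eq_lintegral_ofReal (hWint n) (.of_forall (Wd_nonneg _))]
    gcongr
    exact lintegral_polar_le (Wd_continuous (hUs n)) (Wd_nonneg _) hρ0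
  -- convergence of the energies
  have hUd : ∀ n z, DifferentiableAt ℝ (V n) z := fun n z =>
    (hA.smooth n).differentiable (by norm_num) z
  have hcd : ∀ n (e : ℂ), Continuous (fun z => fderiv ℝ (V n) z e) := fun n e =>
    ((hA.smooth n).continuous_fderiv (by norm_num)).clm_apply continuous_const
  have hck : ∀ n, Continuous (fun z => kf ((V n z).re)) := fun n =>
    kf_continuous.comp (hUs n).continuous
  have hkm : ∀ n, AEStronglyMeasurable (fun z => kf ((V n z).re))
    (volume.restrict (ball (0 : ℂ) R)) := fun n => (hck n).aestronglyMeasurable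
  have hkconv : ∀ᵐ z ∂(volume.restrict (ball (0 : ℂ) R)),
      Tendsto (fun n => kf ((V n z).re)) atTop (𝓝 (kf (v z).re)) := by
    filter_upwards [hae] with z hz
    exact (kf_continuous.tendsto _).comp ((Complex.continuous_re.tendsto _).comp hz)
  have hkm' : AEStronglyMeasurable (fun z => kf ((v z).re)) (volume.restrict (ball (0 : ℂ) R)) :=
    aestronglyMeasurable_of_tendsto_ae atTop hkm hkconv
  have key : ∀ (e : ℂ) (w : ℂ → ℂ), MemLp w 2 (volume.restrict (ball (0 : ℂ) R)) →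
      L2Tendsto (volume.restrict (ball (0 : ℂ) R)) (fun n z => fderiv ℝ (V n) z e) w →
      Tendsto (fun n => ∫ z in ball (0 : ℂ) R, (kf (V n z).re * (fderiv ℝ (V n) z e).re) *
        (kf (V n z).re * (fderiv ℝ (V n) z e).re)) atTop
        (𝓝 (∫ z in ball (0 : ℂ) R, (kf (v z).re * (w z).re) * (kf (v z).re * (w z).re))) ∧
      Integrable (fun z => (kf (v z).re * (w z).re) * (kf (v z).re * (w z).re))
        (volume.restrict (ball (0 : ℂ) R)) := by
    intro e w hw hc
    have hxm : ∀ n, AEStronglyMeasurable (fun z => (fderiv ℝ (V n) z e).re)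
      (volume.restrict (ball (0 : ℂ) R)) := fun n =>
        (Complex.continuous_re.comp (hcd n e)).aestronglyMeasurable
    have c1 := hc.re.bdd_mul hxm hw.re hkm (fun n x => abs_kf_le_one _) hkconv
    have m1 : MemLp (fun z => kf ((v z).re) * (w z).re) 2 (volume.restrict (ball (0 : ℂ) R)) :=
      hw.re.mono (hkm'.mul hw.re.1) (.of_forall fun z => by
        rw [norm_mul]
        exact mul_le_of_le_one_left (norm_nonneg _) (by simpa using abs_kf_le_one _))
    exact ⟨c1.integral_mul c1 (fun n => (hkm n).mul (hxm n)) (fun n => (hkm n).mul (hxm n)) m1 m1,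
      m1.integrable_mul m1⟩
  obtain ⟨k1, j1⟩ := key 1 vx hA.mx hA.cx
  obtain ⟨k2, j2⟩ := key Complex.I vy hA.my hA.cy
  have hE : Tendsto (fun n => ∫ z in ball (0 : ℂ) R, Wd (U n) z) atTop
      (𝓝 (∫ z in ball (0 : ℂ) R, kf (v z).re ^ 2 * ((vx z).re ^ 2 + (vy z).re ^ 2))) := by
    have h1 := k1.add k2
    rw [← integral_add j1 j2] at h1
    have h2 : (∫ z in ball (0 : ℂ) R, (kf (v z).re * (vx z).re) * (kf (v z).re * (vx z).re) +
        (kf (v z).re * (vy z).re) * (kf (v z).re * (vy z).re)) =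
        ∫ z in ball (0 : ℂ) R, kf (v z).re ^ 2 * ((vx z).re ^ 2 + (vy z).re ^ 2) := by
      congr 1; funext z; ring
    rw [h2] at h1
    refine h1.congr (fun n => ?_)
    rw [← integral_add]
    · congr 1; funext z
      unfold Wd
      simp only [hUdef]
      rw [fderiv_re (hUd n z), fderiv_re (hUd n z)]
      ring
    · exact integrableOn_ball_of_continuous (((hck n).mul (Complex.continuous_re.comp (hcd n 1))).mul
        ((hck n).mul (Complex.continuous_re.comp (hcd n 1)))) R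
    · exact integrableOn_ball_of_continuous (((hck n).mul (Complex.continuous_re.comp (hcd n _))).mul
        ((hck n).mul (Complex.continuous_re.comp (hcd n _)))) R
  have hE2 : Tendsto (fun n => ENNReal.ofReal (2 * π * ∫ z in ball (0 : ℂ) R, Wd (U n) z)) atTop
      (𝓝 (ENNReal.ofReal (2 * π *
        ∫ z in ball (0 : ℂ) R, kf (v z).re ^ 2 * ((vx z).re ^ 2 + (vy z).re ^ 2)))) :=
    (ENNReal.continuous_ofReal.tendsto _).comp (hE.const_mul _)
  have hfin : ∫⁻ ρ in Ioo ρ0 R, ENNReal.ofReal (D / ρ) ≤ ENNReal.ofReal (2 * π *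
        ∫ z in ball (0 : ℂ) R, kf (v z).re ^ 2 * ((vx z).re ^ 2 + (vy z).re ^ 2)) := by
    refine hfat.trans ?_
    rw [← hE2.liminf_eq]
    exact liminf_le_liminf (.of_forall hup)
  have hleft : ∫⁻ ρ in Ioo ρ0 R, ENNReal.ofReal (D / ρ) =
      ENNReal.ofReal (D * Real.log (R / ρ0)) := by
    have h0 : (0 : ℝ) ∉ uIcc ρ0 R := by
      rw [uIcc_of_le hρR.le]; intro h; exact absurd h.1 (not_le.2 hρ0)
    rw [← ofReal_integral_eq_lintegral_ofReal]
    · rw [← integral_Ioc_eq_integral_Ioo, ← intervalIntegral.integral_of_le hρR.le]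
      congr 1
      have : (fun ρ => D / ρ) = fun ρ => D * ρ⁻¹ := by funext ρ; rw [div_eq_mul_inv]
      rw [this, intervalIntegral.integral_const_mul, integral_inv h0]
    · have : ContinuousOn (fun ρ : ℝ => D / ρ) (Icc ρ0 R) :=
        continuousOn_const.div continuousOn_id (fun x hx => (hρ0.trans_le hx.1).ne')
      exact (this.integrableOn_Icc).mono_set Ioo_subset_Icc_self
    · filter_upwards [ae_restrict_mem measurableSet_Ioo] with ρ hρ
      exact div_nonneg (sq_nonneg _) (hρ0.trans hρ.1).le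
  rw [hleft] at hfin
  have hnn : 0 ≤ 2 * π * ∫ z in ball (0 : ℂ) R, kf (v z).re ^ 2 *
      ((vx z).re ^ 2 + (vy z).re ^ 2) := by
    refine mul_nonneg (by positivity) (integral_nonneg fun z => by positivity)
  exact (ENNReal.ofReal_le_ofReal_iff hnn).1 hfin

end Pool.Agent.H.MP_09f213_an
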