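import Pool.Agent.H.MP_09f213_an.Close

/-! A Caccioppoli type estimate near a zero of the Hopf product. -/

open MeasureTheory Set Filter Topology Metric
open scoped ContDiff ENNReal NNReal Real

namespace Pool.Agent.H.MP_09f213_an

lemma det_eq_norms (x y : ℂ) : x.re * y.im - y.re * x.im =
    ‖(x - Complex.I * y) / 2‖ ^ 2 - ‖(x + Complex.I * y) / 2‖ ^ 2 := by
  rw [norm_sq_eq, norm_sq_eq]
  simp
  ring

lemma setIntegral_le_of_bound {s : Set ℂ} {g : ℂ → ℝ} {M : ℝ}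
    (hs : volume s < ⊤) (h : ∀ᵐ z ∂(volume.restrict s), g z ≤ M)
    (hg : IntegrableOn g s) : ∫ z in s, g z ≤ M * volume.real s := by
  have h1 : ∫ z in s, g z ≤ ∫ _z in s, M := by
    refine integral_mono_ae hg ?_ h
    exact integrableOn_const hs.ne
  refine h1.trans (le_of_eq ?_)
  rw [setIntegral_const, smul_eq_mul, mul_comm]

theorem caccioppoli {Ω : Set ℂ} {f fx fy : ℂ → ℂ} {r C C' : ℝ} {a c : ℂ} (hr : 0 < r)
    (hrΩ : ball (0 : ℂ) r ⊆ Ω)
    (hw : ∀ φ : ℂ → ℂ, ContDiff ℝ ((⊤ : ℕ∞) : WithTop ℕ∞) φ → HasCompactSupport φ →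
      tsupport φ ⊆ Ω →
      ((∫ z, f z * fderiv ℝ φ z 1) = - ∫ z, fx z * φ z) ∧
      ((∫ z, f z * fderiv ℝ φ z Complex.I) = - ∫ z, fy z * φ z))
    (hf : IntegrableOn f (ball 0 r))
    (hfx : MemLp fx 2 (volume.restrict (ball 0 r)))
    (hfy : MemLp fy 2 (volume.restrict (ball 0 r))) (hC' : 0 ≤ C')
    (hexp : ∀ᵐ z ∂(volume.restrict (ball (0 : ℂ) r)),
      ‖f z - a - c * z‖ ≤ C' * ‖z‖ ^ (5 / 4 : ℝ))
    (hb : ∀ᵐ z ∂(volume.restrict (ball (0 : ℂ) r)), ‖wzb fx fy z‖ ≤ C * Real.sqrt ‖z‖)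
    {ε : ℝ} (hε : 0 < ε) :
    ∃ s0 : ℝ, 0 < s0 ∧ ∀ s : ℝ, 0 < s → s ≤ s0 →
      ∫⁻ z in ball (0 : ℂ) s, ‖wz fx fy z - c‖ₑ ^ 2 ≤ ENNReal.ofReal (ε * s ^ 2) := by
  obtain ⟨η, G, hη⟩ := exists_cut
  have hG := hη.G0
  set C4 := 24 * π * C ^ 2 + 256 * π * G ^ 2 * C' ^ 2 with hC4
  have hC40 : 0 ≤ C4 := by positivity
  set s0 := min (min 1 (r / 4)) ((ε / (C4 + 1)) ^ 2) with hs0
  refine ⟨s0, by positivity, ?_⟩
  intro s hs hss0
  have hs1 : s ≤ 1 := hss0.trans ((min_le_left _ _).trans (min_le_left _ _))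
  have hsr : 2 * s < r := by
    have : s ≤ r / 4 := hss0.trans ((min_le_left _ _).trans (min_le_right _ _))
    linarith
  have hsqrt : C4 * Real.sqrt s ≤ ε := by
    have h1 : s ≤ (ε / (C4 + 1)) ^ 2 := hss0.trans (min_le_right _ _)
    have h2 := Real.sqrt_le_sqrt h1
    rw [Real.sqrt_sq (by positivity)] at h2
    calc C4 * Real.sqrt s ≤ (C4 + 1) * (ε / (C4 + 1)) :=
          mul_le_mul (by linarith) h2 (Real.sqrt_nonneg _) (by positivity)
      _ = ε := by field_simp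
  set B : Set ℂ := ball (0 : ℂ) (2 * s) with hB
  have hBr : B ⊆ ball (0 : ℂ) r := ball_subset_ball hsr.le
  have hμ : volume.restrict B ≤ volume.restrict (ball (0 : ℂ) r) :=
    Measure.restrict_mono hBr le_rfl
  have hfinr : IsFiniteMeasure (volume.restrict (ball (0 : ℂ) r)) := ⟨by
    rw [Measure.restrict_apply_univ]; exact measure_ball_lt_top⟩
  have hfinB : IsFiniteMeasure (volume.restrict B) := ⟨by
    rw [Measure.restrict_apply_univ]; exact measure_ball_lt_top⟩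
  -- `f` is in `L²`
  have hf2 : MemLp f 2 (volume.restrict (ball (0 : ℂ) r)) := by
    refine MemLp.of_bound hf.aestronglyMeasurable (‖a‖ + ‖c‖ * r + C' * r ^ (5 / 4 : ℝ)) ?_
    filter_upwards [hexp, ae_restrict_mem measurableSet_ball] with z h1 h2
    rw [mem_ball_zero_iff] at h2
    have e1 : f z = a + c * z + (f z - a - c * z) := by ring
    rw [e1]
    refine (norm_add₃_le).trans ?_
    rw [norm_mul]
    have h3 : ‖z‖ ^ (5 / 4 : ℝ) ≤ r ^ (5 / 4 : ℝ) :=
      Real.rpow_le_rpow (norm_nonneg _) h2.le (by norm_num)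
    have h4 := mul_le_mul_of_nonneg_left h2.le (norm_nonneg c)
    have h5 := h1.trans (mul_le_mul_of_nonneg_left h3 hC')
    linarith
  obtain ⟨F, hFs, hFx, hFy, hFf⟩ := exists_approx hw hsr hrΩ hf hfx hfy
  have hFf' := hFf hf2
  -- the approximation data
  have hlin : ContDiff ℝ 2 (fun z : ℂ => a + c * z) := contDiff_const.add
    (contDiff_const.mul contDiff_id)
  have hFs2 : ∀ n, ContDiff ℝ 2 (F n) := fun n => contDiff_infty.1 (hFs n) 2
  have hfd : ∀ n (z e : ℂ), fderiv ℝ (fun z => F n z - (a + c * z)) z e =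
      fderiv ℝ (F n) z e - c * e := by
    intro n z e
    have h1 : HasFDerivAt (F n) (fderiv ℝ (F n) z) z :=
      ((hFs2 n).differentiable (by norm_num) z).hasFDerivAt
    have h2 : HasFDerivAt (fun z : ℂ => a + c * z) (c • ContinuousLinearMap.id ℝ ℂ) z :=
      ((hasFDerivAt_id z).const_mul c).const_add a
    have h3 := (h1.sub h2).fderiv
    have h4 : fderiv ℝ (fun z => F n z - (a + c * z)) z =
      fderiv ℝ (F n) z - c • ContinuousLinearMap.id ℝ ℂ := h3
    rw [h4]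
    simp
  have hcont_cz : Continuous fun z : ℂ => a + c * z := by fun_prop
  have hmlin : MemLp (fun z : ℂ => a + c * z) 2 (volume.restrict B) := by
    refine MemLp.of_bound hcont_cz.aestronglyMeasurable (‖a‖ + ‖c‖ * (2 * s)) ?_
    filter_upwards [ae_restrict_mem measurableSet_ball] with z h2
    rw [mem_ball_zero_iff] at h2
    refine (norm_add_le _ _).trans ?_
    rw [norm_mul]
    have := mul_le_mul_of_nonneg_left h2.le (norm_nonneg c)
    linarith
  have hA : Approx (2 * s) (fun n z => F n z - (a + c * z)) (fun z => f z - (a + c * z))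
      (fun z => fx z - c) (fun z => fy z - c * Complex.I) := by
    refine ⟨fun n => (hFs2 n).sub hlin, (hf2.mono_measure hμ).sub hmlin,
      (hfx.mono_measure hμ).sub (memLp_const c), (hfy.mono_measure hμ).sub (memLp_const _),
      ?_, ?_, ?_⟩
    · refine hFf'.of_le 1 (fun n => .of_forall fun z => ?_)
      have : F n z - (a + c * z) - (f z - (a + c * z)) = F n z - f z := by ring
      rw [this]; simp
    · refine hFx.of_le 1 (fun n => .of_forall fun z => ?_)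
      rw [hfd]
      have : fderiv ℝ (F n) z 1 - c * 1 - (fx z - c) = fderiv ℝ (F n) z 1 - fx z := by ring
      rw [this]; simp
    · refine hFy.of_le 1 (fun n => .of_forall fun z => ?_)
      rw [hfd]
      have : fderiv ℝ (F n) z Complex.I - c * Complex.I - (fy z - c * Complex.I) =
        fderiv ℝ (F n) z Complex.I - fy z := by ring
      rw [this]; simp
  -- the rescaled cutoff
  set χ : ℂ → ℝ := fun z => η ((2 * s)⁻¹ • z) with hχ
  have h2s : 0 < 2 * s := by positivity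
  have hχs : ContDiff ℝ 1 χ := hη.smooth.comp (contDiff_id.const_smul _)
  have hχ0 : ∀ z, 0 ≤ χ z := fun z => hη.nonneg _
  have hχ1 : ∀ z, χ z ≤ 1 := fun z => hη.le_one _
  have hχabs : ∀ z, |χ z| ≤ 1 := fun z => by rw [abs_of_nonneg (hχ0 z)]; exact hχ1 z
  have hχin : ∀ z ∈ ball (0 : ℂ) s, χ z = 1 := by
    intro z hz
    refine hη.one _ ?_
    rw [mem_ball_zero_iff] at *
    rw [norm_smul, Real.norm_eq_abs, abs_of_pos (by positivity), inv_mul_eq_div, div_lt_iff₀ h2s]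
    linarith
  have hχout : ∀ z ∉ ball (0 : ℂ) (2 * s), χ z = 0 := by
    intro z hz
    refine hη.zero _ ?_
    rw [mem_ball_zero_iff, not_lt] at *
    rw [norm_smul, Real.norm_eq_abs, abs_of_pos (by positivity), inv_mul_eq_div, le_div_iff₀ h2s]
    linarith
  have hχd : ∀ z (e : ℂ), ‖e‖ ≤ 1 → |fderiv ℝ χ z e| ≤ G / (2 * s) := by
    intro z e he
    have h1 : HasFDerivAt (fun z : ℂ => (2 * s)⁻¹ • z) ((2 * s)⁻¹ • ContinuousLinearMap.id ℝ ℂ) z :=
      ((2 * s)⁻¹ • ContinuousLinearMap.id ℝ ℂ).hasFDerivAt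
    have h2 := ((hη.smooth.differentiable (by norm_num) ((2 * s)⁻¹ • z)).hasFDerivAt).comp z h1
    have h3 : fderiv ℝ χ z = (fderiv ℝ η ((2 * s)⁻¹ • z)).comp
      ((2 * s)⁻¹ • ContinuousLinearMap.id ℝ ℂ) := h2.fderiv
    rw [h3]
    simp only [ContinuousLinearMap.comp_apply, FunLike.coe_smul, Pi.smul_apply,
      ContinuousLinearMap.coe_id', id_eq, map_smul, smul_eq_mul]
    rw [abs_mul, abs_of_pos (by positivity : (0 : ℝ) < (2 * s)⁻¹), inv_mul_eq_div]
    exact div_le_div_of_nonneg_right (hη.grad _ e he) h2s.le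
  have hψd : ∀ z (e : ℂ), fderiv ℝ (fun z => χ z ^ 2) z e = 2 * χ z * fderiv ℝ χ z e := by
    intro z e
    have h2 := (((hχs.differentiable (by norm_num) z).hasFDerivAt).pow 2).fderiv
    have h3 : fderiv ℝ (fun z => χ z ^ 2) z = (2 • χ z ^ (2 - 1)) • fderiv ℝ χ z := h2
    rw [h3]
    simp
  have hgs : G / (2 * s) = G / s / 2 := by field_simp
  have hψe : ∀ z (e : ℂ), ‖e‖ ≤ 1 → |fderiv ℝ (fun z => χ z ^ 2) z e| ≤ χ z * (G / s) := by
    intro z e he
    rw [hψd, abs_mul, abs_mul, abs_two, abs_of_nonneg (hχ0 z)]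
    have h1 := hχd z e he
    rw [hgs] at h1
    have h2 := mul_le_mul_of_nonneg_left h1 (hχ0 z)
    nlinarith
  have hGs : 0 ≤ G / s := by positivity
  have hid := wedge_limit hA (ψ := fun z => χ z ^ 2) (hχs.pow 2)
    (fun z hz => by rw [hχout z hz]; norm_num) (fun z hz e => by rw [hψd, hχout z hz]; ring)
    (C := 1 + G / s) (fun z => by
      rw [abs_pow]
      have := pow_le_one₀ (abs_nonneg _) (hχabs z) (n := 2)
      linarith)
    (fun z => (hψe z 1 (by simp)).trans (by nlinarith [hχ1 z, hχ0 z]))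
    (fun z => (hψe z Complex.I (by simp)).trans (by nlinarith [hχ1 z, hχ0 z]))
  have hwz : ∀ z, (fx z - c - Complex.I * (fy z - c * Complex.I)) / 2 = wz fx fy z - c := by
    intro z
    unfold wz
    ring_nf
    rw [Complex.I_sq]
    ring
  have hwzb : ∀ z, (fx z - c + Complex.I * (fy z - c * Complex.I)) / 2 = wzb fx fy z := by
    intro z
    unfold wzb
    ring_nf
    rw [Complex.I_sq]
    ring
  simp only [det_eq_norms, hwz, hwzb] at hid
  -- integrability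
  have mA : MemLp (fun z => wz fx fy z - c) 2 (volume.restrict B) := by
    have := (hA.mx.sub (hA.my.const_mul Complex.I)).mul_const (1 / 2 : ℂ)
    refine this.ae_eq (.of_forall fun z => ?_)
    simp only [Pi.sub_apply]
    rw [← hwz z]; ring
  have mB : MemLp (wzb fx fy) 2 (volume.restrict B) := by
    have := (hA.mx.add (hA.my.const_mul Complex.I)).mul_const (1 / 2 : ℂ)
    refine this.ae_eq (.of_forall fun z => ?_)
    simp only [Pi.add_apply]
    rw [← hwzb z]; ring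
  have mV := hA.mv
  have iA : Integrable (fun z => ‖wz fx fy z - c‖ ^ 2) (volume.restrict B) :=
    mA.integrable_norm_pow (by norm_num)
  have iB : Integrable (fun z => ‖wzb fx fy z‖ ^ 2) (volume.restrict B) :=
    mB.integrable_norm_pow (by norm_num)
  have iV : Integrable (fun z => ‖f z - (a + c * z)‖ ^ 2) (volume.restrict B) :=
    mV.integrable_norm_pow (by norm_num)
  have hχm : AEStronglyMeasurable (fun z => χ z ^ 2) (volume.restrict B) :=
    (hχs.continuous.pow 2).aestronglyMeasurable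
  have hχb : ∀ᵐ z ∂(volume.restrict B), ‖χ z ^ 2‖ ≤ 1 := .of_forall fun z => by
    rw [norm_pow, Real.norm_eq_abs]
    exact pow_le_one₀ (abs_nonneg _) (hχabs z)
  have iA' : Integrable (fun z => χ z ^ 2 * ‖wz fx fy z - c‖ ^ 2) (volume.restrict B) :=
    iA.bdd_mul (c := 1) hχm hχb
  have iB' : Integrable (fun z => χ z ^ 2 * ‖wzb fx fy z‖ ^ 2) (volume.restrict B) :=
    iB.bdd_mul (c := 1) hχm hχb
  -- pointwise bound on the right-hand side
  have hpt : ∀ z, -((f z - (a + c * z)).re * (fderiv ℝ (fun z => χ z ^ 2) z 1 *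
        (fy z - c * Complex.I).im - fderiv ℝ (fun z => χ z ^ 2) z Complex.I * (fx z - c).im)) ≤
      1 / 2 * (χ z ^ 2 * ‖wz fx fy z - c‖ ^ 2) + 1 / 2 * (χ z ^ 2 * ‖wzb fx fy z‖ ^ 2) +
        4 * (G / s) ^ 2 * ‖f z - (a + c * z)‖ ^ 2 := by
    intro z
    set A := ‖wz fx fy z - c‖ with hAdef
    set Bn := ‖wzb fx fy z‖ with hBn
    set v := f z - (a + c * z) with hv
    have hA0 : 0 ≤ A := norm_nonneg _
    have hB0 : 0 ≤ Bn := norm_nonneg _
    have hv0 : 0 ≤ ‖v‖ := norm_nonneg _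
    have hvx : ‖fx z - c‖ ≤ A + Bn := by
      have : fx z - c = (wz fx fy z - c) + wzb fx fy z := by
        rw [← hwz z, ← hwzb z]; ring
      rw [this]; exact norm_add_le _ _
    have hvy : ‖fy z - c * Complex.I‖ ≤ A + Bn := by
      have : fy z - c * Complex.I = Complex.I * ((wz fx fy z - c) - wzb fx fy z) := by
        rw [← hwz z, ← hwzb z]
        linear_combination (fy z - c * Complex.I) * Complex.I_mul_I
      rw [this, norm_mul, Complex.norm_I, one_mul]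
      exact norm_sub_le _ _
    have b1 := Complex.abs_re_le_norm v
    have b2 := (Complex.abs_im_le_norm (fy z - c * Complex.I)).trans hvy
    have b3 := (Complex.abs_im_le_norm (fx z - c)).trans hvx
    have b4 := hψe z 1 (by simp)
    have b5 := hψe z Complex.I (by simp)
    have hχz := hχ0 z
    have hkG : 0 ≤ χ z * (G / s) := by positivity
    have b6 : |fderiv ℝ (fun z => χ z ^ 2) z 1 * (fy z - c * Complex.I).im -
        fderiv ℝ (fun z => χ z ^ 2) z Complex.I * (fx z - c).im| ≤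
        2 * (χ z * (G / s)) * (A + Bn) := by
      refine (abs_sub _ _).trans ?_
      rw [abs_mul, abs_mul]
      have c1 := mul_le_mul b4 b2 (abs_nonneg _) hkG
      have c2 := mul_le_mul b5 b3 (abs_nonneg _) hkG
      linarith
    have b7 : -(v.re * (fderiv ℝ (fun z => χ z ^ 2) z 1 * (fy z - c * Complex.I).im -
        fderiv ℝ (fun z => χ z ^ 2) z Complex.I * (fx z - c).im)) ≤
        ‖v‖ * (2 * (χ z * (G / s)) * (A + Bn)) := by
      refine (neg_le_abs _).trans ?_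
      rw [abs_mul]
      exact mul_le_mul b1 b6 (abs_nonneg _) hv0
    refine b7.trans ?_
    nlinarith [sq_nonneg (χ z * A - 2 * ((G / s) * ‖v‖)), sq_nonneg (χ z * Bn - 2 * ((G / s) * ‖v‖))]
  have hmain : ∫ z in B, χ z ^ 2 * (‖wz fx fy z - c‖ ^ 2 - ‖wzb fx fy z‖ ^ 2) ≤
      ∫ z in B, (1 / 2 * (χ z ^ 2 * ‖wz fx fy z - c‖ ^ 2) + 1 / 2 * (χ z ^ 2 * ‖wzb fx fy z‖ ^ 2) +
        4 * (G / s) ^ 2 * ‖f z - (a + c * z)‖ ^ 2) := by
    rw [hid, ← integral_neg]
    have iR : Integrable (fun z => 1 / 2 * (χ z ^ 2 * ‖wz fx fy z - c‖ ^ 2) +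
        1 / 2 * (χ z ^ 2 * ‖wzb fx fy z‖ ^ 2) +
        4 * (G / s) ^ 2 * ‖f z - (a + c * z)‖ ^ 2) (volume.restrict B) :=
      ((iA'.const_mul _).add (iB'.const_mul _)).add (iV.const_mul _)
    by_cases hint : Integrable (fun z => -((f z - (a + c * z)).re *
        (fderiv ℝ (fun z => χ z ^ 2) z 1 * (fy z - c * Complex.I).im -
          fderiv ℝ (fun z => χ z ^ 2) z Complex.I * (fx z - c).im))) (volume.restrict B)
    · exact integral_mono hint iR hpt
    · rw [integral_undef hint]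
      refine integral_nonneg fun z => ?_
      simp only [Pi.zero_apply]
      positivity
  have e1 : ∫ z in B, χ z ^ 2 * (‖wz fx fy z - c‖ ^ 2 - ‖wzb fx fy z‖ ^ 2) =
      (∫ z in B, χ z ^ 2 * ‖wz fx fy z - c‖ ^ 2) - ∫ z in B, χ z ^ 2 * ‖wzb fx fy z‖ ^ 2 := by
    rw [← integral_sub iA' iB']
    congr 1; funext z; ring
  have e2 : ∫ z in B, (1 / 2 * (χ z ^ 2 * ‖wz fx fy z - c‖ ^ 2) +
      1 / 2 * (χ z ^ 2 * ‖wzb fx fy z‖ ^ 2) + 4 * (G / s) ^ 2 * ‖f z - (a + c * z)‖ ^ 2) =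
      1 / 2 * (∫ z in B, χ z ^ 2 * ‖wz fx fy z - c‖ ^ 2) +
      1 / 2 * (∫ z in B, χ z ^ 2 * ‖wzb fx fy z‖ ^ 2) +
      4 * (G / s) ^ 2 * ∫ z in B, ‖f z - (a + c * z)‖ ^ 2 := by
    have k1 : Integrable (fun z => 1 / 2 * (χ z ^ 2 * ‖wz fx fy z - c‖ ^ 2))
        (volume.restrict B) := iA'.const_mul _
    have k2 : Integrable (fun z => 1 / 2 * (χ z ^ 2 * ‖wzb fx fy z‖ ^ 2))
        (volume.restrict B) := iB'.const_mul _
    have k3 : Integrable (fun z => 4 * (G / s) ^ 2 * ‖f z - (a + c * z)‖ ^ 2)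
        (volume.restrict B) := iV.const_mul _
    have k4 : Integrable (fun z => 1 / 2 * (χ z ^ 2 * ‖wz fx fy z - c‖ ^ 2) +
        1 / 2 * (χ z ^ 2 * ‖wzb fx fy z‖ ^ 2)) (volume.restrict B) := k1.add k2
    rw [integral_add k4 k3, integral_add k1 k2, integral_const_mul, integral_const_mul,
      integral_const_mul]
  rw [e1, e2] at hmain
  have hvol : volume.real B = π * (2 * s) ^ 2 := by
    rw [hB, Measure.real, Complex.volume_ball, ENNReal.toReal_mul, ENNReal.toReal_pow,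
      ENNReal.toReal_ofReal h2s.le]
    simp only [ENNReal.coe_toReal, NNReal.coe_real_pi]
    ring
  have hBfin : volume B < ⊤ := measure_ball_lt_top
  have bB : ∫ z in B, χ z ^ 2 * ‖wzb fx fy z‖ ^ 2 ≤ (C ^ 2 * (2 * s)) * (π * (2 * s) ^ 2) := by
    rw [← hvol]
    refine setIntegral_le_of_bound hBfin ?_ iB'
    filter_upwards [ae_mono hμ hb, ae_restrict_mem measurableSet_ball] with z h1 h2
    rw [mem_ball_zero_iff] at h2
    have h3 : ‖wzb fx fy z‖ ^ 2 ≤ C ^ 2 * (2 * s) := by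
      have h4 := pow_le_pow_left₀ (norm_nonneg _) h1 2
      rw [mul_pow, Real.sq_sqrt (norm_nonneg z)] at h4
      exact h4.trans (mul_le_mul_of_nonneg_left h2.le (sq_nonneg _))
    calc χ z ^ 2 * ‖wzb fx fy z‖ ^ 2 ≤ 1 * ‖wzb fx fy z‖ ^ 2 :=
          mul_le_mul_of_nonneg_right (pow_le_one₀ (hχ0 z) (hχ1 z)) (sq_nonneg _)
      _ ≤ _ := by rw [one_mul]; exact h3
  have hrp : ((2 * s) ^ (5 / 4 : ℝ)) ^ 2 = (2 * s) ^ 2 * Real.sqrt (2 * s) := by
    rw [← Real.rpow_natCast, ← Real.rpow_mul h2s.le, Real.sqrt_eq_rpow, ← Real.rpow_natCast,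
      ← Real.rpow_add h2s]
    norm_num
  have bV : ∫ z in B, ‖f z - (a + c * z)‖ ^ 2 ≤
      (C' ^ 2 * ((2 * s) ^ 2 * Real.sqrt (2 * s))) * (π * (2 * s) ^ 2) := by
    rw [← hvol]
    refine setIntegral_le_of_bound hBfin ?_ iV
    filter_upwards [ae_mono hμ hexp, ae_restrict_mem measurableSet_ball] with z h1 h2
    rw [mem_ball_zero_iff] at h2
    have h3 : ‖z‖ ^ (5 / 4 : ℝ) ≤ (2 * s) ^ (5 / 4 : ℝ) :=
      Real.rpow_le_rpow (norm_nonneg _) h2.le (by norm_num)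
    have h4 : ‖f z - (a + c * z)‖ ≤ C' * (2 * s) ^ (5 / 4 : ℝ) := by
      have : f z - (a + c * z) = f z - a - c * z := by ring
      rw [this]
      exact h1.trans (mul_le_mul_of_nonneg_left h3 hC')
    have h5 := pow_le_pow_left₀ (norm_nonneg _) h4 2
    rw [mul_pow, hrp] at h5
    exact h5
  have hV0 : 0 ≤ ∫ z in B, ‖f z - (a + c * z)‖ ^ 2 := integral_nonneg fun z => by positivity
  have hsq2 : Real.sqrt (2 * s) ≤ 2 * Real.sqrt s := by
    rw [Real.sqrt_mul (by norm_num)]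
    refine mul_le_mul_of_nonneg_right ?_ (Real.sqrt_nonneg _)
    rw [Real.sqrt_le_left (by norm_num)]
    norm_num
  have hss : s ≤ Real.sqrt s := by
    rw [Real.le_sqrt hs.le hs.le]
    nlinarith
  have hfin : ∫ z in B, χ z ^ 2 * ‖wz fx fy z - c‖ ^ 2 ≤ ε * s ^ 2 := by
    have h1 : ∫ z in B, χ z ^ 2 * ‖wz fx fy z - c‖ ^ 2 ≤
        3 * (∫ z in B, χ z ^ 2 * ‖wzb fx fy z‖ ^ 2) +
        8 * (G / s) ^ 2 * ∫ z in B, ‖f z - (a + c * z)‖ ^ 2 := by linarith
    have h2 : 8 * (G / s) ^ 2 * (∫ z in B, ‖f z - (a + c * z)‖ ^ 2) ≤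
        8 * (G / s) ^ 2 * ((C' ^ 2 * ((2 * s) ^ 2 * (2 * Real.sqrt s))) * (π * (2 * s) ^ 2)) := by
      refine mul_le_mul_of_nonneg_left (bV.trans ?_) (by positivity)
      gcongr
    have h3 : 8 * (G / s) ^ 2 * ((C' ^ 2 * ((2 * s) ^ 2 * (2 * Real.sqrt s))) * (π * (2 * s) ^ 2)) =
        256 * π * G ^ 2 * C' ^ 2 * (s ^ 2 * Real.sqrt s) := by
      field_simp
      ring
    have h4 : 3 * ((C ^ 2 * (2 * s)) * (π * (2 * s) ^ 2)) ≤
        24 * π * C ^ 2 * (s ^ 2 * Real.sqrt s) := by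
      have : 3 * ((C ^ 2 * (2 * s)) * (π * (2 * s) ^ 2)) = 24 * π * C ^ 2 * (s ^ 2 * s) := by ring
      rw [this]
      gcongr
    calc ∫ z in B, χ z ^ 2 * ‖wz fx fy z - c‖ ^ 2
        ≤ 24 * π * C ^ 2 * (s ^ 2 * Real.sqrt s) +
          256 * π * G ^ 2 * C' ^ 2 * (s ^ 2 * Real.sqrt s) := by linarith
      _ = (C4 * Real.sqrt s) * s ^ 2 := by rw [hC4]; ring
      _ ≤ ε * s ^ 2 := mul_le_mul_of_nonneg_right hsqrt (sq_nonneg _)
  -- conclusion
  have hBs : ball (0 : ℂ) s ⊆ B := ball_subset_ball (by linarith)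
  have hnn : ∀ z, 0 ≤ χ z ^ 2 * ‖wz fx fy z - c‖ ^ 2 := fun z => by positivity
  calc ∫⁻ z in ball (0 : ℂ) s, ‖wz fx fy z - c‖ₑ ^ 2
      = ∫⁻ z in ball (0 : ℂ) s, ENNReal.ofReal (χ z ^ 2 * ‖wz fx fy z - c‖ ^ 2) := by
        refine setLIntegral_congr_fun measurableSet_ball (fun z hz => ?_)
        rw [hχin z hz, one_pow, one_mul, ENNReal.ofReal_pow (norm_nonneg _), ofReal_norm]
    _ ≤ ∫⁻ z in B, ENNReal.ofReal (χ z ^ 2 * ‖wz fx fy z - c‖ ^ 2) := lintegral_mono_set hBs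
    _ = ENNReal.ofReal (∫ z in B, χ z ^ 2 * ‖wz fx fy z - c‖ ^ 2) :=
        (ofReal_integral_eq_lintegral_ofReal iA' (.of_forall hnn)).symm
    _ ≤ ENNReal.ofReal (ε * s ^ 2) := ENNReal.ofReal_le_ofReal hfin

end Pool.Agent.H.MP_09f213_an
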