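import Pool.Agent.H.MP_09f213_an.Cacc

/-! Small oscillation of `|Df|` at a point where the Hopf product does not vanish. -/

open MeasureTheory Set Filter Topology Metric
open scoped ContDiff ENNReal NNReal Real

namespace Pool.Agent.H.MP_09f213_an

/-- `|Df|` -/
noncomputable def Dn (fx fy : ℂ → ℂ) (z : ℂ) : ℝ := Real.sqrt (‖fx z‖ ^ 2 + ‖fy z‖ ^ 2)

lemma Dn_eq (fx fy : ℂ → ℂ) (z : ℂ) :
    Dn fx fy z = Real.sqrt (2 * (‖wz fx fy z‖ ^ 2 + ‖wzb fx fy z‖ ^ 2)) := by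
  unfold Dn wz wzb
  congr 1
  rw [norm_sq_eq, norm_sq_eq, norm_sq_eq, norm_sq_eq]
  simp
  ring

lemma msq_lip {l x y : ℝ} :
    Real.sqrt (2 * (x ^ 2 + 2 * l ^ 2)) ≤ Real.sqrt (2 * (y ^ 2 + 2 * l ^ 2)) + 2 * |x - y| := by
  rw [Real.sqrt_le_left (by positivity)]
  have h1 : |y| ≤ Real.sqrt (2 * (y ^ 2 + 2 * l ^ 2)) := by
    rw [← Real.sqrt_sq_eq_abs]
    exact Real.sqrt_le_sqrt (by nlinarith [sq_nonneg y, sq_nonneg l])
  have h2 : Real.sqrt (2 * (y ^ 2 + 2 * l ^ 2)) ^ 2 = 2 * (y ^ 2 + 2 * l ^ 2) :=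
    Real.sq_sqrt (by positivity)
  set m := Real.sqrt (2 * (y ^ 2 + 2 * l ^ 2))
  have h3 : |x| ≤ |y| + |x - y| := by
    have : x = y + (x - y) := by ring
    calc |x| = |y + (x - y)| := by rw [← this]
      _ ≤ _ := abs_add_le _ _
  have h4 : x ^ 2 ≤ (|y| + |x - y|) ^ 2 := by
    rw [← sq_abs x]; exact pow_le_pow_left₀ (abs_nonneg _) h3 2
  have h5 := sq_abs y
  have h6 := mul_le_mul_of_nonneg_right h1 (abs_nonneg (x - y))
  nlinarith [sq_nonneg (|x - y|)]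

section
variable {Ω : Set ℂ} {f fx fy φ Ψ : ℂ → ℂ} {p : ℂ} {R R' : ℝ}

/-- Small oscillation at a point with nonvanishing Hopf product. -/
theorem case_nonzero (D : LocDat Ω f fx fy φ p R R') (hc : IsChart φ p R Ψ) (hp : φ p ≠ 0)
    (hp36 : ‖φ p‖ ≤ 36) {ε : ℝ} (hε : 0 < ε) :
    ∃ r : ℝ, 0 < r ∧ ∃ κ : ℝ, ∀ᵐ z ∂(volume.restrict (ball p r)), |Dn fx fy z - κ| ≤ ε := by
  have hR := D.hR
  have hmwz : MemLp (wz fx fy) 2 (volume.restrict (ball p R)) := by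
    have := (D.mx'.sub (D.my'.const_mul Complex.I)).mul_const (1 / 2 : ℂ)
    refine this.ae_eq (.of_forall fun z => ?_)
    simp only [Pi.sub_apply]
    unfold wz; ring
  have hfin : ∫⁻ z in ball p R, ‖wz fx fy z‖ₑ ^ 2 < ⊤ := (memLp_two_iff hmwz.1).1 hmwz
  set N := (∫⁻ z in ball p R, ‖wz fx fy z‖ₑ ^ 2).toReal / R ^ 2 with hN
  have hN0 : 0 ≤ N := by positivity
  have hE : ∫⁻ z in ball p R, ‖wz fx fy z‖ₑ ^ 2 ≤ ENNReal.ofReal (N * R ^ 2) := by
    rw [hN, div_mul_cancel₀ _ (by positivity), ENNReal.ofReal_toReal hfin.ne]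
  obtain ⟨ρ0, h0, h1, H⟩ := chart_osc hN0 (ε := ε / 32) (by positivity)
  obtain ⟨κ, hκ⟩ := H Ω f fx fy φ Ψ p R R' D hc hp hp36 hE
  set l := Real.sqrt (‖φ p‖ / 36) with hl
  have hpn : 0 < ‖φ p‖ := norm_pos_iff.2 hp
  have hl0 : 0 < l := Real.sqrt_pos.2 (by positivity)
  have hl2 : l ^ 2 = ‖φ p‖ / 36 := Real.sq_sqrt (by positivity)
  have hrel := chart_rel D hc hl0 hl2
  set m : ℝ → ℝ := fun x => Real.sqrt (2 * (x ^ 2 + 2 * l ^ 2)) with hm
  have hm0 : 0 ≤ m ‖κ‖ := Real.sqrt_nonneg _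
  set a : ℂ → ℝ := fun w => R / ‖deriv Ψ w‖ with ha
  have h03 : (0 : ℂ) ∈ ball (0 : ℂ) 3 := mem_ball_self (by norm_num)
  have hdc : ContinuousAt (deriv Ψ) 0 := by
    have hd1 : DifferentiableOn ℂ (deriv Ψ) (ball 0 3) := hc.diff.deriv isOpen_ball
    exact (hd1.continuousOn).continuousAt (isOpen_ball.mem_nhds h03)
  have hac : ContinuousAt a 0 := by
    refine continuousAt_const.div hdc.norm ?_
    exact norm_ne_zero_iff.2 (chart_deriv_ne hR hc h03)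
  obtain ⟨d, hd, hda⟩ := Metric.continuousAt_iff.1 hac (ε / (2 * (m ‖κ‖ + 1))) (by positivity)
  set ρ1 := min ρ0 d with hρ1
  have hρ1pos : 0 < ρ1 := lt_min h0 hd
  have hρ1le : ρ1 ≤ ρ0 := min_le_left _ _
  refine ⟨ρ1 * R / 8, by positivity, a 0 * m ‖κ‖, ?_⟩
  refine chart_push hc hρ1pos (by linarith) ?_
  have hsub : volume.restrict (ball (0 : ℂ) ρ1) ≤ volume.restrict (ball (0 : ℂ) 2) :=
    Measure.restrict_mono (ball_subset_ball (by linarith)) le_rfl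
  have hsub0 : volume.restrict (ball (0 : ℂ) ρ1) ≤ volume.restrict (ball (0 : ℂ) ρ0) :=
    Measure.restrict_mono (ball_subset_ball hρ1le) le_rfl
  filter_upwards [ae_mono hsub0 hκ, ae_mono hsub hrel, ae_restrict_mem measurableSet_ball]
    with w h2 h3 h4
  have hw3 : w ∈ ball (0 : ℂ) 3 := ball_subset_ball (by linarith) h4
  have hder := hc.bd w hw3
  set T := tz fx fy Ψ R w with hT
  set S := tzb fx fy Ψ R w with hS
  set q := ‖deriv Ψ w‖ with hq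
  have hqpos : 0 < q := by
    have : 0 < R / 8 := by positivity
    linarith [hder.1]
  -- `x = |T| - |S|`
  have hTpos : 0 < ‖T‖ := hl0.trans_le h3.1
  have hSn : ‖S‖ = l ^ 2 / ‖T‖ := by rw [h3.2]; exact norm_mf hl0 h3.1
  set x := ‖Complex.I * (T - S)‖ with hx
  have hxe : x = ‖T‖ - ‖S‖ := by
    have : Complex.I * (T - S) = rf l T := by unfold rf; rw [← h3.2]
    rw [hx, this, norm_rf hl0 h3.1, hSn]
  have hTS : ‖T‖ * ‖S‖ = l ^ 2 := by rw [hSn]; field_simp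
  have hx1 : |x - ‖κ‖| ≤ ε / 32 := (abs_norm_sub_norm_le _ _).trans h2
  -- formula for `Dn`
  have e1 : ‖wz fx fy (Ψ w)‖ = ‖T‖ * (R / q) := by
    rw [hT]; unfold tz
    rw [norm_div, norm_mul, Complex.norm_real, Real.norm_eq_abs, abs_of_pos hR, ← hq]
    field_simp
  have e2 : ‖wzb fx fy (Ψ w)‖ = ‖S‖ * (R / q) := by
    rw [hS]; unfold tzb
    rw [norm_div, norm_mul, Complex.norm_conj, Complex.norm_real, Real.norm_eq_abs, abs_of_pos hR,
      ← hq]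
    field_simp
  have hDn : Dn fx fy (Ψ w) = a w * m x := by
    rw [Dn_eq, e1, e2]
    have h5 : 2 * ((‖T‖ * (R / q)) ^ 2 + (‖S‖ * (R / q)) ^ 2) =
        (R / q) ^ 2 * (2 * (x ^ 2 + 2 * l ^ 2)) := by
      rw [hxe, ← hTS]; ring
    rw [h5, Real.sqrt_mul (by positivity), Real.sqrt_sq (by positivity)]
  have haw : a w ≤ 8 := by
    simp only [ha]
    rw [← hq, div_le_iff₀ hqpos]
    linarith [hder.1]
  have haw0 : 0 ≤ a w := by simp only [ha]; positivity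
  have ham : |m x - m ‖κ‖| ≤ 2 * (ε / 32) := by
    rw [abs_le]
    have q1 := msq_lip (l := l) (x := x) (y := ‖κ‖)
    have q2 := msq_lip (l := l) (x := ‖κ‖) (y := x)
    rw [abs_sub_comm] at q2
    simp only [hm]
    constructor
    · linarith
    · linarith
  have haa : |a w - a 0| ≤ ε / (2 * (m ‖κ‖ + 1)) := by
    have h6 : dist w 0 < d := by
      rw [dist_zero_right]
      rw [mem_ball_zero_iff] at h4
      exact h4.trans_le (min_le_right _ _)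
    have := hda h6
    rw [Real.dist_eq] at this
    exact this.le
  rw [hDn]
  have e3 : a w * m x - a 0 * m ‖κ‖ = a w * (m x - m ‖κ‖) + (a w - a 0) * m ‖κ‖ := by ring
  rw [e3]
  refine (abs_add_le _ _).trans ?_
  rw [abs_mul, abs_mul, abs_of_nonneg haw0, abs_of_nonneg hm0]
  have f1 : a w * |m x - m ‖κ‖| ≤ 8 * (2 * (ε / 32)) := mul_le_mul haw ham (abs_nonneg _) (by norm_num)
  have f2 : |a w - a 0| * m ‖κ‖ ≤ ε / 2 := by
    calc |a w - a 0| * m ‖κ‖ ≤ ε / (2 * (m ‖κ‖ + 1)) * (m ‖κ‖ + 1) :=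
          mul_le_mul haa (by linarith) hm0 (by positivity)
      _ = ε / 2 := by field_simp
  linarith

lemma wz_scale (c : ℂ) (z : ℂ) : wz (fun z => c * fx z) (fun z => c * fy z) z = c * wz fx fy z := by
  unfold wz; ring

lemma wzb_scale (c : ℂ) (z : ℂ) :
    wzb (fun z => c * fx z) (fun z => c * fy z) z = c * wzb fx fy z := by
  unfold wzb; ring

/-- Scaling of the data. -/
lemma LocDat.scale (D : LocDat Ω f fx fy φ p R R') {c : ℝ} (hc : 0 < c) :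
    LocDat Ω (fun z => (c : ℂ) * f z) (fun z => (c : ℂ) * fx z) (fun z => (c : ℂ) * fy z)
      (fun z => ((c ^ 2 : ℝ) : ℂ) * φ z) p R R' where
  hR := D.hR
  hRR' := D.hRR'
  sub := D.sub
  weak := fun ψ h1 h2 h3 => by
    obtain ⟨h4, h5⟩ := D.weak ψ h1 h2 h3
    constructor
    · have e1 : ∀ z, (c : ℂ) * f z * fderiv ℝ ψ z 1 = c * (f z * fderiv ℝ ψ z 1) := fun z => by ring
      have e2 : ∀ z, (c : ℂ) * fx z * ψ z = c * (fx z * ψ z) := fun z => by ring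
      simp only [e1, e2]
      rw [integral_const_mul, integral_const_mul, h4]; ring
    · have e1 : ∀ z, (c : ℂ) * f z * fderiv ℝ ψ z Complex.I = c * (f z * fderiv ℝ ψ z Complex.I) :=
        fun z => by ring
      have e2 : ∀ z, (c : ℂ) * fy z * ψ z = c * (fy z * ψ z) := fun z => by ring
      simp only [e1, e2]
      rw [integral_const_mul, integral_const_mul, h5]; ring
  int := D.int.const_mul _
  mx := D.mx.const_mul _
  my := D.my.const_mul _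
  holo := D.holo.const_mul _
  hopf := by
    filter_upwards [D.hopf] with z hz
    rw [wz_scale, wzb_scale, map_mul, Complex.conj_ofReal, ← hz]
    push_cast
    ring
  jac := by
    filter_upwards [D.jac] with z hz
    rw [wz_scale, wzb_scale, norm_mul, norm_mul]
    exact mul_le_mul_of_nonneg_left hz (norm_nonneg _)

lemma exists_isChart {φ : ℂ → ℂ} {p : ℂ} {R : ℝ} (hR : 0 < R)
    (hφ : DifferentiableOn ℂ φ (ball p R)) (hp : φ p ≠ 0)
    (hclose : ∀ z ∈ ball p R, ‖φ z / φ p - 1‖ ≤ 1 / 2) : ∃ Ψ : ℂ → ℂ, IsChart φ p R Ψ := by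
  obtain ⟨Ψ, h1, h2, h3, h4, h5, h6, h7⟩ := exists_chart hR hφ hp hclose
  exact ⟨Ψ, ⟨h1, h2, h3, h4, h5, h6, h7⟩⟩

/-- Small oscillation at a point with nonvanishing Hopf product (no smallness assumption). -/
theorem osc_at_nonzero (D : LocDat Ω f fx fy φ p R R') (hp : φ p ≠ 0)
    (hclose : ∀ z ∈ ball p R, ‖φ z / φ p - 1‖ ≤ 1 / 2) {ε : ℝ} (hε : 0 < ε) :
    ∃ r : ℝ, 0 < r ∧ ∃ κ : ℝ, ∀ᵐ z ∂(volume.restrict (ball p r)), |Dn fx fy z - κ| ≤ ε := by
  have hpn : 0 < ‖φ p‖ := norm_pos_iff.2 hp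
  set c : ℝ := 1 / (1 + ‖φ p‖) with hc
  have hc0 : 0 < c := by positivity
  have D' := D.scale hc0
  have hc2 : ((c ^ 2 : ℝ) : ℂ) ≠ 0 := by
    have : (0 : ℝ) < c ^ 2 := by positivity
    exact_mod_cast this.ne'
  obtain ⟨Ψ, hΨ⟩ := exists_isChart (φ := fun z => ((c ^ 2 : ℝ) : ℂ) * φ z) (p := p) D.hR D'.holo
    (mul_ne_zero hc2 hp) (fun z hz => by
      rw [mul_div_mul_left _ _ hc2]
      exact hclose z hz)
  have h36 : ‖((c ^ 2 : ℝ) : ℂ) * φ p‖ ≤ 36 := by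
    rw [norm_mul, Complex.norm_real, Real.norm_eq_abs, abs_of_nonneg (by positivity), hc]
    rw [div_pow, one_pow, div_mul_eq_mul_div, one_mul, div_le_iff₀ (by positivity)]
    nlinarith
  obtain ⟨r, hr, κ, hκ⟩ := case_nonzero D' hΨ (mul_ne_zero hc2 hp) h36
    (ε := c * ε) (by positivity)
  refine ⟨r, hr, κ / c, ?_⟩
  filter_upwards [hκ] with z hz
  have e1 : Dn (fun z => (c : ℂ) * fx z) (fun z => (c : ℂ) * fy z) z = c * Dn fx fy z := by
    unfold Dn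
    have : ‖(c : ℂ) * fx z‖ ^ 2 + ‖(c : ℂ) * fy z‖ ^ 2 = c ^ 2 * (‖fx z‖ ^ 2 + ‖fy z‖ ^ 2) := by
      rw [norm_mul, norm_mul, Complex.norm_real, Real.norm_eq_abs, abs_of_pos hc0]; ring
    rw [this, Real.sqrt_mul (by positivity), Real.sqrt_sq hc0.le]
  rw [e1] at hz
  have e2 : c * Dn fx fy z - κ = c * (Dn fx fy z - κ / c) := by field_simp
  rw [e2, abs_mul, abs_of_pos hc0] at hz
  exact le_of_mul_le_mul_left hz hc0

end

end Pool.Agent.H.MP_09f213_an
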