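import Pool.Agent.H.MP_09f213_an.Defs

/-! The Cauchy-Pompeiu formula for compactly supported functions. -/

open MeasureTheory Set Filter Topology Metric
open scoped ContDiff ENNReal NNReal Real

namespace Pool.Agent.H.MP_09f213_an

lemma continuous_dzb {ψ : ℂ → ℂ} (hψ : ContDiff ℝ 1 ψ) : Continuous (dzb ψ) := by
  have h : ∀ e : ℂ, Continuous fun z => fderiv ℝ ψ z e := fun e =>
    (hψ.continuous_fderiv (by norm_num)).clm_apply continuous_const
  unfold dzb
  exact ((h 1).add (continuous_const.mul (h _))).div_const _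

lemma dzb_eq_zero {ψ : ℂ → ℂ} {z : ℂ} (hz : z ∉ tsupport ψ) : dzb ψ z = 0 := by
  have : fderiv ℝ ψ z = 0 := by
    have h := support_fderiv_subset ℝ (f := ψ)
    by_contra hcon
    exact hz (h hcon)
  unfold dzb
  rw [this]
  simp

lemma hasCompactSupport_dzb {ψ : ℂ → ℂ} (hc : HasCompactSupport ψ) :
    HasCompactSupport (dzb ψ) :=
  HasCompactSupport.intro hc (fun _ hz => dzb_eq_zero hz)

lemma clm_eq (L : ℂ →L[ℝ] ℂ) (w : ℂ) : L w = w.re * L 1 + w.im * L Complex.I := by
  have : w = w.re • (1 : ℂ) + w.im • Complex.I := by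
    apply Complex.ext <;> simp
  conv_lhs => rw [this, map_add, map_smul, map_smul]
  simp

/-- Cauchy-Pompeiu at the origin. -/
theorem cauchy_pompeiu_zero {ψ : ℂ → ℂ} (hψ : ContDiff ℝ 1 ψ) (hc : HasCompactSupport ψ) :
    ∫ w, dzb ψ w / w = -(π * ψ 0) := by
  obtain ⟨ρ, hρ, hsupp⟩ : ∃ ρ : ℝ, 0 < ρ ∧ ∀ w : ℂ, ρ ≤ ‖w‖ → w ∉ tsupport ψ := by
    obtain ⟨ρ, hρ0, hρ⟩ := hc.isBounded.exists_pos_norm_lt
    exact ⟨ρ, hρ0, fun w hw hmem => absurd (hρ w hmem) (not_lt.2 hw)⟩
  set c : ℝ → ℝ → ℂ := fun s θ => s * Complex.exp (θ * Complex.I) with hcdef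
  have hcc : Continuous fun p : ℝ × ℝ => c p.1 p.2 := by simp only [hcdef]; fun_prop
  have hcn : ∀ s θ, ‖c s θ‖ = |s| := by
    intro s θ
    simp [hcdef, Complex.norm_exp_ofReal_mul_I]
  set L : ℝ × ℝ → (ℂ →L[ℝ] ℂ) := fun p => fderiv ℝ ψ (c p.1 p.2) with hL
  have hLc : Continuous L := (hψ.continuous_fderiv (by norm_num)).comp hcc
  have hec : Continuous fun p : ℝ × ℝ => Complex.exp (p.2 * Complex.I) := by fun_prop
  set H : ℝ × ℝ → ℂ := fun p => Complex.exp (-(p.2 * Complex.I)) * dzb ψ (c p.1 p.2) with hH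
  have hHc : Continuous H := by
    simp only [hH]
    exact (by fun_prop : Continuous fun p : ℝ × ℝ => Complex.exp (-(p.2 * Complex.I))).mul
      ((continuous_dzb hψ).comp hcc)
  have h1 : ∫ w, dzb ψ w / w = ∫ p in Ioi (0 : ℝ) ×ˢ Ioo (-π) π, H p := by
    rw [← Complex.integral_comp_polarCoord_symm]
    refine setIntegral_congr_fun (measurableSet_Ioi.prod measurableSet_Ioo) ?_
    rintro ⟨s, θ⟩ ⟨hs, -⟩
    have hs' : 0 < s := hs
    have e1 : Complex.polarCoord.symm (s, θ) = c s θ := by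
      rw [Complex.polarCoord_symm_apply]
      simp only [hcdef]
      rw [Complex.exp_mul_I]
      push_cast
      rfl
    simp only
    rw [e1]
    simp only [hH, hcdef, Complex.real_smul]
    rw [Complex.exp_neg]
    have h2 : (s : ℂ) ≠ 0 := by exact_mod_cast hs'.ne'
    have h3 : Complex.exp (θ * Complex.I) ≠ 0 := Complex.exp_ne_zero _
    field_simp
  have h2 : ∫ p in Ioi (0 : ℝ) ×ˢ Ioo (-π) π, H p = ∫ p in Ioc (0 : ℝ) ρ ×ˢ Ioo (-π) π, H p := by
    refine (setIntegral_eq_of_subset_of_forall_sdiff_eq_zero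
      (measurableSet_Ioi.prod measurableSet_Ioo) ?_ ?_)
    · rintro ⟨s, θ⟩ ⟨h3, h4⟩
      exact ⟨h3.1, h4⟩
    · rintro ⟨s, θ⟩ ⟨⟨h3, h4⟩, h5⟩
      have h6 : ρ < s := by
        by_contra hcon
        exact h5 ⟨⟨h3, not_lt.1 hcon⟩, h4⟩
      have h7 : c s θ ∉ tsupport ψ := hsupp _ (by
        rw [hcn, abs_of_pos (hρ.trans h6)]; exact h6.le)
      simp only [hH]
      rw [dzb_eq_zero h7, mul_zero]
  have hint : IntegrableOn H (Ioc (0 : ℝ) ρ ×ˢ Ioo (-π) π) (volume.prod volume) := by
    refine (hHc.continuousOn.integrableOn_compact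
      (isCompact_Icc.prod isCompact_Icc) (μ := (volume : Measure (ℝ × ℝ)))
      (K := Icc (0 : ℝ) ρ ×ˢ Icc (-π) π)).mono_set ?_
    exact prod_mono Ioc_subset_Icc_self Ioo_subset_Icc_self
  have h3 : ∫ p in Ioc (0 : ℝ) ρ ×ˢ Ioo (-π) π, H p =
      ∫ s in (0 : ℝ)..ρ, ∫ θ in (-π)..π, H (s, θ) := by
    rw [Measure.volume_eq_prod, setIntegral_prod _ hint, intervalIntegral.integral_of_le hρ.le]
    refine integral_congr_ae (.of_forall fun s => ?_)
    simp only
    rw [intervalIntegral.integral_of_le (by linarith [Real.pi_pos]), integral_Ioc_eq_integral_Ioo]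
  -- derivative of the polar map
  have hψd : ∀ z, HasFDerivAt ψ (fderiv ℝ ψ z) z := fun z =>
    (hψ.differentiable (by norm_num) z).hasFDerivAt
  have hdθ : ∀ s θ, HasDerivAt (fun θ => ψ (c s θ))
      (L (s, θ) (c s θ * Complex.I)) θ := by
    intro s θ
    have h1 : HasDerivAt (fun θ : ℝ => ((θ : ℂ) * Complex.I)) Complex.I θ := by
      simpa using (Complex.ofRealCLM.hasDerivAt (x := θ)).mul_const Complex.I
    have h2 : HasDerivAt (fun θ => c s θ) (c s θ * Complex.I) θ := by
      simpa [hcdef, mul_assoc] using (h1.cexp).const_mul (s : ℂ)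
    exact (hψd (c s θ)).comp_hasDerivAt θ h2
  have hds : ∀ s θ, HasDerivAt (fun s => ψ (c s θ))
      (L (s, θ) (Complex.exp (θ * Complex.I))) s := by
    intro s θ
    have h2 : HasDerivAt (fun s => c s θ) (Complex.exp (θ * Complex.I)) s := by
      simpa [hcdef] using (Complex.ofRealCLM.hasDerivAt (x := s)).mul_const
        (Complex.exp (θ * Complex.I))
    exact (hψd (c s θ)).comp_hasDerivAt s h2
  have hHeq : ∀ s θ, H (s, θ) = 1 / 2 * L (s, θ) (Complex.exp (θ * Complex.I)) +
      Complex.I / 2 * L (s, θ) (Complex.exp (θ * Complex.I) * Complex.I) := by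
    intro s θ
    simp only [hH, hL]
    unfold dzb
    set M := fderiv ℝ ψ (c s θ)
    have e1 : (Complex.exp (θ * Complex.I)).re = Real.cos θ := by
      rw [Complex.exp_ofReal_mul_I_re]
    have e2 : (Complex.exp (θ * Complex.I)).im = Real.sin θ := by
      rw [Complex.exp_ofReal_mul_I_im]
    have e3 : Complex.exp (-(θ * Complex.I)) = Real.cos θ - Real.sin θ * Complex.I := by
      rw [show -((θ : ℂ) * Complex.I) = (-(θ : ℂ)) * Complex.I by ring, Complex.exp_mul_I,
        Complex.cos_neg, Complex.sin_neg]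
      push_cast
      ring
    rw [clm_eq M (Complex.exp (θ * Complex.I)), clm_eq M (Complex.exp (θ * Complex.I) * Complex.I),
      e3]
    simp only [Complex.mul_re, Complex.mul_im, Complex.I_re, Complex.I_im, mul_zero, mul_one,
      zero_sub, add_zero, e1, e2]
    push_cast
    ring_nf
    rw [Complex.I_sq]
    ring
  have h4 : ∀ s, 0 < s → ∫ θ in (-π)..π, H (s, θ) =
      1 / 2 * ∫ θ in (-π)..π, L (s, θ) (Complex.exp (θ * Complex.I)) := by
    intro s hs
    have cs : Continuous fun θ : ℝ => L (s, θ) := hLc.comp (Continuous.prodMk_right s)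
    have ce : Continuous fun θ : ℝ => Complex.exp (θ * Complex.I) := by fun_prop
    have c1 : Continuous fun θ : ℝ => L (s, θ) (Complex.exp (θ * Complex.I)) := cs.clm_apply ce
    have c2 : Continuous fun θ : ℝ => L (s, θ) (Complex.exp (θ * Complex.I) * Complex.I) :=
      cs.clm_apply (ce.mul continuous_const)
    have c3 : Continuous fun θ : ℝ => L (s, θ) (c s θ * Complex.I) := by
      refine cs.clm_apply (Continuous.mul ?_ continuous_const)
      simp only [hcdef]; fun_prop
    simp only [hHeq]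
    have i1 : IntervalIntegrable (fun θ : ℝ => 1 / 2 * L (s, θ) (Complex.exp (θ * Complex.I)))
        volume (-π) π := (continuous_const.mul c1).intervalIntegrable _ _
    have i2 : IntervalIntegrable (fun θ : ℝ => Complex.I / 2 *
        L (s, θ) (Complex.exp (θ * Complex.I) * Complex.I)) volume (-π) π :=
      (continuous_const.mul c2).intervalIntegrable _ _
    rw [intervalIntegral.integral_add i1 i2, intervalIntegral.integral_const_mul,
      intervalIntegral.integral_const_mul]
    have h5 : ∫ θ in (-π)..π, L (s, θ) (c s θ * Complex.I) = 0 := by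
      rw [intervalIntegral.integral_eq_sub_of_hasDerivAt (fun θ _ => hdθ s θ)
        (c3.intervalIntegrable _ _)]
      have : c s π = c s (-π) := by
        simp only [hcdef]
        rw [Complex.exp_pi_mul_I]
        congr 1
        push_cast
        rw [neg_mul, Complex.exp_neg, Complex.exp_pi_mul_I]
        norm_num
      rw [this, sub_self]
    have h6 : ∀ θ, L (s, θ) (c s θ * Complex.I) =
        s * L (s, θ) (Complex.exp (θ * Complex.I) * Complex.I) := by
      intro θ
      have : c s θ * Complex.I = s • (Complex.exp (θ * Complex.I) * Complex.I) := by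
        simp only [hcdef, Complex.real_smul]; ring
      rw [this, map_smul, Complex.real_smul]
    simp only [h6] at h5
    rw [intervalIntegral.integral_const_mul] at h5
    have hs' : (s : ℂ) ≠ 0 := by exact_mod_cast hs.ne'
    rw [(mul_eq_zero.1 h5).resolve_left hs']
    ring
  have h5 : ∫ s in (0 : ℝ)..ρ, ∫ θ in (-π)..π, H (s, θ) =
      1 / 2 * ∫ s in (0 : ℝ)..ρ, ∫ θ in (-π)..π, L (s, θ) (Complex.exp (θ * Complex.I)) := by
    rw [← intervalIntegral.integral_const_mul]
    refine intervalIntegral.integral_congr_ae (.of_forall fun s hs => ?_)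
    rw [uIoc_of_le hρ.le] at hs
    exact h4 s hs.1
  have hLcc : Continuous fun p : ℝ × ℝ => L p (Complex.exp (p.2 * Complex.I)) :=
    hLc.clm_apply hec
  have h6 : ∫ s in (0 : ℝ)..ρ, ∫ θ in (-π)..π, L (s, θ) (Complex.exp (θ * Complex.I)) =
      ∫ θ in (-π)..π, ∫ s in (0 : ℝ)..ρ, L (s, θ) (Complex.exp (θ * Complex.I)) := by
    apply intervalIntegral_intervalIntegral_swap
    refine (hLcc.continuousOn.integrableOn_compact (isCompact_uIcc.prod isCompact_uIcc)
      (μ := (volume : Measure (ℝ × ℝ))) (K := uIcc 0 ρ ×ˢ uIcc (-π) π)).mono_set ?_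
    exact prod_mono uIoc_subset_uIcc uIoc_subset_uIcc
  have h7 : ∀ θ, ∫ s in (0 : ℝ)..ρ, L (s, θ) (Complex.exp (θ * Complex.I)) = - ψ 0 := by
    intro θ
    have c1 : Continuous fun s : ℝ => L (s, θ) (Complex.exp (θ * Complex.I)) :=
      hLcc.comp (Continuous.prodMk_left θ)
    rw [intervalIntegral.integral_eq_sub_of_hasDerivAt (fun s _ => hds s θ)
      (c1.intervalIntegrable _ _)]
    have e1 : ψ (c ρ θ) = 0 := by
      apply image_eq_zero_of_notMem_tsupport
      exact hsupp _ (by rw [hcn, abs_of_pos hρ])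
    have e2 : c 0 θ = 0 := by simp [hcdef]
    rw [e1, e2, zero_sub]
  rw [h1, h2, h3, h5, h6]
  simp only [h7]
  rw [intervalIntegral.integral_const, Complex.real_smul]
  push_cast
  ring

/-- Cauchy-Pompeiu formula. -/
theorem cauchy_pompeiu {ψ : ℂ → ℂ} (hψ : ContDiff ℝ 1 ψ) (hc : HasCompactSupport ψ) (ξ : ℂ) :
    ∫ w, dzb ψ w / (w - ξ) = -(π * ψ ξ) := by
  have h1 : ContDiff ℝ 1 (fun w => ψ (w + ξ)) := hψ.comp (contDiff_id.add contDiff_const)
  have h2 : HasCompactSupport (fun w => ψ (w + ξ)) :=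
    hc.comp_homeomorph (Homeomorph.addRight ξ)
  have h3 := cauchy_pompeiu_zero h1 h2
  rw [zero_add] at h3
  rw [← h3, ← integral_add_right_eq_self _ ξ]
  congr 1
  funext w
  have : dzb (fun w => ψ (w + ξ)) w = dzb ψ (w + ξ) := by
    unfold dzb
    rw [fderiv_comp_add_right]
  rw [this, add_sub_cancel_right]

end Pool.Agent.H.MP_09f213_an
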