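import Pool.Agent.H.MP_09f213_an.Defs

/-! Natural charts of a quadratic differential away from its zeros. -/

open MeasureTheory Set Filter Topology Metric
open scoped ContDiff ENNReal NNReal Real

namespace Pool.Agent.H.MP_09f213_an

/-- Holomorphic square root near `1`. -/
lemma sqrt_branch {x : ℂ} (hx : ‖x - 1‖ ≤ 1 / 2) :
    x ∈ Complex.slitPlane ∧ Complex.exp (Complex.log x / 2) ^ 2 = x ∧
      ‖Complex.exp (Complex.log x / 2) - 1‖ ≤ 1 / 2 := by
  have hre : 1 / 2 ≤ x.re := by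
    have h1 := Complex.abs_re_le_norm (x - 1)
    rw [Complex.sub_re, Complex.one_re] at h1
    have h2 := (abs_le.1 (h1.trans hx)).1
    linarith
  have hslit : x ∈ Complex.slitPlane := Or.inl (by linarith)
  have hx0 : x ≠ 0 := Complex.slitPlane_ne_zero hslit
  have hsq : Complex.exp (Complex.log x / 2) ^ 2 = x := by
    rw [← Complex.exp_nat_mul]
    have : ((2 : ℕ) : ℂ) * (Complex.log x / 2) = Complex.log x := by push_cast; ring
    rw [this, Complex.exp_log hx0]
  refine ⟨hslit, hsq, ?_⟩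
  set s := Complex.exp (Complex.log x / 2) with hs
  have hsre : 0 ≤ s.re := by
    rw [hs, Complex.exp_re]
    refine mul_nonneg (Real.exp_pos _).le (Real.cos_nonneg_of_neg_pi_div_two_le_of_le ?_ ?_)
    · have : (Complex.log x / 2).im = Complex.arg x / 2 := by
        rw [Complex.div_ofNat_im, Complex.log_im]
      rw [this]
      linarith [Complex.neg_pi_lt_arg x]
    · have : (Complex.log x / 2).im = Complex.arg x / 2 := by
        rw [Complex.div_ofNat_im, Complex.log_im]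
      rw [this]
      linarith [Complex.arg_le_pi x]
  have h1 : 1 ≤ ‖s + 1‖ := by
    have := (le_abs_self _).trans (Complex.abs_re_le_norm (s + 1))
    rw [Complex.add_re, Complex.one_re] at this
    linarith
  have h2 : ‖s - 1‖ * ‖s + 1‖ ≤ 1 / 2 := by
    rw [← norm_mul]
    have : (s - 1) * (s + 1) = x - 1 := by rw [← hsq]; ring
    rw [this]; exact hx
  nlinarith [norm_nonneg (s - 1)]

/-- A conformal chart in which the quadratic differential `φ dz²` becomes constant. -/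
theorem exists_chart {φ : ℂ → ℂ} {p : ℂ} {R : ℝ} (hR : 0 < R)
    (hφ : DifferentiableOn ℂ φ (ball p R)) (hp : φ p ≠ 0)
    (hclose : ∀ z ∈ ball p R, ‖φ z / φ p - 1‖ ≤ 1 / 2) :
    ∃ Ψ : ℂ → ℂ, Ψ 0 = p ∧ DifferentiableOn ℂ Ψ (ball 0 3) ∧ InjOn Ψ (ball 0 3) ∧
      MapsTo Ψ (ball 0 3) (ball p R) ∧
      (∀ w ∈ ball (0 : ℂ) 3, φ (Ψ w) * deriv Ψ w ^ 2 = ((‖φ p‖ * R ^ 2 / 36 : ℝ) : ℂ)) ∧
      (∀ w ∈ ball (0 : ℂ) 3, R / 8 ≤ ‖deriv Ψ w‖ ∧ ‖deriv Ψ w‖ ≤ R / 4) ∧
      (∀ ρ : ℝ, 0 < ρ → ρ ≤ 3 → ball p (ρ * R / 8) ⊆ Ψ '' ball 0 ρ) := by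
  -- unimodular square root of `φ p / |φ p|`
  set u0 : ℂ := Complex.exp (Complex.arg (φ p) / 2 * Complex.I) with hu0
  have hu0n : ‖u0‖ = 1 := by
    have : (Complex.arg (φ p) : ℂ) / 2 * Complex.I = ((Complex.arg (φ p) / 2 : ℝ) : ℂ) * Complex.I := by
      push_cast; ring
    rw [hu0, this, Complex.norm_exp_ofReal_mul_I]
  have hu0sq : (‖φ p‖ : ℂ) * u0 ^ 2 = φ p := by
    rw [hu0, ← Complex.exp_nat_mul]
    have : ((2 : ℕ) : ℂ) * ((Complex.arg (φ p) : ℂ) / 2 * Complex.I) = Complex.arg (φ p) * Complex.I := by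
      push_cast; ring
    rw [this]
    exact Complex.norm_mul_exp_arg_mul_I (φ p)
  have hu0ne : u0 ≠ 0 := by rw [← norm_pos_iff, hu0n]; norm_num
  set A : ℂ := (6 / R : ℝ) * u0 with hA
  have hAn : ‖A‖ = 6 / R := by
    rw [hA, norm_mul, hu0n, mul_one, Complex.norm_real, Real.norm_eq_abs, abs_of_pos (by positivity)]
  have hApos : 0 < ‖A‖ := by rw [hAn]; positivity
  have hAne : A ≠ 0 := norm_pos_iff.1 hApos
  have hAsq : (‖φ p‖ : ℂ) * A ^ 2 = φ p * ((36 / R ^ 2 : ℝ) : ℂ) := by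
    calc (‖φ p‖ : ℂ) * A ^ 2 = (((6 / R : ℝ) : ℂ)) ^ 2 * ((‖φ p‖ : ℂ) * u0 ^ 2) := by
          rw [hA]; ring
      _ = φ p * ((36 / R ^ 2 : ℝ) : ℂ) := by
          rw [hu0sq]; push_cast; ring
  set s : ℂ → ℂ := fun z => Complex.exp (Complex.log (φ z / φ p) / 2) with hs
  have hsq : ∀ z ∈ ball p R, s z ^ 2 = φ z / φ p := fun z hz => (sqrt_branch (hclose z hz)).2.1
  have hs1 : ∀ z ∈ ball p R, ‖s z - 1‖ ≤ 1 / 2 := fun z hz => (sqrt_branch (hclose z hz)).2.2
  have hsd : DifferentiableOn ℂ s (ball p R) := by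
    intro z hz
    have h1 : DifferentiableAt ℂ φ z := (hφ z hz).differentiableAt (isOpen_ball.mem_nhds hz)
    have h2 : DifferentiableAt ℂ (fun z => φ z / φ p) z := h1.div_const _
    have h3 : DifferentiableAt ℂ (fun z => Complex.log (φ z / φ p)) z :=
      h2.clog (sqrt_branch (hclose z hz)).1
    exact ((h3.div_const 2).cexp).differentiableWithinAt
  -- norm bounds for `s`
  have hsn : ∀ z ∈ ball p R, 1 / 2 ≤ ‖s z‖ ^ 2 ∧ ‖s z‖ ^ 2 ≤ 3 / 2 := by
    intro z hz
    rw [← norm_pow, hsq z hz]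
    have h1 := hclose z hz
    have h2 := norm_sub_norm_le (φ z / φ p) 1
    have h3 := norm_sub_norm_le 1 (φ z / φ p)
    rw [norm_sub_rev] at h3
    rw [norm_one] at h2 h3
    constructor
    · linarith
    · linarith
  have hs0 : ∀ z ∈ ball p R, s z ≠ 0 := fun z hz => Complex.exp_ne_zero _
  -- the primitive
  obtain ⟨T, hTp, hT⟩ := ((hsd.const_mul A).isExactOn_ball).with_val_at p 0
  -- `T` approximates a linear map
  have happ : ApproximatesLinearOn T (A • ContinuousLinearMap.id ℂ ℂ) (ball p R)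
      (⟨‖A‖ / 2, by positivity⟩ : ℝ≥0) := by
    intro x hx y hy
    have h1 : ∀ z ∈ ball p R, HasDerivWithinAt (fun z => T z - A * z) (A * s z - A * 1) (ball p R) z :=
      fun z hz => ((hT z hz).sub ((hasDerivAt_id z).const_mul A)).hasDerivWithinAt
    have h2 := (convex_ball p R).norm_image_sub_le_of_norm_hasDerivWithin_le (C := ‖A‖ / 2) h1
      (fun z hz => by
        rw [← mul_sub, norm_mul]
        have := mul_le_mul_of_nonneg_left (hs1 z hz) hApos.le
        linarith) hy hx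
    have e : T x - T y - (A • ContinuousLinearMap.id ℂ ℂ) (x - y) =
        (T x - A * x) - (T y - A * y) := by
      simp only [FunLike.coe_smul, Pi.smul_apply, ContinuousLinearMap.coe_id', id_eq, smul_eq_mul]
      ring
    rw [e]
    exact h2
  have hlow : ∀ x ∈ ball p R, ∀ y ∈ ball p R, ‖A‖ / 2 * ‖x - y‖ ≤ ‖T x - T y‖ := by
    intro x hx y hy
    have h1 := happ x hx y hy
    have h2 : (A • ContinuousLinearMap.id ℂ ℂ) (x - y) = A * (x - y) := by simp
    rw [h2] at h1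
    have h3 : ‖A * (x - y)‖ ≤ ‖T x - T y‖ + ‖T x - T y - A * (x - y)‖ := by
      have : A * (x - y) = (T x - T y) - (T x - T y - A * (x - y)) := by ring
      calc ‖A * (x - y)‖ = ‖(T x - T y) - (T x - T y - A * (x - y))‖ := by rw [← this]
        _ ≤ _ := norm_sub_le _ _
    rw [norm_mul] at h3
    have h4 : ‖T x - T y - A * (x - y)‖ ≤ ‖A‖ / 2 * ‖x - y‖ := h1
    linarith
  have hinjT : InjOn T (ball p R) := by
    intro x hx y hy hxy
    have h1 := hlow x hx y hy
    rw [hxy, sub_self, norm_zero] at h1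
    have h2 : ‖x - y‖ ≤ 0 := by
      by_contra hcon
      have := mul_pos (half_pos hApos) (not_le.1 hcon)
      linarith
    exact sub_eq_zero.1 (norm_le_zero_iff.1 h2)
  have hsurj : ∀ w ∈ ball (0 : ℂ) 3, ∃ z ∈ ball p R, T z = w := by
    intro w hw
    rw [mem_ball_zero_iff] at hw
    set ε := ‖w‖ * R / 3 with hε
    have hε0 : 0 ≤ ε := by positivity
    have hεR : ε < R := by
      rw [hε, div_lt_iff₀ (by norm_num)]
      nlinarith
    let inv : (A • ContinuousLinearMap.id ℂ ℂ).NonlinearRightInverse :=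
      { toFun := fun y => A⁻¹ * y
        nnnorm := ‖A⁻¹‖₊
        bound' := fun y => by rw [norm_mul]; rfl
        right_inv' := fun y => by
          simp only [FunLike.coe_smul, Pi.smul_apply, ContinuousLinearMap.coe_id', id_eq,
            smul_eq_mul]
          field_simp }
    have h1 := happ.surjOn_closedBall_of_nonlinearRightInverse inv hε0
      (closedBall_subset_ball hεR)
    have h2 : w ∈ closedBall (T p) (((inv.nnnorm : ℝ)⁻¹ - (⟨‖A‖ / 2, by positivity⟩ : ℝ≥0)) * ε) := by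
      rw [hTp, mem_closedBall_zero_iff]
      have e1 : (inv.nnnorm : ℝ) = ‖A‖⁻¹ := by
        change ‖A⁻¹‖ = ‖A‖⁻¹
        exact norm_inv A
      rw [e1, inv_inv]
      change ‖w‖ ≤ (‖A‖ - ‖A‖ / 2) * ε
      rw [hAn, hε]
      have : (6 / R - 6 / R / 2) * (‖w‖ * R / 3) = ‖w‖ := by
        field_simp
        ring
      rw [this]
    obtain ⟨z, hz, hzw⟩ := h1 h2
    exact ⟨z, closedBall_subset_ball hεR hz, hzw⟩
  choose! Ψ hΨm hΨT using hsurj
  have hΨinv : ∀ z ∈ ball p R, T z ∈ ball (0 : ℂ) 3 → Ψ (T z) = z := fun z hz h3 =>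
    hinjT (hΨm _ h3) hz (hΨT _ h3)
  have hpR : p ∈ ball p R := mem_ball_self hR
  have h03 : (0 : ℂ) ∈ ball (0 : ℂ) 3 := mem_ball_self (by norm_num)
  have hΨ0 : Ψ 0 = p := by
    have := hΨinv p hpR (by rw [hTp]; exact h03)
    rwa [hTp] at this
  have hder : ∀ w ∈ ball (0 : ℂ) 3, HasDerivAt Ψ (A * s (Ψ w))⁻¹ w := by
    intro w hw
    refine HasDerivAt.of_local_left_inverse (f := T) ?_ (hT _ (hΨm w hw))
      (mul_ne_zero hAne (hs0 _ (hΨm w hw))) ?_
    · rw [Metric.continuousAt_iff]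
      intro ε hε
      obtain ⟨d, hd, hdb⟩ := Metric.isOpen_iff.1 (isOpen_ball (x := (0 : ℂ)) (ε := 3)) w hw
      refine ⟨min d (‖A‖ / 2 * ε), by positivity, fun {w'} hw' => ?_⟩
      have hw'3 : w' ∈ ball (0 : ℂ) 3 := hdb (mem_ball.2 (hw'.trans_le (min_le_left _ _)))
      have h1 := hlow _ (hΨm w' hw'3) _ (hΨm w hw)
      rw [hΨT w' hw'3, hΨT w hw] at h1
      rw [dist_eq_norm] at hw' ⊢
      have h2 := hw'.trans_le (min_le_right _ _)
      have h3 : ‖A‖ / 2 * ‖Ψ w' - Ψ w‖ < ‖A‖ / 2 * ε := h1.trans_lt h2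
      exact lt_of_mul_lt_mul_left h3 (by positivity)
    · filter_upwards [isOpen_ball.mem_nhds hw] with y hy using hΨT y hy
  have hderiv : ∀ w ∈ ball (0 : ℂ) 3, deriv Ψ w = (A * s (Ψ w))⁻¹ := fun w hw => (hder w hw).deriv
  refine ⟨Ψ, hΨ0, fun w hw => (hder w hw).differentiableAt.differentiableWithinAt, ?_, hΨm, ?_, ?_, ?_⟩
  · intro x hx y hy hxy
    have := congrArg T hxy
    rwa [hΨT x hx, hΨT y hy] at this
  · intro w hw
    rw [hderiv w hw, inv_pow, mul_pow, hsq _ (hΨm w hw)]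
    have hφΨ : φ (Ψ w) ≠ 0 := by
      intro h0
      have := hclose _ (hΨm w hw)
      rw [h0, zero_div, zero_sub, norm_neg, norm_one] at this
      norm_num at this
    have hRne : (R : ℂ) ≠ 0 := by exact_mod_cast hR.ne'
    have hpn : (‖φ p‖ : ℂ) ≠ 0 := by exact_mod_cast (norm_pos_iff.2 hp).ne'
    have hA2 : A ^ 2 = φ p * 36 / (R ^ 2 * ‖φ p‖) := by
      rw [eq_div_iff (by positivity)]
      have := hAsq
      push_cast at this
      field_simp at this
      linear_combination this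
    rw [hA2]
    push_cast
    field_simp
  · intro w hw
    rw [hderiv w hw, norm_inv, norm_mul, hAn]
    obtain ⟨h1, h2⟩ := hsn _ (hΨm w hw)
    set x := ‖s (Ψ w)‖ with hx
    have hx0 : 0 ≤ x := norm_nonneg _
    have hxpos : 0 < x := by
      rcases hx0.eq_or_lt with h | h
      · rw [← h] at h1; norm_num at h1
      · exact h
    have hxu : x ≤ 4 / 3 := by nlinarith
    have hxl : 2 / 3 ≤ x := by nlinarith
    constructor
    · rw [le_inv_comm₀ (by positivity) (by positivity)]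
      rw [inv_div, div_mul_eq_mul_div]
      exact div_le_div_of_nonneg_right (by linarith) hR.le
    · rw [inv_le_comm₀ (by positivity) (by positivity)]
      rw [inv_div, div_mul_eq_mul_div]
      exact div_le_div_of_nonneg_right (by linarith) hR.le
  · intro ρ hρ hρ3 z hz
    have hzR : z ∈ ball p R := by
      rw [mem_ball] at *
      refine hz.trans_le ?_
      rw [div_le_iff₀ (by norm_num)]
      nlinarith
    have h1 : ‖T z - T p‖ ≤ 8 / R * ‖z - p‖ := by
      refine (convex_ball p R).norm_image_sub_le_of_norm_hasDerivWithin_le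
        (fun y hy => (hT y hy).hasDerivWithinAt) (fun y hy => ?_) hpR hzR
      rw [norm_mul, hAn]
      obtain ⟨-, h2⟩ := hsn _ hy
      have hx0 : 0 ≤ ‖s y‖ := norm_nonneg _
      have hxu : ‖s y‖ ≤ 4 / 3 := by nlinarith
      rw [div_mul_eq_mul_div]
      exact div_le_div_of_nonneg_right (by linarith) hR.le
    have h2 : T z ∈ ball (0 : ℂ) ρ := by
      rw [mem_ball_zero_iff]
      rw [hTp, sub_zero] at h1
      rw [mem_ball, dist_eq_norm] at hz
      refine h1.trans_lt ?_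
      calc 8 / R * ‖z - p‖ < 8 / R * (ρ * R / 8) := mul_lt_mul_of_pos_left hz (by positivity)
        _ = ρ := by field_simp
    exact ⟨T z, h2, hΨinv z hzR (ball_subset_ball hρ3 h2)⟩

end Pool.Agent.H.MP_09f213_an
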