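import Pool.Agent.H.MP_09f213_an.Local

/-! Closeness of `f_z` to a constant near a point, from average closeness. -/

open MeasureTheory Set Filter Topology Metric
open scoped ContDiff ENNReal NNReal Real

namespace Pool.Agent.H.MP_09f213_an

section
variable {Ω : Set ℂ} {f fx fy φ Ψ : ℂ → ℂ} {p : ℂ} {R R' : ℝ}

/-- A.e. statements push forward under the chart. -/
lemma chart_push (hc : IsChart φ p R Ψ) {P : ℂ → Prop} {ρ : ℝ} (hρ : 0 < ρ) (hρ3 : ρ ≤ 3)
    (h : ∀ᵐ w ∂(volume.restrict (ball (0 : ℂ) ρ)), P (Ψ w)) :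
    ∀ᵐ z ∂(volume.restrict (ball p (ρ * R / 8))), P z := by
  rw [ae_restrict_iff' measurableSet_ball, ae_iff] at h ⊢
  set S := {w | ¬(w ∈ ball (0 : ℂ) ρ → P (Ψ w))} with hS
  have hSsub : S ⊆ ball (0 : ℂ) 3 := by
    intro w hw
    simp only [hS, mem_ofPred_eq, Classical.not_imp] at hw
    exact ball_subset_ball hρ3 hw.1
  have hd : DifferentiableOn ℝ Ψ S := (hc.diff.mono hSsub).restrictScalars ℝ
  have h2 : volume (Ψ '' S) = 0 :=
    addHaar_image_eq_zero_of_differentiableOn_of_addHaar_eq_zero volume hd h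
  refine measure_mono_null ?_ h2
  intro z hz
  simp only [mem_ofPred_eq, Classical.not_imp] at hz
  obtain ⟨w, hw, rfl⟩ := hc.cover ρ hρ hρ3 hz.1
  refine ⟨w, ?_, rfl⟩
  simp only [hS, mem_ofPred_eq, Classical.not_imp]
  exact ⟨hw, hz.2⟩

lemma chart_deriv_lip (hc : IsChart φ p R Ψ) {w w' : ℂ} (hw : w ∈ ball (0 : ℂ) 1)
    (hw' : w' ∈ ball (0 : ℂ) 1) : ‖deriv Ψ w - deriv Ψ w'‖ ≤ R / 4 * ‖w - w'‖ := by
  have hd1 : DifferentiableOn ℂ (deriv Ψ) (ball 0 3) := hc.diff.deriv isOpen_ball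
  refine (convex_ball (0 : ℂ) 1).norm_image_sub_le_of_norm_deriv_le (f := deriv Ψ)
    (fun z hz => ?_) (fun z hz => ?_) hw' hw
  · have hz3 : z ∈ ball (0 : ℂ) 3 := ball_subset_ball (by norm_num) hz
    exact (hd1 z hz3).differentiableAt (isOpen_ball.mem_nhds hz3)
  · have hsub : closedBall z 1 ⊆ ball (0 : ℂ) 3 := by
      intro y hy
      rw [mem_closedBall, dist_eq_norm] at hy
      rw [mem_ball_zero_iff] at hz ⊢
      have : y = (y - z) + z := by ring
      rw [this]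
      exact (norm_add_le _ _).trans_lt (by linarith)
    have h1 := Complex.norm_deriv_le_of_forall_mem_sphere_norm_le (f := deriv Ψ) (c := z) (R := 1)
      (C := R / 4) one_pos ?_ ?_
    · simpa using h1
    · refine ⟨hd1.mono (ball_subset_closedBall.trans hsub), ?_⟩
      rw [closure_ball z one_ne_zero]
      exact hd1.continuousOn.mono hsub
    · intro y hy
      exact (hc.bd y (hsub (sphere_subset_closedBall hy))).2

/-- From average closeness to a constant to pointwise closeness. -/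
theorem chart_close {C : ℝ} (hC : 0 ≤ C) {ε : ℝ} (hε : 0 < ε) (hε1 : ε ≤ 1) :
    ∃ ρ1 τ : ℝ, 0 < ρ1 ∧ ρ1 < 1 / 2 ∧ 0 < τ ∧
      ∀ (Ω : Set ℂ) (f fx fy φ Ψ : ℂ → ℂ) (p : ℂ) (R R' : ℝ) (c : ℂ),
      LocDat Ω f fx fy φ p R R' → IsChart φ p R Ψ → φ p ≠ 0 → ‖φ p‖ ≤ 36 * ε ^ 2 → ‖c‖ ≤ C →
      (∫⁻ z in ball p R, ‖wz fx fy z - c‖ₑ ^ 2 ≤ ENNReal.ofReal (τ * R ^ 2)) →
      ∀ᵐ z ∂(volume.restrict (ball p (ρ1 * R / 8))), ‖wz fx fy z - c‖ ≤ 48 * ε := by
  set N : ℝ := 2 + 2 * C ^ 2 * π with hN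
  have hN0 : 0 ≤ N := by positivity
  obtain ⟨ρ0, h0, h1, H⟩ := chart_osc hN0 hε
  set ρ1 := min ρ0 (ε / (C + 1)) with hρ1
  have hρ1pos : 0 < ρ1 := by positivity
  have hρ1C : C * ρ1 ≤ ε := by
    have h2 : ρ1 ≤ ε / (C + 1) := min_le_right _ _
    calc C * ρ1 ≤ (C + 1) * (ε / (C + 1)) :=
          mul_le_mul (by linarith) h2 hρ1pos.le (by positivity)
      _ = ε := by field_simp
  set τ := min 1 (ε ^ 2 * ρ1 ^ 2) with hτ
  have hτ0 : 0 < τ := by positivity
  refine ⟨ρ1, τ, hρ1pos, (min_le_left _ _).trans_lt h1, hτ0, ?_⟩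
  intro Ω f fx fy φ Ψ p R R' c D hc hp hpε hcC hE
  have hR := D.hR
  have hε2 : ε ^ 2 ≤ 1 := pow_le_one₀ hε.le hε1
  have hE2 : ∫⁻ z in ball p R, ‖wz fx fy z‖ₑ ^ 2 ≤ ENNReal.ofReal (N * R ^ 2) := by
    calc ∫⁻ z in ball p R, ‖wz fx fy z‖ₑ ^ 2
        ≤ ∫⁻ z in ball p R, (2 * ‖wz fx fy z - c‖ₑ ^ 2 + ENNReal.ofReal (2 * C ^ 2)) := by
          refine lintegral_mono fun z => ?_
          dsimp only
          have h2 : (2 : ℝ≥0∞) = ENNReal.ofReal 2 := by norm_num
          rw [← ofReal_norm, ← ofReal_norm, ← ENNReal.ofReal_pow (norm_nonneg _),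
            ← ENNReal.ofReal_pow (norm_nonneg _), h2, ← ENNReal.ofReal_mul (by norm_num),
            ← ENNReal.ofReal_add (by positivity) (by positivity)]
          refine ENNReal.ofReal_le_ofReal ?_
          have h3 : ‖wz fx fy z‖ ≤ ‖wz fx fy z - c‖ + C :=
            (norm_le_norm_sub_add _ c).trans (by linarith)
          have h4 := pow_le_pow_left₀ (norm_nonneg _) h3 2
          nlinarith [sq_nonneg (‖wz fx fy z - c‖ - C)]
      _ = 2 * (∫⁻ z in ball p R, ‖wz fx fy z - c‖ₑ ^ 2) +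
            ENNReal.ofReal (2 * C ^ 2) * volume (ball p R) := by
          rw [lintegral_add_right _ measurable_const, lintegral_const,
            Measure.restrict_apply_univ, lintegral_const_mul' _ _ (by norm_num)]
      _ ≤ 2 * ENNReal.ofReal (τ * R ^ 2) + ENNReal.ofReal (2 * C ^ 2) * volume (ball p R) :=
          add_le_add (mul_le_mul_right hE _) le_rfl
      _ ≤ ENNReal.ofReal (N * R ^ 2) := by
          have h2 : (2 : ℝ≥0∞) = ENNReal.ofReal 2 := by norm_num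
          have h3 : volume (ball p R) = ENNReal.ofReal (R ^ 2 * π) := by
            rw [Complex.volume_ball, ENNReal.ofReal_mul (by positivity),
              ENNReal.ofReal_pow hR.le]
            congr 1
            rw [← NNReal.coe_real_pi, ENNReal.ofReal_coe_nnreal]
          rw [h3, h2, ← ENNReal.ofReal_mul (by norm_num), ← ENNReal.ofReal_mul (by positivity),
            ← ENNReal.ofReal_add (by positivity) (by positivity)]
          refine ENNReal.ofReal_le_ofReal ?_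
          have : τ ≤ 1 := min_le_left _ _
          have hR2 : 0 ≤ R ^ 2 := sq_nonneg _
          rw [hN]
          nlinarith
  obtain ⟨κ, hκ⟩ := H Ω f fx fy φ Ψ p R R' D hc hp
    (hpε.trans (by nlinarith)) hE2
  set κ' := -Complex.I * κ with hκ'
  -- `tzb` is small
  have hl0 : 0 < Real.sqrt (‖φ p‖ / 36) := Real.sqrt_pos.2 (by
    have := norm_pos_iff.2 hp; positivity)
  have hl2 : Real.sqrt (‖φ p‖ / 36) ^ 2 = ‖φ p‖ / 36 := Real.sq_sqrt (by positivity)
  have hrel := chart_rel D hc hl0 hl2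
  have hlε : Real.sqrt (‖φ p‖ / 36) ≤ ε := by
    rw [Real.sqrt_le_left hε.le]
    linarith
  have hsub : volume.restrict (ball (0 : ℂ) ρ1) ≤ volume.restrict (ball (0 : ℂ) 2) :=
    Measure.restrict_mono (ball_subset_ball (by
      have : ρ1 ≤ ρ0 := min_le_left _ _
      linarith)) le_rfl
  have hsub0 : volume.restrict (ball (0 : ℂ) ρ1) ≤ volume.restrict (ball (0 : ℂ) ρ0) :=
    Measure.restrict_mono (ball_subset_ball (min_le_left _ _)) le_rfl
  have hA : ∀ᵐ w ∂(volume.restrict (ball (0 : ℂ) ρ1)), ‖tz fx fy Ψ R w - κ'‖ ≤ 2 * ε := by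
    filter_upwards [ae_mono hsub0 hκ, ae_mono hsub hrel] with w h2 h3
    have h4 : ‖tzb fx fy Ψ R w‖ ≤ ε := by
      rw [h3.2, norm_mf hl0 h3.1]
      refine le_trans ?_ hlε
      rw [div_le_iff₀ (hl0.trans_le h3.1)]
      nlinarith [h3.1]
    have h5 : tz fx fy Ψ R w - κ' =
        -Complex.I * (Complex.I * (tz fx fy Ψ R w - tzb fx fy Ψ R w) - κ) + tzb fx fy Ψ R w := by
      rw [hκ']
      ring_nf
      rw [Complex.I_sq]
      ring
    rw [h5]
    refine (norm_add_le _ _).trans ?_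
    rw [norm_mul, norm_neg, Complex.norm_I, one_mul]
    linarith
  -- average closeness in the chart
  set h : ℂ → ℂ := fun w => c * deriv Ψ w / R with hh
  have hB : ∫⁻ w in ball (0 : ℂ) ρ1, ‖tz fx fy Ψ R w - h w‖ₑ ^ 2 ≤ ENNReal.ofReal τ := by
    calc ∫⁻ w in ball (0 : ℂ) ρ1, ‖tz fx fy Ψ R w - h w‖ₑ ^ 2
        ≤ ∫⁻ w in ball (0 : ℂ) 2, ‖tz fx fy Ψ R w - h w‖ₑ ^ 2 :=
          lintegral_mono' hsub le_rfl
      _ = ∫⁻ w in ball (0 : ℂ) 2, ENNReal.ofReal (‖deriv Ψ w‖ ^ 2 / R ^ 2) *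
            ‖wz fx fy (Ψ w) - c‖ₑ ^ 2 := by
          refine lintegral_congr fun w => ?_
          have e1 : tz fx fy Ψ R w - h w = (wz fx fy (Ψ w) - c) * deriv Ψ w / R := by
            simp only [hh]; unfold tz; ring
          rw [e1, ← ofReal_norm, ← ofReal_norm, ← ENNReal.ofReal_pow (norm_nonneg _),
            ← ENNReal.ofReal_pow (norm_nonneg _), ← ENNReal.ofReal_mul (by positivity)]
          congr 1
          rw [norm_div, norm_mul, Complex.norm_real, Real.norm_eq_abs, abs_of_pos hR]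
          ring
      _ ≤ ENNReal.ofReal (1 / R ^ 2) * ∫⁻ z in ball p R, ‖wz fx fy z - c‖ₑ ^ 2 :=
          chart_lintegral hR hc (fun z => ‖wz fx fy z - c‖ₑ ^ 2)
      _ ≤ ENNReal.ofReal (1 / R ^ 2) * ENNReal.ofReal (τ * R ^ 2) := mul_le_mul_right hE _
      _ = ENNReal.ofReal τ := by
          rw [← ENNReal.ofReal_mul (by positivity)]
          congr 1
          field_simp
  -- a good point
  have hexists : ∃ w ∈ ball (0 : ℂ) ρ1, ‖tz fx fy Ψ R w - κ'‖ ≤ 2 * ε ∧
      ‖tz fx fy Ψ R w - h w‖ ≤ ε := by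
    by_contra! hcon
    have hbad : ∀ᵐ w ∂(volume.restrict (ball (0 : ℂ) ρ1)), ε < ‖tz fx fy Ψ R w - h w‖ := by
      filter_upwards [hA, ae_restrict_mem measurableSet_ball] with w h2 h3
      exact hcon w h3 h2
    have h4 : ENNReal.ofReal (ε ^ 2) * volume (ball (0 : ℂ) ρ1) ≤ ENNReal.ofReal τ := by
      refine le_trans ?_ hB
      rw [← Measure.restrict_apply_univ, ← lintegral_const]
      refine lintegral_mono_ae ?_
      filter_upwards [hbad] with w hw
      rw [← ofReal_norm, ← ENNReal.ofReal_pow (norm_nonneg _)]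
      exact ENNReal.ofReal_le_ofReal (pow_le_pow_left₀ hε.le hw.le 2)
    have h5 : volume (ball (0 : ℂ) ρ1) = ENNReal.ofReal (ρ1 ^ 2 * π) := by
      rw [Complex.volume_ball, ENNReal.ofReal_mul (by positivity), ENNReal.ofReal_pow hρ1pos.le]
      congr 1
      rw [← NNReal.coe_real_pi, ENNReal.ofReal_coe_nnreal]
    rw [h5, ← ENNReal.ofReal_mul (by positivity), ENNReal.ofReal_le_ofReal_iff hτ0.le] at h4
    have h6 : τ ≤ ε ^ 2 * ρ1 ^ 2 := min_le_right _ _
    have h7 : 0 < ε ^ 2 * ρ1 ^ 2 := by positivity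
    have h8 : 3 < π := Real.pi_gt_three
    nlinarith
  obtain ⟨w0, hw0, hw1, hw2⟩ := hexists
  have hρ1one : ball (0 : ℂ) ρ1 ⊆ ball 0 1 := ball_subset_ball (by
    have : ρ1 ≤ ρ0 := min_le_left _ _
    linarith)
  have hfinal : ∀ᵐ w ∂(volume.restrict (ball (0 : ℂ) ρ1)), ‖wz fx fy (Ψ w) - c‖ ≤ 48 * ε := by
    filter_upwards [hA, ae_restrict_mem measurableSet_ball] with w h2 h3
    have hlip := chart_deriv_lip hc (hρ1one h3) (hρ1one hw0)
    have h4 : ‖w - w0‖ ≤ 2 * ρ1 := by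
      rw [mem_ball_zero_iff] at h3 hw0
      exact (norm_sub_le _ _).trans (by linarith)
    have h5 : ‖h w - h w0‖ ≤ ε := by
      have e1 : h w - h w0 = c * (deriv Ψ w - deriv Ψ w0) / R := by simp only [hh]; ring
      rw [e1, norm_div, norm_mul, Complex.norm_real, Real.norm_eq_abs, abs_of_pos hR,
        div_le_iff₀ hR]
      calc ‖c‖ * ‖deriv Ψ w - deriv Ψ w0‖ ≤ C * (R / 4 * (2 * ρ1)) := by
            refine mul_le_mul hcC (hlip.trans ?_) (norm_nonneg _) hC
            exact mul_le_mul_of_nonneg_left h4 (by positivity)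
        _ = (C * ρ1) * R / 2 := by ring
        _ ≤ ε * R := by
            have := mul_le_mul_of_nonneg_right hρ1C hR.le
            nlinarith [mul_pos hε hR]
    have h6 : ‖tz fx fy Ψ R w - h w‖ ≤ 6 * ε := by
      have e1 : tz fx fy Ψ R w - h w = (tz fx fy Ψ R w - κ') - (tz fx fy Ψ R w0 - κ') +
          (tz fx fy Ψ R w0 - h w0) - (h w - h w0) := by ring
      rw [e1]
      refine (norm_sub_le _ _).trans ?_
      have q1 := norm_add_le ((tz fx fy Ψ R w - κ') - (tz fx fy Ψ R w0 - κ'))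
        (tz fx fy Ψ R w0 - h w0)
      have q2 := norm_sub_le (tz fx fy Ψ R w - κ') (tz fx fy Ψ R w0 - κ')
      linarith
    have e2 : tz fx fy Ψ R w - h w = (wz fx fy (Ψ w) - c) * deriv Ψ w / R := by
      simp only [hh]; unfold tz; ring
    rw [e2, norm_div, norm_mul, Complex.norm_real, Real.norm_eq_abs, abs_of_pos hR,
      div_le_iff₀ hR] at h6
    have h7 := (hc.bd w (ball_subset_ball (by norm_num) (hρ1one h3))).1
    have h8 : ‖wz fx fy (Ψ w) - c‖ * (R / 8) ≤ 6 * ε * R :=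
      (mul_le_mul_of_nonneg_left h7 (norm_nonneg _)).trans h6
    have h9 : ‖wz fx fy (Ψ w) - c‖ * R ≤ 48 * ε * R := by linarith
    exact le_of_mul_le_mul_right h9 hR
  exact chart_push hc hρ1pos (by
    have : ρ1 ≤ ρ0 := min_le_left _ _
    linarith) hfinal

end

end Pool.Agent.H.MP_09f213_an
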