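import Pool.Agent.H.MP_09f213_an.Chart

/-! Change of variables under injective holomorphic maps. -/

open MeasureTheory Set Filter Topology Metric
open scoped ContDiff ENNReal NNReal Real

namespace Pool.Agent.H.MP_09f213_an

lemma det_of_mul {a : ℂ} {M : ℂ →L[ℝ] ℂ} (h : ∀ x, M x = a * x) : M.det = ‖a‖ ^ 2 := by
  have h1 : (M : ℂ →ₗ[ℝ] ℂ) = Algebra.lmul ℝ ℂ a := by
    refine LinearMap.ext fun x => ?_
    simp only [Algebra.coe_lmul_eq_mul, LinearMap.mul_apply']
    exact h x
  rw [ContinuousLinearMap.det, h1, ← Algebra.norm_apply, Algebra.norm_complex_apply,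
    Complex.normSq_eq_norm_sq]

/-- Change of variables under an injective holomorphic map. -/
theorem lintegral_comp_holomorphic {Ψ : ℂ → ℂ} {U : Set ℂ} (hU : IsOpen U)
    (hΨ : DifferentiableOn ℂ Ψ U) (hinj : InjOn Ψ U) (g : ℂ → ℝ≥0∞) :
    ∫⁻ w in U, ENNReal.ofReal (‖deriv Ψ w‖ ^ 2) * g (Ψ w) = ∫⁻ z in Ψ '' U, g z := by
  have hd : ∀ w ∈ U, HasFDerivWithinAt Ψ
      ((ContinuousLinearMap.toSpanSingleton ℂ (deriv Ψ w)).restrictScalars ℝ) U w := by
    intro w hw
    have h1 : HasDerivAt Ψ (deriv Ψ w) w :=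
      ((hΨ w hw).differentiableAt (hU.mem_nhds hw)).hasDerivAt
    exact (h1.hasFDerivAt.restrictScalars ℝ).hasFDerivWithinAt
  rw [lintegral_image_eq_lintegral_abs_det_fderiv_mul volume hU.measurableSet hd hinj]
  refine setLIntegral_congr_fun hU.measurableSet (fun w _ => ?_)
  rw [det_of_mul (a := deriv Ψ w), abs_of_nonneg (by positivity)]
  intro x
  simp [mul_comm]

/-- Null sets pull back to null sets. -/
theorem ae_comp_holomorphic {Ψ : ℂ → ℂ} {U V : Set ℂ} (hU : IsOpen U) (hV : MeasurableSet V)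
    (hΨ : DifferentiableOn ℂ Ψ U) (hinj : InjOn Ψ U) (hd : ∀ w ∈ U, deriv Ψ w ≠ 0)
    (hmaps : MapsTo Ψ U V) {P : ℂ → Prop} (hP : ∀ᵐ z ∂(volume.restrict V), P z) :
    ∀ᵐ w ∂(volume.restrict U), P (Ψ w) := by
  rw [ae_restrict_iff' hV, ae_iff] at hP
  set S := toMeasurable volume {z | ¬(z ∈ V → P z)} with hS
  have hSm : MeasurableSet S := measurableSet_toMeasurable _ _
  have hS0 : volume S = 0 := by rw [hS, measure_toMeasurable, hP]
  have h1 := lintegral_comp_holomorphic hU hΨ hinj (S.indicator fun _ => 1)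
  have h2 : ∫⁻ z in Ψ '' U, S.indicator (fun _ => (1 : ℝ≥0∞)) z = 0 := by
    rw [lintegral_indicator hSm]
    simp only [lintegral_const, one_mul, Measure.restrict_apply MeasurableSet.univ, univ_inter]
    rw [Measure.restrict_apply hSm]
    exact measure_mono_null inter_subset_left hS0
  rw [h2] at h1
  have hΨm : AEMeasurable Ψ (volume.restrict U) := hΨ.continuousOn.aemeasurable hU.measurableSet
  have hm : AEMeasurable (fun w => ENNReal.ofReal (‖deriv Ψ w‖ ^ 2) *
      S.indicator (fun _ => (1 : ℝ≥0∞)) (Ψ w)) (volume.restrict U) := by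
    refine AEMeasurable.mul ?_ ?_
    · exact ((measurable_deriv Ψ).norm.pow_const 2).ennreal_ofReal.aemeasurable
    · exact (measurable_const.indicator hSm).comp_aemeasurable hΨm
  rw [lintegral_eq_zero_iff' hm] at h1
  filter_upwards [h1, ae_restrict_mem hU.measurableSet] with w hw hwU
  simp only [Pi.zero_apply, mul_eq_zero, ENNReal.ofReal_eq_zero] at hw
  have h3 : 0 < ‖deriv Ψ w‖ ^ 2 := by
    have := norm_pos_iff.2 (hd w hwU)
    positivity
  have h4 : S.indicator (fun _ => (1 : ℝ≥0∞)) (Ψ w) = 0 := hw.resolve_left (not_le.2 h3)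
  have h5 : Ψ w ∉ S := by
    intro hmem
    rw [indicator_of_mem hmem] at h4
    exact one_ne_zero h4
  by_contra hcon
  refine h5 (subset_toMeasurable _ _ ?_)
  simp only [mem_ofPred_eq, Classical.not_imp]
  exact ⟨hmaps hwU, hcon⟩

/-- Chain rule for the Wirtinger derivatives. -/
theorem fderiv_comp_holomorphic {F Ψ : ℂ → ℂ} {w : ℂ} (hF : DifferentiableAt ℝ F (Ψ w))
    (hΨ : DifferentiableAt ℂ Ψ w) (e : ℂ) :
    fderiv ℝ (fun w => F (Ψ w)) w e = fderiv ℝ F (Ψ w) (deriv Ψ w * e) := by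
  have h1 : HasFDerivAt Ψ ((ContinuousLinearMap.toSpanSingleton ℂ (deriv Ψ w)).restrictScalars ℝ) w :=
    hΨ.hasDerivAt.hasFDerivAt.restrictScalars ℝ
  have h2 := hF.hasFDerivAt.comp w h1
  have h3 : fderiv ℝ (fun w => F (Ψ w)) w = (fderiv ℝ F (Ψ w)).comp
    ((ContinuousLinearMap.toSpanSingleton ℂ (deriv Ψ w)).restrictScalars ℝ) := h2.fderiv
  rw [h3]
  simp [mul_comm]

lemma clm_eq_dz (L : ℂ →L[ℝ] ℂ) (a : ℂ) : L a =
    (L 1 - Complex.I * L Complex.I) / 2 * a +
      (L 1 + Complex.I * L Complex.I) / 2 * (starRingEnd ℂ) a := by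
  have h : L a = a.re * L 1 + a.im * L Complex.I := by
    have : a = a.re • (1 : ℂ) + a.im • Complex.I := by
      apply Complex.ext <;> simp
    conv_lhs => rw [this, map_add, map_smul, map_smul]
    simp
  have h2 : a = a.re + a.im * Complex.I := (Complex.re_add_im a).symm
  have h3 : (starRingEnd ℂ) a = a.re - a.im * Complex.I := by
    apply Complex.ext <;> simp
  rw [h, h3]
  nth_rw 3 [h2]
  nth_rw 3 [h2]
  simp only [Complex.add_re, Complex.ofReal_re, Complex.mul_re, Complex.I_re, mul_zero,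
    Complex.ofReal_im, Complex.I_im, mul_one, sub_self, add_zero]
  ring_nf
  rw [Complex.I_sq]
  ring

/-- Extension of a smooth function on a ball. -/
lemma exists_smooth_ext {G : ℂ → ℂ} (hG : ContDiffOn ℝ 2 G (ball 0 3)) :
    ∃ H : ℂ → ℂ, ContDiff ℝ 2 H ∧ ∀ w ∈ ball (0 : ℂ) 2, H w = G w := by
  let b : ContDiffBump (0 : ℂ) := ⟨2, 5 / 2, by norm_num, by norm_num⟩
  refine ⟨fun w => (b w : ℝ) • G w, ?_, ?_⟩
  · rw [contDiff_iff_contDiffAt]
    intro w
    by_cases hw : w ∈ ball (0 : ℂ) 3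
    · exact (b.contDiffAt).smul (hG.contDiffAt (isOpen_ball.mem_nhds hw))
    · have h1 : (fun w => (b w : ℝ) • G w) =ᶠ[𝓝 w] fun _ => 0 := by
        have h2 : w ∈ (closedBall (0 : ℂ) (5 / 2))ᶜ := by
          intro h3
          apply hw
          rw [mem_closedBall_zero_iff] at h3
          rw [mem_ball_zero_iff]
          linarith
        filter_upwards [isClosed_closedBall.isOpen_compl.mem_nhds h2] with z hz
        have : b z = 0 := by
          refine b.zero_of_le_dist ?_
          rw [mem_compl_iff, mem_closedBall, not_le] at hz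
          exact hz.le
        rw [this, zero_smul]
      exact contDiffAt_const.congr_of_eventuallyEq h1
  · intro w hw
    have : b w = 1 := b.one_of_mem_closedBall (ball_subset_closedBall hw)
    simp only
    rw [this, one_smul]

end Pool.Agent.H.MP_09f213_an
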