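import Pool.Agent.H.MP_09f213_an.Cauchy

/-! Convolution of a locally integrable function with a smooth compactly supported one. -/

open MeasureTheory Set Filter Topology Metric
open scoped ContDiff ENNReal NNReal Real Convolution

namespace Pool.Agent.H.MP_09f213_an

/-- `cv f g z = ∫ f t g (z - t) dt` -/
noncomputable def cv (f g : ℂ → ℂ) (z : ℂ) : ℂ := ∫ t, f t * g (z - t)

lemma cv_eq (f g : ℂ → ℂ) :
    cv f g = (f ⋆[ContinuousLinearMap.mul ℝ ℂ, (volume : Measure ℂ)] g) := by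
  funext z
  unfold cv
  rw [convolution_def]
  rfl

lemma contDiff_cv {f g : ℂ → ℂ} (hf : LocallyIntegrable f) {n : ℕ∞} (hg : ContDiff ℝ n g)
    (hc : HasCompactSupport g) : ContDiff ℝ n (cv f g) := by
  rw [cv_eq]
  exact hc.contDiff_convolution_right _ hf hg

lemma integrable_cv {f g : ℂ → ℂ} (hf : LocallyIntegrable f) (hg : Continuous g)
    (hc : HasCompactSupport g) (z : ℂ) : Integrable fun t => f t * g (z - t) := by
  have h := hc.convolutionExists_right (ContinuousLinearMap.mul ℝ ℂ) hf hg z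
  exact h

lemma fderiv_cv {f g : ℂ → ℂ} (hf : LocallyIntegrable f) (hg : ContDiff ℝ 1 g)
    (hc : HasCompactSupport g) (z e : ℂ) :
    fderiv ℝ (cv f g) z e = ∫ t, f t * fderiv ℝ g (z - t) e := by
  rw [cv_eq, (hc.hasFDerivAt_convolution_right _ hf hg z).fderiv,
    convolution_precompR_apply _ hf (hc.fderiv ℝ) (hg.continuous_fderiv (by norm_num)),
    convolution_def]
  rfl

lemma dzb_cv {f g : ℂ → ℂ} (hf : LocallyIntegrable f) (hg : ContDiff ℝ 1 g)
    (hc : HasCompactSupport g) (z : ℂ) : dzb (cv f g) z = ∫ t, f t * dzb g (z - t) := by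
  have hcd : ∀ e : ℂ, Continuous fun w => fderiv ℝ g w e := fun e =>
    (hg.continuous_fderiv (by norm_num)).clm_apply continuous_const
  have hcs : ∀ e : ℂ, HasCompactSupport fun w => fderiv ℝ g w e := fun e => hc.fderiv_apply ℝ e
  have i1 := integrable_cv hf (hcd 1) (hcs 1) z
  have i2 := integrable_cv hf (hcd Complex.I) (hcs Complex.I) z
  unfold dzb
  rw [fderiv_cv hf hg hc, fderiv_cv hf hg hc, ← integral_const_mul, ← integral_add i1
    (i2.const_mul _), ← integral_div]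
  congr 1
  funext t
  ring

lemma dzb_mul {f g : ℂ → ℂ} {z : ℂ} (hf : DifferentiableAt ℝ f z) (hg : DifferentiableAt ℝ g z) :
    dzb (fun w => f w * g w) z = f z * dzb g z + g z * dzb f z := by
  unfold dzb
  have h : fderiv ℝ (fun w => f w * g w) z = f z • fderiv ℝ g z + g z • fderiv ℝ f z :=
    (hf.hasFDerivAt.mul hg.hasFDerivAt).fderiv
  rw [h]
  simp only [FunLike.coe_add, FunLike.coe_smul, Pi.add_apply, Pi.smul_apply, smul_eq_mul]
  ring

/-- Kernel `1/w` is locally integrable. -/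
lemma locallyIntegrable_inv : LocallyIntegrable (fun w : ℂ => (w : ℂ)⁻¹) := by
  refine locallyIntegrable_of_norm_le_rpow (E := ℂ) (C := 1) (α := 1) ?_ ?_ ?_ ?_
  · simp [Complex.finrank_real_complex]
  · simp [Complex.finrank_real_complex]
  · refine .of_forall fun w => ?_
    rw [norm_inv, Real.rpow_neg (norm_nonneg _), Real.rpow_one, one_mul]
  · exact (measurable_inv (G := ℂ)).aestronglyMeasurable

/-- The smooth Cauchy transform. -/
lemma cauchy_smooth {ψ : ℂ → ℂ} (hψ : ContDiff ℝ ((⊤ : ℕ∞) : WithTop ℕ∞) ψ)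
    (hc : HasCompactSupport ψ) :
    ∃ η : ℂ → ℂ, ContDiff ℝ ((⊤ : ℕ∞) : WithTop ℕ∞) η ∧ (∀ z, dzb η z = ψ z) ∧
      ∀ ξ, η ξ = (π : ℂ)⁻¹ * ∫ z, ψ z / (ξ - z) := by
  have hloc : LocallyIntegrable (fun w : ℂ => (π : ℂ)⁻¹ * w⁻¹) := by
    have := locallyIntegrable_inv.smul ((π : ℂ)⁻¹)
    exact this
  have hψ1 : ContDiff ℝ 1 ψ := hψ.of_le (by exact_mod_cast le_top)
  refine ⟨cv (fun w => (π : ℂ)⁻¹ * w⁻¹) ψ, contDiff_cv hloc hψ hc, ?_, ?_⟩
  · intro ξ
    rw [dzb_cv hloc hψ1 hc]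
    have h1 := cauchy_pompeiu hψ1 hc ξ
    have h2 : ∫ t, (π : ℂ)⁻¹ * t⁻¹ * dzb ψ (ξ - t) =
        ∫ w, (π : ℂ)⁻¹ * (ξ - w)⁻¹ * dzb ψ w := by
      rw [← integral_sub_left_eq_self _ _ ξ]
      congr 1
      funext w
      rw [sub_sub_cancel]
    rw [h2]
    have h3 : ∀ w, (π : ℂ)⁻¹ * (ξ - w)⁻¹ * dzb ψ w = -(π : ℂ)⁻¹ * (dzb ψ w / (w - ξ)) := by
      intro w
      rw [← neg_sub w ξ, inv_neg, div_eq_mul_inv]
      ring
    simp only [h3]
    rw [integral_const_mul, h1]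
    have : (π : ℂ) ≠ 0 := by exact_mod_cast Real.pi_ne_zero
    field_simp
  · intro ξ
    unfold cv
    rw [← integral_const_mul, ← integral_sub_left_eq_self _ _ ξ]
    congr 1
    funext w
    rw [sub_sub_cancel, div_eq_mul_inv]
    ring

end Pool.Agent.H.MP_09f213_an
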