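import Mathlib

/-! Wirtinger derivatives of maps `ℂ → ℂ` and their basic calculus. -/

open MeasureTheory Set Filter Topology Metric
open scoped ContDiff ENNReal NNReal

namespace Pool.Agent.H.MP_09f213_an

/-- `∂f/∂z = (f_x - i f_y) / 2` -/
noncomputable def dz (f : ℂ → ℂ) (z : ℂ) : ℂ :=
  (fderiv ℝ f z 1 - Complex.I * fderiv ℝ f z Complex.I) / 2

/-- `∂f/∂z̄ = (f_x + i f_y) / 2` -/
noncomputable def dzb (f : ℂ → ℂ) (z : ℂ) : ℂ :=
  (fderiv ℝ f z 1 + Complex.I * fderiv ℝ f z Complex.I) / 2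

end Pool.Agent.H.MP_09f213_an
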