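import Pool.Agent.H.MP_09f213_an.MaxP

/-! Vertical translates and vertical averages. -/

open MeasureTheory Set Filter Topology Metric
open scoped ContDiff ENNReal NNReal Real

namespace Pool.Agent.H.MP_09f213_an

/-- Vertical shift. -/
noncomputable def sh (t : ℝ) (w : ℂ) : ℂ := w + t * Complex.I

lemma continuous_sh (t : ℝ) : Continuous (sh t) := by unfold sh; fun_prop

lemma continuous_sh2 : Continuous fun p : ℂ × ℝ => sh p.2 p.1 := by unfold sh; fun_prop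

lemma sh_zero (w : ℂ) : sh 0 w = w := by simp [sh]

lemma sh_mem {t : ℝ} (h0 : 0 ≤ t) (h1 : t ≤ 1) {w : ℂ} (hw : w ∈ ball (0 : ℂ) 1) :
    sh t w ∈ ball (0 : ℂ) 2 := by
  rw [mem_ball_zero_iff] at *
  unfold sh
  refine (norm_add_le _ _).trans_lt ?_
  rw [norm_mul, Complex.norm_I, mul_one, Complex.norm_real, Real.norm_eq_abs, abs_of_nonneg h0]
  linarith

lemma lintegral_shift_le {t : ℝ} (h0 : 0 ≤ t) (h1 : t ≤ 1) (F : ℂ → ℝ≥0∞) :
    ∫⁻ w in ball (0 : ℂ) 1, F (sh t w) ≤ ∫⁻ w in ball (0 : ℂ) 2, F w := by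
  have h2 : ball ((t : ℂ) * Complex.I) 1 ⊆ ball (0 : ℂ) 2 := by
    intro z hz
    rw [mem_ball, dist_eq_norm] at hz
    have : z = sh t (z - t * Complex.I) := by simp [sh]
    rw [this]
    exact sh_mem h0 h1 (by rwa [mem_ball_zero_iff])
  refine le_trans ?_ (lintegral_mono_set h2)
  rw [← lintegral_indicator measurableSet_ball, ← lintegral_indicator measurableSet_ball,
    ← lintegral_add_right_eq_self ((ball ((t : ℂ) * Complex.I) 1).indicator F)
      ((t : ℂ) * Complex.I)]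
  refine lintegral_mono fun w => ?_
  by_cases hw : w ∈ ball (0 : ℂ) 1
  · rw [indicator_of_mem hw, indicator_of_mem]
    · rfl
    · rw [mem_ball, dist_eq_norm, add_sub_cancel_right]
      rwa [mem_ball_zero_iff] at hw
  · rw [indicator_of_notMem hw]
    exact zero_le

lemma sq_lintegral_le {f : ℝ → ℝ≥0∞} {s s' : ℝ} (hf : AEMeasurable f (volume.restrict (Ioc s s'))) :
    (∫⁻ t in Ioc s s', f t) ^ 2 ≤ ENNReal.ofReal (s' - s) * ∫⁻ t in Ioc s s', f t ^ 2 := by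
  have h := ENNReal.lintegral_mul_le_Lp_mul_Lq (volume.restrict (Ioc s s'))
    (Real.HolderConjugate.two_two) (f := fun _ => 1) (g := f) aemeasurable_const hf
  simp only [Pi.mul_apply, one_mul, ENNReal.one_rpow, lintegral_const, Measure.restrict_apply_univ,
    Real.volume_Ioc] at h
  have h2 := pow_le_pow_left₀ (zero_le) h 2
  refine h2.trans (le_of_eq ?_)
  rw [mul_pow, ← ENNReal.rpow_natCast, ← ENNReal.rpow_mul, ← ENNReal.rpow_natCast (_ ^ (1 / 2 : ℝ)),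
    ← ENNReal.rpow_mul]
  norm_num

lemma lintegral_avg_le {g : ℂ → ℂ} (hg : Measurable g) {s s' : ℝ} (h0 : 0 ≤ s)
    (h1 : s' ≤ 1) :
    ∫⁻ w in ball (0 : ℂ) 1, (∫⁻ t in Ioc s s', ‖g (sh t w)‖ₑ) ^ 2 ≤
      ENNReal.ofReal (s' - s) ^ 2 * ∫⁻ w in ball (0 : ℂ) 2, ‖g w‖ₑ ^ 2 := by
  have hm : Measurable fun p : ℂ × ℝ => ‖g (sh p.2 p.1)‖ₑ :=
    (hg.comp continuous_sh2.measurable).enorm
  have hm' : ∀ w, Measurable fun t : ℝ => ‖g (sh t w)‖ₑ := fun w => hm.comp measurable_prodMk_left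
  calc ∫⁻ w in ball (0 : ℂ) 1, (∫⁻ t in Ioc s s', ‖g (sh t w)‖ₑ) ^ 2
      ≤ ∫⁻ w in ball (0 : ℂ) 1, ENNReal.ofReal (s' - s) * ∫⁻ t in Ioc s s', ‖g (sh t w)‖ₑ ^ 2 :=
        lintegral_mono fun w => sq_lintegral_le (hm' w).aemeasurable
    _ = ENNReal.ofReal (s' - s) * ∫⁻ w in ball (0 : ℂ) 1, ∫⁻ t in Ioc s s', ‖g (sh t w)‖ₑ ^ 2 := by
        rw [lintegral_const_mul]
        exact (hm.pow_const 2).lintegral_prod_right'
    _ = ENNReal.ofReal (s' - s) * ∫⁻ t in Ioc s s', ∫⁻ w in ball (0 : ℂ) 1, ‖g (sh t w)‖ₑ ^ 2 := by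
        rw [lintegral_lintegral_swap]
        exact (hm.pow_const 2).aemeasurable
    _ ≤ ENNReal.ofReal (s' - s) * ∫⁻ t in Ioc s s', ∫⁻ w in ball (0 : ℂ) 2, ‖g w‖ₑ ^ 2 := by
        refine mul_le_mul_right ?_ _
        refine setLIntegral_mono' measurableSet_Ioc fun t ht => ?_
        exact lintegral_shift_le (h0.trans ht.1.le) (ht.2.trans h1) (fun w => ‖g w‖ₑ ^ 2)
    _ = _ := by
        rw [lintegral_const, Measure.restrict_apply_univ, Real.volume_Ioc]
        ring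

/-- Vertical integral. -/
noncomputable def vf (r : ℂ → ℂ) (s s' : ℝ) (w : ℂ) : ℂ := ∫ t in s..s', r (sh t w)

lemma enorm_vf_le (r : ℂ → ℂ) {s s' : ℝ} (hs : s ≤ s') (w : ℂ) :
    ‖vf r s s' w‖ₑ ≤ ∫⁻ t in Ioc s s', ‖r (sh t w)‖ₑ := by
  unfold vf
  rw [intervalIntegral.integral_of_le hs]
  exact enorm_integral_le_lintegral_enorm _

lemma measurable_vf {r : ℂ → ℂ} (hr : Measurable r) {s s' : ℝ} (hs : s ≤ s') :
    Measurable (vf r s s') := by
  unfold vf
  simp only [intervalIntegral.integral_of_le hs]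
  exact (((hr.comp continuous_sh2.measurable).stronglyMeasurable).integral_prod_right').measurable

lemma lintegral_vf_sq_le {r : ℂ → ℂ} (hr : Measurable r) {s s' : ℝ} (h0 : 0 ≤ s) (hs : s ≤ s')
    (h1 : s' ≤ 1) :
    ∫⁻ w in ball (0 : ℂ) 1, ‖vf r s s' w‖ₑ ^ 2 ≤
      ENNReal.ofReal (s' - s) ^ 2 * ∫⁻ w in ball (0 : ℂ) 2, ‖r w‖ₑ ^ 2 :=
  (lintegral_mono fun w => pow_le_pow_left₀ (zero_le) (enorm_vf_le r hs w) 2).trans
    (lintegral_avg_le hr h0 h1)

lemma memLp_two_iff {α E : Type*} [MeasurableSpace α] [NormedAddCommGroup E] {μ : Measure α}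
    {f : α → E} (hf : AEStronglyMeasurable f μ) :
    MemLp f 2 μ ↔ ∫⁻ x, ‖f x‖ₑ ^ 2 ∂μ < ⊤ := by
  rw [← eLpNorm_two_sq]
  constructor
  · intro h
    exact ENNReal.pow_lt_top h.2
  · intro h
    refine ⟨hf, ?_⟩
    by_contra hcon
    rw [not_lt, top_le_iff] at hcon
    rw [hcon] at h
    simp at h

lemma ae_integrable_line {r : ℂ → ℂ} (hr : Measurable r)
    (hr2 : MemLp r 2 (volume.restrict (ball (0 : ℂ) 2))) {s s' : ℝ} (h0 : 0 ≤ s) (hs : s ≤ s')
    (h1 : s' ≤ 1) :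
    ∀ᵐ w ∂(volume.restrict (ball (0 : ℂ) 1)), IntervalIntegrable (fun t => r (sh t w)) volume s s' := by
  have h := lintegral_avg_le hr h0 h1
  have h2 : ∫⁻ w in ball (0 : ℂ) 2, ‖r w‖ₑ ^ 2 < ⊤ := (memLp_two_iff hr2.1).1 hr2
  have h3 : ∫⁻ w in ball (0 : ℂ) 1, (∫⁻ t in Ioc s s', ‖r (sh t w)‖ₑ) ^ 2 ≠ ⊤ :=
    (h.trans_lt (ENNReal.mul_lt_top (ENNReal.pow_lt_top ENNReal.ofReal_lt_top) h2)).ne
  have hm : Measurable fun p : ℂ × ℝ => ‖r (sh p.2 p.1)‖ₑ :=
    (hr.comp continuous_sh2.measurable).enorm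
  have h4 := ae_lt_top (μ := volume.restrict (ball (0 : ℂ) 1))
    ((hm.lintegral_prod_right' (ν := volume.restrict (Ioc s s'))).pow_const 2) h3
  filter_upwards [h4] with w hw
  rw [intervalIntegrable_iff_integrableOn_Ioc_of_le hs]
  refine ⟨(hr.comp ((continuous_sh2.comp (Continuous.prodMk_right w)).measurable)).aestronglyMeasurable, ?_⟩
  unfold HasFiniteIntegral
  by_contra hcon
  rw [not_lt, top_le_iff] at hcon
  rw [hcon] at hw
  simp at hw

lemma hasDerivAt_line {F : ℂ → ℂ} (hF : ContDiff ℝ 1 F) (w : ℂ) (t : ℝ) :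
    HasDerivAt (fun t : ℝ => F (sh t w)) (fderiv ℝ F (sh t w) Complex.I) t := by
  have h1 : HasDerivAt (fun t : ℝ => sh t w) Complex.I t := by
    unfold sh
    have : HasDerivAt (fun t : ℝ => ((t : ℂ) * Complex.I)) Complex.I t := by
      simpa using (Complex.ofRealCLM.hasDerivAt (x := t)).mul_const Complex.I
    exact this.const_add w
  exact ((hF.differentiable (by norm_num) (sh t w)).hasFDerivAt).comp_hasDerivAt t h1

lemma sub_eq_vf {F : ℂ → ℂ} (hF : ContDiff ℝ 1 F) (w : ℂ) (s s' : ℝ) :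
    F (sh s' w) - F (sh s w) = vf (fun z => fderiv ℝ F z Complex.I) s s' w := by
  unfold vf
  rw [intervalIntegral.integral_eq_sub_of_hasDerivAt (fun t _ => hasDerivAt_line hF w t)]
  refine Continuous.intervalIntegrable ?_ _ _
  exact ((hF.continuous_fderiv (by norm_num)).comp
    (continuous_sh2.comp (Continuous.prodMk_right w))).clm_apply continuous_const

lemma L2Tendsto_vf {F : ℕ → ℂ → ℂ} {r : ℂ → ℂ} (hF : ∀ n, ContDiff ℝ 1 (F n)) (hr : Measurable r)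
    (hr2 : MemLp r 2 (volume.restrict (ball (0 : ℂ) 2)))
    (hc : L2Tendsto (volume.restrict (ball (0 : ℂ) 2)) (fun n z => fderiv ℝ (F n) z Complex.I) r)
    {s s' : ℝ} (h0 : 0 ≤ s) (hs : s ≤ s') (h1 : s' ≤ 1) :
    L2Tendsto (volume.restrict (ball (0 : ℂ) 1)) (fun n w => F n (sh s' w) - F n (sh s w))
      (vf r s s') := by
  rw [L2Tendsto_iff] at *
  have h2 : Tendsto (fun n => ENNReal.ofReal (s' - s) ^ 2 *
      ∫⁻ w in ball (0 : ℂ) 2, ‖fderiv ℝ (F n) w Complex.I - r w‖ₑ ^ 2) atTop (𝓝 0) := by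
    have := ENNReal.Tendsto.const_mul (a := ENNReal.ofReal (s' - s) ^ 2) hc
      (Or.inr (ENNReal.pow_ne_top ENNReal.ofReal_ne_top))
    simpa using this
  refine tendsto_of_tendsto_of_tendsto_of_le_of_le tendsto_const_nhds h2 (fun _ => zero_le)
    (fun n => ?_)
  have hcd : Continuous fun z => fderiv ℝ (F n) z Complex.I :=
    ((hF n).continuous_fderiv (by norm_num)).clm_apply continuous_const
  have hm : Measurable fun z => fderiv ℝ (F n) z Complex.I - r z := hcd.measurable.sub hr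
  refine le_trans (lintegral_mono_ae ?_) (lintegral_vf_sq_le hm h0 hs h1)
  filter_upwards [ae_integrable_line hr hr2 h0 hs h1] with w hw
  have : F n (sh s' w) - F n (sh s w) - vf r s s' w =
      vf (fun z => fderiv ℝ (F n) z Complex.I - r z) s s' w := by
    rw [sub_eq_vf (hF n)]
    unfold vf
    rw [intervalIntegral.integral_sub _ hw]
    refine Continuous.intervalIntegrable ?_ _ _
    exact hcd.comp (continuous_sh2.comp (Continuous.prodMk_right w))
  rw [this]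

lemma L2Tendsto_shift {E : Type*} [NormedAddCommGroup E] {G : ℕ → ℂ → E} {g : ℂ → E}
    (h : L2Tendsto (volume.restrict (ball (0 : ℂ) 2)) G g) {t : ℝ} (h0 : 0 ≤ t) (h1 : t ≤ 1) :
    L2Tendsto (volume.restrict (ball (0 : ℂ) 1)) (fun n w => G n (sh t w))
      (fun w => g (sh t w)) := by
  rw [L2Tendsto_iff] at *
  exact tendsto_of_tendsto_of_tendsto_of_le_of_le tendsto_const_nhds h (fun _ => zero_le)
    (fun n => lintegral_shift_le h0 h1 (fun w => ‖G n w - g w‖ₑ ^ 2))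

lemma memLp_shift {g : ℂ → ℂ} (hg : Measurable g)
    (h : MemLp g 2 (volume.restrict (ball (0 : ℂ) 2))) {t : ℝ} (h0 : 0 ≤ t) (h1 : t ≤ 1) :
    MemLp (fun w => g (sh t w)) 2 (volume.restrict (ball (0 : ℂ) 1)) := by
  refine (memLp_two_iff (hg.comp (continuous_sh t).measurable).aestronglyMeasurable).2 ?_
  exact (lintegral_shift_le h0 h1 (fun w => ‖g w‖ₑ ^ 2)).trans_lt ((memLp_two_iff h.1).1 h)

lemma fderiv_sh (F : ℂ → ℂ) (t : ℝ) (w : ℂ) :
    fderiv ℝ (fun w => F (sh t w)) w = fderiv ℝ F (sh t w) := by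
  unfold sh
  exact fderiv_comp_add_right _

end Pool.Agent.H.MP_09f213_an
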