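import Pool.Agent.H.MP_09f213_an.CL
import Pool.Agent.H.MP_09f213_an.Alg
import Pool.Agent.H.MP_09f213_an.Trans

/-! The energy estimate for vertical differences. -/

open MeasureTheory Set Filter Topology Metric
open scoped ContDiff ENNReal NNReal Real

namespace Pool.Agent.H.MP_09f213_an

lemma L2Tendsto.mul_bdd {α : Type*} [MeasurableSpace α] {μ : Measure α} {f : ℕ → α → ℝ}
    {g : α → ℝ} (h : L2Tendsto μ f g) (c : α → ℝ) (C : ℝ) (hc : ∀ x, |c x| ≤ C) (hC : 0 ≤ C) :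
    L2Tendsto μ (fun n x => c x * f n x) (fun x => c x * g x) := by
  refine h.of_le (⟨C, hC⟩ : ℝ≥0) (fun n => .of_forall fun x => ?_)
  rw [← mul_sub, norm_mul]
  exact mul_le_mul_of_nonneg_right (hc x) (norm_nonneg _)

lemma MemLp.mul_bdd' {α : Type*} [MeasurableSpace α] {μ : Measure α}
    {g : α → ℝ} (h : MemLp g 2 μ) {c : α → ℝ} {C : ℝ} (hcm : AEStronglyMeasurable c μ)
    (hc : ∀ x, |c x| ≤ C) : MemLp (fun x => c x * g x) 2 μ :=
  h.of_le_mul (c := C) (hcm.mul h.1) (.of_forall fun x => by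
    rw [norm_mul]
    exact mul_le_mul_of_nonneg_right (hc x) (norm_nonneg _))

/-- The null Lagrangian identity in the limit. -/
lemma wedge_limit {R : ℝ} {V : ℕ → ℂ → ℂ} {v vx vy : ℂ → ℂ} (hA : Approx R V v vx vy)
    {ψ : ℂ → ℝ} (hψ : ContDiff ℝ 1 ψ) (hψ0 : ∀ z ∉ ball (0 : ℂ) R, ψ z = 0)
    (hψ1 : ∀ z ∉ ball (0 : ℂ) R, ∀ e : ℂ, fderiv ℝ ψ z e = 0)
    {C : ℝ} (hC0 : ∀ z, |ψ z| ≤ C) (hC1 : ∀ z, |fderiv ℝ ψ z 1| ≤ C)
    (hC2 : ∀ z, |fderiv ℝ ψ z Complex.I| ≤ C) :
    ∫ z in ball (0 : ℂ) R, ψ z * ((vx z).re * (vy z).im - (vy z).re * (vx z).im) =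
      - ∫ z in ball (0 : ℂ) R, (v z).re * (fderiv ℝ ψ z 1 * (vy z).im -
        fderiv ℝ ψ z Complex.I * (vx z).im) := by
  have hC : 0 ≤ C := (abs_nonneg _).trans (hC0 0)
  set B : Set ℂ := ball (0 : ℂ) R with hB
  have hUd : ∀ n z, DifferentiableAt ℝ (V n) z := fun n z =>
    (hA.smooth n).differentiable (by norm_num) z
  have hUs : ∀ n, ContDiff ℝ 2 (fun z => (V n z).re) := fun n =>
    Complex.reCLM.contDiff.comp (hA.smooth n)
  have hYs : ∀ n, ContDiff ℝ 2 (fun z => (V n z).im) := fun n =>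
    Complex.imCLM.contDiff.comp (hA.smooth n)
  have hcd : ∀ n (e : ℂ), Continuous (fun z => fderiv ℝ (V n) z e) := fun n e =>
    ((hA.smooth n).continuous_fderiv (by norm_num)).clm_apply continuous_const
  have hψc : Continuous ψ := hψ.continuous
  have hψd : ∀ e : ℂ, Continuous (fun z => fderiv ℝ ψ z e) := fun e =>
    (hψ.continuous_fderiv (by norm_num)).clm_apply continuous_const
  have hΦs : ∀ n, ContDiff ℝ 1 (fun z => ψ z * (V n z).re) := fun n =>
    hψ.mul ((hUs n).of_le (by norm_num))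
  have hΦc : ∀ n, HasCompactSupport (fun z => ψ z * (V n z).re) := by
    intro n
    refine HasCompactSupport.intro (isCompact_closedBall (0 : ℂ) R) (fun z hz => ?_)
    rw [hψ0 z (fun h => hz (ball_subset_closedBall h)), zero_mul]
  have hΦd : ∀ n z (e : ℂ), fderiv ℝ (fun z => ψ z * (V n z).re) z e =
      ψ z * (fderiv ℝ (V n) z e).re + fderiv ℝ ψ z e * (V n z).re := by
    intro n z e
    have h1 := ((hψ.differentiable (by norm_num) z).hasFDerivAt).mul
      (((hUs n).differentiable (by norm_num) z).hasFDerivAt)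
    have h2 : fderiv ℝ (fun z => ψ z * (V n z).re) z = ψ z • fderiv ℝ (fun z => (V n z).re) z +
      (V n z).re • fderiv ℝ ψ z := h1.fderiv
    rw [h2]
    simp only [FunLike.coe_add, FunLike.coe_smul, Pi.add_apply, Pi.smul_apply, smul_eq_mul]
    rw [fderiv_re (hUd n z)]
    ring
  -- abbreviations
  have hi : ∀ {g : ℂ → ℝ}, Continuous g → Integrable g (volume.restrict B) := fun h =>
    integrableOn_ball_of_continuous h R
  have cre : ∀ n (e : ℂ), Continuous (fun z => (fderiv ℝ (V n) z e).re) := fun n e =>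
    Complex.continuous_re.comp (hcd n e)
  have cim : ∀ n (e : ℂ), Continuous (fun z => (fderiv ℝ (V n) z e).im) := fun n e =>
    Complex.continuous_im.comp (hcd n e)
  have cU : ∀ n, Continuous (fun z => (V n z).re) := fun n => (hUs n).continuous
  have hid : ∀ n, (∫ z in B, (ψ z * (fderiv ℝ (V n) z 1).re) * (fderiv ℝ (V n) z Complex.I).im) +
      (∫ z in B, (fderiv ℝ ψ z 1 * (V n z).re) * (fderiv ℝ (V n) z Complex.I).im) -
      (∫ z in B, (ψ z * (fderiv ℝ (V n) z Complex.I).re) * (fderiv ℝ (V n) z 1).im) -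
      (∫ z in B, (fderiv ℝ ψ z Complex.I * (V n z).re) * (fderiv ℝ (V n) z 1).im) = 0 := by
    intro n
    have h0 := integral_wedge_zero (hΦs n) (hΦc n) (hYs n)
    rw [← integral_add, ← integral_sub, ← integral_sub, ← integral_indicator measurableSet_ball]
    · rw [← h0]
      congr 1
      funext z
      rw [hΦd, hΦd, fderiv_im (hUd n z), fderiv_im (hUd n z)]
      rw [← hB]
      by_cases hz : z ∈ B
      · simp only [indicator_of_mem hz]
        ring
      · simp only [indicator_of_notMem hz]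
        rw [hψ0 z hz, hψ1 z hz, hψ1 z hz]
        ring
    · exact hi (((hψc.mul (cre n 1)).mul (cim n _)).add (((hψd 1).mul (cU n)).mul (cim n _)) |>.sub
        ((hψc.mul (cre n _)).mul (cim n 1)))
    · exact hi (((hψd _).mul (cU n)).mul (cim n 1))
    · exact hi (((hψc.mul (cre n 1)).mul (cim n _)).add (((hψd 1).mul (cU n)).mul (cim n _)))
    · exact hi ((hψc.mul (cre n _)).mul (cim n 1))
    · exact hi ((hψc.mul (cre n 1)).mul (cim n _))
    · exact hi (((hψd 1).mul (cU n)).mul (cim n _))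
  have hm : ∀ {g : ℂ → ℝ}, Continuous g → AEStronglyMeasurable g (volume.restrict B) :=
    fun h => h.aestronglyMeasurable
  -- limits
  have a1 : MemLp (fun z => ψ z * (vx z).re) 2 (volume.restrict B) :=
    MemLp.mul_bdd' hA.mx.re (hm hψc) hC0
  have a2 : MemLp (fun z => fderiv ℝ ψ z 1 * (v z).re) 2 (volume.restrict B) :=
    MemLp.mul_bdd' hA.mv.re (hm (hψd 1)) hC1
  have a3 : MemLp (fun z => ψ z * (vy z).re) 2 (volume.restrict B) :=
    MemLp.mul_bdd' hA.my.re (hm hψc) hC0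
  have a4 : MemLp (fun z => fderiv ℝ ψ z Complex.I * (v z).re) 2 (volume.restrict B) :=
    MemLp.mul_bdd' hA.mv.re (hm (hψd _)) hC2
  have l1 := (hA.cx.re.mul_bdd ψ C hC0 hC).integral_mul hA.cy.im
    (fun n => hm (hψc.mul (cre n 1))) (fun n => hm (cim n _)) a1 hA.my.im
  have l2 := (hA.cv.re.mul_bdd (fun z => fderiv ℝ ψ z 1) C hC1 hC).integral_mul hA.cy.im
    (fun n => hm ((hψd 1).mul (cU n))) (fun n => hm (cim n _)) a2 hA.my.im
  have l3 := (hA.cy.re.mul_bdd ψ C hC0 hC).integral_mul hA.cx.im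
    (fun n => hm (hψc.mul (cre n _))) (fun n => hm (cim n _)) a3 hA.mx.im
  have l4 := (hA.cv.re.mul_bdd (fun z => fderiv ℝ ψ z Complex.I) C hC2 hC).integral_mul hA.cx.im
    (fun n => hm ((hψd _).mul (cU n))) (fun n => hm (cim n _)) a4 hA.mx.im
  have l5 := (((l1.add l2).sub l3).sub l4).congr (fun n => hid n)
  have h6 := tendsto_nhds_unique l5 tendsto_const_nhds
  have i1 := a1.integrable_mul hA.my.im
  have i2 := a2.integrable_mul hA.my.im
  have i3 := a3.integrable_mul hA.mx.im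
  have i4 := a4.integrable_mul hA.mx.im
  have e1 : ∫ z in B, ψ z * ((vx z).re * (vy z).im - (vy z).re * (vx z).im) =
      (∫ z in B, (ψ z * (vx z).re) * (vy z).im) - ∫ z in B, (ψ z * (vy z).re) * (vx z).im := by
    rw [← integral_sub]
    · congr 1; funext z; ring
    · exact i1
    · exact i3
  have e2 : ∫ z in B, (v z).re * (fderiv ℝ ψ z 1 * (vy z).im -
        fderiv ℝ ψ z Complex.I * (vx z).im) =
      (∫ z in B, (fderiv ℝ ψ z 1 * (v z).re) * (vy z).im) -
        ∫ z in B, (fderiv ℝ ψ z Complex.I * (v z).re) * (vx z).im := by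
    rw [← integral_sub]
    · congr 1; funext z; ring
    · exact i2
    · exact i4
  rw [e1, e2]
  have h7 : (∫ z in B, (ψ z * (vx z).re) * (vy z).im) +
      (∫ z in B, (fderiv ℝ ψ z 1 * (v z).re) * (vy z).im) -
      (∫ z in B, (ψ z * (vy z).re) * (vx z).im) -
      (∫ z in B, (fderiv ℝ ψ z Complex.I * (v z).re) * (vx z).im) = 0 := h6
  linarith


/-- The data of the normalised problem (Hopf product equal to the constant `l²`). -/
structure Dat (l N : ℝ) (ζ : ℂ → ℂ) (F : ℕ → ℂ → ℂ) : Prop where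
  lpos : 0 < l
  lone : l ≤ 1
  meas : Measurable ζ
  ge : ∀ z, l ≤ ‖ζ z‖
  bd : ∫⁻ z in ball (0 : ℂ) 2, ‖ζ z‖ₑ ^ 2 ≤ ENNReal.ofReal N
  smooth : ∀ n, ContDiff ℝ 2 (F n)
  cx : L2Tendsto (volume.restrict (ball (0 : ℂ) 2)) (fun n z => fderiv ℝ (F n) z 1)
    (fun z => pf l (ζ z))
  cy : L2Tendsto (volume.restrict (ball (0 : ℂ) 2)) (fun n z => fderiv ℝ (F n) z Complex.I)
    (fun z => rf l (ζ z))

namespace Dat

variable {l N : ℝ} {ζ : ℂ → ℂ} {F : ℕ → ℂ → ℂ}

lemma memζ (D : Dat l N ζ F) : MemLp ζ 2 (volume.restrict (ball (0 : ℂ) 2)) :=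
  (memLp_two_iff D.meas.aestronglyMeasurable).2 (D.bd.trans_lt ENNReal.ofReal_lt_top)

lemma measr (D : Dat l N ζ F) : Measurable (fun z => rf l (ζ z)) := (measurable_rf l).comp D.meas

lemma measp (D : Dat l N ζ F) : Measurable (fun z => pf l (ζ z)) := (measurable_pf l).comp D.meas

lemma memr (D : Dat l N ζ F) : MemLp (fun z => rf l (ζ z)) 2 (volume.restrict (ball (0 : ℂ) 2)) :=
  D.memζ.mono D.measr.aestronglyMeasurable (.of_forall fun z => norm_rf_le D.lpos (D.ge z))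

lemma memp (D : Dat l N ζ F) : MemLp (fun z => pf l (ζ z)) 2 (volume.restrict (ball (0 : ℂ) 2)) :=
  D.memζ.of_le_mul (c := 2) D.measp.aestronglyMeasurable
    (.of_forall fun z => norm_pf_le D.lpos (D.ge z))

lemma bdr (D : Dat l N ζ F) :
    ∫⁻ z in ball (0 : ℂ) 2, ‖rf l (ζ z)‖ₑ ^ 2 ≤ ENNReal.ofReal N := by
  refine le_trans (lintegral_mono fun z => ?_) D.bd
  refine pow_le_pow_left₀ (zero_le) ?_ 2
  rw [← ofReal_norm, ← ofReal_norm]
  exact ENNReal.ofReal_le_ofReal (norm_rf_le D.lpos (D.ge z))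

/-- vertical difference -/
lemma approx (D : Dat l N ζ F) {s s' : ℝ} (h0 : 0 ≤ s) (hs : s ≤ s') (h1 : s' ≤ 1) :
    Approx 1 (fun n w => F n (sh s' w) - F n (sh s w)) (vf (fun z => rf l (ζ z)) s s')
      (fun w => pf l (ζ (sh s' w)) - pf l (ζ (sh s w)))
      (fun w => rf l (ζ (sh s' w)) - rf l (ζ (sh s w))) := by
  have hs0 : 0 ≤ s' := h0.trans hs
  have hs1 : s ≤ 1 := hs.trans h1
  have hF1 : ∀ n, ContDiff ℝ 1 (F n) := fun n => (D.smooth n).of_le (by norm_num)
  have hsh : ∀ t, ContDiff ℝ 2 (sh t) := fun t => by unfold sh; exact contDiff_id.add contDiff_const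
  have hFs : ∀ n t, ContDiff ℝ 2 (fun w => F n (sh t w)) := fun n t => (D.smooth n).comp (hsh t)
  have hfd : ∀ n (z e : ℂ), fderiv ℝ (fun w => F n (sh s' w) - F n (sh s w)) z e =
      fderiv ℝ (F n) (sh s' z) e - fderiv ℝ (F n) (sh s z) e := by
    intro n z e
    have h2 := ((((hFs n s').differentiable (by norm_num) z).hasFDerivAt).sub
      (((hFs n s).differentiable (by norm_num) z).hasFDerivAt)).fderiv
    have h3 : fderiv ℝ (fun w => F n (sh s' w) - F n (sh s w)) z =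
      fderiv ℝ (fun w => F n (sh s' w)) z - fderiv ℝ (fun w => F n (sh s w)) z := h2
    rw [h3, fderiv_sh, fderiv_sh]
    rfl
  have hcd : ∀ n (e : ℂ), Continuous (fun z => fderiv ℝ (F n) z e) := fun n e =>
    ((D.smooth n).continuous_fderiv (by norm_num)).clm_apply continuous_const
  refine ⟨fun n => (hFs n s').sub (hFs n s), ?_, ?_, ?_, ?_, ?_, ?_⟩
  · rw [memLp_two_iff (measurable_vf D.measr hs).aestronglyMeasurable]
    exact (lintegral_vf_sq_le D.measr h0 hs h1).trans_lt (ENNReal.mul_lt_top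
      (ENNReal.pow_lt_top ENNReal.ofReal_lt_top) (D.bdr.trans_lt ENNReal.ofReal_lt_top))
  · exact (memLp_shift D.measp D.memp hs0 h1).sub (memLp_shift D.measp D.memp h0 hs1)
  · exact (memLp_shift D.measr D.memr hs0 h1).sub (memLp_shift D.measr D.memr h0 hs1)
  · exact L2Tendsto_vf hF1 D.measr D.memr D.cy h0 hs h1
  · simp only [hfd]
    exact (L2Tendsto_shift D.cx hs0 h1).sub (L2Tendsto_shift D.cx h0 hs1)
      (fun n => ((hcd n 1).comp (continuous_sh s')).aestronglyMeasurable)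
      (fun n => ((hcd n 1).comp (continuous_sh s)).aestronglyMeasurable)
      (memLp_shift D.measp D.memp hs0 h1).1 (memLp_shift D.measp D.memp h0 hs1).1
  · simp only [hfd]
    exact (L2Tendsto_shift D.cy hs0 h1).sub (L2Tendsto_shift D.cy h0 hs1)
      (fun n => ((hcd n _).comp (continuous_sh s')).aestronglyMeasurable)
      (fun n => ((hcd n _).comp (continuous_sh s)).aestronglyMeasurable)
      (memLp_shift D.measr D.memr hs0 h1).1 (memLp_shift D.measr D.memr h0 hs1).1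

end Dat

/-- Cutoff function data. -/
structure Cut (η : ℂ → ℝ) (G : ℝ) : Prop where
  G0 : 0 ≤ G
  smooth : ContDiff ℝ 1 η
  nonneg : ∀ z, 0 ≤ η z
  le_one : ∀ z, η z ≤ 1
  one : ∀ z ∈ ball (0 : ℂ) (1 / 2), η z = 1
  zero : ∀ z ∉ ball (0 : ℂ) 1, η z = 0
  grad : ∀ z (e : ℂ), ‖e‖ ≤ 1 → |fderiv ℝ η z e| ≤ G

lemma exists_cut : ∃ (η : ℂ → ℝ) (G : ℝ), Cut η G := by
  let b : ContDiffBump (0 : ℂ) := ⟨1 / 2, 1, by norm_num, by norm_num⟩
  have hb : ContDiff ℝ 1 b := b.contDiff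
  have hcs : HasCompactSupport (fderiv ℝ b) := b.hasCompactSupport.fderiv (𝕜 := ℝ)
  have hcd : Continuous (fderiv ℝ b) := hb.continuous_fderiv (by norm_num)
  obtain ⟨G, hG⟩ := hcs.exists_bound_of_continuous hcd
  refine ⟨b, G, ⟨(norm_nonneg _).trans (hG 0), hb, fun z => b.nonneg, fun z => b.le_one, ?_, ?_, ?_⟩⟩
  · intro z hz
    exact b.one_of_mem_closedBall (ball_subset_closedBall hz)
  · intro z hz
    refine b.zero_of_le_dist ?_
    simpa using hz
  · intro z e he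
    calc |fderiv ℝ b z e| ≤ ‖fderiv ℝ b z‖ * ‖e‖ := (fderiv ℝ b z).le_opNorm e
      _ ≤ G * 1 := mul_le_mul (hG z) he (norm_nonneg _) ((norm_nonneg _).trans (hG 0))
      _ = G := mul_one _

/-- The localised energy. -/
noncomputable def En (l : ℝ) (η : ℂ → ℝ) (ζ : ℂ → ℂ) (s s' : ℝ) : ℝ≥0∞ :=
  ∫⁻ w in ball (0 : ℂ) 1, ENNReal.ofReal (η w ^ 2 * Pf l (ζ (sh s w)) (ζ (sh s' w)))

section energy

variable {l N : ℝ} {ζ : ℂ → ℂ} {F : ℕ → ℂ → ℂ} {η : ℂ → ℝ} {G : ℝ}

lemma energy_ineq (D : Dat l N ζ F) (c : Cut η G) {s s' : ℝ} (h0 : 0 ≤ s) (hs : s ≤ s')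
    (h1 : s' ≤ 1) : En l η ζ s s' ≤ ∫⁻ w in ball (0 : ℂ) 1, ENNReal.ofReal
      (8 * G * (η w * ‖vf (fun z => rf l (ζ z)) s s' w‖ * ‖ζ (sh s w) - ζ (sh s' w)‖)) := by
  have hA := D.approx h0 hs h1
  have hfd : ∀ z (e : ℂ), fderiv ℝ (fun z => η z ^ 2) z e = 2 * η z * fderiv ℝ η z e := by
    intro z e
    have h2 := (((c.smooth.differentiable (by norm_num) z).hasFDerivAt).pow 2).fderiv
    have h3 : fderiv ℝ (fun z => η z ^ 2) z = (2 • η z ^ (2 - 1)) • fderiv ℝ η z := h2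
    rw [h3]
    simp
  have habs : ∀ z, |η z| ≤ 1 := fun z => by
    rw [abs_of_nonneg (c.nonneg z)]; exact c.le_one z
  have hgr : ∀ z (e : ℂ), ‖e‖ ≤ 1 → |fderiv ℝ (fun z => η z ^ 2) z e| ≤ 2 * G := by
    intro z e he
    rw [hfd, abs_mul, abs_mul, abs_two]
    have h2 := c.grad z e he
    have h3 := mul_le_mul (habs z) h2 (abs_nonneg _) zero_le_one
    nlinarith
  have hid := wedge_limit hA (ψ := fun z => η z ^ 2) (c.smooth.pow 2)
    (fun z hz => by simp [c.zero z hz]) (fun z hz e => by rw [hfd, c.zero z hz]; ring)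
    (C := 1 + 2 * G) (fun z => by
      rw [abs_pow]
      have := pow_le_one₀ (abs_nonneg _) (habs z) (n := 2)
      linarith [c.G0])
    (fun z => (hgr z 1 (by simp)).trans (by linarith))
    (fun z => (hgr z Complex.I (by simp)).trans (by linarith))
  have hdet : ∀ w, (pf l (ζ (sh s' w)) - pf l (ζ (sh s w))).re *
      (rf l (ζ (sh s' w)) - rf l (ζ (sh s w))).im -
      (rf l (ζ (sh s' w)) - rf l (ζ (sh s w))).re *
      (pf l (ζ (sh s' w)) - pf l (ζ (sh s w))).im = Pf l (ζ (sh s w)) (ζ (sh s' w)) := fun w =>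
    det_eq_Pf l (norm_pos_iff.1 (D.lpos.trans_le (D.ge _)))
      (norm_pos_iff.1 (D.lpos.trans_le (D.ge _)))
  simp only [hdet] at hid
  have hs0 : 0 ≤ s' := h0.trans hs
  have hs1 : s ≤ 1 := hs.trans h1
  have hΔ : MemLp (fun w => ζ (sh s w) - ζ (sh s' w)) 2 (volume.restrict (ball (0 : ℂ) 1)) :=
    (memLp_shift D.meas D.memζ h0 hs1).sub (memLp_shift D.meas D.memζ hs0 h1)
  have hPm : Measurable fun w => Pf l (ζ (sh s w)) (ζ (sh s' w)) :=
    (measurable_Pf l).comp ((D.meas.comp (continuous_sh s).measurable).prodMk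
      (D.meas.comp (continuous_sh s').measurable))
  have hΔ2 : Integrable (fun w => ‖ζ (sh s w) - ζ (sh s' w)‖ ^ 2)
      (volume.restrict (ball (0 : ℂ) 1)) := hΔ.integrable_norm_pow (by norm_num)
  have hηm : Measurable η := c.smooth.continuous.measurable
  have hi1 : Integrable (fun w => η w ^ 2 * Pf l (ζ (sh s w)) (ζ (sh s' w)))
      (volume.restrict (ball (0 : ℂ) 1)) := by
    refine hΔ2.mono ((hηm.pow_const 2).mul hPm).aestronglyMeasurable (.of_forall fun w => ?_)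
    have hP := Pf_nonneg D.lpos (D.ge (sh s w)) (D.ge (sh s' w))
    rw [Real.norm_eq_abs, Real.norm_eq_abs, abs_of_nonneg (by positivity),
      abs_of_nonneg (by positivity)]
    calc η w ^ 2 * Pf l (ζ (sh s w)) (ζ (sh s' w)) ≤ 1 * Pf l (ζ (sh s w)) (ζ (sh s' w)) :=
          mul_le_mul_of_nonneg_right (pow_le_one₀ (c.nonneg w) (c.le_one w)) hP
      _ ≤ _ := by rw [one_mul]; exact Pf_le_sq
  have hi2 : Integrable (fun w => 8 * G * (η w * ‖vf (fun z => rf l (ζ z)) s s' w‖ *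
      ‖ζ (sh s w) - ζ (sh s' w)‖)) (volume.restrict (ball (0 : ℂ) 1)) := by
    refine Integrable.const_mul ?_ _
    have h2 : MemLp (fun w => η w * ‖vf (fun z => rf l (ζ z)) s s' w‖) 2
        (volume.restrict (ball (0 : ℂ) 1)) :=
      MemLp.mul_bdd' hA.mv.norm hηm.aestronglyMeasurable habs
    exact h2.integrable_mul hΔ.norm
  have hnn1 : ∀ w, 0 ≤ η w ^ 2 * Pf l (ζ (sh s w)) (ζ (sh s' w)) := fun w =>
    mul_nonneg (sq_nonneg _) (Pf_nonneg D.lpos (D.ge _) (D.ge _))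
  have hnn2 : ∀ w, 0 ≤ 8 * G * (η w * ‖vf (fun z => rf l (ζ z)) s s' w‖ *
      ‖ζ (sh s w) - ζ (sh s' w)‖) := fun w => by
    have := c.G0; have := c.nonneg w; positivity
  unfold En
  rw [← ofReal_integral_eq_lintegral_ofReal hi1 (.of_forall hnn1),
    ← ofReal_integral_eq_lintegral_ofReal hi2 (.of_forall hnn2)]
  refine ENNReal.ofReal_le_ofReal ?_
  rw [hid, ← integral_neg]
  have hm3 : Measurable (fun w => -((vf (fun z => rf l (ζ z)) s s' w).re *
      (fderiv ℝ (fun z => η z ^ 2) w 1 * (rf l (ζ (sh s' w)) - rf l (ζ (sh s w))).im -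
        fderiv ℝ (fun z => η z ^ 2) w Complex.I *
          (pf l (ζ (sh s' w)) - pf l (ζ (sh s w))).im))) := by
    have hcη : ∀ e : ℂ, Measurable fun w => fderiv ℝ (fun z => η z ^ 2) w e := fun e =>
      (((c.smooth.pow 2).continuous_fderiv (by norm_num)).clm_apply continuous_const).measurable
    have hr : ∀ t, Measurable fun w => rf l (ζ (sh t w)) := fun t =>
      D.measr.comp (continuous_sh t).measurable
    have hp : ∀ t, Measurable fun w => pf l (ζ (sh t w)) := fun t =>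
      D.measp.comp (continuous_sh t).measurable
    refine Measurable.neg ((Complex.measurable_re.comp (measurable_vf D.measr hs)).mul ?_)
    exact ((hcη 1).mul (Complex.measurable_im.comp ((hr s').sub (hr s)))).sub
      ((hcη _).mul (Complex.measurable_im.comp ((hp s').sub (hp s))))
  have hpt : ∀ w, |-((vf (fun z => rf l (ζ z)) s s' w).re *
      (fderiv ℝ (fun z => η z ^ 2) w 1 * (rf l (ζ (sh s' w)) - rf l (ζ (sh s w))).im -
        fderiv ℝ (fun z => η z ^ 2) w Complex.I *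
          (pf l (ζ (sh s' w)) - pf l (ζ (sh s w))).im))| ≤
      8 * G * (η w * ‖vf (fun z => rf l (ζ z)) s s' w‖ * ‖ζ (sh s w) - ζ (sh s' w)‖) := by
    intro w
    rw [abs_neg, abs_mul, hfd, hfd]
    have b1 := Complex.abs_re_le_norm (vf (fun z => rf l (ζ z)) s s' w)
    have b2 := (Complex.abs_im_le_norm (rf l (ζ (sh s' w)) - rf l (ζ (sh s w)))).trans
      (norm_rf_sub_le D.lpos (D.ge (sh s w)) (D.ge (sh s' w)))
    have b3 := (Complex.abs_im_le_norm (pf l (ζ (sh s' w)) - pf l (ζ (sh s w)))).trans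
      (norm_pf_sub_le D.lpos (D.ge (sh s w)) (D.ge (sh s' w)))
    have b4 := c.grad w 1 (by simp)
    have b5 := c.grad w Complex.I (by simp)
    have hη0 := c.nonneg w
    have hG := c.G0
    set Δ := ‖ζ (sh s w) - ζ (sh s' w)‖
    have hΔ0 : 0 ≤ Δ := norm_nonneg _
    have b6 : |2 * η w * fderiv ℝ η w 1 * (rf l (ζ (sh s' w)) - rf l (ζ (sh s w))).im -
        2 * η w * fderiv ℝ η w Complex.I * (pf l (ζ (sh s' w)) - pf l (ζ (sh s w))).im| ≤
        8 * G * (η w * Δ) := by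
      refine (abs_sub _ _).trans ?_
      simp only [abs_mul, abs_two, abs_of_nonneg hη0]
      have c1 := mul_le_mul b4 b2 (abs_nonneg _) hG
      have c2 := mul_le_mul b5 b3 (abs_nonneg _) hG
      nlinarith [mul_le_mul_of_nonneg_left c1 hη0, mul_le_mul_of_nonneg_left c2 hη0]
    calc _ ≤ ‖vf (fun z => rf l (ζ z)) s s' w‖ * (8 * G * (η w * Δ)) :=
          mul_le_mul b1 b6 (abs_nonneg _) (norm_nonneg _)
      _ = _ := by ring
  refine integral_mono (hi2.mono hm3.aestronglyMeasurable (.of_forall fun w => ?_)) hi2 ?_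
  · rw [Real.norm_eq_abs, Real.norm_eq_abs, abs_of_nonneg (hnn2 w)]
    exact hpt w
  · intro w
    exact (le_abs_self _).trans (hpt w)

end energy

end Pool.Agent.H.MP_09f213_an
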