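import Pool.Agent.H.MP_09f213_an.Energy

/-! Iteration of the energy estimate. -/

open MeasureTheory Set Filter Topology Metric
open scoped ContDiff ENNReal NNReal Real

namespace Pool.Agent.H.MP_09f213_an

section iter

variable {l N : ℝ} {ζ : ℂ → ℂ} {F : ℕ → ℂ → ℂ} {η : ℂ → ℝ} {G : ℝ}

/-- The inner integral `J`. -/
noncomputable def Jf (l : ℝ) (ζ : ℂ → ℂ) (s s' : ℝ) (w : ℂ) : ℝ≥0∞ :=
  ∫⁻ t in Ioc s s', ENNReal.ofReal (Pf l (ζ (sh s w)) (ζ (sh t w)) +
    Pf l (ζ (sh t w)) (ζ (sh s' w)))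

lemma ofReal_mul_enorm_vf_le (D : Dat l N ζ F) {s s' : ℝ} (hs : s ≤ s') (w : ℂ)
    (ha : ‖ζ (sh s w)‖ ≤ 2) (hb : ‖ζ (sh s' w)‖ ≤ 2) :
    ENNReal.ofReal (‖ζ (sh s w) - ζ (sh s' w)‖ ^ 2) * ‖vf (fun z => rf l (ζ z)) s s' w‖ₑ ≤
      8 * Jf l ζ s s' w := by
  have hm : Measurable fun t : ℝ => ‖rf l (ζ (sh t w))‖ₑ :=
    (D.measr.comp (continuous_sh2.comp (Continuous.prodMk_right w)).measurable).enorm
  calc ENNReal.ofReal (‖ζ (sh s w) - ζ (sh s' w)‖ ^ 2) * ‖vf (fun z => rf l (ζ z)) s s' w‖ₑ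
      ≤ ENNReal.ofReal (‖ζ (sh s w) - ζ (sh s' w)‖ ^ 2) * ∫⁻ t in Ioc s s', ‖rf l (ζ (sh t w))‖ₑ :=
        mul_le_mul_right (enorm_vf_le _ hs w) _
    _ = ∫⁻ t in Ioc s s', ENNReal.ofReal (‖ζ (sh s w) - ζ (sh s' w)‖ ^ 2) *
          ‖rf l (ζ (sh t w))‖ₑ := by
        rw [lintegral_const_mul _ hm]
    _ ≤ ∫⁻ t in Ioc s s', 8 * ENNReal.ofReal (Pf l (ζ (sh s w)) (ζ (sh t w)) +
          Pf l (ζ (sh t w)) (ζ (sh s' w))) := by
        refine lintegral_mono fun t => ?_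
        dsimp only
        rw [← ofReal_norm, ← ENNReal.ofReal_mul (sq_nonneg _)]
        have : (8 : ℝ≥0∞) = ENNReal.ofReal 8 := by norm_num
        rw [this, ← ENNReal.ofReal_mul (by norm_num)]
        refine ENNReal.ofReal_le_ofReal ?_
        rw [norm_rf D.lpos (D.ge _)]
        exact sq_mul_le_Pf D.lpos (D.ge _) (D.ge _) (D.ge _) ha hb
    _ = 8 * Jf l ζ s s' w := by
        unfold Jf
        rw [lintegral_const_mul]
        have hP : Measurable fun p : ℂ × ℂ => Pf l p.1 p.2 := measurable_Pf l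
        have hz : Measurable fun t : ℝ => ζ (sh t w) :=
          D.meas.comp (continuous_sh2.comp (Continuous.prodMk_right w)).measurable
        exact ((hP.comp (measurable_const.prodMk hz)).add
          (hP.comp (hz.prodMk measurable_const))).ennreal_ofReal

/-- The pointwise estimate. -/
lemma pointwise (D : Dat l N ζ F) {s s' : ℝ} (hs : s ≤ s') (w : ℂ) {K θ e : ℝ} (hK : 0 ≤ K)
    (hθ : 0 < θ) :
    ENNReal.ofReal (K * (e * ‖vf (fun z => rf l (ζ z)) s s' w‖ * ‖ζ (sh s w) - ζ (sh s' w)‖)) ≤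
      ENNReal.ofReal (1 / 2) * ENNReal.ofReal (e ^ 2 * Pf l (ζ (sh s w)) (ζ (sh s' w))) +
      ENNReal.ofReal (2 / 3 * K ^ 2) * ‖vf (fun z => rf l (ζ z)) s s' w‖ₑ ^ 2 +
      ENNReal.ofReal (4 * K * θ) * (ENNReal.ofReal (e ^ 2) * Jf l ζ s s' w) +
      ENNReal.ofReal (K / (2 * θ)) * ‖vf (fun z => rf l (ζ z)) s s' w‖ₑ := by
  set a := ζ (sh s w) with ha
  set b := ζ (sh s' w) with hb
  set v := vf (fun z => rf l (ζ z)) s s' w with hv
  have hP := Pf_nonneg D.lpos (D.ge (sh s w)) (D.ge (sh s' w))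
  rw [← ha, ← hb] at hP
  by_cases hcase : 2 ≤ ‖a‖ ∨ 2 ≤ ‖b‖
  · have h1 := sq_le_Pf_of_large D.lpos D.lone (D.ge (sh s w)) (D.ge (sh s' w)) hcase
    rw [← ha, ← hb] at h1
    have h2 : K * (e * ‖v‖ * ‖a - b‖) ≤ 1 / 2 * (e ^ 2 * Pf l a b) + 2 / 3 * K ^ 2 * ‖v‖ ^ 2 := by
      nlinarith [sq_nonneg (3 / 4 * (e * ‖a - b‖) - K * ‖v‖),
        mul_le_mul_of_nonneg_left h1 (sq_nonneg e)]
    refine (ENNReal.ofReal_le_ofReal h2).trans ?_
    rw [ENNReal.ofReal_add (by positivity) (by positivity), ENNReal.ofReal_mul (by norm_num),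
      ENNReal.ofReal_mul (show 0 ≤ 2 / 3 * K ^ 2 by positivity),
      ENNReal.ofReal_pow (norm_nonneg v), ofReal_norm]
    rw [add_assoc]
    exact le_self_add
  · push Not at hcase
    have h3 := ofReal_mul_enorm_vf_le D hs w hcase.1.le hcase.2.le
    rw [← ha, ← hb, ← hv] at h3
    have h2 : K * (e * ‖v‖ * ‖a - b‖) ≤ K * (θ / 2) * e ^ 2 * (‖a - b‖ ^ 2 * ‖v‖) +
        K / (2 * θ) * ‖v‖ := by
      have h4 : e * ‖a - b‖ ≤ θ / 2 * (e * ‖a - b‖) ^ 2 + 1 / (2 * θ) := by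
        have h5 : 0 ≤ (θ * (e * ‖a - b‖) - 1) ^ 2 / (2 * θ) := by positivity
        have h6 : (θ * (e * ‖a - b‖) - 1) ^ 2 / (2 * θ) =
          θ / 2 * (e * ‖a - b‖) ^ 2 - e * ‖a - b‖ + 1 / (2 * θ) := by
          field_simp
          ring
        linarith
      have h7 := mul_le_mul_of_nonneg_left h4 (mul_nonneg hK (norm_nonneg v))
      calc K * (e * ‖v‖ * ‖a - b‖) = K * ‖v‖ * (e * ‖a - b‖) := by ring
        _ ≤ _ := h7
        _ = _ := by field_simp
    refine (ENNReal.ofReal_le_ofReal h2).trans ?_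
    rw [ENNReal.ofReal_add (by positivity) (by positivity),
      ENNReal.ofReal_mul (show 0 ≤ K * (θ / 2) * e ^ 2 by positivity),
      ENNReal.ofReal_mul (sq_nonneg _), ENNReal.ofReal_mul (show 0 ≤ K / (2 * θ) by positivity),
      ofReal_norm]
    refine add_le_add_left ?_ _
    have h8 : ENNReal.ofReal (K * (θ / 2) * e ^ 2) * (8 * Jf l ζ s s' w) =
        ENNReal.ofReal (4 * K * θ) * (ENNReal.ofReal (e ^ 2) * Jf l ζ s s' w) := by
      have : (8 : ℝ≥0∞) = ENNReal.ofReal 8 := by norm_num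
      rw [this, ← mul_assoc, ← mul_assoc, ← ENNReal.ofReal_mul (by positivity),
        ← ENNReal.ofReal_mul (by positivity)]
      congr 2
      ring
    calc ENNReal.ofReal (K * (θ / 2) * e ^ 2) * (ENNReal.ofReal (‖a - b‖ ^ 2) * ‖v‖ₑ)
        ≤ ENNReal.ofReal (K * (θ / 2) * e ^ 2) * (8 * Jf l ζ s s' w) := mul_le_mul_right h3 _
      _ = _ := h8
      _ ≤ _ := le_add_self

lemma lintegral_sq_enorm_vf (D : Dat l N ζ F) {s s' : ℝ} (h0 : 0 ≤ s) (hs : s ≤ s')
    (h1 : s' ≤ 1) : ∫⁻ w in ball (0 : ℂ) 1, ‖vf (fun z => rf l (ζ z)) s s' w‖ₑ ^ 2 ≤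
      ENNReal.ofReal ((s' - s) ^ 2 * N) := by
  refine (lintegral_vf_sq_le D.measr h0 hs h1).trans ?_
  rw [ENNReal.ofReal_mul (sq_nonneg _), ENNReal.ofReal_pow (sub_nonneg.2 hs)]
  exact mul_le_mul_right D.bdr _

lemma lintegral_enorm_vf (D : Dat l N ζ F) (hN : 0 ≤ N) {s s' : ℝ} (h0 : 0 ≤ s) (hs : s < s')
    (h1 : s' ≤ 1) : ∫⁻ w in ball (0 : ℂ) 1, ‖vf (fun z => rf l (ζ z)) s s' w‖ₑ ≤
      ENNReal.ofReal ((s' - s) * ((π + N) / 2)) := by
  set h := s' - s with hh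
  have hp : 0 < h := sub_pos.2 hs
  calc ∫⁻ w in ball (0 : ℂ) 1, ‖vf (fun z => rf l (ζ z)) s s' w‖ₑ
      ≤ ∫⁻ w in ball (0 : ℂ) 1, (ENNReal.ofReal (h / 2) +
        ENNReal.ofReal (1 / (2 * h)) * ‖vf (fun z => rf l (ζ z)) s s' w‖ₑ ^ 2) := by
        refine lintegral_mono fun w => ?_
        dsimp only
        set v := vf (fun z => rf l (ζ z)) s s' w
        rw [← ofReal_norm, ← ENNReal.ofReal_pow (norm_nonneg _), ← ENNReal.ofReal_mul (by positivity),
          ← ENNReal.ofReal_add (by positivity) (by positivity)]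
        refine ENNReal.ofReal_le_ofReal ?_
        have h5 : 0 ≤ (‖v‖ - h) ^ 2 / (2 * h) := by positivity
        have h6 : (‖v‖ - h) ^ 2 / (2 * h) = h / 2 + 1 / (2 * h) * ‖v‖ ^ 2 - ‖v‖ := by
          field_simp
          ring
        linarith
    _ = ENNReal.ofReal (h / 2) * volume (ball (0 : ℂ) 1) + ENNReal.ofReal (1 / (2 * h)) *
          ∫⁻ w in ball (0 : ℂ) 1, ‖vf (fun z => rf l (ζ z)) s s' w‖ₑ ^ 2 := by
        rw [lintegral_add_left measurable_const, lintegral_const, Measure.restrict_apply_univ,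
          lintegral_const_mul]
        exact (measurable_vf D.measr hs.le).enorm.pow_const 2
    _ ≤ ENNReal.ofReal (h / 2) * ENNReal.ofReal π + ENNReal.ofReal (1 / (2 * h)) *
          ENNReal.ofReal (h ^ 2 * N) := by
        refine add_le_add ?_ (mul_le_mul_right (lintegral_sq_enorm_vf D h0 hs.le h1) _)
        rw [Complex.volume_ball]
        simp only [ENNReal.ofReal_one, one_pow, one_mul]
        refine mul_le_mul_right (le_of_eq ?_) _
        rw [← NNReal.coe_real_pi, ENNReal.ofReal_coe_nnreal]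
    _ = ENNReal.ofReal (h * ((π + N) / 2)) := by
        rw [← ENNReal.ofReal_mul (by positivity), ← ENNReal.ofReal_mul (by positivity),
          ← ENNReal.ofReal_add (by positivity) (by positivity)]
        congr 1
        field_simp

lemma meas_fix (D : Dat l N ζ F) (s : ℝ) : Measurable fun p : ℂ × ℝ => ζ (sh s p.1) :=
  D.meas.comp ((continuous_sh s).measurable.comp measurable_fst)

lemma meas_var (D : Dat l N ζ F) : Measurable fun p : ℂ × ℝ => ζ (sh p.2 p.1) :=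
  D.meas.comp continuous_sh2.measurable

attribute [local irreducible] sh Pf rf pf mf vf

lemma meas_P1 (D : Dat l N ζ F) (s : ℝ) :
    Measurable fun p : ℂ × ℝ => Pf l (ζ (sh s p.1)) (ζ (sh p.2 p.1)) :=
  (measurable_Pf l).comp ((meas_fix D s).prodMk (meas_var D))

lemma meas_P2 (D : Dat l N ζ F) (s' : ℝ) :
    Measurable fun p : ℂ × ℝ => Pf l (ζ (sh p.2 p.1)) (ζ (sh s' p.1)) :=
  (measurable_Pf l).comp ((meas_var D).prodMk (meas_fix D s'))

lemma meas_P0 (D : Dat l N ζ F) (s s' : ℝ) :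
    Measurable fun w : ℂ => Pf l (ζ (sh s w)) (ζ (sh s' w)) :=
  (measurable_Pf l).comp ((D.meas.comp (continuous_sh s).measurable).prodMk
    (D.meas.comp (continuous_sh s').measurable))

lemma lintegral_J (D : Dat l N ζ F) (c : Cut η G) (s s' : ℝ) :
    ∫⁻ w in ball (0 : ℂ) 1, ENNReal.ofReal (η w ^ 2) * Jf l ζ s s' w =
      ∫⁻ t in Ioc s s', (En l η ζ s t + En l η ζ t s') := by
  have hη : Measurable η := c.smooth.continuous.measurable
  have m1 := meas_P1 D s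
  have m2 := meas_P2 D s'
  set A : ℂ × ℝ → ℝ := fun p => Pf l (ζ (sh s p.1)) (ζ (sh p.2 p.1)) with hA
  set B : ℂ × ℝ → ℝ := fun p => Pf l (ζ (sh p.2 p.1)) (ζ (sh s' p.1)) with hB
  have hA0 : ∀ p, 0 ≤ A p := fun p => Pf_nonneg D.lpos (D.ge _) (D.ge _)
  have hB0 : ∀ p, 0 ≤ B p := fun p => Pf_nonneg D.lpos (D.ge _) (D.ge _)
  have e1 : ∀ w, ENNReal.ofReal (η w ^ 2) * Jf l ζ s s' w = ∫⁻ t in Ioc s s',
      (ENNReal.ofReal (η w ^ 2 * A (w, t)) + ENNReal.ofReal (η w ^ 2 * B (w, t))) := by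
    intro w
    have e0 : Jf l ζ s s' w = ∫⁻ t in Ioc s s', ENNReal.ofReal (A (w, t) + B (w, t)) := rfl
    rw [e0, ← lintegral_const_mul]
    · refine lintegral_congr fun t => ?_
      rw [← ENNReal.ofReal_mul (sq_nonneg _), mul_add,
        ENNReal.ofReal_add (mul_nonneg (sq_nonneg _) (hA0 _)) (mul_nonneg (sq_nonneg _) (hB0 _))]
    · exact ((m1.add m2).comp measurable_prodMk_left).ennreal_ofReal
  have e2 : ∀ t, En l η ζ s t = ∫⁻ w in ball (0 : ℂ) 1, ENNReal.ofReal (η w ^ 2 * A (w, t)) :=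
    fun t => rfl
  have e3 : ∀ t, En l η ζ t s' = ∫⁻ w in ball (0 : ℂ) 1, ENNReal.ofReal (η w ^ 2 * B (w, t)) :=
    fun t => rfl
  simp only [e1, e2, e3]
  clear_value A B
  have n1 : Measurable fun p : ℂ × ℝ => ENNReal.ofReal (η p.1 ^ 2 * A p) :=
    (((hη.comp measurable_fst).pow_const 2).mul m1).ennreal_ofReal
  have n2 : Measurable fun p : ℂ × ℝ => ENNReal.ofReal (η p.1 ^ 2 * B p) :=
    (((hη.comp measurable_fst).pow_const 2).mul m2).ennreal_ofReal
  rw [lintegral_lintegral_swap (n1.add n2).aemeasurable]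
  refine lintegral_congr fun t => ?_
  rw [lintegral_add_left]
  exact n1.comp measurable_prodMk_right

lemma lintegral_four {α : Type*} [MeasurableSpace α] (μ : Measure α) {f1 f2 f3 f4 : α → ℝ≥0∞}
    (c1 c2 c3 c4 : ℝ≥0∞) (h1 : Measurable f1) (h2 : Measurable f2) (h3 : Measurable f3)
    (h4 : Measurable f4) :
    ∫⁻ w, (c1 * f1 w + c2 * f2 w + c3 * f3 w + c4 * f4 w) ∂μ =
      c1 * (∫⁻ w, f1 w ∂μ) + c2 * (∫⁻ w, f2 w ∂μ) + c3 * (∫⁻ w, f3 w ∂μ) +
        c4 * (∫⁻ w, f4 w ∂μ) := by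
  rw [lintegral_add_right _ (h4.const_mul _), lintegral_add_right _ (h3.const_mul _),
    lintegral_add_right _ (h2.const_mul _), lintegral_const_mul _ h1, lintegral_const_mul _ h2,
    lintegral_const_mul _ h3, lintegral_const_mul _ h4]

lemma En_step (D : Dat l N ζ F) (c : Cut η G) (hN : 0 ≤ N) {K θ : ℝ} (hK : 8 * G ≤ K)
    (hθ : 0 < θ) {s s' : ℝ} (h0 : 0 ≤ s) (hs : s < s') (h1 : s' ≤ 1) :
    En l η ζ s s' ≤ ENNReal.ofReal (1 / 2) * En l η ζ s s' +
      ENNReal.ofReal (2 / 3 * K ^ 2 * ((s' - s) ^ 2 * N)) +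
      ENNReal.ofReal (4 * K * θ) * (∫⁻ t in Ioc s s', (En l η ζ s t + En l η ζ t s')) +
      ENNReal.ofReal (K / (2 * θ) * ((s' - s) * ((π + N) / 2))) := by
  have hG := c.G0
  have hK0 : 0 ≤ K := by linarith
  have hη : Measurable η := c.smooth.continuous.measurable
  have m0 := meas_P0 D s s'
  have m1 : Measurable fun w => ENNReal.ofReal (η w ^ 2 * Pf l (ζ (sh s w)) (ζ (sh s' w))) :=
    ((hη.pow_const 2).mul m0).ennreal_ofReal
  have mv : Measurable fun w => ‖vf (fun z => rf l (ζ z)) s s' w‖ₑ :=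
    (measurable_vf D.measr hs.le).enorm
  have mJ : Measurable fun w => ENNReal.ofReal (η w ^ 2) * Jf l ζ s s' w := by
    refine (hη.pow_const 2).ennreal_ofReal.mul ?_
    unfold Jf
    have j1 := meas_P1 D s
    have j2 := meas_P2 D s'
    exact ((j1.add j2).ennreal_ofReal).lintegral_prod_right'
  have hpt : ∀ w, ENNReal.ofReal
        (8 * G * (η w * ‖vf (fun z => rf l (ζ z)) s s' w‖ * ‖ζ (sh s w) - ζ (sh s' w)‖)) ≤
      ENNReal.ofReal (1 / 2) *
        ENNReal.ofReal (η w ^ 2 * Pf l (ζ (sh s w)) (ζ (sh s' w))) +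
      ENNReal.ofReal (2 / 3 * K ^ 2) * ‖vf (fun z => rf l (ζ z)) s s' w‖ₑ ^ 2 +
      ENNReal.ofReal (4 * K * θ) * (ENNReal.ofReal (η w ^ 2) * Jf l ζ s s' w) +
      ENNReal.ofReal (K / (2 * θ)) * ‖vf (fun z => rf l (ζ z)) s s' w‖ₑ := by
    intro w
    refine le_trans ?_ (pointwise D hs.le w hK0 hθ)
    refine ENNReal.ofReal_le_ofReal ?_
    have := c.nonneg w
    exact mul_le_mul_of_nonneg_right hK (by positivity)
  have hE := (energy_ineq D c h0 hs.le h1).trans (lintegral_mono hpt)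
  rw [lintegral_four (volume.restrict (ball (0 : ℂ) 1)) _ _ _ _ m1 (mv.pow_const 2) mJ mv] at hE
  refine hE.trans ?_
  rw [lintegral_J D c]
  refine add_le_add (add_le_add (add_le_add le_rfl ?_) le_rfl) ?_
  · rw [ENNReal.ofReal_mul (show 0 ≤ 2 / 3 * K ^ 2 by positivity)]
    exact mul_le_mul_right (lintegral_sq_enorm_vf D h0 hs.le h1) _
  · rw [ENNReal.ofReal_mul (show 0 ≤ K / (2 * θ) by positivity)]
    exact mul_le_mul_right (lintegral_enorm_vf D hN h0 hs h1) _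

lemma lintegral_norm_sub_sq (D : Dat l N ζ F) {s s' : ℝ} (h0 : 0 ≤ s) (h1 : s ≤ 1)
    (h0' : 0 ≤ s') (h1' : s' ≤ 1) :
    ∫⁻ w in ball (0 : ℂ) 1, ENNReal.ofReal (‖ζ (sh s w) - ζ (sh s' w)‖ ^ 2) ≤
      ENNReal.ofReal (4 * N) := by
  have hsq : ∀ t, Measurable fun w => ‖ζ (sh t w)‖ₑ ^ 2 := fun t =>
    (D.meas.comp (continuous_sh t).measurable).enorm.pow_const 2
  calc ∫⁻ w in ball (0 : ℂ) 1, ENNReal.ofReal (‖ζ (sh s w) - ζ (sh s' w)‖ ^ 2)
      ≤ ∫⁻ w in ball (0 : ℂ) 1, (2 * ‖ζ (sh s w)‖ₑ ^ 2 + 2 * ‖ζ (sh s' w)‖ₑ ^ 2) := by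
        refine lintegral_mono fun w => ?_
        dsimp only
        have h2 : (2 : ℝ≥0∞) = ENNReal.ofReal 2 := by norm_num
        rw [← ofReal_norm, ← ofReal_norm, ← ENNReal.ofReal_pow (norm_nonneg _),
          ← ENNReal.ofReal_pow (norm_nonneg _), h2, ← ENNReal.ofReal_mul (by norm_num),
          ← ENNReal.ofReal_mul (by norm_num), ← ENNReal.ofReal_add (by positivity) (by positivity)]
        refine ENNReal.ofReal_le_ofReal ?_
        have h3 := norm_sub_le (ζ (sh s w)) (ζ (sh s' w))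
        have h4 := pow_le_pow_left₀ (norm_nonneg _) h3 2
        nlinarith [sq_nonneg (‖ζ (sh s w)‖ - ‖ζ (sh s' w)‖)]
    _ = 2 * (∫⁻ w in ball (0 : ℂ) 1, ‖ζ (sh s w)‖ₑ ^ 2) +
          2 * (∫⁻ w in ball (0 : ℂ) 1, ‖ζ (sh s' w)‖ₑ ^ 2) := by
        rw [lintegral_add_left ((hsq s).const_mul _), lintegral_const_mul _ (hsq s),
          lintegral_const_mul _ (hsq s')]
    _ ≤ 2 * ENNReal.ofReal N + 2 * ENNReal.ofReal N := by
        have h3 := (lintegral_shift_le h0 h1 (fun w => ‖ζ w‖ₑ ^ 2)).trans D.bd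
        have h4 := (lintegral_shift_le h0' h1' (fun w => ‖ζ w‖ₑ ^ 2)).trans D.bd
        exact add_le_add (mul_le_mul_right h3 _) (mul_le_mul_right h4 _)
    _ = ENNReal.ofReal (4 * N) := by
        rw [← two_mul, ← mul_assoc, ENNReal.ofReal_mul (by norm_num)]
        congr 1
        norm_num

lemma En_lt_top (D : Dat l N ζ F) (c : Cut η G) {s s' : ℝ} (h0 : 0 ≤ s)
    (hs : s ≤ s') (h1 : s' ≤ 1) : En l η ζ s s' < ⊤ := by
  refine lt_of_le_of_lt (lintegral_mono fun w => ?_)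
    ((lintegral_norm_sub_sq D h0 (hs.trans h1) (h0.trans hs) h1).trans_lt ENNReal.ofReal_lt_top)
  refine ENNReal.ofReal_le_ofReal ?_
  have hP := Pf_nonneg D.lpos (D.ge (sh s w)) (D.ge (sh s' w))
  calc η w ^ 2 * Pf l (ζ (sh s w)) (ζ (sh s' w)) ≤ 1 * Pf l (ζ (sh s w)) (ζ (sh s' w)) :=
        mul_le_mul_of_nonneg_right (pow_le_one₀ (c.nonneg w) (c.le_one w)) hP
    _ ≤ _ := by rw [one_mul]; exact Pf_le_sq

/-- A priori linear bound. -/
lemma En_apriori (D : Dat l N ζ F) (c : Cut η G) (hN : 0 ≤ N) {K : ℝ} (hK : 8 * G ≤ K)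
    {s s' : ℝ} (h0 : 0 ≤ s) (hs : s < s') (h1 : s' ≤ 1) :
    En l η ζ s s' ≤ ENNReal.ofReal (K * (5 / 2 * N) * (s' - s)) := by
  have hG := c.G0
  have hK0 : 0 ≤ K := by linarith
  set h := s' - s with hh
  have hp : 0 < h := sub_pos.2 hs
  refine (energy_ineq D c h0 hs.le h1).trans ?_
  have hpt : ∀ w, ENNReal.ofReal
        (8 * G * (η w * ‖vf (fun z => rf l (ζ z)) s s' w‖ * ‖ζ (sh s w) - ζ (sh s' w)‖)) ≤
      ENNReal.ofReal (K / (2 * h)) * ‖vf (fun z => rf l (ζ z)) s s' w‖ₑ ^ 2 +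
      ENNReal.ofReal (K * h / 2) * ENNReal.ofReal (‖ζ (sh s w) - ζ (sh s' w)‖ ^ 2) := by
    intro w
    set v := vf (fun z => rf l (ζ z)) s s' w
    set Δ := ‖ζ (sh s w) - ζ (sh s' w)‖
    have hΔ : 0 ≤ Δ := norm_nonneg _
    rw [← ofReal_norm, ← ENNReal.ofReal_pow (norm_nonneg _), ← ENNReal.ofReal_mul (by positivity),
      ← ENNReal.ofReal_mul (by positivity), ← ENNReal.ofReal_add (by positivity) (by positivity)]
    refine ENNReal.ofReal_le_ofReal ?_
    have hη := c.nonneg w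
    have hη1 := c.le_one w
    have h2 : 8 * G * (η w * ‖v‖ * Δ) ≤ K * (‖v‖ * Δ) := by
      refine mul_le_mul hK ?_ (by positivity) hK0
      have : η w * ‖v‖ * Δ = η w * (‖v‖ * Δ) := by ring
      rw [this]
      exact mul_le_of_le_one_left (by positivity) hη1
    have h3 : ‖v‖ * Δ ≤ 1 / (2 * h) * ‖v‖ ^ 2 + h / 2 * Δ ^ 2 := by
      have h5 : 0 ≤ (‖v‖ - h * Δ) ^ 2 / (2 * h) := by positivity
      have h6 : (‖v‖ - h * Δ) ^ 2 / (2 * h) = 1 / (2 * h) * ‖v‖ ^ 2 + h / 2 * Δ ^ 2 - ‖v‖ * Δ := by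
        field_simp
        ring
      linarith
    have h4 := mul_le_mul_of_nonneg_left h3 hK0
    calc _ ≤ _ := h2
      _ ≤ _ := h4
      _ = _ := by field_simp
  refine (lintegral_mono hpt).trans ?_
  have mv : Measurable fun w => ‖vf (fun z => rf l (ζ z)) s s' w‖ₑ :=
    (measurable_vf D.measr hs.le).enorm
  have mΔ : Measurable fun w => ENNReal.ofReal (‖ζ (sh s w) - ζ (sh s' w)‖ ^ 2) :=
    (((D.meas.comp (continuous_sh s).measurable).sub
      (D.meas.comp (continuous_sh s').measurable)).norm.pow_const 2).ennreal_ofReal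
  rw [lintegral_add_left ((mv.pow_const 2).const_mul _), lintegral_const_mul _ (mv.pow_const 2),
    lintegral_const_mul _ mΔ]
  refine (add_le_add (mul_le_mul_right (lintegral_sq_enorm_vf D h0 hs.le h1) _)
    (mul_le_mul_right (lintegral_norm_sub_sq D h0 (hs.le.trans h1) (h0.trans hs.le) h1) _)).trans ?_
  rw [← ENNReal.ofReal_mul (by positivity), ← ENNReal.ofReal_mul (by positivity),
    ← ENNReal.ofReal_add (by positivity) (by positivity)]
  refine ENNReal.ofReal_le_ofReal (le_of_eq ?_)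
  rw [← hh]
  field_simp
  ring

/-- One step of the iteration. -/
lemma En_iter (D : Dat l N ζ F) (c : Cut η G) (hN : 0 ≤ N) {K M δ : ℝ} (hK : 8 * G ≤ K)
    (hK0 : 0 < K) (hM : 2 * (4 / 3 * K ^ 2 * N + 32 * K ^ 2 * ((π + N) / 2)) ≤ M) (hδ : 0 ≤ δ)
    (H : ∀ s s' : ℝ, 0 ≤ s → s ≤ s' → s' ≤ 1 →
      En l η ζ s s' ≤ ENNReal.ofReal (M * ((s' - s) ^ 2 + 2 * δ * (s' - s))))
    {s s' : ℝ} (h0 : 0 ≤ s) (hs : s < s') (h1 : s' ≤ 1) :
    En l η ζ s s' ≤ ENNReal.ofReal (M * ((s' - s) ^ 2 + δ * (s' - s))) := by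
  have hM0 : 0 ≤ M := le_trans (by positivity) hM
  set h := s' - s with hh
  have hp : 0 < h := sub_pos.2 hs
  set θ := 1 / (32 * K * (h + 2 * δ)) with hθdef
  have hθ : 0 < θ := by positivity
  have hstep := En_step D c hN hK hθ h0 hs h1
  have hint : ∫⁻ t in Ioc s s', (En l η ζ s t + En l η ζ t s') ≤
      ENNReal.ofReal (2 * (M * (h ^ 2 + 2 * δ * h)) * h) := by
    calc ∫⁻ t in Ioc s s', (En l η ζ s t + En l η ζ t s')
        ≤ ∫⁻ t in Ioc s s', ENNReal.ofReal (2 * (M * (h ^ 2 + 2 * δ * h))) := by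
          refine setLIntegral_mono' measurableSet_Ioc fun t ht => ?_
          have h2 := H s t h0 ht.1.le (ht.2.trans h1)
          have h3 := H t s' (h0.trans ht.1.le) ht.2 h1
          have e1 : M * ((t - s) ^ 2 + 2 * δ * (t - s)) ≤ M * (h ^ 2 + 2 * δ * h) := by
            have q1 : 0 ≤ t - s := by linarith [ht.1]
            have q2 : t - s ≤ h := by linarith [ht.2]
            have q3 : (t - s) ^ 2 ≤ h ^ 2 := pow_le_pow_left₀ q1 q2 2
            have q4 : 2 * δ * (t - s) ≤ 2 * δ * h := mul_le_mul_of_nonneg_left q2 (by positivity)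
            exact mul_le_mul_of_nonneg_left (add_le_add q3 q4) hM0
          have e2 : M * ((s' - t) ^ 2 + 2 * δ * (s' - t)) ≤ M * (h ^ 2 + 2 * δ * h) := by
            have q1 : 0 ≤ s' - t := by linarith [ht.2]
            have q2 : s' - t ≤ h := by linarith [ht.1]
            have q3 : (s' - t) ^ 2 ≤ h ^ 2 := pow_le_pow_left₀ q1 q2 2
            have q4 : 2 * δ * (s' - t) ≤ 2 * δ * h := mul_le_mul_of_nonneg_left q2 (by positivity)
            exact mul_le_mul_of_nonneg_left (add_le_add q3 q4) hM0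
          have := add_le_add (h2.trans (ENNReal.ofReal_le_ofReal e1))
            (h3.trans (ENNReal.ofReal_le_ofReal e2))
          refine this.trans (le_of_eq ?_)
          rw [← ENNReal.ofReal_add (by positivity) (by positivity)]
          congr 1
          ring
      _ = _ := by
          rw [lintegral_const, Measure.restrict_apply_univ, Real.volume_Ioc,
            ← ENNReal.ofReal_mul (by positivity)]
  set E := En l η ζ s s' with hE
  have hEfin : E ≠ ⊤ := (En_lt_top D c h0 hs.le h1).ne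
  obtain ⟨e, he0, heE⟩ : ∃ e : ℝ, 0 ≤ e ∧ E = ENNReal.ofReal e :=
    ⟨E.toReal, ENNReal.toReal_nonneg, (ENNReal.ofReal_toReal hEfin).symm⟩
  have hstep2 : E ≤ ENNReal.ofReal (1 / 2) * E +
      ENNReal.ofReal (2 / 3 * K ^ 2 * (h ^ 2 * N)) +
      ENNReal.ofReal (4 * K * θ) * ENNReal.ofReal (2 * (M * (h ^ 2 + 2 * δ * h)) * h) +
      ENNReal.ofReal (K / (2 * θ) * (h * ((π + N) / 2))) :=
    hstep.trans (add_le_add (add_le_add le_rfl (mul_le_mul_right hint _)) le_rfl)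
  rw [heE, ← ENNReal.ofReal_mul (by positivity), ← ENNReal.ofReal_mul (by positivity),
    ← ENNReal.ofReal_add (by positivity) (by positivity),
    ← ENNReal.ofReal_add (by positivity) (by positivity),
    ← ENNReal.ofReal_add (by positivity) (by positivity),
    ENNReal.ofReal_le_ofReal_iff (by positivity)] at hstep2
  rw [heE]
  refine ENNReal.ofReal_le_ofReal ?_
  have t1 : 4 * K * θ * (2 * (M * (h ^ 2 + 2 * δ * h)) * h) = M * h ^ 2 / 4 := by
    rw [hθdef]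
    have : h + 2 * δ ≠ 0 := by positivity
    field_simp
    ring
  have t2 : K / (2 * θ) * (h * ((π + N) / 2)) = 16 * K ^ 2 * ((π + N) / 2) * (h ^ 2 + 2 * δ * h) := by
    rw [hθdef]
    have : h + 2 * δ ≠ 0 := by positivity
    field_simp
    ring
  rw [t1, t2] at hstep2
  have hA : 0 ≤ (π + N) / 2 := by positivity
  set A := (π + N) / 2
  have hh2 : 0 ≤ h ^ 2 := sq_nonneg _
  have hδh : 0 ≤ δ * h := by positivity
  have k1 : (2 * (4 / 3 * K ^ 2 * N + 32 * K ^ 2 * A)) * h ^ 2 ≤ M * h ^ 2 :=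
    mul_le_mul_of_nonneg_right hM hh2
  have k2 : (2 * (4 / 3 * K ^ 2 * N + 32 * K ^ 2 * A)) * (δ * h) ≤ M * (δ * h) :=
    mul_le_mul_of_nonneg_right hM hδh
  have k3 : 0 ≤ K ^ 2 * N * (δ * h) := by positivity
  nlinarith

/-- The energy is quadratic in the shift. -/
theorem En_quad (D : Dat l N ζ F) (c : Cut η G) (hN : 0 ≤ N) {K M : ℝ} (hK : 8 * G ≤ K)
    (hK0 : 0 < K) (hM : 2 * (4 / 3 * K ^ 2 * N + 32 * K ^ 2 * ((π + N) / 2)) ≤ M)
    (hM2 : K * (5 / 2 * N) ≤ M) {s s' : ℝ} (h0 : 0 ≤ s) (hs : s ≤ s') (h1 : s' ≤ 1) :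
    En l η ζ s s' ≤ ENNReal.ofReal (M * (s' - s) ^ 2) := by
  have hM0 : 0 ≤ M := le_trans (by positivity) hM
  have hself : ∀ t, En l η ζ t t = 0 := by
    intro t
    unfold En
    have : ∀ w, η w ^ 2 * Pf l (ζ (sh t w)) (ζ (sh t w)) = 0 := fun w => by
      unfold Pf; simp
    simp [this]
  have key : ∀ n : ℕ, ∀ s s' : ℝ, 0 ≤ s → s ≤ s' → s' ≤ 1 →
      En l η ζ s s' ≤ ENNReal.ofReal (M * ((s' - s) ^ 2 + 1 / 2 ^ n * (s' - s))) := by
    intro n
    induction n with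
    | zero =>
      intro s s' h0 hs h1
      rcases hs.eq_or_lt with h | h
      · subst h; rw [hself]; exact zero_le
      · refine (En_apriori D c hN hK h0 h h1).trans (ENNReal.ofReal_le_ofReal ?_)
        have q := sub_pos.2 h
        have := mul_le_mul_of_nonneg_right hM2 q.le
        simp only [pow_zero, div_one, one_mul]
        have : 0 ≤ M * (s' - s) ^ 2 := by positivity
        linarith
    | succ n ih =>
      intro s s' h0 hs h1
      rcases hs.eq_or_lt with h | h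
      · subst h; rw [hself]; exact zero_le
      · refine En_iter D c hN hK hK0 hM (δ := 1 / 2 ^ (n + 1)) (by positivity) ?_ h0 h h1
        intro a a' ha haa ha1
        have : (2 : ℝ) * (1 / 2 ^ (n + 1)) = 1 / 2 ^ n := by
          rw [pow_succ]; field_simp
        rw [this]
        exact ih a a' ha haa ha1
  have hlim : Tendsto (fun n : ℕ => ENNReal.ofReal (M * ((s' - s) ^ 2 + 1 / 2 ^ n * (s' - s))))
      atTop (𝓝 (ENNReal.ofReal (M * ((s' - s) ^ 2 + 0 * (s' - s))))) := by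
    refine (ENNReal.continuous_ofReal.tendsto _).comp ?_
    refine Tendsto.const_mul _ (Tendsto.const_add _ (Tendsto.mul_const _ ?_))
    have := tendsto_pow_atTop_nhds_zero_of_lt_one (r := (1 / 2 : ℝ)) (by norm_num) (by norm_num)
    simpa using this
  have := ge_of_tendsto' hlim (fun n => key n s s' h0 hs h1)
  simpa using this

end iter

end Pool.Agent.H.MP_09f213_an
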