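import Pool.Agent.H.MP_09f213_an.Weyl

/-! First order expansion of functions with small `∂f/∂z̄`. -/

open MeasureTheory Set Filter Topology Metric
open scoped ContDiff ENNReal NNReal Real

namespace Pool.Agent.H.MP_09f213_an

lemma integrableOn_norm_rpow {α : ℝ} (hα : α < 2) (R : ℝ) :
    IntegrableOn (fun z : ℂ => ‖z‖ ^ (-α)) (ball 0 R) := by
  refine integrableOn_ball_of_norm_le_rpow (E := ℂ) (C := 1) (α := α) ?_ ?_ ?_ ?_
  · simp [Complex.finrank_real_complex]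
  · simpa [Complex.finrank_real_complex] using hα
  · refine .of_forall fun w => ?_
    rw [Real.norm_eq_abs, abs_of_nonneg (by positivity), one_mul]
  · exact (measurable_norm.pow_const _).aestronglyMeasurable

lemma integrableOn_norm_sub_rpow {α : ℝ} (hα : α < 2) (R : ℝ) {z : ℂ} (hz : ‖z‖ < R) :
    IntegrableOn (fun ξ : ℂ => ‖z - ξ‖ ^ (-α)) (ball 0 R) ∧
    ∫ ξ in ball (0 : ℂ) R, ‖z - ξ‖ ^ (-α) ≤ ∫ ξ in ball (0 : ℂ) (2 * R), ‖ξ‖ ^ (-α) := by
  have h1 := (integrable_indicator_iff measurableSet_ball).2 (integrableOn_norm_rpow hα (2 * R))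
  have h2 := h1.comp_sub_left z
  have hsub : ∀ ξ ∈ ball (0 : ℂ) R, z - ξ ∈ ball (0 : ℂ) (2 * R) := by
    intro ξ hξ
    rw [mem_ball_zero_iff] at *
    exact (norm_sub_le _ _).trans_lt (by linarith)
  have heq : ∀ ξ ∈ ball (0 : ℂ) R, (ball (0 : ℂ) (2 * R)).indicator (fun z : ℂ => ‖z‖ ^ (-α)) (z - ξ) =
      ‖z - ξ‖ ^ (-α) := fun ξ hξ => indicator_of_mem (hsub ξ hξ) _
  constructor
  · exact (h2.integrableOn (s := ball (0 : ℂ) R)).congr_fun heq measurableSet_ball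
  · calc ∫ ξ in ball (0 : ℂ) R, ‖z - ξ‖ ^ (-α)
        = ∫ ξ in ball (0 : ℂ) R, (ball (0 : ℂ) (2 * R)).indicator (fun z : ℂ => ‖z‖ ^ (-α)) (z - ξ) :=
          (setIntegral_congr_fun measurableSet_ball heq).symm
      _ ≤ ∫ ξ, (ball (0 : ℂ) (2 * R)).indicator (fun z : ℂ => ‖z‖ ^ (-α)) (z - ξ) := by
          refine setIntegral_le_integral h2 (.of_forall fun ξ => ?_)
          exact indicator_nonneg (fun w _ => by positivity) _
      _ = ∫ ξ, (ball (0 : ℂ) (2 * R)).indicator (fun z : ℂ => ‖z‖ ^ (-α)) ξ :=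
          integral_sub_left_eq_self _ _ z
      _ = _ := integral_indicator measurableSet_ball

lemma kernel_bound {z ξ : ℂ} (hz : z ≠ 0) (hξ : ξ ≠ 0) (hzξ : z - ξ ≠ 0) :
    ‖ξ‖ ^ (-(3 / 2) : ℝ) * ‖z - ξ‖⁻¹ ≤
      2 * ‖z‖ ^ (-(3 / 4) : ℝ) * (‖ξ‖ ^ (-(7 / 4) : ℝ) + ‖z - ξ‖ ^ (-(7 / 4) : ℝ)) := by
  set a := ‖ξ‖ with ha
  set b := ‖z - ξ‖ with hb
  set t := ‖z‖ with ht
  have ha0 : 0 < a := norm_pos_iff.2 hξ
  have hb0 : 0 < b := norm_pos_iff.2 hzξ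
  have ht0 : 0 < t := norm_pos_iff.2 hz
  have htri : t ≤ a + b := by
    have : z = ξ + (z - ξ) := by ring
    calc t = ‖ξ + (z - ξ)‖ := by rw [ht, ← this]
      _ ≤ a + b := norm_add_le _ _
  have h2 : (t / 2) ^ (-(3 / 4) : ℝ) ≤ 2 * t ^ (-(3 / 4) : ℝ) := by
    rw [Real.div_rpow ht0.le (by norm_num), div_eq_mul_inv, ← Real.rpow_neg (by norm_num), neg_neg,
      mul_comm]
    refine mul_le_mul_of_nonneg_right ?_ (by positivity)
    calc (2 : ℝ) ^ (3 / 4 : ℝ) ≤ (2 : ℝ) ^ (1 : ℝ) :=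
          Real.rpow_le_rpow_of_exponent_le (by norm_num) (by norm_num)
      _ = 2 := Real.rpow_one 2
  have hA : 0 ≤ a ^ (-(7 / 4) : ℝ) := by positivity
  have hB : 0 ≤ b ^ (-(7 / 4) : ℝ) := by positivity
  have mix : ∀ {p q : ℝ}, p ≤ 0 → q ≤ 0 → p + q = -(7 / 4) →
      a ^ p * b ^ q ≤ a ^ (-(7 / 4) : ℝ) + b ^ (-(7 / 4) : ℝ) := by
    intro p q hp hq hpq
    rcases le_total a b with h | h
    · have h3 : b ^ q ≤ a ^ q := Real.rpow_le_rpow_of_nonpos ha0 h hq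
      calc a ^ p * b ^ q ≤ a ^ p * a ^ q := mul_le_mul_of_nonneg_left h3 (by positivity)
        _ = a ^ (-(7 / 4) : ℝ) := by rw [← Real.rpow_add ha0, hpq]
        _ ≤ _ := by linarith
    · have h3 : a ^ p ≤ b ^ p := Real.rpow_le_rpow_of_nonpos hb0 h hp
      calc a ^ p * b ^ q ≤ b ^ p * b ^ q := mul_le_mul_of_nonneg_right h3 (by positivity)
        _ = b ^ (-(7 / 4) : ℝ) := by rw [← Real.rpow_add hb0, hpq]
        _ ≤ _ := by linarith
  have hfin : ∀ {x : ℝ}, 0 ≤ x → x ≤ a ^ (-(7 / 4) : ℝ) + b ^ (-(7 / 4) : ℝ) →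
      (t / 2) ^ (-(3 / 4) : ℝ) * x ≤
      2 * t ^ (-(3 / 4) : ℝ) * (a ^ (-(7 / 4) : ℝ) + b ^ (-(7 / 4) : ℝ)) := fun hx0 hx =>
    mul_le_mul h2 hx hx0 (by positivity)
  rcases le_total (t / 2) b with h | h
  · have h3 : b ^ (-(3 / 4) : ℝ) ≤ (t / 2) ^ (-(3 / 4) : ℝ) :=
      Real.rpow_le_rpow_of_nonpos (by positivity) h (by norm_num)
    have h4 : b⁻¹ = b ^ (-(3 / 4) : ℝ) * b ^ (-(1 / 4) : ℝ) := by
      rw [← Real.rpow_add hb0, ← Real.rpow_neg_one]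
      norm_num
    calc a ^ (-(3 / 2) : ℝ) * b⁻¹ = b ^ (-(3 / 4) : ℝ) * (a ^ (-(3 / 2) : ℝ) * b ^ (-(1 / 4) : ℝ)) := by
          rw [h4]; ring
      _ ≤ (t / 2) ^ (-(3 / 4) : ℝ) * (a ^ (-(3 / 2) : ℝ) * b ^ (-(1 / 4) : ℝ)) :=
          mul_le_mul_of_nonneg_right h3 (by positivity)
      _ ≤ _ := hfin (by positivity) (mix (by norm_num) (by norm_num) (by norm_num))
  · have h' : t / 2 ≤ a := by linarith
    have h3 : a ^ (-(3 / 4) : ℝ) ≤ (t / 2) ^ (-(3 / 4) : ℝ) :=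
      Real.rpow_le_rpow_of_nonpos (by positivity) h' (by norm_num)
    have h4 : a ^ (-(3 / 2) : ℝ) = a ^ (-(3 / 4) : ℝ) * a ^ (-(3 / 4) : ℝ) := by
      rw [← Real.rpow_add ha0]
      norm_num
    calc a ^ (-(3 / 2) : ℝ) * b⁻¹ = a ^ (-(3 / 4) : ℝ) * (a ^ (-(3 / 4) : ℝ) * b ^ (-1 : ℝ)) := by
          rw [h4, Real.rpow_neg_one]; ring
      _ ≤ (t / 2) ^ (-(3 / 4) : ℝ) * (a ^ (-(3 / 4) : ℝ) * b ^ (-1 : ℝ)) :=
          mul_le_mul_of_nonneg_right h3 (by positivity)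
      _ ≤ _ := hfin (by positivity) (mix (by norm_num) (by norm_num) (by norm_num))

lemma kernel_identity {z ξ : ℂ} (hξ : ξ ≠ 0) (hzξ : z - ξ ≠ 0) :
    1 / (z - ξ) = -(1 / ξ) - z / ξ ^ 2 + z ^ 2 / (ξ ^ 2 * (z - ξ)) := by
  field_simp
  ring

/-- The Cauchy transform solves `∂u/∂z̄ = F` weakly. -/
lemma cauchy_transform {ρ M : ℝ} {F : ℂ → ℂ} (hF : AEStronglyMeasurable F)
    (hFb : ∀ᵐ z, ‖F z‖ ≤ M) (hF0 : ∀ z ∉ ball (0 : ℂ) ρ, F z = 0) :
    LocallyIntegrable (fun z => (π : ℂ)⁻¹ * ∫ ξ, F ξ / (z - ξ)) ∧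
    ∀ φ : ℂ → ℂ, ContDiff ℝ ((⊤ : ℕ∞) : WithTop ℕ∞) φ → HasCompactSupport φ →
      ∫ z, ((π : ℂ)⁻¹ * ∫ ξ, F ξ / (z - ξ)) * dzb φ z = -∫ z, F z * φ z := by
  have hFint : Integrable F := by
    have h1 : IntegrableOn F (ball (0 : ℂ) ρ) := by
      have hfin : IsFiniteMeasure (volume.restrict (ball (0 : ℂ) ρ)) := ⟨by
        rw [Measure.restrict_apply_univ]; exact measure_ball_lt_top⟩
      exact Integrable.of_bound hF.restrict M (ae_restrict_of_ae hFb)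
    have h2 := (integrable_indicator_iff measurableSet_ball).2 h1
    refine h2.congr (.of_forall fun z => ?_)
    by_cases hz : z ∈ ball (0 : ℂ) ρ
    · exact indicator_of_mem hz _
    · rw [hF0 z hz]; exact indicator_of_notMem hz _
  -- product integrability
  have hprod : ∀ σ : ℝ, Integrable (fun p : ℂ × ℂ =>
      F p.2 * (ball (0 : ℂ) σ).indicator (fun w : ℂ => w⁻¹) (p.1 - p.2)) (volume.prod volume) := by
    intro σ
    have h1 : Integrable ((ball (0 : ℂ) σ).indicator (fun w : ℂ => w⁻¹)) := by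
      refine (integrable_indicator_iff measurableSet_ball).2 ?_
      exact (locallyIntegrable_inv.integrableOn_isCompact (isCompact_closedBall 0 σ)).mono_set
        ball_subset_closedBall
    exact hFint.convolution_integrand (ContinuousLinearMap.mul ℝ ℂ) h1
  have hker : ∀ (σ : ℝ) (z ξ : ℂ), ‖z‖ < σ → F ξ / (z - ξ) =
      F ξ * (ball (0 : ℂ) (σ + ρ)).indicator (fun w : ℂ => w⁻¹) (z - ξ) := by
    intro σ z ξ hz
    by_cases hξ : ξ ∈ ball (0 : ℂ) ρ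
    · rw [indicator_of_mem, div_eq_mul_inv]
      rw [mem_ball_zero_iff] at *
      exact (norm_sub_le _ _).trans_lt (by linarith)
    · rw [hF0 ξ hξ]; simp
  constructor
  · rw [locallyIntegrable_iff]
    intro K hK
    obtain ⟨σ, -, hσ⟩ := hK.isBounded.exists_pos_norm_lt
    have h1 := ((hprod (σ + ρ)).integral_prod_left).const_mul ((π : ℂ)⁻¹)
    refine (h1.integrableOn (s := K)).congr_fun (fun z hz => ?_) hK.measurableSet
    simp only
    congr 1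
    refine integral_congr_ae (.of_forall fun ξ => ?_)
    exact (hker σ z ξ (hσ z hz)).symm
  · intro φ hφ hφc
    have hφ1 : ContDiff ℝ 1 φ := hφ.of_le (by exact_mod_cast le_top)
    have hdc := continuous_dzb hφ1
    have hds := hasCompactSupport_dzb hφc
    obtain ⟨σ, -, hσ⟩ := hφc.isBounded.exists_pos_norm_lt
    obtain ⟨C, hC⟩ := hds.exists_bound_of_continuous hdc
    have hfub : Integrable (Function.uncurry fun z ξ : ℂ => F ξ / (z - ξ) * dzb φ z)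
        (volume.prod volume) := by
      have h1 := (hprod (σ + ρ)).mul_bdd (c := C) (g := fun p : ℂ × ℂ => dzb φ p.1)
        (hdc.comp continuous_fst).aestronglyMeasurable (.of_forall fun p => hC p.1)
      refine h1.congr (.of_forall ?_)
      rintro ⟨z, ξ⟩
      simp only [Function.uncurry]
      by_cases hz : z ∈ tsupport φ
      · rw [hker σ z ξ (hσ z hz)]
      · rw [dzb_eq_zero hz, mul_zero, mul_zero]
    calc ∫ z, ((π : ℂ)⁻¹ * ∫ ξ, F ξ / (z - ξ)) * dzb φ z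
        = ∫ z, (π : ℂ)⁻¹ * ∫ ξ, F ξ / (z - ξ) * dzb φ z := by
          congr 1
          funext z
          rw [integral_mul_const]
          ring
      _ = (π : ℂ)⁻¹ * ∫ ξ, ∫ z, F ξ / (z - ξ) * dzb φ z := by
          rw [integral_const_mul, integral_integral_swap hfub]
      _ = (π : ℂ)⁻¹ * ∫ ξ, F ξ * (-(π * φ ξ)) := by
          congr 1
          congr 1
          funext ξ
          rw [← cauchy_pompeiu hφ1 hφc ξ, ← integral_const_mul]
          congr 1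
          funext z
          ring
      _ = -∫ z, F z * φ z := by
          rw [← integral_const_mul, ← integral_neg]
          congr 1
          funext ξ
          have : (π : ℂ) ≠ 0 := by exact_mod_cast Real.pi_ne_zero
          field_simp

/-- Expansion of the Cauchy transform at the origin. -/
lemma transform_expansion {ρ C : ℝ} (hC : 0 ≤ C) {F : ℂ → ℂ}
    (hF : AEStronglyMeasurable F) (hFb : ∀ᵐ z, ‖F z‖ ≤ C * Real.sqrt ‖z‖)
    (hF0 : ∀ z ∉ ball (0 : ℂ) ρ, F z = 0) :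
    ∃ a c : ℂ, ∃ C' : ℝ, ∀ z ∈ ball (0 : ℂ) ρ, z ≠ 0 →
      ‖((π : ℂ)⁻¹ * ∫ ξ, F ξ / (z - ξ)) - a - c * z‖ ≤ C' * ‖z‖ ^ (5 / 4 : ℝ) := by
  set Q := ∫ ξ in ball (0 : ℂ) (2 * ρ), ‖ξ‖ ^ (-(7 / 4 : ℝ)) with hQ
  have hne : ∀ᵐ ξ : ℂ, ξ ≠ 0 := by
    have : volume ({0} : Set ℂ) = 0 := measure_singleton 0
    exact compl_mem_ae_iff.2 this
  -- pointwise bound of `F`
  have hFr : ∀ᵐ ξ : ℂ, ‖F ξ‖ ≤ C * (ball (0 : ℂ) ρ).indicator (fun ξ : ℂ => ‖ξ‖ ^ (1 / 2 : ℝ)) ξ := by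
    filter_upwards [hFb] with ξ hξ
    by_cases h : ξ ∈ ball (0 : ℂ) ρ
    · rw [indicator_of_mem h, ← Real.sqrt_eq_rpow]; exact hξ
    · rw [indicator_of_notMem h, hF0 ξ h]; simp
  have hm : ∀ p : ℕ, AEStronglyMeasurable (fun ξ : ℂ => F ξ / ξ ^ p) volume := fun p => by
    have h1 : Measurable fun ξ : ℂ => (ξ ^ p)⁻¹ := (measurable_id.pow_const p).inv
    simp only [div_eq_mul_inv]
    exact hF.mul h1.aestronglyMeasurable
  have hmz : ∀ z : ℂ, AEStronglyMeasurable (fun ξ : ℂ => F ξ / (z - ξ)) volume := fun z => by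
    have h1 : Measurable fun ξ : ℂ => (z - ξ)⁻¹ := (measurable_const.sub measurable_id).inv
    simp only [div_eq_mul_inv]
    exact hF.mul h1.aestronglyMeasurable
  have hind : ∀ α : ℝ, α < 2 → Integrable ((ball (0 : ℂ) ρ).indicator (fun ξ : ℂ => ‖ξ‖ ^ (-α))) :=
    fun α hα => (integrable_indicator_iff measurableSet_ball).2 (integrableOn_norm_rpow hα ρ)
  have i1 : Integrable (fun ξ : ℂ => F ξ / ξ) := by
    have h2 := (hind (1 / 2) (by norm_num)).const_mul C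
    refine h2.mono' (by simpa using hm 1) ?_
    filter_upwards [hFr, hne] with ξ h3 h4
    rw [norm_div]
    have h5 : 0 < ‖ξ‖ := norm_pos_iff.2 h4
    by_cases h : ξ ∈ ball (0 : ℂ) ρ
    · rw [indicator_of_mem h] at h3 ⊢
      rw [div_le_iff₀ h5]
      refine h3.trans (le_of_eq ?_)
      rw [mul_assoc]
      congr 1
      nth_rw 3 [← Real.rpow_one ‖ξ‖]
      rw [← Real.rpow_add h5]
      norm_num
    · rw [hF0 ξ h]; simp [indicator_of_notMem h]
  have i2 : Integrable (fun ξ : ℂ => F ξ / ξ ^ 2) := by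
    have h2 := (hind (3 / 2) (by norm_num)).const_mul C
    refine h2.mono' (hm 2) ?_
    filter_upwards [hFr, hne] with ξ h3 h4
    rw [norm_div, norm_pow]
    have h5 : 0 < ‖ξ‖ := norm_pos_iff.2 h4
    by_cases h : ξ ∈ ball (0 : ℂ) ρ
    · rw [indicator_of_mem h] at h3 ⊢
      rw [div_le_iff₀ (by positivity)]
      refine h3.trans (le_of_eq ?_)
      rw [mul_assoc]
      congr 1
      rw [← Real.rpow_natCast, ← Real.rpow_add h5]
      norm_num
    · rw [hF0 ξ h]; simp [indicator_of_notMem h]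
  refine ⟨-((π : ℂ)⁻¹ * ∫ ξ, F ξ / ξ), -((π : ℂ)⁻¹ * ∫ ξ, F ξ / ξ ^ 2), π⁻¹ * (C * (4 * Q)), ?_⟩
  intro z hz hz0
  rw [mem_ball_zero_iff] at hz
  have hzp : 0 < ‖z‖ := norm_pos_iff.2 hz0
  have hnez : ∀ᵐ ξ : ℂ, z - ξ ≠ 0 := by
    have : volume ({z} : Set ℂ) = 0 := measure_singleton z
    filter_upwards [compl_mem_ae_iff.2 this] with ξ hξ h
    exact hξ (sub_eq_zero.1 h).symm
  obtain ⟨j1, j2⟩ := integrableOn_norm_sub_rpow (α := 7 / 4) (by norm_num) ρ hz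
  have j3 := integrableOn_norm_rpow (α := 7 / 4) (by norm_num) ρ
  -- the remainder
  set B : ℂ → ℝ := (ball (0 : ℂ) ρ).indicator (fun ξ : ℂ =>
    C * (2 * ‖z‖ ^ (-(3 / 4) : ℝ) * (‖ξ‖ ^ (-(7 / 4 : ℝ)) + ‖z - ξ‖ ^ (-(7 / 4 : ℝ))))) with hB
  have hBint : Integrable B := by
    refine (integrable_indicator_iff measurableSet_ball).2 ?_
    exact ((j3.add j1).const_mul _).const_mul _
  have hrem_b : ∀ᵐ ξ : ℂ, ‖F ξ / (ξ ^ 2 * (z - ξ))‖ ≤ B ξ := by
    filter_upwards [hFr, hne, hnez] with ξ h3 h4 h5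
    have h6 : 0 < ‖ξ‖ := norm_pos_iff.2 h4
    have h7 : 0 < ‖z - ξ‖ := norm_pos_iff.2 h5
    rw [norm_div, norm_mul, norm_pow]
    by_cases h : ξ ∈ ball (0 : ℂ) ρ
    · simp only [hB]
      rw [indicator_of_mem h] at h3 ⊢
      have h8 := kernel_bound hz0 h4 h5
      calc ‖F ξ‖ / (‖ξ‖ ^ 2 * ‖z - ξ‖) ≤ C * ‖ξ‖ ^ (1 / 2 : ℝ) / (‖ξ‖ ^ 2 * ‖z - ξ‖) :=
            div_le_div_of_nonneg_right h3 (by positivity)
        _ = C * (‖ξ‖ ^ (-(3 / 2) : ℝ) * ‖z - ξ‖⁻¹) := by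
            have h9 : ‖ξ‖ ^ (1 / 2 : ℝ) = ‖ξ‖ ^ (-(3 / 2) : ℝ) * ‖ξ‖ ^ 2 := by
              rw [← Real.rpow_natCast, ← Real.rpow_add h6]
              norm_num
            rw [h9]
            field_simp
        _ ≤ _ := mul_le_mul_of_nonneg_left h8 hC
    · rw [hF0 ξ h]; simp [hB, indicator_of_notMem h]
  have hmrem : AEStronglyMeasurable (fun ξ : ℂ => F ξ / (ξ ^ 2 * (z - ξ))) volume := by
    have h1 : Measurable fun ξ : ℂ => (ξ ^ 2 * (z - ξ))⁻¹ :=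
      ((measurable_id.pow_const 2).mul (measurable_const.sub measurable_id)).inv
    simp only [div_eq_mul_inv]
    exact hF.mul h1.aestronglyMeasurable
  have i3 : Integrable (fun ξ : ℂ => F ξ / (ξ ^ 2 * (z - ξ))) := hBint.mono' hmrem hrem_b
  have hid : ∫ ξ, F ξ / (z - ξ) = -(∫ ξ, F ξ / ξ) - z * (∫ ξ, F ξ / ξ ^ 2) +
      z ^ 2 * ∫ ξ, F ξ / (ξ ^ 2 * (z - ξ)) := by
    have k1 : Integrable (fun ξ : ℂ => -(F ξ / ξ)) := i1.neg
    have k2 : Integrable (fun ξ : ℂ => z * (F ξ / ξ ^ 2)) := i2.const_mul z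
    have k3 : Integrable (fun ξ : ℂ => z ^ 2 * (F ξ / (ξ ^ 2 * (z - ξ)))) := i3.const_mul _
    have k4 : Integrable (fun ξ : ℂ => -(F ξ / ξ) - z * (F ξ / ξ ^ 2)) := k1.sub k2
    rw [← integral_const_mul, ← integral_const_mul, ← integral_neg, ← integral_sub k1 k2,
      ← integral_add k4 k3]
    refine integral_congr_ae ?_
    filter_upwards [hne, hnez] with ξ h4 h5
    rw [div_eq_mul_one_div (F ξ) (z - ξ), kernel_identity h4 h5]
    ring
  have hrem : ‖∫ ξ, F ξ / (ξ ^ 2 * (z - ξ))‖ ≤ C * (4 * Q) * ‖z‖ ^ (-(3 / 4) : ℝ) := by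
    refine (norm_integral_le_of_norm_le hBint hrem_b).trans ?_
    simp only [hB]
    rw [integral_indicator measurableSet_ball, integral_const_mul, integral_const_mul,
      integral_add j3 j1]
    have j4 : ∫ ξ in ball (0 : ℂ) ρ, ‖ξ‖ ^ (-(7 / 4 : ℝ)) ≤ Q := by
      refine setIntegral_mono_set (integrableOn_norm_rpow (by norm_num) (2 * ρ))
        (.of_forall fun ξ => by positivity) ?_
      exact (ball_subset_ball (by linarith)).eventuallyLE
    have hz34 : 0 ≤ ‖z‖ ^ (-(3 / 4) : ℝ) := by positivity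
    calc C * (2 * ‖z‖ ^ (-(3 / 4) : ℝ) * ((∫ ξ in ball (0 : ℂ) ρ, ‖ξ‖ ^ (-(7 / 4 : ℝ))) +
        ∫ ξ in ball (0 : ℂ) ρ, ‖z - ξ‖ ^ (-(7 / 4 : ℝ))))
        ≤ C * (2 * ‖z‖ ^ (-(3 / 4) : ℝ) * (Q + Q)) := by
          gcongr
      _ = _ := by ring
  have heq : ((π : ℂ)⁻¹ * ∫ ξ, F ξ / (z - ξ)) - -((π : ℂ)⁻¹ * ∫ ξ, F ξ / ξ) -
      -((π : ℂ)⁻¹ * ∫ ξ, F ξ / ξ ^ 2) * z =
      (π : ℂ)⁻¹ * (z ^ 2 * ∫ ξ, F ξ / (ξ ^ 2 * (z - ξ))) := by
    rw [hid]; ring
  rw [heq, norm_mul, norm_mul, norm_pow, norm_inv, Complex.norm_real, Real.norm_eq_abs,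
    abs_of_pos Real.pi_pos, mul_assoc]
  refine mul_le_mul_of_nonneg_left ?_ (by positivity)
  calc ‖z‖ ^ 2 * ‖∫ ξ, F ξ / (ξ ^ 2 * (z - ξ))‖ ≤ ‖z‖ ^ 2 * (C * (4 * Q) * ‖z‖ ^ (-(3 / 4) : ℝ)) :=
        mul_le_mul_of_nonneg_left hrem (by positivity)
    _ = C * (4 * Q) * (‖z‖ ^ 2 * ‖z‖ ^ (-(3 / 4) : ℝ)) := by ring
    _ = C * (4 * Q) * ‖z‖ ^ (5 / 4 : ℝ) := by
        congr 1
        rw [← Real.rpow_natCast, ← Real.rpow_add hzp]
        norm_num

lemma holo_expansion {r : ℝ} (hr : 0 < r) {G : ℂ → ℂ} (hG : DifferentiableOn ℂ G (ball 0 r)) :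
    ∃ c : ℂ, ∃ C : ℝ, 0 ≤ C ∧ ∃ s : ℝ, 0 < s ∧ s ≤ r ∧ ∀ z ∈ ball (0 : ℂ) s,
      ‖G z - G 0 - c * z‖ ≤ C * ‖z‖ ^ 2 := by
  have hnb : ball (0 : ℂ) r ∈ 𝓝 (0 : ℂ) := ball_mem_nhds _ hr
  have h1 : DifferentiableOn ℂ (dslope G 0) (ball 0 r) := (Complex.differentiableOn_dslope hnb).2 hG
  have h2 : DifferentiableOn ℂ (dslope (dslope G 0) 0) (ball 0 r) :=
    (Complex.differentiableOn_dslope hnb).2 h1
  have h3 : ContinuousOn (dslope (dslope G 0) 0) (closedBall 0 (r / 2)) :=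
    h2.continuousOn.mono (closedBall_subset_ball (by linarith))
  obtain ⟨C, hC⟩ := (isCompact_closedBall (0 : ℂ) (r / 2)).exists_bound_of_continuousOn h3
  refine ⟨dslope G 0 0, C, (norm_nonneg _).trans (hC 0 (mem_closedBall_self (by positivity))),
    r / 2, by positivity, by linarith, ?_⟩
  intro z hz
  have e1 := sub_smul_dslope G 0 z
  have e2 := sub_smul_dslope (dslope G 0) 0 z
  rw [sub_zero, smul_eq_mul] at e1 e2
  have e3 : G z - G 0 - dslope G 0 0 * z = z ^ 2 * dslope (dslope G 0) 0 z := by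
    rw [← e1]
    have : dslope G 0 z = dslope G 0 0 + z * dslope (dslope G 0) 0 z := by rw [e2]; ring
    rw [this]; ring
  rw [e3, norm_mul, norm_pow, mul_comm]
  exact mul_le_mul_of_nonneg_right (hC z (ball_subset_closedBall hz)) (by positivity)

/-- First order expansion at `0` of a function with `|∂f/∂z̄| ≤ C |z|^(1/2)`. -/
theorem expansion {R C : ℝ} (hR : 0 < R) (hC : 0 ≤ C) {f F : ℂ → ℂ}
    (hf : IntegrableOn f (ball 0 R))
    (hF : AEStronglyMeasurable F (volume.restrict (ball 0 R)))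
    (hFb : ∀ᵐ z ∂(volume.restrict (ball (0 : ℂ) R)), ‖F z‖ ≤ C * Real.sqrt ‖z‖)
    (hw : ∀ φ : ℂ → ℂ, ContDiff ℝ ((⊤ : ℕ∞) : WithTop ℕ∞) φ → HasCompactSupport φ →
      tsupport φ ⊆ ball 0 R → ∫ z, f z * dzb φ z = - ∫ z, F z * φ z) :
    ∃ r : ℝ, 0 < r ∧ r ≤ R ∧ ∃ a c : ℂ, ∃ C' : ℝ, 0 ≤ C' ∧
      ∀ᵐ z ∂(volume.restrict (ball (0 : ℂ) r)), ‖f z - a - c * z‖ ≤ C' * ‖z‖ ^ (5 / 4 : ℝ) := by
  set F1 : ℂ → ℂ := (ball (0 : ℂ) R).indicator F with hF1
  have hF1m : AEStronglyMeasurable F1 :=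
    (aestronglyMeasurable_indicator_iff measurableSet_ball).2 hF
  have hF1b : ∀ᵐ z, ‖F1 z‖ ≤ C * Real.sqrt ‖z‖ := by
    rw [ae_restrict_iff' measurableSet_ball] at hFb
    filter_upwards [hFb] with z hz
    by_cases h : z ∈ ball (0 : ℂ) R
    · simp only [hF1]; rw [indicator_of_mem h]; exact hz h
    · simp only [hF1]; rw [indicator_of_notMem h, norm_zero]; positivity
  have hF10 : ∀ z ∉ ball (0 : ℂ) R, F1 z = 0 := fun z hz => indicator_of_notMem hz _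
  have hF1M : ∀ᵐ z, ‖F1 z‖ ≤ C * Real.sqrt R := by
    filter_upwards [hF1b] with z hz
    by_cases h : z ∈ ball (0 : ℂ) R
    · refine hz.trans (mul_le_mul_of_nonneg_left (Real.sqrt_le_sqrt ?_) hC)
      rw [mem_ball_zero_iff] at h; exact h.le
    · rw [hF10 z h, norm_zero]; positivity
  set u : ℂ → ℂ := fun z => (π : ℂ)⁻¹ * ∫ ξ, F1 ξ / (z - ξ) with hu
  obtain ⟨hul, huw⟩ := cauchy_transform hF1m hF1M hF10
  obtain ⟨a1, c1, C1, hexp⟩ := transform_expansion hC hF1m hF1b hF10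
  have hfl : LocallyIntegrableOn f (ball 0 R) := hf.locallyIntegrableOn
  have hul' : LocallyIntegrableOn u (ball 0 R) := hul.locallyIntegrableOn _
  obtain ⟨r, hr, hrR, G, hG, hGae⟩ := weyl_local (g := fun z => f z - u z) isOpen_ball
    (hfl.sub hul') (fun φ hφ hφc hφs => by
      have hφ1 : ContDiff ℝ 1 φ := hφ.of_le (by exact_mod_cast le_top)
      have hdc := continuous_dzb hφ1
      have hds := hasCompactSupport_dzb hφc
      obtain ⟨C2, hC2⟩ := hds.exists_bound_of_continuous hdc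
      have k1 : Integrable fun z => f z * dzb φ z := by
        have h2 := (integrable_indicator_iff measurableSet_ball).2 hf
        refine (h2.mul_bdd (c := C2) hdc.aestronglyMeasurable (.of_forall hC2)).congr
          (.of_forall fun z => ?_)
        simp only
        by_cases hz : z ∈ ball (0 : ℂ) R
        · rw [indicator_of_mem hz]
        · rw [dzb_eq_zero (fun h => hz (hφs h)), mul_zero, mul_zero]
      have k2 : Integrable fun z => u z * dzb φ z := by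
        have hK : IntegrableOn u (closedBall 0 R) :=
          (hul.integrableOn_isCompact (isCompact_closedBall 0 R))
        have h2 := (integrable_indicator_iff measurableSet_closedBall).2 hK
        refine (h2.mul_bdd (c := C2) hdc.aestronglyMeasurable (.of_forall hC2)).congr
          (.of_forall fun z => ?_)
        simp only
        by_cases hz : z ∈ closedBall (0 : ℂ) R
        · rw [indicator_of_mem hz]
        · rw [dzb_eq_zero (fun h => hz (ball_subset_closedBall (hφs h))), mul_zero, mul_zero]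
      have e1 : ∫ z, (f z - u z) * dzb φ z = (∫ z, f z * dzb φ z) - ∫ z, u z * dzb φ z := by
        rw [← integral_sub k1 k2]
        congr 1; funext z; ring
      rw [e1, hw φ hφ hφc hφs, huw φ hφ hφc]
      have e2 : ∫ z, F1 z * φ z = ∫ z, F z * φ z := by
        congr 1
        funext z
        by_cases hz : z ∈ ball (0 : ℂ) R
        · simp only [hF1]; rw [indicator_of_mem hz]
        · rw [image_eq_zero_of_notMem_tsupport (fun h => hz (hφs h)), mul_zero, mul_zero]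
      rw [e2]; ring) (mem_ball_self hR)
  obtain ⟨c2, C2, hC2, s, hs, hsr, hGe⟩ := holo_expansion hr hG
  set r' := min s (min 1 R) with hr'
  have hr'0 : 0 < r' := lt_min hs (lt_min one_pos hR)
  refine ⟨r', hr'0, (min_le_right _ _).trans (min_le_right _ _), a1 + G 0, c1 + c2,
    |C1| + C2, by positivity, ?_⟩
  have hsub : ball (0 : ℂ) r' ⊆ ball 0 r := ball_subset_ball ((min_le_left _ _).trans hsr)
  have hne : ∀ᵐ ξ : ℂ, ξ ≠ 0 := by
    have : volume ({0} : Set ℂ) = 0 := measure_singleton 0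
    exact compl_mem_ae_iff.2 this
  filter_upwards [ae_mono (Measure.restrict_mono hsub le_rfl) hGae,
    ae_restrict_mem measurableSet_ball, ae_restrict_of_ae hne] with z h1 h2 h3
  have hz := mem_ball_zero_iff.1 h2
  have h4 := hexp z (mem_ball_zero_iff.2 (hz.trans_le ((min_le_right _ _).trans (min_le_right _ _)))) h3
  have h5 := hGe z (mem_ball_zero_iff.2 (hz.trans_le (min_le_left _ _)))
  have hz1 : ‖z‖ ≤ 1 := (hz.trans_le ((min_le_right _ _).trans (min_le_left _ _))).le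
  have hzp : 0 < ‖z‖ := norm_pos_iff.2 h3
  have h6 : ‖z‖ ^ 2 ≤ ‖z‖ ^ (5 / 4 : ℝ) := by
    rw [← Real.rpow_natCast]
    exact Real.rpow_le_rpow_of_exponent_ge hzp hz1 (by norm_num)
  have e1 : f z - (a1 + G 0) - (c1 + c2) * z = (u z - a1 - c1 * z) + (G z - G 0 - c2 * z) := by
    have : f z = u z + G z := by rw [← h1]; ring
    rw [this]; ring
  rw [e1]
  have hp : 0 ≤ ‖z‖ ^ (5 / 4 : ℝ) := by positivity
  calc ‖(u z - a1 - c1 * z) + (G z - G 0 - c2 * z)‖ ≤ ‖u z - a1 - c1 * z‖ + ‖G z - G 0 - c2 * z‖ :=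
        norm_add_le _ _
    _ ≤ C1 * ‖z‖ ^ (5 / 4 : ℝ) + C2 * ‖z‖ ^ 2 := add_le_add h4 h5
    _ ≤ |C1| * ‖z‖ ^ (5 / 4 : ℝ) + C2 * ‖z‖ ^ (5 / 4 : ℝ) :=
        add_le_add (mul_le_mul_of_nonneg_right (le_abs_self _) hp)
          (mul_le_mul_of_nonneg_left h6 hC2)
    _ = (|C1| + C2) * ‖z‖ ^ (5 / 4 : ℝ) := by ring

end Pool.Agent.H.MP_09f213_an
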