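import Mathlib

/-! Gluing of local oscillation estimates to a continuous representative. -/

open MeasureTheory Set Filter Topology Metric
open scoped ContDiff ENNReal NNReal Real

namespace Pool.Agent.H.MP_09f213_an

lemma exists_both {z0 z1 : ℂ} {r0 r1 : ℝ} (h : z1 ∈ ball z0 r0) (h1 : 0 < r1) {P Q : ℂ → Prop}
    (hP : ∀ᵐ z ∂(volume.restrict (ball z0 r0)), P z)
    (hQ : ∀ᵐ z ∂(volume.restrict (ball z1 r1)), Q z) : ∃ z, P z ∧ Q z := by
  set U := ball z0 r0 ∩ ball z1 r1 with hU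
  have hpos : 0 < (volume : Measure ℂ) U :=
    (isOpen_ball.inter isOpen_ball).measure_pos _ ⟨z1, h, mem_ball_self h1⟩
  have hne : (volume : Measure ℂ).restrict U ≠ 0 := by
    intro h0
    rw [Measure.restrict_eq_zero] at h0
    exact hpos.ne' h0
  haveI : NeBot (ae ((volume : Measure ℂ).restrict U)) := ae_neBot.2 hne
  have e1 : ∀ᵐ z ∂(volume.restrict U), P z :=
    ae_mono (Measure.restrict_mono inter_subset_left le_rfl) hP
  have e2 : ∀ᵐ z ∂(volume.restrict U), Q z :=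
    ae_mono (Measure.restrict_mono inter_subset_right le_rfl) hQ
  exact (e1.and e2).exists

lemma ess_limit {D : ℂ → ℝ} {z0 : ℂ}
    (hP : ∀ ε : ℝ, 0 < ε → ∃ r : ℝ, 0 < r ∧ ∃ κ : ℝ,
      ∀ᵐ z ∂(volume.restrict (ball z0 r)), |D z - κ| ≤ ε) :
    ∃ K : ℝ, ∀ ε : ℝ, 0 < ε → ∃ r : ℝ, 0 < r ∧
      ∀ᵐ z ∂(volume.restrict (ball z0 r)), |D z - K| ≤ ε := by
  have hn : ∀ n : ℕ, (0 : ℝ) < 1 / ((n : ℝ) + 1) := fun n => by positivity
  choose r hr κ hκ using fun n : ℕ => hP _ (hn n)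
  have hd : ∀ n m : ℕ, |κ n - κ m| ≤ 1 / ((n : ℝ) + 1) + 1 / ((m : ℝ) + 1) := by
    intro n m
    obtain ⟨z, h1, h2⟩ := exists_both (mem_ball_self (hr n)) (hr m) (hκ n) (hκ m)
    calc |κ n - κ m| = |(D z - κ m) - (D z - κ n)| := by congr 1; ring
      _ ≤ |D z - κ m| + |D z - κ n| := abs_sub _ _
      _ ≤ _ := by linarith
  have hc : CauchySeq κ := by
    refine Metric.cauchySeq_iff'.2 fun ε hε => ?_
    obtain ⟨N, hN⟩ := exists_nat_one_div_lt (show (0 : ℝ) < ε / 2 by positivity)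
    refine ⟨N, fun n hn => ?_⟩
    rw [Real.dist_eq]
    have h1 : 1 / ((n : ℝ) + 1) ≤ 1 / ((N : ℝ) + 1) := by
      have : (N : ℝ) ≤ n := by exact_mod_cast hn
      exact one_div_le_one_div_of_le (by positivity) (by linarith)
    linarith [hd n N]
  obtain ⟨K, hK⟩ := cauchySeq_tendsto_of_complete hc
  refine ⟨K, fun ε hε => ?_⟩
  obtain ⟨N, hN⟩ := exists_nat_one_div_lt (show (0 : ℝ) < ε / 2 by positivity)
  refine ⟨r N, hr N, ?_⟩
  have hKN : |κ N - K| ≤ 1 / ((N : ℝ) + 1) := by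
    have h1 : Tendsto (fun m : ℕ => |κ N - κ m|) atTop (𝓝 |κ N - K|) :=
      (tendsto_const_nhds.sub hK).abs
    have h2 : Tendsto (fun m : ℕ => 1 / ((N : ℝ) + 1) + 1 / ((m : ℝ) + 1)) atTop
        (𝓝 (1 / ((N : ℝ) + 1) + 0)) :=
      tendsto_const_nhds.add tendsto_one_div_add_atTop_nhds_zero_nat
    rw [add_zero] at h2
    exact le_of_tendsto_of_tendsto' h1 h2 fun m => hd N m
  filter_upwards [hκ N] with z hz
  calc |D z - K| = |(D z - κ N) + (κ N - K)| := by congr 1; ring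
    _ ≤ |D z - κ N| + |κ N - K| := abs_add_le _ _
    _ ≤ ε := by linarith

theorem cont_rep {Ω : Set ℂ} (hΩ : IsOpen Ω) {D : ℂ → ℝ}
    (hP : ∀ z0 ∈ Ω, ∀ ε : ℝ, 0 < ε → ∃ r : ℝ, 0 < r ∧ ∃ κ : ℝ,
      ∀ᵐ z ∂(volume.restrict (ball z0 r)), |D z - κ| ≤ ε) :
    ∃ g : ℂ → ℝ, ContinuousOn g Ω ∧ ∀ᵐ z ∂(volume.restrict Ω), g z = D z := by
  have h1 : ∀ z0 : ℂ, ∃ K : ℝ, z0 ∈ Ω → ∀ ε : ℝ, 0 < ε → ∃ r : ℝ, 0 < r ∧
      ∀ᵐ z ∂(volume.restrict (ball z0 r)), |D z - K| ≤ ε := by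
    intro z0
    by_cases h : z0 ∈ Ω
    · obtain ⟨K, hK⟩ := ess_limit (hP z0 h)
      exact ⟨K, fun _ => hK⟩
    · exact ⟨0, fun h' => absurd h' h⟩
  choose g hg using h1
  -- comparison
  have hcomp : ∀ z0 ∈ Ω, ∀ ε : ℝ, ∀ r : ℝ, (∀ᵐ z ∂(volume.restrict (ball z0 r)),
      |D z - g z0| ≤ ε) → ∀ z1 ∈ Ω, z1 ∈ ball z0 r → |g z1 - g z0| ≤ ε := by
    intro z0 _ ε r hr z1 hz1 hz
    refine le_of_forall_pos_le_add fun δ hδ => ?_
    obtain ⟨r1, hr1, h1⟩ := hg z1 hz1 δ hδ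
    obtain ⟨z, ha, hb⟩ := exists_both hz hr1 hr h1
    calc |g z1 - g z0| = |(D z - g z0) - (D z - g z1)| := by congr 1; ring
      _ ≤ |D z - g z0| + |D z - g z1| := abs_sub _ _
      _ ≤ _ := by linarith
  refine ⟨g, ?_, ?_⟩
  · intro z0 hz0
    refine ContinuousAt.continuousWithinAt ?_
    rw [Metric.continuousAt_iff]
    intro ε hε
    obtain ⟨r, hr, h2⟩ := hg z0 hz0 (ε / 2) (by positivity)
    obtain ⟨s, hs, hsΩ⟩ := Metric.isOpen_iff.1 hΩ z0 hz0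
    refine ⟨min r s, lt_min hr hs, fun {z1} hz1 => ?_⟩
    rw [Real.dist_eq]
    have h3 := hcomp z0 hz0 _ r h2 z1 (hsΩ (mem_ball.2 (hz1.trans_le (min_le_right _ _))))
      (mem_ball.2 (hz1.trans_le (min_le_left _ _)))
    linarith
  · have hall : ∀ n : ℕ, ∀ᵐ z ∂(volume.restrict Ω), |g z - D z| ≤ 2 * (1 / ((n : ℝ) + 1)) := by
      intro n
      rw [ae_restrict_iff' hΩ.measurableSet, ae_iff]
      refine measure_null_of_locally_null _ ?_
      intro z0 hz0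
      simp only [mem_setOf_eq, Classical.not_imp] at hz0
      obtain ⟨hz0Ω, _⟩ := hz0
      obtain ⟨r, hr, h2⟩ := hg z0 hz0Ω (1 / ((n : ℝ) + 1)) (by positivity)
      refine ⟨{a | ¬(a ∈ Ω → |g a - D a| ≤ 2 * (1 / ((n : ℝ) + 1)))} ∩ ball z0 r,
        inter_mem_nhdsWithin _ (ball_mem_nhds z0 hr), ?_⟩
      rw [ae_restrict_iff' measurableSet_ball, ae_iff] at h2
      refine measure_mono_null ?_ h2
      rintro z ⟨hz, hzr⟩
      simp only [mem_setOf_eq, Classical.not_imp] at hz ⊢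
      refine ⟨hzr, fun h3 => hz.2 ?_⟩
      have h4 := hcomp z0 hz0Ω (1 / ((n : ℝ) + 1)) r (by
        rw [ae_restrict_iff' measurableSet_ball, ae_iff]; exact h2) z hz.1 hzr
      calc |g z - D z| = |(g z - g z0) - (D z - g z0)| := by congr 1; ring
        _ ≤ |g z - g z0| + |D z - g z0| := abs_sub _ _
        _ ≤ _ := by linarith
    rw [← ae_all_iff] at hall
    filter_upwards [hall] with z hz
    have h5 : |g z - D z| ≤ 0 := by
      have h2 : Tendsto (fun m : ℕ => 2 * (1 / ((m : ℝ) + 1))) atTop (𝓝 (2 * 0)) :=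
        tendsto_one_div_add_atTop_nhds_zero_nat.const_mul 2
      rw [mul_zero] at h2
      exact ge_of_tendsto' h2 hz
    have h6 : g z - D z = 0 := abs_eq_zero.1 (le_antisymm h5 (abs_nonneg _))
    linarith

end Pool.Agent.H.MP_09f213_an
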