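import Pool.Agent.H.MP_09f213_an.Zero
import Pool.Agent.H.MP_09f213_an.Glue

/-! Small oscillation of `|Df|` at every point. -/

open MeasureTheory Set Filter Topology Metric
open scoped ContDiff ENNReal NNReal Real

namespace Pool.Agent.H.MP_09f213_an

lemma power_close {Φ : ℂ → ℂ} {r0 : ℝ} (hr0 : 0 < r0) (hΦ : DifferentiableOn ℂ Φ (ball 0 r0))
    (h00 : Φ 0 = 0) (hne : ¬ ∀ᶠ z in 𝓝 (0 : ℂ), Φ z = 0) :
    ∃ c0 t0 C1 : ℝ, 0 < c0 ∧ c0 ≤ 1 / 4 ∧ 0 < t0 ∧ 0 ≤ C1 ∧
      (∀ z ∈ ball (0 : ℂ) t0, ‖Φ z‖ ≤ C1 * ‖z‖) ∧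
      ∀ p ∈ ball (0 : ℂ) t0, p ≠ 0 → Φ p ≠ 0 ∧
        ∀ z ∈ ball p (c0 * ‖p‖), ‖Φ z / Φ p - 1‖ ≤ 1 / 2 := by
  have han : AnalyticAt ℂ Φ 0 := hΦ.analyticAt (ball_mem_nhds 0 hr0)
  obtain ⟨n, g, hg, hg0, hgn⟩ := han.exists_eventuallyEq_pow_smul_nonzero_iff.2 hne
  simp only [sub_zero, smul_eq_mul] at hgn
  have hn : n ≠ 0 := by
    rintro rfl
    have := hgn.self_of_nhds
    simp only [pow_zero, one_mul] at this
    exact hg0 (this.symm.trans h00)
  have hc1 : ContinuousAt (fun q : ℂ × ℂ => q.1 ^ n * q.2) (1, 1) :=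
    ((continuous_fst.pow n).mul continuous_snd).continuousAt
  obtain ⟨δ, hδ, hδ'⟩ := Metric.continuousAt_iff.1 hc1 (1 / 2) (by norm_num)
  have hc2 : ContinuousAt (fun q : ℂ × ℂ => g q.1 / g q.2) (0, 0) := by
    have hgc := hg.continuousAt
    refine ContinuousAt.div ?_ ?_ hg0
    · exact ContinuousAt.comp (f := Prod.fst) (by exact hgc) continuous_fst.continuousAt
    · exact ContinuousAt.comp (f := Prod.snd) (by exact hgc) continuous_snd.continuousAt
  obtain ⟨d, hd, hd'⟩ := Metric.continuousAt_iff.1 hc2 δ hδ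
  have hgb : ∀ᶠ z in 𝓝 (0 : ℂ), ‖g z‖ ≤ ‖g 0‖ + 1 := by
    have h1 : Tendsto (fun z => ‖g z‖) (𝓝 0) (𝓝 ‖g 0‖) := hg.continuousAt.norm
    exact (h1.eventually_lt_const (by linarith)).mono fun z hz => hz.le
  have hgz : ∀ᶠ z in 𝓝 (0 : ℂ), g z ≠ 0 := hg.continuousAt.eventually_ne hg0
  obtain ⟨e, he, he'⟩ := Metric.eventually_nhds_iff.1 ((hgn.and hgb).and hgz)
  set t0 := min (min (e / 2) (d / 2)) (1 / 2) with ht0
  have ht0pos : 0 < t0 := by positivity
  have ht1 : 2 * t0 ≤ e := by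
    have : t0 ≤ e / 2 := (min_le_left _ _).trans (min_le_left _ _)
    linarith
  have ht2 : 2 * t0 ≤ d := by
    have : t0 ≤ d / 2 := (min_le_left _ _).trans (min_le_right _ _)
    linarith
  have ht3 : 2 * t0 ≤ 1 := by
    have : t0 ≤ 1 / 2 := min_le_right _ _
    linarith
  refine ⟨min (δ / 2) (1 / 4), t0, ‖g 0‖ + 1, by positivity, min_le_right _ _, ht0pos,
    by positivity, ?_, ?_⟩
  · intro z hz
    rw [mem_ball_zero_iff] at hz
    have h1 := he' (y := z) (by rw [dist_zero_right]; linarith)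
    rw [h1.1.1, norm_mul, norm_pow, mul_comm]
    refine mul_le_mul h1.1.2 ?_ (by positivity) (by positivity)
    exact pow_le_of_le_one (norm_nonneg _) (by linarith) hn
  · intro p hp hp0
    rw [mem_ball_zero_iff] at hp
    have hpn : 0 < ‖p‖ := norm_pos_iff.2 hp0
    have h1 := he' (y := p) (by rw [dist_zero_right]; linarith)
    refine ⟨?_, ?_⟩
    · rw [h1.1.1]; exact mul_ne_zero (pow_ne_zero _ hp0) h1.2
    · intro z hz
      rw [mem_ball, dist_eq_norm] at hz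
      have hc0 : min (δ / 2) (1 / 4) * ‖p‖ ≤ ‖p‖ := by
        have : min (δ / 2) (1 / 4) ≤ 1 := (min_le_right _ _).trans (by norm_num)
        nlinarith
      have hzn : ‖z‖ < 2 * t0 := by
        have : ‖z‖ ≤ ‖z - p‖ + ‖p‖ := by
          calc ‖z‖ = ‖(z - p) + p‖ := by rw [sub_add_cancel]
            _ ≤ _ := norm_add_le _ _
        linarith
      have h2 := he' (y := z) (by rw [dist_zero_right]; linarith)
      have h3 : Φ z / Φ p = (z / p) ^ n * (g z / g p) := by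
        rw [h1.1.1, h2.1.1, div_pow, mul_div_mul_comm]
      have h4 : dist (z / p) 1 < δ := by
        rw [dist_eq_norm]
        have : z / p - 1 = (z - p) / p := by field_simp
        rw [this, norm_div, div_lt_iff₀ hpn]
        refine hz.trans_le ?_
        exact mul_le_mul_of_nonneg_right ((min_le_left _ _).trans (by linarith)) hpn.le
      have h5 : dist (g z / g p) 1 < δ := by
        have := hd' (x := (z, p)) (by
          rw [Prod.dist_eq, max_lt_iff]
          simp only [dist_zero_right]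
          exact ⟨by linarith, by linarith⟩)
        simp only at this
        rwa [div_self hg0] at this
      have h6 := hδ' (x := (z / p, g z / g p)) (by
        rw [Prod.dist_eq, max_lt_iff]; exact ⟨h4, h5⟩)
      simp only [one_pow, one_mul] at h6
      rw [h3, ← dist_eq_norm]
      exact h6.le

lemma Dn_close {fx fy : ℂ → ℂ} {z c : ℂ} {a b : ℝ} (h1 : ‖wz fx fy z - c‖ ≤ a)
    (h2 : ‖wzb fx fy z‖ ≤ b) : |Dn fx fy z - Real.sqrt 2 * ‖c‖| ≤ 2 * (a + b) := by
  rw [Dn_eq, Real.sqrt_mul (by norm_num)]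
  set x := ‖wz fx fy z‖
  set y := ‖wzb fx fy z‖
  have hx : 0 ≤ x := norm_nonneg _
  have hy : 0 ≤ y := norm_nonneg _
  have h3 : |x - ‖c‖| ≤ a := (abs_norm_sub_norm_le _ _).trans h1
  have h4 : x ≤ Real.sqrt (x ^ 2 + y ^ 2) := Real.le_sqrt_of_sq_le (by nlinarith)
  have h5 : Real.sqrt (x ^ 2 + y ^ 2) ≤ x + y := by
    rw [Real.sqrt_le_left (by positivity)]; nlinarith
  have h6 : Real.sqrt 2 ≤ 2 := by
    rw [Real.sqrt_le_left (by norm_num)]; norm_num
  have h7 : 0 ≤ Real.sqrt 2 := Real.sqrt_nonneg _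
  rw [abs_le] at h3
  have h8 : |Real.sqrt (x ^ 2 + y ^ 2) - ‖c‖| ≤ a + b := by
    rw [abs_le]; constructor <;> linarith [h3.1, h3.2]
  rw [← mul_sub, abs_mul, abs_of_nonneg h7]
  exact mul_le_mul h6 h8 (abs_nonneg _) (by norm_num)

section
variable {Ω : Set ℂ} {f fx fy : ℂ → ℂ}

lemma Hyp.locDat (H : Hyp Ω f fx fy) {Φ : ℂ → ℂ} {U : Set ℂ} {p : ℂ} {R R' : ℝ} (hR : 0 < R)
    (hRR' : R < R') (hsub : closedBall p R' ⊆ Ω) (hU : ball p R ⊆ U) (hUΩ : U ⊆ Ω)
    (hΦ : DifferentiableOn ℂ Φ U)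
    (hΦe : ∀ᵐ z ∂(volume.restrict U), wz fx fy z * (starRingEnd ℂ) (wzb fx fy z) = Φ z) :
    LocDat Ω f fx fy Φ p R R' where
  hR := hR
  hRR' := hRR'
  sub := ball_subset_closedBall.trans hsub
  weak := H.weak
  int := (H.li.integrableOn_compact_subset hsub (isCompact_closedBall p R')).mono_set
    ball_subset_closedBall
  mx := H.mx.mono_measure (Measure.restrict_mono (ball_subset_closedBall.trans hsub) le_rfl)
  my := H.my.mono_measure (Measure.restrict_mono (ball_subset_closedBall.trans hsub) le_rfl)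
  holo := hΦ.mono hU
  hopf := ae_mono (Measure.restrict_mono hU le_rfl) hΦe
  jac := ae_mono (Measure.restrict_mono (hU.trans hUΩ) le_rfl) H.jac

lemma Hyp.mwz (H : Hyp Ω f fx fy) : MemLp (wz fx fy) 2 (volume.restrict Ω) := by
  have := (H.mx.sub (H.my.const_mul Complex.I)).mul_const (1 / 2 : ℂ)
  refine this.ae_eq (.of_forall fun z => ?_)
  simp only [Pi.sub_apply]
  unfold wz; ring

lemma Hyp.mwzb (H : Hyp Ω f fx fy) : MemLp (wzb fx fy) 2 (volume.restrict Ω) := by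
  have := (H.mx.add (H.my.const_mul Complex.I)).mul_const (1 / 2 : ℂ)
  refine this.ae_eq (.of_forall fun z => ?_)
  simp only [Pi.add_apply]
  unfold wzb; ring

lemma Hyp.li_hopf (H : Hyp Ω f fx fy) :
    LocallyIntegrableOn (fun z => wz fx fy z * (starRingEnd ℂ) (wzb fx fy z)) Ω := by
  have h1 : MemLp (fun z => (starRingEnd ℂ) (wzb fx fy z)) 2 (volume.restrict Ω) := by
    refine (memLp_congr_norm (Complex.continuous_conj.comp_aestronglyMeasurable H.mwzb.1)
      H.mwzb.1 (.of_forall fun z => ?_)).2 H.mwzb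
    exact Complex.norm_conj _
  have h2 : IntegrableOn (fun z => wz fx fy z * (starRingEnd ℂ) (wzb fx fy z)) Ω :=
    H.mwz.integrable_mul h1
  exact h2.locallyIntegrableOn

theorem case_isolated (H : Hyp Ω f fx fy) {Φ : ℂ → ℂ} {r0 : ℝ} (hr0 : 0 < r0)
    (hsub : ball (0 : ℂ) r0 ⊆ Ω) (hΦ : DifferentiableOn ℂ Φ (ball 0 r0))
    (hΦe : ∀ᵐ z ∂(volume.restrict (ball (0 : ℂ) r0)),
      wz fx fy z * (starRingEnd ℂ) (wzb fx fy z) = Φ z)
    (h00 : Φ 0 = 0) (hne : ¬ ∀ᶠ z in 𝓝 (0 : ℂ), Φ z = 0) {ε : ℝ} (hε : 0 < ε) :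
    ∃ r : ℝ, 0 < r ∧ ∃ κ : ℝ, ∀ᵐ z ∂(volume.restrict (ball (0 : ℂ) r)),
      |Dn fx fy z - κ| ≤ ε := by
  obtain ⟨c0, t0, C1, hc0, hc04, ht0, hC1, hb, hcl⟩ := power_close hr0 hΦ h00 hne
  set t := min t0 r0 with ht
  have htpos : 0 < t := lt_min ht0 hr0
  have htt0 : t ≤ t0 := min_le_left _ _
  have htr0 : t ≤ r0 := min_le_right _ _
  have htΩ : ball (0 : ℂ) t ⊆ Ω := (ball_subset_ball htr0).trans hsub
  set t2 := t / 2 with ht2
  have ht2pos : 0 < t2 := by positivity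
  have ht2Ω : closedBall (0 : ℂ) t2 ⊆ Ω := (closedBall_subset_ball (by linarith)).trans htΩ
  have hbound : ∀ᵐ z ∂(volume.restrict (ball (0 : ℂ) t)),
      ‖wzb fx fy z‖ ≤ Real.sqrt C1 * Real.sqrt ‖z‖ := by
    have k1 : volume.restrict (ball (0 : ℂ) t) ≤ volume.restrict (ball (0 : ℂ) r0) :=
      Measure.restrict_mono (ball_subset_ball htr0) le_rfl
    have k2 : volume.restrict (ball (0 : ℂ) t) ≤ volume.restrict Ω :=
      Measure.restrict_mono htΩ le_rfl
    filter_upwards [ae_mono k1 hΦe, ae_mono k2 H.jac, ae_restrict_mem measurableSet_ball]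
      with z h1 h2 h3
    rw [← Real.sqrt_mul hC1]
    refine Real.le_sqrt_of_sq_le ?_
    have h4 := hb z (ball_subset_ball htt0 h3)
    rw [← h1, norm_mul, Complex.norm_conj] at h4
    refine le_trans ?_ h4
    rw [sq]
    exact mul_le_mul_of_nonneg_right h2 (norm_nonneg _)
  have hsubt : volume.restrict (ball (0 : ℂ) t2) ≤ volume.restrict (ball (0 : ℂ) t) :=
    Measure.restrict_mono (ball_subset_ball (by linarith)) le_rfl
  have hint : IntegrableOn f (ball (0 : ℂ) t2) :=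
    (H.li.integrableOn_compact_subset ht2Ω (isCompact_closedBall 0 t2)).mono_set
      ball_subset_closedBall
  have hb2Ω : ball (0 : ℂ) t2 ⊆ Ω := ball_subset_closedBall.trans ht2Ω
  obtain ⟨r, hr, hrt, a, c, C', hC', hexp⟩ := expansion ht2pos (Real.sqrt_nonneg C1) hint
    (H.mwzb.1.mono_measure (Measure.restrict_mono hb2Ω le_rfl)) (ae_mono hsubt hbound)
    (fun φ h1 h2 h3 => H.weak_dzb h1 h2 (h3.trans hb2Ω))
  -- parameters
  set ε1 := min 1 (ε / 200) with hε1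
  have hε1pos : 0 < ε1 := by positivity
  have hε11 : ε1 ≤ 1 := min_le_left _ _
  have hε1ε : ε1 ≤ ε / 200 := min_le_right _ _
  obtain ⟨ρ1, τ, hρ1, hρ12, hτ, hclose⟩ := chart_close (norm_nonneg c) hε1pos hε11
  have hrΩ : ball (0 : ℂ) r ⊆ Ω := (ball_subset_ball hrt).trans hb2Ω
  have hrle : volume.restrict (ball (0 : ℂ) r) ≤ volume.restrict Ω :=
    Measure.restrict_mono hrΩ le_rfl
  obtain ⟨s0, hs0, hcacc⟩ := caccioppoli (C := Real.sqrt C1) hr hrΩ H.weak
    (hint.mono_set (ball_subset_ball hrt)) (H.mx.mono_measure hrle) (H.my.mono_measure hrle) hC'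
    hexp (ae_mono (Measure.restrict_mono (ball_subset_ball (by linarith)) le_rfl) hbound)
    (ε := τ * c0 ^ 2 / 4) (by positivity)
  -- smallness of `Φ`
  have hΦc : ContinuousAt (fun z => ‖Φ z‖) 0 :=
    (hΦ.continuousOn.continuousAt (ball_mem_nhds 0 hr0)).norm
  obtain ⟨d1, hd1, hd1'⟩ := Metric.continuousAt_iff.1 hΦc (36 * ε1 ^ 2) (by positivity)
  set r1 := min (min (s0 / 2) (t / 2)) (min d1 (min 1 (ε ^ 2 / (16 * (C1 + 1))))) with hr1
  have hr1pos : 0 < r1 := by positivity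
  have hr1s : 2 * r1 ≤ s0 := by
    have : r1 ≤ s0 / 2 := (min_le_left _ _).trans (min_le_left _ _)
    linarith
  have hr1t : 2 * r1 ≤ t := by
    have : r1 ≤ t / 2 := (min_le_left _ _).trans (min_le_right _ _)
    linarith
  have hr1d : r1 ≤ d1 := (min_le_right _ _).trans (min_le_left _ _)
  have hr1ε : r1 ≤ ε ^ 2 / (16 * (C1 + 1)) :=
    (min_le_right _ _).trans ((min_le_right _ _).trans (min_le_right _ _))
  -- closeness at every nonzero point
  have hpt : ∀ p ∈ ball (0 : ℂ) r1, p ≠ 0 → ∀ᵐ z ∂(volume.restrict (ball p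
      (ρ1 * (c0 * ‖p‖) / 8))), ‖wz fx fy z - c‖ ≤ 48 * ε1 := by
    intro p hp hp0
    rw [mem_ball_zero_iff] at hp
    have hpn : 0 < ‖p‖ := norm_pos_iff.2 hp0
    obtain ⟨hΦp, hΦcl⟩ := hcl p (by rw [mem_ball_zero_iff]; linarith) hp0
    have hRpos : 0 < c0 * ‖p‖ := by positivity
    have hRle : c0 * ‖p‖ ≤ ‖p‖ / 4 := by nlinarith
    have hballR : ball p (c0 * ‖p‖) ⊆ ball 0 (2 * ‖p‖) := by
      intro z hz
      rw [mem_ball, dist_eq_norm] at hz
      rw [mem_ball_zero_iff]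
      have : ‖z‖ ≤ ‖z - p‖ + ‖p‖ := by
        calc ‖z‖ = ‖(z - p) + p‖ := by rw [sub_add_cancel]
          _ ≤ _ := norm_add_le _ _
      linarith
    have hUr0 : ball p (c0 * ‖p‖) ⊆ ball 0 r0 :=
      hballR.trans (ball_subset_ball (by linarith))
    have hcb : closedBall p (2 * (c0 * ‖p‖)) ⊆ Ω := by
      intro z hz
      rw [mem_closedBall, dist_eq_norm] at hz
      refine htΩ ?_
      rw [mem_ball_zero_iff]
      have : ‖z‖ ≤ ‖z - p‖ + ‖p‖ := by
        calc ‖z‖ = ‖(z - p) + p‖ := by rw [sub_add_cancel]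
          _ ≤ _ := norm_add_le _ _
      linarith
    have D : LocDat Ω f fx fy Φ p (c0 * ‖p‖) (2 * (c0 * ‖p‖)) :=
      H.locDat hRpos (by linarith) hcb hUr0 hsub hΦ hΦe
    obtain ⟨Ψ, hΨ⟩ := exists_isChart hRpos D.holo hΦp hΦcl
    refine hclose Ω f fx fy Φ Ψ p _ _ c D hΨ hΦp ?_ le_rfl ?_
    · have h1 := hd1' (x := p) (by rw [dist_zero_right]; linarith)
      rw [h00, norm_zero, dist_zero_right, norm_norm] at h1
      exact h1.le
    · refine (lintegral_mono_set hballR).trans ((hcacc (2 * ‖p‖) (by positivity)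
        (by linarith)).trans (le_of_eq ?_))
      congr 1
      ring
  -- covering
  have hae : ∀ᵐ z ∂(volume.restrict (ball (0 : ℂ) r1)), ‖wz fx fy z - c‖ ≤ 48 * ε1 := by
    rw [ae_restrict_iff' measurableSet_ball, ae_iff]
    have hs1 : {z : ℂ | ¬(z ∈ ball (0 : ℂ) r1 → ‖wz fx fy z - c‖ ≤ 48 * ε1)} ⊆
        {0} ∪ ({z : ℂ | ¬(z ∈ ball (0 : ℂ) r1 → ‖wz fx fy z - c‖ ≤ 48 * ε1)} \ {0}) := by
      intro z hz
      by_cases h : z = 0
      · exact Or.inl h
      · exact Or.inr ⟨hz, h⟩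
    refine measure_mono_null hs1 (measure_union_null (measure_singleton _) ?_)
    refine measure_null_of_locally_null _ ?_
    rintro p ⟨hp, hp0⟩
    simp only [mem_setOf_eq, Classical.not_imp] at hp
    have hp0' : p ≠ 0 := hp0
    have h1 := hpt p hp.1 hp0'
    have hpn : 0 < ‖p‖ := norm_pos_iff.2 hp0'
    rw [ae_restrict_iff' measurableSet_ball, ae_iff] at h1
    refine ⟨({z : ℂ | ¬(z ∈ ball (0 : ℂ) r1 → ‖wz fx fy z - c‖ ≤ 48 * ε1)} \ {0}) ∩
      ball p (ρ1 * (c0 * ‖p‖) / 8), inter_mem_nhdsWithin _ (ball_mem_nhds p (by positivity)), ?_⟩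
    refine measure_mono_null ?_ h1
    rintro z ⟨⟨hz, _⟩, hzb⟩
    simp only [mem_setOf_eq, Classical.not_imp] at hz ⊢
    exact ⟨hzb, hz.2⟩
  refine ⟨r1, hr1pos, Real.sqrt 2 * ‖c‖, ?_⟩
  have k3 : volume.restrict (ball (0 : ℂ) r1) ≤ volume.restrict (ball (0 : ℂ) t) :=
    Measure.restrict_mono (ball_subset_ball (by linarith)) le_rfl
  filter_upwards [hae, ae_mono k3 hbound, ae_restrict_mem measurableSet_ball] with z h1 h2 h3
  have h4 : ‖wzb fx fy z‖ ≤ ε / 4 := by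
    refine h2.trans ?_
    rw [← Real.sqrt_mul hC1, Real.sqrt_le_left (by positivity)]
    rw [mem_ball_zero_iff] at h3
    have h5 : ‖z‖ ≤ ε ^ 2 / (16 * (C1 + 1)) := h3.le.trans hr1ε
    calc C1 * ‖z‖ ≤ (C1 + 1) * (ε ^ 2 / (16 * (C1 + 1))) :=
          mul_le_mul (by linarith) h5 (norm_nonneg _) (by positivity)
      _ = (ε / 4) ^ 2 := by field_simp; ring
  refine (Dn_close h1 h4).trans ?_
  linarith

/-- Small oscillation of `|Df|` at the origin. -/
theorem local_osc (H : Hyp Ω f fx fy) (h0 : (0 : ℂ) ∈ Ω) {ε : ℝ} (hε : 0 < ε) :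
    ∃ r : ℝ, 0 < r ∧ ∃ κ : ℝ, ∀ᵐ z ∂(volume.restrict (ball (0 : ℂ) r)),
      |Dn fx fy z - κ| ≤ ε := by
  obtain ⟨r0, hr0, hsub, Φ, hΦ, hΦe⟩ := weyl_local H.op H.li_hopf H.hopf h0
  by_cases h00 : Φ 0 = 0
  · by_cases hev : ∀ᶠ z in 𝓝 (0 : ℂ), Φ z = 0
    · obtain ⟨e, he, he'⟩ := Metric.eventually_nhds_iff.1 hev
      have hrpos : 0 < min e r0 := lt_min he hr0
      refine case_zero H (z0 := 0) (r := min e r0) hrpos
        ((ball_subset_ball (min_le_right _ _)).trans hsub) ?_ hε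
      have k1 : volume.restrict (ball (0 : ℂ) (min e r0)) ≤ volume.restrict (ball (0 : ℂ) r0) :=
        Measure.restrict_mono (ball_subset_ball (min_le_right _ _)) le_rfl
      have k2 : volume.restrict (ball (0 : ℂ) (min e r0)) ≤ volume.restrict Ω :=
        Measure.restrict_mono ((ball_subset_ball (min_le_right _ _)).trans hsub) le_rfl
      filter_upwards [ae_mono k1 hΦe, ae_mono k2 H.jac, ae_restrict_mem measurableSet_ball]
        with z h1 h2 h3
      rw [he' (mem_ball.1 (ball_subset_ball (min_le_left _ _) h3))] at h1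
      rcases mul_eq_zero.1 h1 with h4 | h4
      · rw [h4, norm_zero] at h2
        exact norm_le_zero_iff.1 h2
      · exact (map_eq_zero _).1 h4
    · exact case_isolated H hr0 hsub hΦ hΦe h00 hev hε
  · have hc : ContinuousAt (fun z => Φ z / Φ 0) 0 :=
      (hΦ.continuousOn.continuousAt (ball_mem_nhds 0 hr0)).div_const _
    obtain ⟨e, he, he'⟩ := Metric.continuousAt_iff.1 hc (1 / 2) (by norm_num)
    have hrpos : 0 < min e (r0 / 2) := lt_min he (by positivity)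
    have hle : min e (r0 / 2) ≤ r0 / 2 := min_le_right _ _
    have D : LocDat Ω f fx fy Φ 0 (min e (r0 / 2)) (3 * r0 / 4) :=
      H.locDat hrpos (by linarith) ((closedBall_subset_ball (by linarith)).trans hsub)
        (ball_subset_ball (by linarith)) hsub hΦ hΦe
    refine osc_at_nonzero D h00 (fun z hz => ?_) hε
    have h1 := he' (mem_ball.1 (ball_subset_ball (min_le_left _ _) hz))
    rw [div_self h00, dist_eq_norm] at h1
    exact h1.le

/-- `|Df|` has a continuous representative. -/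
theorem main_thm (H : Hyp Ω f fx fy) : ∃ g : ℂ → ℝ, ContinuousOn g Ω ∧
    ∀ᵐ z ∂(volume.restrict Ω), g z = Real.sqrt (‖fx z‖ ^ 2 + ‖fy z‖ ^ 2) := by
  refine cont_rep H.op (D := Dn fx fy) fun z0 hz0 ε hε => ?_
  obtain ⟨r, hr, κ, h⟩ := local_osc (H.transl z0) (by simpa using hz0) hε
  refine ⟨r, hr, κ, ?_⟩
  have hmp : MeasurePreserving (fun z : ℂ => z - z0) volume volume :=
    measurePreserving_sub_right volume z0
  have hpre : (fun z : ℂ => z - z0) ⁻¹' (ball (0 : ℂ) r) = ball z0 r := by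
    ext z; simp [mem_ball, dist_eq_norm]
  have hmpr := hmp.restrict_preimage (measurableSet_ball (x := (0 : ℂ)) (ε := r))
  rw [hpre] at hmpr
  have h2 := hmpr.quasiMeasurePreserving.ae h
  filter_upwards [h2] with z hz
  simpa [Dn] using hz

end

end Pool.Agent.H.MP_09f213_an
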