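import Pool.Agent.H.MP_09f213_an.Cases

/-! The hypotheses and their translation. -/

open MeasureTheory Set Filter Topology Metric
open scoped ContDiff ENNReal NNReal Real

namespace Pool.Agent.H.MP_09f213_an

/-- The hypotheses of the main theorem. -/
structure Hyp (Ω : Set ℂ) (f fx fy : ℂ → ℂ) : Prop where
  op : IsOpen Ω
  li : LocallyIntegrableOn f Ω
  mx : MemLp fx 2 (volume.restrict Ω)
  my : MemLp fy 2 (volume.restrict Ω)
  weak : ∀ φ : ℂ → ℂ, ContDiff ℝ ((⊤ : ℕ∞) : WithTop ℕ∞) φ → HasCompactSupport φ →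
      tsupport φ ⊆ Ω →
      ((∫ z, f z * fderiv ℝ φ z 1) = - ∫ z, fx z * φ z) ∧
      ((∫ z, f z * fderiv ℝ φ z Complex.I) = - ∫ z, fy z * φ z)
  hopf : ∀ φ : ℂ → ℂ, ContDiff ℝ ((⊤ : ℕ∞) : WithTop ℕ∞) φ → HasCompactSupport φ →
      tsupport φ ⊆ Ω →
      ∫ z, (wz fx fy z * (starRingEnd ℂ) (wzb fx fy z)) * dzb φ z = 0
  jac : ∀ᵐ z ∂(volume.restrict Ω), ‖wzb fx fy z‖ ≤ ‖wz fx fy z‖

lemma transl_test {Ω : Set ℂ} {z0 : ℂ} {φ : ℂ → ℂ}
    (h1 : ContDiff ℝ ((⊤ : ℕ∞) : WithTop ℕ∞) φ) (h2 : HasCompactSupport φ)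
    (h3 : tsupport φ ⊆ (fun z => z + z0) ⁻¹' Ω) :
    ContDiff ℝ ((⊤ : ℕ∞) : WithTop ℕ∞) (fun z => φ (z - z0)) ∧
      HasCompactSupport (fun z => φ (z - z0)) ∧ tsupport (fun z => φ (z - z0)) ⊆ Ω ∧
      ∀ z, fderiv ℝ (fun z => φ (z - z0)) z = fderiv ℝ φ (z - z0) := by
  refine ⟨h1.comp (contDiff_id.sub contDiff_const), ?_, ?_, ?_⟩
  · exact h2.comp_homeomorph (Homeomorph.subRight z0)
  · have e : tsupport (fun z => φ (z - z0)) = (Homeomorph.subRight z0) ⁻¹' (tsupport φ) :=
      tsupport_comp_eq_preimage φ (Homeomorph.subRight z0)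
    rw [e]
    intro z hz
    have h4 : (z - z0) ∈ tsupport φ := hz
    have h5 := h3 h4
    simpa using h5
  · intro z
    exact fderiv_comp_sub z0

lemma Hyp.transl {Ω : Set ℂ} {f fx fy : ℂ → ℂ} (H : Hyp Ω f fx fy) (z0 : ℂ) :
    Hyp ((fun z => z + z0) ⁻¹' Ω) (fun z => f (z + z0)) (fun z => fx (z + z0))
      (fun z => fy (z + z0)) := by
  have hcont : Continuous fun z : ℂ => z + z0 := continuous_id.add continuous_const
  have hmp : MeasurePreserving (fun z : ℂ => z + z0) volume volume :=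
    measurePreserving_add_right volume z0
  have hmpr : MeasurePreserving (fun z : ℂ => z + z0)
      (volume.restrict ((fun z => z + z0) ⁻¹' Ω)) (volume.restrict Ω) :=
    hmp.restrict_preimage H.op.measurableSet
  have hemb : MeasurableEmbedding (fun z : ℂ => z + z0) := measurableEmbedding_addRight z0
  refine ⟨H.op.preimage hcont, ?_, ?_, ?_, ?_, ?_, ?_⟩
  · rw [locallyIntegrableOn_iff (H.op.preimage hcont).isLocallyClosed]
    intro K hK hKc
    have h1 : IntegrableOn f ((fun z => z + z0) '' K) :=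
      H.li.integrableOn_compact_subset (by rintro _ ⟨z, hz, rfl⟩; exact hK hz)
        (hKc.image hcont)
    have h2 := (hmp.integrableOn_comp_preimage hemb).2 h1
    refine h2.mono_set ?_
    exact subset_preimage_image _ _
  · exact H.mx.comp_measurePreserving hmpr
  · exact H.my.comp_measurePreserving hmpr
  · intro φ h1 h2 h3
    obtain ⟨a1, a2, a3, a4⟩ := transl_test h1 h2 h3
    obtain ⟨b1, b2⟩ := H.weak _ a1 a2 a3
    constructor
    · rw [← integral_add_right_eq_self _ z0, ← integral_add_right_eq_self (fun z => fx z * _) z0]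
        at b1
      simp only [a4, add_sub_cancel_right] at b1
      exact b1
    · rw [← integral_add_right_eq_self _ z0, ← integral_add_right_eq_self (fun z => fy z * _) z0]
        at b2
      simp only [a4, add_sub_cancel_right] at b2
      exact b2
  · intro φ h1 h2 h3
    obtain ⟨a1, a2, a3, a4⟩ := transl_test h1 h2 h3
    have b := H.hopf _ a1 a2 a3
    rw [← integral_add_right_eq_self _ z0] at b
    simp only [dzb, a4, add_sub_cancel_right] at b
    exact b
  · exact hmpr.quasiMeasurePreserving.ae H.jac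

end Pool.Agent.H.MP_09f213_an
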