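import Mathlib

/-! Convergence in `L²` on finite or infinite measure spaces: products, bounded multipliers. -/

open MeasureTheory Set Filter Topology Metric
open scoped ContDiff ENNReal NNReal

namespace Pool.Agent.H.MP_09f213_an

variable {α : Type*} [MeasurableSpace α] {μ : Measure α} {E : Type*} [NormedAddCommGroup E]

/-- `L²` convergence -/
def L2Tendsto (μ : Measure α) (f : ℕ → α → E) (g : α → E) : Prop :=
  Tendsto (fun n => eLpNorm (fun x => f n x - g x) 2 μ) atTop (𝓝 0)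

lemma eLpNorm_two_sq (f : α → E) (μ : Measure α) :
    eLpNorm f 2 μ ^ 2 = ∫⁻ x, ‖f x‖ₑ ^ 2 ∂μ := by
  have h := eLpNorm_nnreal_pow_eq_lintegral (μ := μ) (f := f) (p := 2) (by norm_num)
  have h2 : ((2 : ℝ≥0) : ℝ) = (2 : ℕ) := by norm_num
  rw [h2] at h
  simp only [ENNReal.rpow_natCast] at h
  exact_mod_cast h

lemma ennreal_tendsto_sq_zero {u : ℕ → ℝ≥0∞} :
    Tendsto (fun n => u n ^ 2) atTop (𝓝 0) ↔ Tendsto u atTop (𝓝 0) := by
  constructor
  · intro h
    have h1 : Tendsto (fun n => (u n ^ 2) ^ ((2 : ℝ)⁻¹)) atTop (𝓝 ((0 : ℝ≥0∞) ^ ((2 : ℝ)⁻¹))) :=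
      (ENNReal.continuous_rpow_const.tendsto _).comp h
    have h2 : ∀ n, (u n ^ 2) ^ ((2 : ℝ)⁻¹) = u n := by
      intro n
      rw [← ENNReal.rpow_natCast, ← ENNReal.rpow_mul]
      norm_num
    simp only [h2] at h1
    rwa [ENNReal.zero_rpow_of_pos (by norm_num)] at h1
  · intro h
    have h1 : Tendsto (fun n => u n ^ 2) atTop (𝓝 ((0 : ℝ≥0∞) ^ 2)) :=
      (ENNReal.continuous_pow 2).tendsto _ |>.comp h
    simpa using h1

lemma L2Tendsto_iff {f : ℕ → α → E} {g : α → E} :
    L2Tendsto μ f g ↔ Tendsto (fun n => ∫⁻ x, ‖f n x - g x‖ₑ ^ 2 ∂μ) atTop (𝓝 0) := by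
  unfold L2Tendsto
  rw [← ennreal_tendsto_sq_zero]
  simp only [eLpNorm_two_sq]

lemma L2Tendsto.comp {f : ℕ → α → E} {g : α → E} (h : L2Tendsto μ f g) {φ : ℕ → ℕ}
    (hφ : Tendsto φ atTop atTop) : L2Tendsto μ (fun n => f (φ n)) g :=
  Tendsto.comp (f := φ) h hφ

lemma L2Tendsto.mono_measure {f : ℕ → α → E} {g : α → E} {ν : Measure α} (h : L2Tendsto μ f g)
    (hν : ν ≤ μ) : L2Tendsto ν f g :=
  tendsto_of_tendsto_of_tendsto_of_le_of_le tendsto_const_nhds h (fun _ => zero_le)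
    (fun _ => eLpNorm_mono_measure _ hν)

lemma L2Tendsto.add {f f' : ℕ → α → E} {g g' : α → E} (h : L2Tendsto μ f g)
    (h' : L2Tendsto μ f' g') (hm : ∀ n, AEStronglyMeasurable (f n) μ)
    (hm' : ∀ n, AEStronglyMeasurable (f' n) μ) (hg : AEStronglyMeasurable g μ)
    (hg' : AEStronglyMeasurable g' μ) :
    L2Tendsto μ (fun n x => f n x + f' n x) (fun x => g x + g' x) := by
  unfold L2Tendsto at *
  have h0 := h.add h'
  rw [add_zero] at h0
  refine tendsto_of_tendsto_of_tendsto_of_le_of_le tendsto_const_nhds h0 (fun _ => zero_le)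
    (fun n => ?_)
  have : (fun x => f n x + f' n x - (g x + g' x)) =
      (fun x => f n x - g x) + (fun x => f' n x - g' x) := by
    funext x; simp only [Pi.add_apply]; abel
  rw [this]
  exact eLpNorm_add_le ((hm n).sub hg) ((hm' n).sub hg') (by norm_num)

lemma L2Tendsto.sub {f f' : ℕ → α → E} {g g' : α → E} (h : L2Tendsto μ f g)
    (h' : L2Tendsto μ f' g') (hm : ∀ n, AEStronglyMeasurable (f n) μ)
    (hm' : ∀ n, AEStronglyMeasurable (f' n) μ) (hg : AEStronglyMeasurable g μ)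
    (hg' : AEStronglyMeasurable g' μ) :
    L2Tendsto μ (fun n x => f n x - f' n x) (fun x => g x - g' x) := by
  unfold L2Tendsto at *
  have h0 := h.add h'
  rw [add_zero] at h0
  refine tendsto_of_tendsto_of_tendsto_of_le_of_le tendsto_const_nhds h0 (fun _ => zero_le)
    (fun n => ?_)
  have : (fun x => f n x - f' n x - (g x - g' x)) =
      (fun x => f n x - g x) - (fun x => f' n x - g' x) := by
    funext x; simp only [Pi.sub_apply]; abel
  rw [this]
  exact eLpNorm_sub_le ((hm n).sub hg) ((hm' n).sub hg') (by norm_num)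

/-- A pointwise bound of the difference transfers `L²` convergence. -/
lemma L2Tendsto.of_le {F : Type*} [NormedAddCommGroup F] {f : ℕ → α → E} {g : α → E}
    {f' : ℕ → α → F} {g' : α → F} (h : L2Tendsto μ f g) (C : ℝ≥0)
    (hle : ∀ n, ∀ᵐ x ∂μ, ‖f' n x - g' x‖ ≤ C * ‖f n x - g x‖) : L2Tendsto μ f' g' := by
  unfold L2Tendsto at *
  have h0 : Tendsto (fun n => (C : ℝ≥0∞) * eLpNorm (fun x => f n x - g x) 2 μ) atTop (𝓝 0) := by
    have := ENNReal.Tendsto.const_mul (a := (C : ℝ≥0∞)) h (Or.inr ENNReal.coe_ne_top)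
    simpa using this
  refine tendsto_of_tendsto_of_tendsto_of_le_of_le tendsto_const_nhds h0 (fun _ => zero_le)
    (fun n => ?_)
  exact eLpNorm_le_nnreal_smul_eLpNorm_of_ae_le_mul (hle n) 2

lemma L2Tendsto.memLp {f : ℕ → α → E} {g : α → E} (h : L2Tendsto μ f g)
    (hg : MemLp g 2 μ) (hm : ∀ n, AEStronglyMeasurable (f n) μ) :
    ∀ᶠ n in atTop, MemLp (f n) 2 μ := by
  have h1 : ∀ᶠ n in atTop, eLpNorm (fun x => f n x - g x) 2 μ < 1 :=
    h.eventually (gt_mem_nhds (by norm_num))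
  filter_upwards [h1] with n hn
  have h2 : MemLp (fun x => f n x - g x) 2 μ := ⟨(hm n).sub hg.1, hn.trans ENNReal.one_lt_top⟩
  have h3 := h2.add hg
  refine h3.ae_eq ?_
  filter_upwards with x
  simp

lemma L2Tendsto.integral_mul {a b : ℕ → α → ℝ} {a' b' : α → ℝ} (ha : L2Tendsto μ a a')
    (hb : L2Tendsto μ b b') (ham : ∀ n, AEStronglyMeasurable (a n) μ)
    (hbm : ∀ n, AEStronglyMeasurable (b n) μ) (ha' : MemLp a' 2 μ) (hb' : MemLp b' 2 μ) :
    Tendsto (fun n => ∫ x, a n x * b n x ∂μ) atTop (𝓝 (∫ x, a' x * b' x ∂μ)) := by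
  have hea := ha.memLp ha' ham
  have heb := hb.memLp hb' hbm
  refine tendsto_integral_of_L1 _ (ha'.1.mul hb'.1) ?_ ?_
  · filter_upwards [hea, heb] with n h1 h2
    exact h1.integrable_mul h2
  · have key : ∀ n, ∫⁻ x, ‖a n x * b n x - a' x * b' x‖ₑ ∂μ ≤
        eLpNorm (fun x => a n x - a' x) 2 μ * eLpNorm (fun x => b n x - b' x) 2 μ +
        eLpNorm (fun x => a n x - a' x) 2 μ * eLpNorm b' 2 μ +
        eLpNorm a' 2 μ * eLpNorm (fun x => b n x - b' x) 2 μ := by
      intro n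
      have hA : AEStronglyMeasurable (fun x => a n x - a' x) μ := (ham n).sub ha'.1
      have hB : AEStronglyMeasurable (fun x => b n x - b' x) μ := (hbm n).sub hb'.1
      have holder : ∀ f g : α → ℝ, AEStronglyMeasurable f μ → AEStronglyMeasurable g μ →
          ∫⁻ x, ‖f x * g x‖ₑ ∂μ ≤ eLpNorm f 2 μ * eLpNorm g 2 μ := by
        intro f g hf hg
        have := eLpNorm_smul_le_mul_eLpNorm (p := 2) (q := 2) (r := 1) (μ := μ) hg hf
        rw [eLpNorm_one_eq_lintegral_enorm] at this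
        simpa [smul_eq_mul] using this
      calc ∫⁻ x, ‖a n x * b n x - a' x * b' x‖ₑ ∂μ
          ≤ ∫⁻ x, (‖(a n x - a' x) * (b n x - b' x)‖ₑ + ‖(a n x - a' x) * b' x‖ₑ +
              ‖a' x * (b n x - b' x)‖ₑ) ∂μ := by
            refine lintegral_mono fun x => ?_
            have : a n x * b n x - a' x * b' x =
              (a n x - a' x) * (b n x - b' x) + (a n x - a' x) * b' x + a' x * (b n x - b' x) := by
              ring
            rw [this]
            exact (enorm_add_le _ _).trans (add_le_add_left (enorm_add_le _ _) _)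
        _ = ∫⁻ x, ‖(a n x - a' x) * (b n x - b' x)‖ₑ ∂μ + ∫⁻ x, ‖(a n x - a' x) * b' x‖ₑ ∂μ +
              ∫⁻ x, ‖a' x * (b n x - b' x)‖ₑ ∂μ := by
            rw [lintegral_add_left', lintegral_add_left']
            · exact (hA.mul hB).enorm
            · exact ((hA.mul hB).enorm).add (hA.mul hb'.1).enorm
        _ ≤ _ := by
            gcongr
            · exact holder _ _ hA hB
            · exact holder _ _ hA hb'.1
            · exact holder _ _ ha'.1 hB
    have hb0 : eLpNorm b' 2 μ ≠ ⊤ := hb'.2.ne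
    have ha0 : eLpNorm a' 2 μ ≠ ⊤ := ha'.2.ne
    have t1 := ENNReal.Tendsto.mul ha (Or.inr ENNReal.zero_ne_top) hb (Or.inr ENNReal.zero_ne_top)
    have t2 := ENNReal.Tendsto.mul_const (b := eLpNorm b' 2 μ) ha (Or.inr hb0)
    have t3 := ENNReal.Tendsto.const_mul (a := eLpNorm a' 2 μ) hb (Or.inr ha0)
    have t := (t1.add t2).add t3
    simp only [mul_zero, zero_mul, add_zero] at t
    exact tendsto_of_tendsto_of_tendsto_of_le_of_le tendsto_const_nhds t (fun _ => zero_le) key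

/-- bounded multipliers converging a.e. -/
lemma L2Tendsto.bdd_mul {c g : ℕ → α → ℝ} {c' g' : α → ℝ} (hg : L2Tendsto μ g g')
    (hgm : ∀ n, AEStronglyMeasurable (g n) μ) (hg' : MemLp g' 2 μ)
    (hcm : ∀ n, AEStronglyMeasurable (c n) μ) (hb : ∀ n x, |c n x| ≤ 1)
    (hc : ∀ᵐ x ∂μ, Tendsto (fun n => c n x) atTop (𝓝 (c' x))) :
    L2Tendsto μ (fun n x => c n x * g n x) (fun x => c' x * g' x) := by
  have hc'm : AEStronglyMeasurable c' μ := aestronglyMeasurable_of_tendsto_ae atTop hcm hc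
  -- first part : c n * (g n - g')
  have h1 : Tendsto (fun n => eLpNorm (fun x => c n x * (g n x - g' x)) 2 μ) atTop (𝓝 0) := by
    refine tendsto_of_tendsto_of_tendsto_of_le_of_le tendsto_const_nhds hg (fun _ => zero_le)
      (fun n => ?_)
    refine eLpNorm_mono fun x => ?_
    rw [norm_mul, Real.norm_eq_abs]
    exact mul_le_of_le_one_left (norm_nonneg _) (hb n x)
  -- second part : (c n - c') * g'
  have h2 : Tendsto (fun n => eLpNorm (fun x => (c n x - c' x) * g' x) 2 μ) atTop (𝓝 0) := by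
    rw [← ennreal_tendsto_sq_zero]
    simp only [eLpNorm_two_sq]
    have hfin : ∫⁻ x, ‖2 * g' x‖ₑ ^ 2 ∂μ ≠ ⊤ := by
      rw [← eLpNorm_two_sq]
      exact ENNReal.pow_ne_top (hg'.const_mul 2).2.ne
    have := tendsto_lintegral_of_dominated_convergence' (μ := μ)
      (F := fun n x => ‖(c n x - c' x) * g' x‖ₑ ^ 2) (f := fun _ => 0)
      (fun x => ‖2 * g' x‖ₑ ^ 2) ?_ ?_ hfin ?_
    · simpa using this
    · intro n
      exact ((((hcm n).sub hc'm).mul hg'.1).enorm).pow_const 2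
    · intro n
      filter_upwards [hc] with x hx
      have hc'b : |c' x| ≤ 1 := le_of_tendsto' hx.abs (fun n => hb n x)
      gcongr ?_ ^ 2
      rw [enorm_mul, enorm_mul]
      gcongr
      rw [← ofReal_norm_eq_enorm, ← ofReal_norm_eq_enorm]
      apply ENNReal.ofReal_le_ofReal
      rw [Real.norm_eq_abs, Real.norm_eq_abs]
      calc |c n x - c' x| ≤ |c n x| + |c' x| := abs_sub _ _
        _ ≤ 1 + 1 := add_le_add (hb n x) hc'b
        _ = |(2 : ℝ)| := by norm_num
    · filter_upwards [hc] with x hx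
      have h3 : Tendsto (fun n => (c n x - c' x) * g' x) atTop (𝓝 0) := by
        have := (hx.sub_const (c' x)).mul_const (g' x)
        simpa using this
      have h4 : Tendsto (fun n => ‖(c n x - c' x) * g' x‖ₑ) atTop (𝓝 0) := by
        have := h3.enorm
        simpa using this
      exact ennreal_tendsto_sq_zero.2 h4
  have h0 := h1.add h2
  rw [add_zero] at h0
  unfold L2Tendsto
  refine tendsto_of_tendsto_of_tendsto_of_le_of_le tendsto_const_nhds h0 (fun _ => zero_le)
    (fun n => ?_)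
  have : (fun x => c n x * g n x - c' x * g' x) =
      (fun x => c n x * (g n x - g' x)) + (fun x => (c n x - c' x) * g' x) := by
    funext x; simp only [Pi.add_apply]; ring
  rw [this]
  exact eLpNorm_add_le ((hcm n).mul ((hgm n).sub hg'.1)) (((hcm n).sub hc'm).mul hg'.1)
    (by norm_num)

lemma L2Tendsto.exists_subseq {f : ℕ → α → E} {g : α → E} (h : L2Tendsto μ f g)
    (hm : ∀ n, AEStronglyMeasurable (f n) μ) (hg : AEStronglyMeasurable g μ) :
    ∃ φ : ℕ → ℕ, StrictMono φ ∧ ∀ᵐ x ∂μ, Tendsto (fun n => f (φ n) x) atTop (𝓝 (g x)) := by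
  have := tendstoInMeasure_of_tendsto_eLpNorm (p := 2) (by norm_num) hm hg h
  exact this.exists_seq_tendsto_ae

end Pool.Agent.H.MP_09f213_an
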