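import Pool.Agent.H.MP_09f213_an.Expansion
import Pool.Agent.H.MP_09f213_an.L2

/-! Mollification in `L²`. -/

open MeasureTheory Set Filter Topology Metric
open scoped ContDiff ENNReal NNReal Real

namespace Pool.Agent.H.MP_09f213_an

/-- Translations are continuous in `L²`. -/
lemma translation_L2 {g : ℂ → ℂ} (hg : MemLp g 2) :
    Tendsto (fun w : ℂ => ∫⁻ z, ‖g (z - w) - g z‖ₑ ^ 2) (𝓝 0) (𝓝 0) := by
  have hfact : Fact ((1 : ℝ≥0∞) ≤ 2) := ⟨by norm_num⟩
  have hfact' : Fact ((2 : ℝ≥0∞) ≠ ⊤) := ⟨by norm_num⟩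
  have h1 : Continuous fun c : ℂ => DomAddAct.mk c +ᵥ hg.toLp g :=
    (DomAddAct.continuous_mk).vadd continuous_const
  have h2 : Tendsto (fun w : ℂ => edist (DomAddAct.mk (-w) +ᵥ hg.toLp g)
      (DomAddAct.mk (-0 : ℂ) +ᵥ hg.toLp g)) (𝓝 0) (𝓝 0) := by
    have h3 : Continuous fun w : ℂ => edist (DomAddAct.mk (-w) +ᵥ hg.toLp g)
      (DomAddAct.mk (-0 : ℂ) +ᵥ hg.toLp g) :=
      (h1.comp continuous_neg).edist continuous_const
    have := h3.tendsto 0
    rwa [edist_self] at this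
  have h4 : ∀ w : ℂ, edist (DomAddAct.mk (-w) +ᵥ hg.toLp g)
      (DomAddAct.mk (-0 : ℂ) +ᵥ hg.toLp g) = eLpNorm (fun z => g (z - w) - g z) 2 volume := by
    intro w
    rw [DomAddAct.mk_vadd_toLp, DomAddAct.mk_vadd_toLp, Lp.edist_toLp_toLp]
    refine eLpNorm_congr_ae (.of_forall fun z => ?_)
    simp only [Pi.sub_apply, vadd_eq_add, neg_zero, zero_add]
    rw [neg_add_eq_sub]
  simp only [h4] at h2
  have h5 : Tendsto (fun w : ℂ => eLpNorm (fun z => g (z - w) - g z) 2 volume ^ 2) (𝓝 0)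
      (𝓝 (0 ^ 2)) := (ENNReal.continuous_pow 2).continuousAt.tendsto.comp h2
  simpa [eLpNorm_two_sq] using h5

/-- A mollifying kernel at scale `δ`. -/
structure Mol (δ : ℝ) (ρ : ℂ → ℝ) : Prop where
  smooth : ContDiff ℝ ((⊤ : ℕ∞) : WithTop ℕ∞) ρ
  nonneg : ∀ z, 0 ≤ ρ z
  int : ∫ z, ρ z = 1
  supp : ∀ z, ρ z ≠ 0 → ‖z‖ < δ
  cs : HasCompactSupport ρ
  ts : tsupport ρ ⊆ closedBall 0 δ

lemma exists_mol {δ : ℝ} (hδ : 0 < δ) : ∃ ρ : ℂ → ℝ, Mol δ ρ := by
  let b : ContDiffBump (0 : ℂ) := ⟨δ / 2, δ, by positivity, by linarith⟩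
  refine ⟨b.normed volume, b.contDiff_normed, b.nonneg_normed, b.integral_normed, ?_,
    b.hasCompactSupport_normed, ?_⟩
  · intro z hz
    have : z ∈ Function.support (b.normed volume) := hz
    rw [b.support_normed_eq, mem_ball_zero_iff] at this
    exact this
  · rw [b.tsupport_normed_eq]

/-- The complexified kernel. -/
noncomputable def cpl (ρ : ℂ → ℝ) (z : ℂ) : ℂ := (ρ z : ℂ)

namespace Mol

variable {δ : ℝ} {ρ : ℂ → ℝ}

lemma csmooth (h : Mol δ ρ) : ContDiff ℝ ((⊤ : ℕ∞) : WithTop ℕ∞) (cpl ρ) :=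
  Complex.ofRealCLM.contDiff.comp h.smooth

lemma ccs (h : Mol δ ρ) : HasCompactSupport (cpl ρ) :=
  HasCompactSupport.intro h.cs (fun z hz => by
    unfold cpl; rw [image_eq_zero_of_notMem_tsupport hz]; simp)

lemma czero (h : Mol δ ρ) {z : ℂ} (hz : δ ≤ ‖z‖) : cpl ρ z = 0 := by
  unfold cpl
  by_contra hcon
  have : ρ z ≠ 0 := by
    intro h0; apply hcon; rw [h0]; simp
  exact absurd (h.supp z this) (not_lt.2 hz)

lemma lint (h : Mol δ ρ) : ∫⁻ z, ENNReal.ofReal (ρ z) = 1 := by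
  have hi : Integrable ρ := h.smooth.continuous.integrable_of_hasCompactSupport h.cs
  rw [← ofReal_integral_eq_lintegral_ofReal hi (.of_forall h.nonneg), h.int, ENNReal.ofReal_one]

/-- Pointwise Jensen bound. -/
lemma jensen (h : Mol δ ρ) {g : ℂ → ℂ} (hg : LocallyIntegrable g) (hgm : AEStronglyMeasurable g)
    (z : ℂ) : ‖cv g (cpl ρ) z - g z‖ₑ ^ 2 ≤
      ∫⁻ w, ENNReal.ofReal (ρ w) * ‖g (z - w) - g z‖ₑ ^ 2 := by
  have hcρ : Continuous (cpl ρ) := h.csmooth.continuous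
  have hint : Integrable (fun t => g t * cpl ρ (z - t)) := integrable_cv hg hcρ h.ccs z
  have h1 : cv g (cpl ρ) z - g z = ∫ w, (g (z - w) - g z) * cpl ρ w := by
    have e1 : cv g (cpl ρ) z = ∫ w, g (z - w) * cpl ρ w := by
      unfold cv
      rw [← integral_sub_left_eq_self _ _ z]
      congr 1; funext w; rw [sub_sub_cancel]
    have i1 : Integrable (fun w => g (z - w) * cpl ρ w) := by
      have := hint.comp_sub_left z
      refine this.congr (.of_forall fun w => ?_)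
      simp only [sub_sub_cancel]
    have i2 : Integrable (fun w => g z * cpl ρ w) :=
      (hcρ.integrable_of_hasCompactSupport h.ccs).const_mul _
    have e2 : ∫ w, g z * cpl ρ w = g z := by
      rw [integral_const_mul]
      have : ∫ w, cpl ρ w = 1 := by
        unfold cpl
        rw [integral_complex_ofReal, h.int, Complex.ofReal_one]
      rw [this, mul_one]
    calc cv g (cpl ρ) z - g z = (∫ w, g (z - w) * cpl ρ w) - ∫ w, g z * cpl ρ w := by
          rw [e1, e2]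
      _ = ∫ w, (g (z - w) - g z) * cpl ρ w := by
          rw [← integral_sub i1 i2]
          congr 1; funext w; ring
  have hmw : AEStronglyMeasurable (fun w => g (z - w) - g z) volume :=
    (hgm.comp_quasiMeasurePreserving
      (quasiMeasurePreserving_sub_left (volume : Measure ℂ) z)).sub aestronglyMeasurable_const
  have hρm : Measurable fun w => ENNReal.ofReal (ρ w) :=
    h.smooth.continuous.measurable.ennreal_ofReal
  have h2 : ‖cv g (cpl ρ) z - g z‖ₑ ≤ ∫⁻ w, ENNReal.ofReal (ρ w) * ‖g (z - w) - g z‖ₑ := by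
    rw [h1]
    refine (enorm_integral_le_lintegral_enorm _).trans (le_of_eq ?_)
    congr 1
    funext w
    rw [enorm_mul, mul_comm]
    congr 1
    unfold cpl
    rw [← ofReal_norm, Complex.norm_real, Real.norm_eq_abs, abs_of_nonneg (h.nonneg w)]
  -- Cauchy-Schwarz
  have h3 := ENNReal.lintegral_mul_le_Lp_mul_Lq (volume : Measure ℂ) (Real.HolderConjugate.two_two)
    (f := fun w => ENNReal.ofReal (ρ w) ^ (1 / 2 : ℝ))
    (g := fun w => ENNReal.ofReal (ρ w) ^ (1 / 2 : ℝ) * ‖g (z - w) - g z‖ₑ)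
    (hρm.pow_const _).aemeasurable ((hρm.pow_const _).aemeasurable.mul hmw.enorm)
  have e3 : ∀ x : ℝ≥0∞, x ^ (1 / 2 : ℝ) * x ^ (1 / 2 : ℝ) = x := by
    intro x
    rw [← ENNReal.rpow_add_of_nonneg _ _ (by norm_num) (by norm_num)]
    norm_num
  have e4 : ∀ x : ℝ≥0∞, (x ^ (1 / 2 : ℝ)) ^ (2 : ℝ) = x := by
    intro x
    rw [← ENNReal.rpow_mul]
    norm_num
  have e5 : ∫⁻ w, ((fun w => ENNReal.ofReal (ρ w) ^ (1 / 2 : ℝ)) *
      fun w => ENNReal.ofReal (ρ w) ^ (1 / 2 : ℝ) * ‖g (z - w) - g z‖ₑ) w =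
      ∫⁻ w, ENNReal.ofReal (ρ w) * ‖g (z - w) - g z‖ₑ := by
    congr 1
    funext w
    simp only [Pi.mul_apply]
    rw [← mul_assoc, e3]
  have e6 : ∫⁻ w, (ENNReal.ofReal (ρ w) ^ (1 / 2 : ℝ)) ^ (2 : ℝ) = 1 := by
    simp only [e4]
    exact h.lint
  have e7 : ∫⁻ w, (ENNReal.ofReal (ρ w) ^ (1 / 2 : ℝ) * ‖g (z - w) - g z‖ₑ) ^ (2 : ℝ) =
      ∫⁻ w, ENNReal.ofReal (ρ w) * ‖g (z - w) - g z‖ₑ ^ 2 := by
    congr 1
    funext w
    rw [ENNReal.mul_rpow_of_nonneg _ _ (by norm_num), e4]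
    congr 1
    exact_mod_cast ENNReal.rpow_natCast _ 2
  rw [e5] at h3
  rw [e6, e7, ENNReal.one_rpow, one_mul] at h3
  calc ‖cv g (cpl ρ) z - g z‖ₑ ^ 2
      ≤ ((∫⁻ w, ENNReal.ofReal (ρ w) * ‖g (z - w) - g z‖ₑ ^ 2) ^ (1 / 2 : ℝ)) ^ 2 :=
        pow_le_pow_left₀ (zero_le) (h2.trans h3) 2
    _ = _ := by
        rw [← ENNReal.rpow_natCast, ← ENNReal.rpow_mul]
        norm_num

end Mol

lemma mol_L2 {g : ℂ → ℂ} (hg : MemLp g 2) {ε : ℝ≥0∞} (hε : 0 < ε) :
    ∃ δ0 : ℝ, 0 < δ0 ∧ ∀ (δ : ℝ) (ρ : ℂ → ℝ), Mol δ ρ → δ ≤ δ0 →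
      ∫⁻ z, ‖cv g (cpl ρ) z - g z‖ₑ ^ 2 ≤ ε := by
  have h1 := (ENNReal.tendsto_nhds_zero.1 (translation_L2 hg)) ε hε
  obtain ⟨δ0, hδ0, H⟩ := Metric.eventually_nhds_iff.1 h1
  refine ⟨δ0, hδ0, fun δ ρ h hδ => ?_⟩
  have hloc : LocallyIntegrable g := hg.locallyIntegrable (by norm_num)
  calc ∫⁻ z, ‖cv g (cpl ρ) z - g z‖ₑ ^ 2
      ≤ ∫⁻ z, ∫⁻ w, ENNReal.ofReal (ρ w) * ‖g (z - w) - g z‖ₑ ^ 2 :=
        lintegral_mono fun z => h.jensen hloc hg.1 z
    _ = ∫⁻ w, ∫⁻ z, ENNReal.ofReal (ρ w) * ‖g (z - w) - g z‖ₑ ^ 2 := by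
        rw [lintegral_lintegral_swap]
        have m1 : AEStronglyMeasurable (fun p : ℂ × ℂ => g (p.1 - p.2)) (volume.prod volume) :=
          hg.1.comp_quasiMeasurePreserving
            (quasiMeasurePreserving_sub (volume : Measure ℂ) volume)
        have m2 : AEStronglyMeasurable (fun p : ℂ × ℂ => g p.1) (volume.prod volume) :=
          hg.1.comp_fst
        have m3 : Measurable fun p : ℂ × ℂ => ENNReal.ofReal (ρ p.2) :=
          (h.smooth.continuous.measurable.comp measurable_snd).ennreal_ofReal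
        exact m3.aemeasurable.mul ((m1.sub m2).enorm.pow_const 2)
    _ ≤ ∫⁻ w, ENNReal.ofReal (ρ w) * ε := by
        refine lintegral_mono fun w => ?_
        dsimp only
        rw [lintegral_const_mul' _ _ ENNReal.ofReal_ne_top]
        by_cases hw : ρ w = 0
        · simp [hw]
        · refine mul_le_mul_right (H ?_) _
          rw [dist_zero_right]
          exact (h.supp w hw).trans_le hδ
    _ = ε := by
        rw [lintegral_mul_const _ h.smooth.continuous.measurable.ennreal_ofReal, h.lint, one_mul]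

/-- Mollification of a function with weak derivatives. -/
lemma fderiv_mol {Ω : Set ℂ} {f fe : ℂ → ℂ} {e : ℂ}
    (hw : ∀ φ : ℂ → ℂ, ContDiff ℝ ((⊤ : ℕ∞) : WithTop ℕ∞) φ → HasCompactSupport φ →
      tsupport φ ⊆ Ω → (∫ z, f z * fderiv ℝ φ z e) = - ∫ z, fe z * φ z)
    {p : ℂ} {R' : ℝ} (hR' : ball p R' ⊆ Ω) (hf : IntegrableOn f (ball p R')) {δ : ℝ} {ρ : ℂ → ℝ}
    (h : Mol δ ρ) {z : ℂ} (hz : closedBall z δ ⊆ ball p R') :
    fderiv ℝ (cv ((ball p R').indicator f) (cpl ρ)) z e =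
      cv ((ball p R').indicator fe) (cpl ρ) z := by
  have hloc : LocallyIntegrable ((ball p R').indicator f) :=
    ((integrable_indicator_iff measurableSet_ball).2 hf).locallyIntegrable
  have hs1 : ContDiff ℝ 1 (cpl ρ) := h.csmooth.of_le (by exact_mod_cast le_top)
  rw [fderiv_cv hloc hs1 h.ccs]
  set φ : ℂ → ℂ := fun t => cpl ρ (z - t) with hφ
  have hφs : ContDiff ℝ ((⊤ : ℕ∞) : WithTop ℕ∞) φ :=
    h.csmooth.comp (contDiff_const.sub contDiff_id)
  have hφz : ∀ t ∉ closedBall z δ, φ t = 0 := by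
    intro t ht
    refine h.czero ?_
    rw [mem_closedBall, dist_eq_norm, not_le, norm_sub_rev] at ht
    exact ht.le
  have hφts : tsupport φ ⊆ closedBall z δ := by
    refine closure_minimal (fun t ht => ?_) isClosed_closedBall
    by_contra hcon
    exact ht (hφz t hcon)
  have hφc : HasCompactSupport φ := (isCompact_closedBall z δ).of_isClosed_subset
    (isClosed_tsupport _) hφts
  have hφd : ∀ t, fderiv ℝ φ t e = -(fderiv ℝ (cpl ρ) (z - t) e) := by
    intro t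
    have h1 : HasFDerivAt (fun t : ℂ => z - t) (-(ContinuousLinearMap.id ℝ ℂ)) t :=
      (hasFDerivAt_id t).const_sub z
    have h2 := ((hs1.differentiable (by norm_num) (z - t)).hasFDerivAt).comp t h1
    have h3 : fderiv ℝ φ t = (fderiv ℝ (cpl ρ) (z - t)).comp (-(ContinuousLinearMap.id ℝ ℂ)) :=
      h2.fderiv
    rw [h3]
    simp
  have ht := hw φ hφs hφc (hφts.trans (hz.trans hR'))
  have e1 : ∫ t, (ball p R').indicator f t * fderiv ℝ (cpl ρ) (z - t) e =
      -∫ t, f t * fderiv ℝ φ t e := by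
    rw [← integral_neg]
    congr 1
    funext t
    rw [hφd]
    by_cases htb : t ∈ ball p R'
    · rw [indicator_of_mem htb]; ring
    · rw [indicator_of_notMem htb]
      have : fderiv ℝ (cpl ρ) (z - t) e = 0 := by
        have h5 : t ∉ tsupport φ := fun h6 => htb (hz (hφts h6))
        have h6 : fderiv ℝ φ t = 0 := by
          by_contra hcon
          exact h5 (support_fderiv_subset ℝ hcon)
        have h7 := hφd t
        rw [h6] at h7
        simpa using h7.symm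
      rw [this]; ring
  rw [e1, ht, neg_neg]
  unfold cv
  congr 1
  funext t
  by_cases htb : t ∈ ball p R'
  · rw [indicator_of_mem htb]
  · rw [indicator_of_notMem htb, hφz t (fun h6 => htb (hz h6)), mul_zero, zero_mul]

/-- Smooth approximation on a smaller ball. -/
theorem exists_approx {Ω : Set ℂ} {f fx fy : ℂ → ℂ}
    (hw : ∀ φ : ℂ → ℂ, ContDiff ℝ ((⊤ : ℕ∞) : WithTop ℕ∞) φ → HasCompactSupport φ →
      tsupport φ ⊆ Ω →
      ((∫ z, f z * fderiv ℝ φ z 1) = - ∫ z, fx z * φ z) ∧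
      ((∫ z, f z * fderiv ℝ φ z Complex.I) = - ∫ z, fy z * φ z))
    {p : ℂ} {R R' : ℝ} (hRR' : R < R') (hR' : ball p R' ⊆ Ω) (hf : IntegrableOn f (ball p R'))
    (hfx : MemLp fx 2 (volume.restrict (ball p R')))
    (hfy : MemLp fy 2 (volume.restrict (ball p R'))) :
    ∃ F : ℕ → ℂ → ℂ, (∀ n, ContDiff ℝ ((⊤ : ℕ∞) : WithTop ℕ∞) (F n)) ∧
      L2Tendsto (volume.restrict (ball p R)) (fun n z => fderiv ℝ (F n) z 1) fx ∧
      L2Tendsto (volume.restrict (ball p R)) (fun n z => fderiv ℝ (F n) z Complex.I) fy ∧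
      (MemLp f 2 (volume.restrict (ball p R')) → L2Tendsto (volume.restrict (ball p R)) F f) := by
  have hind : ∀ {g : ℂ → ℂ}, MemLp g 2 (volume.restrict (ball p R')) →
      MemLp ((ball p R').indicator g) 2 := fun hg => (memLp_indicator_iff_restrict
        measurableSet_ball).2 hg
  have hsub : ball p R ⊆ ball p R' := ball_subset_ball hRR'.le
  have hδ : ∀ n : ℕ, ∃ δ : ℝ, 0 < δ ∧ δ < R' - R ∧ ∀ ρ : ℂ → ℝ, Mol δ ρ →
      (∫⁻ z, ‖cv ((ball p R').indicator fx) (cpl ρ) z - (ball p R').indicator fx z‖ₑ ^ 2 ≤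
        ENNReal.ofReal (1 / ((n : ℝ) + 1))) ∧
      (∫⁻ z, ‖cv ((ball p R').indicator fy) (cpl ρ) z - (ball p R').indicator fy z‖ₑ ^ 2 ≤
        ENNReal.ofReal (1 / ((n : ℝ) + 1))) ∧
      (MemLp f 2 (volume.restrict (ball p R')) →
        ∫⁻ z, ‖cv ((ball p R').indicator f) (cpl ρ) z - (ball p R').indicator f z‖ₑ ^ 2 ≤
        ENNReal.ofReal (1 / ((n : ℝ) + 1))) := by
    intro n
    have hpos : 0 < ENNReal.ofReal (1 / ((n : ℝ) + 1)) := ENNReal.ofReal_pos.2 (by positivity)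
    obtain ⟨δ1, h1, H1⟩ := mol_L2 (hind hfx) hpos
    obtain ⟨δ2, h2, H2⟩ := mol_L2 (hind hfy) hpos
    obtain ⟨δ3, h3, H3⟩ : ∃ δ0 : ℝ, 0 < δ0 ∧ ∀ (δ : ℝ) (ρ : ℂ → ℝ), Mol δ ρ → δ ≤ δ0 →
        MemLp f 2 (volume.restrict (ball p R')) →
        ∫⁻ z, ‖cv ((ball p R').indicator f) (cpl ρ) z - (ball p R').indicator f z‖ₑ ^ 2 ≤
        ENNReal.ofReal (1 / ((n : ℝ) + 1)) := by
      by_cases hm : MemLp f 2 (volume.restrict (ball p R'))
      · obtain ⟨δ3, h3, H3⟩ := mol_L2 (hind hm) hpos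
        exact ⟨δ3, h3, fun δ ρ q1 q2 _ => H3 δ ρ q1 q2⟩
      · exact ⟨1, one_pos, fun δ ρ _ _ q => absurd q hm⟩
    refine ⟨min (min δ1 δ2) (min δ3 ((R' - R) / 2)), ?_, ?_, ?_⟩
    · have : 0 < (R' - R) / 2 := by linarith
      positivity
    · refine lt_of_le_of_lt ((min_le_right _ _).trans (min_le_right _ _)) (by linarith)
    · intro ρ hρ
      exact ⟨H1 _ ρ hρ ((min_le_left _ _).trans (min_le_left _ _)),
        H2 _ ρ hρ ((min_le_left _ _).trans (min_le_right _ _)),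
        H3 _ ρ hρ ((min_le_right _ _).trans (min_le_left _ _))⟩
  choose δ hδ0 hδ1 hδ2 using hδ
  choose ρ hρ using fun n => exists_mol (hδ0 n)
  have hlim : Tendsto (fun n : ℕ => ENNReal.ofReal (1 / ((n : ℝ) + 1))) atTop (𝓝 0) := by
    have h0 := (ENNReal.continuous_ofReal.tendsto 0).comp
      (tendsto_one_div_add_atTop_nhds_zero_nat (𝕜 := ℝ))
    rw [ENNReal.ofReal_zero] at h0
    exact h0
  have hball : ∀ n, ∀ z ∈ ball p R, closedBall z (δ n) ⊆ ball p R' := by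
    intro n z hz w hw
    rw [mem_ball] at *
    rw [mem_closedBall] at hw
    have := dist_triangle w z p
    linarith [hδ1 n]
  have hloc : LocallyIntegrable ((ball p R').indicator f) :=
    ((integrable_indicator_iff measurableSet_ball).2 hf).locallyIntegrable
  refine ⟨fun n => cv ((ball p R').indicator f) (cpl (ρ n)), fun n =>
    contDiff_cv hloc (hρ n).csmooth (hρ n).ccs, ?_, ?_, ?_⟩
  · rw [L2Tendsto_iff]
    refine tendsto_of_tendsto_of_tendsto_of_le_of_le tendsto_const_nhds hlim (fun _ => zero_le)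
      (fun n => ?_)
    refine le_trans ?_ (hδ2 n (ρ n) (hρ n)).1
    refine le_trans (le_of_eq ?_) (setLIntegral_le_lintegral (ball p R) _)
    refine setLIntegral_congr_fun measurableSet_ball (fun z hz => ?_)
    simp only
    rw [fderiv_mol (fun φ q1 q2 q3 => (hw φ q1 q2 q3).1) hR' hf (hρ n) (hball n z hz),
      indicator_of_mem (hsub hz)]
  · rw [L2Tendsto_iff]
    refine tendsto_of_tendsto_of_tendsto_of_le_of_le tendsto_const_nhds hlim (fun _ => zero_le)
      (fun n => ?_)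
    refine le_trans ?_ (hδ2 n (ρ n) (hρ n)).2.1
    refine le_trans (le_of_eq ?_) (setLIntegral_le_lintegral (ball p R) _)
    refine setLIntegral_congr_fun measurableSet_ball (fun z hz => ?_)
    simp only
    rw [fderiv_mol (fun φ q1 q2 q3 => (hw φ q1 q2 q3).2) hR' hf (hρ n) (hball n z hz),
      indicator_of_mem (hsub hz)]
  · intro hm
    rw [L2Tendsto_iff]
    refine tendsto_of_tendsto_of_tendsto_of_le_of_le tendsto_const_nhds hlim (fun _ => zero_le)
      (fun n => ?_)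
    refine le_trans ?_ ((hδ2 n (ρ n) (hρ n)).2.2 hm)
    refine le_trans (le_of_eq ?_) (setLIntegral_le_lintegral (ball p R) _)
    refine setLIntegral_congr_fun measurableSet_ball (fun z hz => ?_)
    rw [indicator_of_mem (hsub hz)]

end Pool.Agent.H.MP_09f213_an
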