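import Pool.Agent.H.MP_09f213_an.Osc

/-! Passage to the limit in the difference quotients. -/

open MeasureTheory Set Filter Topology Metric
open scoped ContDiff ENNReal NNReal Real

namespace Pool.Agent.H.MP_09f213_an

lemma vf_quot_cont {G : ℂ → ℂ} (hG : Continuous G) {ε : ℝ} (hε : 0 < ε) :
    ∃ δ : ℝ, 0 < δ ∧ ∀ h : ℝ, 0 < h → h ≤ 1 → h < δ → ∀ w ∈ ball (0 : ℂ) 1,
      ‖(1 / h : ℂ) * vf G 0 h w - G w‖ ≤ ε := by
  have huc := (isCompact_closedBall (0 : ℂ) 2).uniformContinuousOn_of_continuous hG.continuousOn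
  rw [Metric.uniformContinuousOn_iff] at huc
  obtain ⟨δ, hδ, H⟩ := huc ε hε
  refine ⟨δ, hδ, ?_⟩
  intro h h0 h1 h2 w hw
  have hc : Continuous fun t : ℝ => G (sh t w) :=
    hG.comp (continuous_sh2.comp (Continuous.prodMk_right w))
  have e1 : (1 / h : ℂ) * vf G 0 h w - G w =
      (1 / h : ℂ) * ∫ t in (0 : ℝ)..h, (G (sh t w) - G w) := by
    rw [intervalIntegral.integral_sub (hc.intervalIntegrable _ _)
      (continuous_const.intervalIntegrable _ _), intervalIntegral.integral_const]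
    unfold vf
    have : (h : ℂ) ≠ 0 := by exact_mod_cast h0.ne'
    simp only [sub_zero, Complex.real_smul]
    field_simp
  have e2 : ‖∫ t in (0 : ℝ)..h, (G (sh t w) - G w)‖ ≤ ε * |h - 0| := by
    refine intervalIntegral.norm_integral_le_of_norm_le_const ?_
    intro t ht
    rw [uIoc_of_le h0.le] at ht
    have h3 : sh t w ∈ closedBall (0 : ℂ) 2 :=
      ball_subset_closedBall (sh_mem ht.1.le (ht.2.trans h1) hw)
    have h4 : w ∈ closedBall (0 : ℂ) 2 := by
      rw [mem_closedBall_zero_iff]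
      rw [mem_ball_zero_iff] at hw
      linarith
    have h5 : dist (sh t w) w < δ := by
      unfold sh
      rw [dist_eq_norm, add_sub_cancel_left, norm_mul, Complex.norm_I, mul_one, Complex.norm_real,
        Real.norm_eq_abs, abs_of_pos ht.1]
      linarith [ht.2]
    have := H _ h3 _ h4 h5
    rw [dist_eq_norm] at this
    exact this.le
  rw [e1, norm_mul]
  rw [sub_zero, abs_of_pos h0] at e2
  have e3 : ‖(1 / h : ℂ)‖ = 1 / h := by
    rw [norm_div, norm_one, Complex.norm_real, Real.norm_eq_abs, abs_of_pos h0]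
  rw [e3]
  calc 1 / h * ‖∫ t in (0 : ℝ)..h, (G (sh t w) - G w)‖ ≤ 1 / h * (ε * h) :=
        mul_le_mul_of_nonneg_left e2 (by positivity)
    _ = ε := by field_simp

lemma eLpNorm_quot_le {g : ℂ → ℂ} (hg : Measurable g) {h : ℝ} (h0 : 0 < h) (h1 : h ≤ 1) :
    eLpNorm (fun w => (1 / h : ℂ) * vf g 0 h w) 2 (volume.restrict (ball (0 : ℂ) 1)) ≤
      eLpNorm g 2 (volume.restrict (ball (0 : ℂ) 2)) := by
  have key : eLpNorm (fun w => (1 / h : ℂ) * vf g 0 h w) 2 (volume.restrict (ball (0 : ℂ) 1)) ^ 2 ≤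
      eLpNorm g 2 (volume.restrict (ball (0 : ℂ) 2)) ^ 2 := by
    rw [eLpNorm_two_sq, eLpNorm_two_sq]
    have h2 := lintegral_vf_sq_le hg le_rfl h0.le h1
    rw [sub_zero] at h2
    have e3 : ‖(1 / h : ℂ)‖ₑ = ENNReal.ofReal (1 / h) := by
      rw [← ofReal_norm, norm_div, norm_one, Complex.norm_real, Real.norm_eq_abs, abs_of_pos h0]
    simp only [enorm_mul, mul_pow, e3]
    rw [lintegral_const_mul' _ _ (ENNReal.pow_ne_top ENNReal.ofReal_ne_top)]
    refine (mul_le_mul_right h2 _).trans (le_of_eq ?_)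
    rw [← mul_assoc, ← mul_pow, ← ENNReal.ofReal_mul (by positivity)]
    have : 1 / h * h = 1 := by field_simp
    rw [this]
    simp
  exact (ENNReal.pow_le_pow_left_iff (by norm_num)).1 key

lemma L2Tendsto_quot {G : ℕ → ℂ → ℂ} {r : ℂ → ℂ} (hG : ∀ n, Continuous (G n)) (hr : Measurable r)
    (hr2 : MemLp r 2 (volume.restrict (ball (0 : ℂ) 2)))
    (hc : L2Tendsto (volume.restrict (ball (0 : ℂ) 2)) G r) :
    L2Tendsto (volume.restrict (ball (0 : ℂ) 1))
      (fun k w => (1 / ((1 / ((k : ℝ) + 1) : ℝ) : ℂ)) * vf r 0 (1 / ((k : ℝ) + 1)) w) r := by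
  set μ1 := volume.restrict (ball (0 : ℂ) 1) with hμ1
  set μ2 := volume.restrict (ball (0 : ℂ) 2) with hμ2
  have hμ : μ1 ≤ μ2 := Measure.restrict_mono (ball_subset_ball (by norm_num)) le_rfl
  unfold L2Tendsto at *
  rw [ENNReal.tendsto_nhds_zero]
  intro ε hε
  obtain ⟨e, he0, he⟩ : ∃ e : ℝ, 0 < e ∧ ENNReal.ofReal e ≤ ε := by
    have hm0 : min ε 1 ≠ 0 := by
      have := lt_min hε one_pos
      exact this.ne'
    have hmt : min ε 1 ≠ ⊤ := ne_top_of_le_ne_top ENNReal.one_ne_top (min_le_right _ _)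
    refine ⟨(min ε 1).toReal, ENNReal.toReal_pos hm0 hmt, ?_⟩
    rw [ENNReal.ofReal_toReal hmt]
    exact min_le_left _ _
  have hpos : 0 < ENNReal.ofReal (e / 3) := ENNReal.ofReal_pos.2 (by positivity)
  obtain ⟨n, hn⟩ := ((ENNReal.tendsto_nhds_zero.1 hc) _ hpos).exists
  have hfin : μ1 univ ≠ ⊤ := by
    rw [hμ1, Measure.restrict_apply_univ]; exact measure_ball_lt_top.ne
  set A := μ1 univ ^ (2 : ℝ≥0∞).toReal⁻¹ with hA
  have hAfin : A ≠ ⊤ := ENNReal.rpow_ne_top_of_nonneg (by positivity) hfin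
  set C := e / 3 / (A.toReal + 1) with hC
  have hA0 : 0 ≤ A.toReal := ENNReal.toReal_nonneg
  have hC0 : 0 < C := by positivity
  obtain ⟨δ, hδ, H⟩ := vf_quot_cont (hG n) hC0
  have hev : ∀ᶠ k : ℕ in atTop, (1 / ((k : ℝ) + 1)) < δ :=
    (tendsto_one_div_add_atTop_nhds_zero_nat (𝕜 := ℝ)).eventually (gt_mem_nhds hδ)
  filter_upwards [hev] with k hk
  set h : ℝ := 1 / ((k : ℝ) + 1) with hh
  have h0 : 0 < h := by positivity
  have h1 : h ≤ 1 := by
    rw [hh, div_le_one (by positivity)]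
    have : (0 : ℝ) ≤ k := Nat.cast_nonneg k
    linarith
  refine le_trans ?_ he
  have t1 : eLpNorm (fun w => (1 / h : ℂ) * vf (fun z => G n z - r z) 0 h w) 2 μ1 ≤
      ENNReal.ofReal (e / 3) := (eLpNorm_quot_le ((hG n).measurable.sub hr) h0 h1).trans hn
  have t2 : eLpNorm (fun w => (1 / h : ℂ) * vf (G n) 0 h w - G n w) 2 μ1 ≤
      ENNReal.ofReal (e / 3) := by
    refine (eLpNorm_le_of_ae_bound (C := C) ?_).trans ?_
    · filter_upwards [ae_restrict_mem measurableSet_ball] with w hw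
      exact H h h0 h1 hk w hw
    · rw [← hA, ← ENNReal.ofReal_toReal hAfin, ← ENNReal.ofReal_mul hA0]
      refine ENNReal.ofReal_le_ofReal ?_
      rw [hC, mul_div_assoc', div_le_iff₀ (by positivity)]
      nlinarith
  have t3 : eLpNorm (fun w => G n w - r w) 2 μ1 ≤ ENNReal.ofReal (e / 3) :=
    (eLpNorm_mono_measure _ hμ).trans hn
  have mT : ∀ g : ℂ → ℂ, Measurable g → Measurable fun w => (1 / h : ℂ) * vf g 0 h w :=
    fun g hg => (measurable_vf hg h0.le).const_mul _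
  have heq : (fun w => (1 / h : ℂ) * vf r 0 h w - r w) =ᵐ[μ1]
      ((fun w => (1 / h : ℂ) * vf (G n) 0 h w - G n w) + (fun w => G n w - r w)) -
      fun w => (1 / h : ℂ) * vf (fun z => G n z - r z) 0 h w := by
    filter_upwards [ae_integrable_line hr hr2 le_rfl h0.le h1] with w hw
    simp only [Pi.add_apply, Pi.sub_apply]
    have hc : Continuous fun t : ℝ => G n (sh t w) :=
      (hG n).comp (continuous_sh2.comp (Continuous.prodMk_right w))
    have : vf (fun z => G n z - r z) 0 h w = vf (G n) 0 h w - vf r 0 h w := by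
      unfold vf
      exact intervalIntegral.integral_sub (hc.intervalIntegrable _ _) hw
    rw [this]
    ring
  rw [eLpNorm_congr_ae heq]
  have mG := (hG n).measurable
  have s1 := eLpNorm_sub_le (μ := μ1) (p := 2)
    (f := (fun w => (1 / h : ℂ) * vf (G n) 0 h w - G n w) + (fun w => G n w - r w))
    (g := fun w => (1 / h : ℂ) * vf (fun z => G n z - r z) 0 h w)
    ((((mT _ mG).sub mG).add (mG.sub hr)).aestronglyMeasurable)
    ((mT _ (mG.sub hr)).aestronglyMeasurable) (by norm_num)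
  have s2 := eLpNorm_add_le (μ := μ1) (p := 2)
    (f := fun w => (1 / h : ℂ) * vf (G n) 0 h w - G n w) (g := fun w => G n w - r w)
    (((mT _ mG).sub mG).aestronglyMeasurable) ((mG.sub hr).aestronglyMeasurable) (by norm_num)
  refine s1.trans ((add_le_add (s2.trans (add_le_add t2 t3)) t1).trans (le_of_eq ?_))
  rw [← ENNReal.ofReal_add (by positivity) (by positivity),
    ← ENNReal.ofReal_add (by positivity) (by positivity)]
  congr 1
  ring

/-- **Theorem II.** Uniform oscillation bound for `r = i (ζ - λ²/conj ζ)`. -/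
theorem osc_r {N : ℝ} (hN : 0 ≤ N) {ε : ℝ} (hε : 0 < ε) :
    ∃ ρ0 : ℝ, 0 < ρ0 ∧ ρ0 < 1 / 2 ∧ ∀ (l : ℝ) (ζ : ℂ → ℂ) (F : ℕ → ℂ → ℂ), Dat l N ζ F →
      ∃ κ : ℂ, ∀ᵐ w ∂(volume.restrict (ball (0 : ℂ) ρ0)), ‖rf l (ζ w) - κ‖ ≤ ε := by
  obtain ⟨ρ0, h0, h1, H⟩ := osc_vf hN hε
  refine ⟨ρ0, h0, h1, ?_⟩
  intro l ζ F D
  have hc : ∀ n, Continuous fun z => fderiv ℝ (F n) z Complex.I := fun n =>
    ((D.smooth n).continuous_fderiv (by norm_num)).clm_apply continuous_const
  have hL := L2Tendsto_quot hc D.measr D.memr D.cy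
  have hsub : volume.restrict (ball (0 : ℂ) ρ0) ≤ volume.restrict (ball (0 : ℂ) 1) :=
    Measure.restrict_mono (ball_subset_ball (by linarith)) le_rfl
  have hpos : ∀ k : ℕ, 0 < (1 / ((k : ℝ) + 1)) ∧ (1 / ((k : ℝ) + 1)) ≤ 1 := by
    intro k
    refine ⟨by positivity, ?_⟩
    rw [div_le_one (by positivity)]
    have : (0 : ℝ) ≤ k := Nat.cast_nonneg k
    linarith
  obtain ⟨φ, hφ, hae⟩ := hL.exists_subseq (fun k =>
    ((measurable_vf D.measr (hpos k).1.le).const_mul _).aestronglyMeasurable)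
    D.measr.aestronglyMeasurable
  have hμ : volume.restrict (ball (0 : ℂ) ρ0) ≠ 0 := by
    rw [Ne, Measure.restrict_eq_zero]
    exact (measure_ball_pos _ _ h0).ne'
  exact const_limit hμ (ae_mono hsub hae)
    (fun n => H l ζ F D _ (hpos (φ n)).1 (hpos (φ n)).2)

end Pool.Agent.H.MP_09f213_an
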