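import Pool.Agent.H.MP_09f213_an.CoV
import Pool.Agent.H.MP_09f213_an.Moll
import Pool.Agent.H.MP_09f213_an.Thm2

/-! The oscillation estimate in a natural chart. -/

open MeasureTheory Set Filter Topology Metric
open scoped ContDiff ENNReal NNReal Real

namespace Pool.Agent.H.MP_09f213_an

/-- `f_z` from `f_x`, `f_y`. -/
noncomputable def wz (fx fy : ℂ → ℂ) (z : ℂ) : ℂ := (fx z - Complex.I * fy z) / 2

/-- `f_z̄` from `f_x`, `f_y`. -/
noncomputable def wzb (fx fy : ℂ → ℂ) (z : ℂ) : ℂ := (fx z + Complex.I * fy z) / 2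

/-- Data of a map with weak derivatives on `Ω` and holomorphic Hopf product `φ` on `ball p R`. -/
structure LocDat (Ω : Set ℂ) (f fx fy φ : ℂ → ℂ) (p : ℂ) (R R' : ℝ) : Prop where
  hR : 0 < R
  hRR' : R < R'
  sub : ball p R' ⊆ Ω
  weak : ∀ φ : ℂ → ℂ, ContDiff ℝ ((⊤ : ℕ∞) : WithTop ℕ∞) φ → HasCompactSupport φ →
      tsupport φ ⊆ Ω →
      ((∫ z, f z * fderiv ℝ φ z 1) = - ∫ z, fx z * φ z) ∧
      ((∫ z, f z * fderiv ℝ φ z Complex.I) = - ∫ z, fy z * φ z)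
  int : IntegrableOn f (ball p R')
  mx : MemLp fx 2 (volume.restrict (ball p R'))
  my : MemLp fy 2 (volume.restrict (ball p R'))
  holo : DifferentiableOn ℂ φ (ball p R)
  hopf : ∀ᵐ z ∂(volume.restrict (ball p R)),
    wz fx fy z * (starRingEnd ℂ) (wzb fx fy z) = φ z
  jac : ∀ᵐ z ∂(volume.restrict (ball p R)), ‖wzb fx fy z‖ ≤ ‖wz fx fy z‖

/-- Natural chart. -/
structure IsChart (φ : ℂ → ℂ) (p : ℂ) (R : ℝ) (Ψ : ℂ → ℂ) : Prop where
  zero : Ψ 0 = p
  diff : DifferentiableOn ℂ Ψ (ball 0 3)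
  inj : InjOn Ψ (ball 0 3)
  maps : MapsTo Ψ (ball 0 3) (ball p R)
  eq : ∀ w ∈ ball (0 : ℂ) 3, φ (Ψ w) * deriv Ψ w ^ 2 = ((‖φ p‖ * R ^ 2 / 36 : ℝ) : ℂ)
  bd : ∀ w ∈ ball (0 : ℂ) 3, R / 8 ≤ ‖deriv Ψ w‖ ∧ ‖deriv Ψ w‖ ≤ R / 4
  cover : ∀ ρ : ℝ, 0 < ρ → ρ ≤ 3 → ball p (ρ * R / 8) ⊆ Ψ '' ball 0 ρ

/-- The rescaled derivative in the chart. -/
noncomputable def tz (fx fy Ψ : ℂ → ℂ) (R : ℝ) (w : ℂ) : ℂ := wz fx fy (Ψ w) * deriv Ψ w / R

/-- The rescaled antiholomorphic derivative in the chart. -/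
noncomputable def tzb (fx fy Ψ : ℂ → ℂ) (R : ℝ) (w : ℂ) : ℂ :=
  wzb fx fy (Ψ w) * (starRingEnd ℂ) (deriv Ψ w) / R

section
variable {Ω : Set ℂ} {f fx fy φ Ψ : ℂ → ℂ} {p : ℂ} {R R' : ℝ}

lemma chart_meas (hc : IsChart φ p R Ψ) : AEMeasurable Ψ (volume.restrict (ball (0 : ℂ) 2)) :=
  (hc.diff.continuousOn.mono (ball_subset_ball (by norm_num))).aemeasurable measurableSet_ball

lemma chart_deriv_ne (hR : 0 < R) (hc : IsChart φ p R Ψ) {w : ℂ} (hw : w ∈ ball (0 : ℂ) 3) :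
    deriv Ψ w ≠ 0 := by
  have := (hc.bd w hw).1
  rw [← norm_pos_iff]
  have h : 0 < R / 8 := by positivity
  linarith

lemma chart_ae (hR : 0 < R) (hc : IsChart φ p R Ψ) {P : ℂ → Prop}
    (hP : ∀ᵐ z ∂(volume.restrict (ball p R)), P z) :
    ∀ᵐ w ∂(volume.restrict (ball (0 : ℂ) 2)), P (Ψ w) := by
  have hsub : ball (0 : ℂ) 2 ⊆ ball 0 3 := ball_subset_ball (by norm_num)
  exact ae_comp_holomorphic isOpen_ball measurableSet_ball (hc.diff.mono hsub) (hc.inj.mono hsub)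
    (fun w hw => chart_deriv_ne hR hc (hsub hw)) (fun w hw => hc.maps (hsub hw)) hP

lemma chart_aesm (hR : 0 < R) (hc : IsChart φ p R Ψ) {g : ℂ → ℂ}
    (hg : AEStronglyMeasurable g (volume.restrict (ball p R))) :
    AEStronglyMeasurable (fun w => g (Ψ w)) (volume.restrict (ball (0 : ℂ) 2)) := by
  have h1 : AEStronglyMeasurable (fun w => hg.mk g (Ψ w)) (volume.restrict (ball (0 : ℂ) 2)) :=
    (hg.stronglyMeasurable_mk.measurable.comp_aemeasurable (chart_meas hc)).aestronglyMeasurable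
  refine h1.congr ?_
  filter_upwards [chart_ae hR hc hg.ae_eq_mk] with w hw
  exact hw.symm

lemma chart_lintegral (hR : 0 < R) (hc : IsChart φ p R Ψ) (g : ℂ → ℝ≥0∞) :
    ∫⁻ w in ball (0 : ℂ) 2, ENNReal.ofReal (‖deriv Ψ w‖ ^ 2 / R ^ 2) * g (Ψ w) ≤
      ENNReal.ofReal (1 / R ^ 2) * ∫⁻ z in ball p R, g z := by
  have hsub : ball (0 : ℂ) 2 ⊆ ball 0 3 := ball_subset_ball (by norm_num)
  have h1 := lintegral_comp_holomorphic isOpen_ball (hc.diff.mono hsub) (hc.inj.mono hsub) g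
  have h2 : ∀ w, ENNReal.ofReal (‖deriv Ψ w‖ ^ 2 / R ^ 2) * g (Ψ w) =
      ENNReal.ofReal (1 / R ^ 2) * (ENNReal.ofReal (‖deriv Ψ w‖ ^ 2) * g (Ψ w)) := by
    intro w
    rw [← mul_assoc, ← ENNReal.ofReal_mul (by positivity)]
    congr 2
    ring
  simp only [h2]
  rw [lintegral_const_mul' _ _ ENNReal.ofReal_ne_top, h1]
  refine mul_le_mul_right (lintegral_mono_set ?_) _
  rintro z ⟨w, hw, rfl⟩
  exact hc.maps (hsub hw)

lemma LocDat.mx' (D : LocDat Ω f fx fy φ p R R') : MemLp fx 2 (volume.restrict (ball p R)) :=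
  D.mx.mono_measure (Measure.restrict_mono (ball_subset_ball D.hRR'.le) le_rfl)

lemma LocDat.my' (D : LocDat Ω f fx fy φ p R R') : MemLp fy 2 (volume.restrict (ball p R)) :=
  D.my.mono_measure (Measure.restrict_mono (ball_subset_ball D.hRR'.le) le_rfl)

lemma LocDat.mwz (D : LocDat Ω f fx fy φ p R R') :
    AEStronglyMeasurable (wz fx fy) (volume.restrict (ball p R)) := by
  unfold wz
  simp only [div_eq_mul_inv]
  exact (D.mx'.1.sub (D.my'.1.const_mul _)).mul_const _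

lemma LocDat.mwzb (D : LocDat Ω f fx fy φ p R R') :
    AEStronglyMeasurable (wzb fx fy) (volume.restrict (ball p R)) := by
  unfold wzb
  simp only [div_eq_mul_inv]
  exact (D.mx'.1.add (D.my'.1.const_mul _)).mul_const _

/-- The algebraic relations in the chart. -/
lemma chart_rel (D : LocDat Ω f fx fy φ p R R') (hc : IsChart φ p R Ψ) {l : ℝ} (hl : 0 < l)
    (hl2 : l ^ 2 = ‖φ p‖ / 36) :
    ∀ᵐ w ∂(volume.restrict (ball (0 : ℂ) 2)), l ≤ ‖tz fx fy Ψ R w‖ ∧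
      tzb fx fy Ψ R w = mf l (tz fx fy Ψ R w) := by
  filter_upwards [chart_ae D.hR hc D.hopf, chart_ae D.hR hc D.jac,
    ae_restrict_mem measurableSet_ball] with w h1 h2 h3
  have h3' : w ∈ ball (0 : ℂ) 3 := ball_subset_ball (by norm_num) h3
  have hR := D.hR
  have hRc : (R : ℂ) ≠ 0 := by exact_mod_cast hR.ne'
  set a := tz fx fy Ψ R w with ha
  set b := tzb fx fy Ψ R w with hb
  have e1 : a * (starRingEnd ℂ) b = ((l ^ 2 : ℝ) : ℂ) := by
    rw [ha, hb]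
    unfold tz tzb
    rw [map_div₀, map_mul, Complex.conj_conj, Complex.conj_ofReal]
    have h4 := hc.eq w h3'
    rw [← h1] at h4
    have : wz fx fy (Ψ w) * deriv Ψ w / R *
        ((starRingEnd ℂ) (wzb fx fy (Ψ w)) * deriv Ψ w / R) =
        (wz fx fy (Ψ w) * (starRingEnd ℂ) (wzb fx fy (Ψ w)) * deriv Ψ w ^ 2) / R ^ 2 := by
      field_simp
    rw [this, h4, hl2]
    push_cast
    field_simp
  have e2 : ‖b‖ ≤ ‖a‖ := by
    rw [ha, hb]
    unfold tz tzb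
    rw [norm_div, norm_div, norm_mul, norm_mul, Complex.norm_conj]
    gcongr
  have e3 : ‖a‖ * ‖b‖ = l ^ 2 := by
    have := congrArg norm e1
    rw [norm_mul, Complex.norm_conj, Complex.norm_real, Real.norm_eq_abs,
      abs_of_nonneg (by positivity)] at this
    exact this
  have e4 : l ^ 2 ≤ ‖a‖ ^ 2 := by
    rw [← e3, sq]
    exact mul_le_mul_of_nonneg_left e2 (norm_nonneg _)
  have e5 : l ≤ ‖a‖ := (pow_le_pow_iff_left₀ hl.le (norm_nonneg _) (by norm_num)).1 e4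
  refine ⟨e5, ?_⟩
  have ha0 : a ≠ 0 := norm_pos_iff.1 (hl.trans_le e5)
  unfold mf
  have e6 : (starRingEnd ℂ) a * b = ((l ^ 2 : ℝ) : ℂ) := by
    have := congrArg (starRingEnd ℂ) e1
    rw [map_mul, Complex.conj_conj, Complex.conj_ofReal] at this
    exact this
  have e7 : (starRingEnd ℂ) a * a = ((‖a‖ ^ 2 : ℝ) : ℂ) := by
    rw [mul_comm, Complex.mul_conj, Complex.normSq_eq_norm_sq]
  have hca : (starRingEnd ℂ) a ≠ 0 := by
    intro h0
    apply ha0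
    have := congrArg (starRingEnd ℂ) h0
    simpa using this
  have hn : 0 < ‖a‖ ^ 2 := by have := norm_pos_iff.2 ha0; positivity
  apply mul_left_cancel₀ hca
  rw [e6]
  have : (starRingEnd ℂ) a * (((l ^ 2 / ‖a‖ ^ 2 : ℝ) : ℂ) * a) =
      ((l ^ 2 / ‖a‖ ^ 2 : ℝ) : ℂ) * ((starRingEnd ℂ) a * a) := by ring
  rw [this, e7, ← Complex.ofReal_mul, div_mul_cancel₀ _ hn.ne']

lemma dz_diff_le (L : ℂ →L[ℝ] ℂ) (x y a : ℂ) :
    ‖L a - ((x - Complex.I * y) / 2 * a + (x + Complex.I * y) / 2 * (starRingEnd ℂ) a)‖ ≤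
      ‖a‖ * (‖L 1 - x‖ + ‖L Complex.I - y‖) := by
  rw [clm_eq_dz]
  have e : (L 1 - Complex.I * L Complex.I) / 2 * a +
      (L 1 + Complex.I * L Complex.I) / 2 * (starRingEnd ℂ) a -
      ((x - Complex.I * y) / 2 * a + (x + Complex.I * y) / 2 * (starRingEnd ℂ) a) =
      ((L 1 - x) - Complex.I * (L Complex.I - y)) / 2 * a +
      ((L 1 - x) + Complex.I * (L Complex.I - y)) / 2 * (starRingEnd ℂ) a := by ring
  rw [e]
  have h1 : ‖((L 1 - x) - Complex.I * (L Complex.I - y)) / 2‖ ≤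
      (‖L 1 - x‖ + ‖L Complex.I - y‖) / 2 := by
    rw [norm_div, Complex.norm_ofNat]
    refine div_le_div_of_nonneg_right ((norm_sub_le _ _).trans (le_of_eq ?_)) (by norm_num)
    rw [norm_mul, Complex.norm_I, one_mul]
  have h2 : ‖((L 1 - x) + Complex.I * (L Complex.I - y)) / 2‖ ≤
      (‖L 1 - x‖ + ‖L Complex.I - y‖) / 2 := by
    rw [norm_div, Complex.norm_ofNat]
    refine div_le_div_of_nonneg_right ((norm_add_le _ _).trans (le_of_eq ?_)) (by norm_num)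
    rw [norm_mul, Complex.norm_I, one_mul]
  refine (norm_add_le _ _).trans ?_
  rw [norm_mul, norm_mul, Complex.norm_conj]
  have h3 := mul_le_mul_of_nonneg_right h1 (norm_nonneg a)
  have h4 := mul_le_mul_of_nonneg_right h2 (norm_nonneg a)
  linarith

/-- Convergence of the derivatives in the chart. -/
lemma chart_conv (D : LocDat Ω f fx fy φ p R R') (hc : IsChart φ p R Ψ) {g : ℕ → ℂ → ℂ}
    (hgx : L2Tendsto (volume.restrict (ball p R)) (fun n z => fderiv ℝ (g n) z 1) fx)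
    (hgy : L2Tendsto (volume.restrict (ball p R)) (fun n z => fderiv ℝ (g n) z Complex.I) fy)
    (hgs : ∀ n, ContDiff ℝ ((⊤ : ℕ∞) : WithTop ℕ∞) (g n)) {e : ℂ} (he : ‖e‖ = 1)
    {H : ℕ → ℂ → ℂ}
    (hH : ∀ n, ∀ w ∈ ball (0 : ℂ) 2, H n w = fderiv ℝ (g n) (Ψ w) (deriv Ψ w * e) / R) :
    L2Tendsto (volume.restrict (ball (0 : ℂ) 2)) H
      (fun w => tz fx fy Ψ R w * e + tzb fx fy Ψ R w * (starRingEnd ℂ) e) := by
  have hR := D.hR
  rw [L2Tendsto_iff] at *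
  have hx0 : Tendsto (fun n => ENNReal.ofReal (1 / R ^ 2) *
      ∫⁻ z in ball p R, (2 * ‖fderiv ℝ (g n) z 1 - fx z‖ₑ ^ 2 +
        2 * ‖fderiv ℝ (g n) z Complex.I - fy z‖ₑ ^ 2)) atTop (𝓝 0) := by
    have h1 : Tendsto (fun n => ∫⁻ z in ball p R, (2 * ‖fderiv ℝ (g n) z 1 - fx z‖ₑ ^ 2 +
        2 * ‖fderiv ℝ (g n) z Complex.I - fy z‖ₑ ^ 2)) atTop (𝓝 0) := by
      have h2 := (ENNReal.Tendsto.const_mul (a := 2) hgx (Or.inr (by norm_num))).add
        (ENNReal.Tendsto.const_mul (a := 2) hgy (Or.inr (by norm_num)))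
      rw [mul_zero, add_zero] at h2
      refine h2.congr (fun n => ?_)
      have hcd : ∀ e : ℂ, Continuous fun z => fderiv ℝ (g n) z e := fun e =>
        ((hgs n).continuous_fderiv (by norm_num)).clm_apply continuous_const
      have m1 : AEMeasurable (fun z => 2 * ‖fderiv ℝ (g n) z 1 - fx z‖ₑ ^ 2)
          (volume.restrict (ball p R)) :=
        ((((hcd 1).aestronglyMeasurable).sub D.mx'.1).enorm.pow_const 2).const_mul _
      rw [lintegral_add_left' m1, lintegral_const_mul' _ _ (by norm_num),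
        lintegral_const_mul' _ _ (by norm_num)]
    have h3 := ENNReal.Tendsto.const_mul (a := ENNReal.ofReal (1 / R ^ 2)) h1
      (Or.inr ENNReal.ofReal_ne_top)
    simpa using h3
  refine tendsto_of_tendsto_of_tendsto_of_le_of_le tendsto_const_nhds hx0 (fun _ => zero_le)
    (fun n => ?_)
  refine le_trans ?_ (chart_lintegral hR hc _)
  refine setLIntegral_mono' measurableSet_ball (fun w hw => ?_)
  rw [hH n w hw]
  set a := deriv Ψ w with ha
  set L := fderiv ℝ (g n) (Ψ w) with hL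
  have hkey := dz_diff_le L (fx (Ψ w)) (fy (Ψ w)) (a * e)
  have heq : L (a * e) / R - (tz fx fy Ψ R w * e + tzb fx fy Ψ R w * (starRingEnd ℂ) e) =
      (L (a * e) - ((fx (Ψ w) - Complex.I * fy (Ψ w)) / 2 * (a * e) +
        (fx (Ψ w) + Complex.I * fy (Ψ w)) / 2 * (starRingEnd ℂ) (a * e))) / R := by
    unfold tz tzb wz wzb
    rw [map_mul (starRingEnd ℂ) a e, ← ha]
    ring
  rw [heq]
  set X := L (a * e) - ((fx (Ψ w) - Complex.I * fy (Ψ w)) / 2 * (a * e) +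
        (fx (Ψ w) + Complex.I * fy (Ψ w)) / 2 * (starRingEnd ℂ) (a * e)) with hX
  set dx := ‖L 1 - fx (Ψ w)‖ with hdx
  set dy := ‖L Complex.I - fy (Ψ w)‖ with hdy
  have hdx0 : 0 ≤ dx := norm_nonneg _
  have hdy0 : 0 ≤ dy := norm_nonneg _
  have h5 : ‖X / R‖ ^ 2 ≤ ‖a‖ ^ 2 / R ^ 2 * (2 * dx ^ 2 + 2 * dy ^ 2) := by
    rw [norm_div, Complex.norm_real, Real.norm_eq_abs, abs_of_pos hR, div_pow]
    rw [norm_mul, he, mul_one] at hkey
    have h6 : ‖X‖ ^ 2 ≤ ‖a‖ ^ 2 * (2 * dx ^ 2 + 2 * dy ^ 2) := by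
      calc ‖X‖ ^ 2 ≤ (‖a‖ * (dx + dy)) ^ 2 := pow_le_pow_left₀ (norm_nonneg _) hkey 2
        _ = ‖a‖ ^ 2 * (dx + dy) ^ 2 := by ring
        _ ≤ ‖a‖ ^ 2 * (2 * dx ^ 2 + 2 * dy ^ 2) := by
          refine mul_le_mul_of_nonneg_left ?_ (sq_nonneg _)
          nlinarith [sq_nonneg (dx - dy)]
    calc ‖X‖ ^ 2 / R ^ 2 ≤ ‖a‖ ^ 2 * (2 * dx ^ 2 + 2 * dy ^ 2) / R ^ 2 :=
          div_le_div_of_nonneg_right h6 (by positivity)
      _ = _ := by ring
  rw [← ofReal_norm, ← ofReal_norm, ← ofReal_norm, ← ENNReal.ofReal_pow (norm_nonneg _),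
    ← ENNReal.ofReal_pow (norm_nonneg _), ← ENNReal.ofReal_pow (norm_nonneg _)]
  have h2 : (2 : ℝ≥0∞) = ENNReal.ofReal 2 := by norm_num
  rw [h2, ← ENNReal.ofReal_mul (by norm_num), ← ENNReal.ofReal_mul (by norm_num),
    ← ENNReal.ofReal_add (by positivity) (by positivity), ← ENNReal.ofReal_mul (by positivity)]
  exact ENNReal.ofReal_le_ofReal h5

end

lemma L2Tendsto.congr_right {α E : Type*} [MeasurableSpace α] [NormedAddCommGroup E]
    {μ : Measure α} {f : ℕ → α → E} {g g' : α → E} (h : L2Tendsto μ f g) (hg : g =ᵐ[μ] g') :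
    L2Tendsto μ f g' := by
  unfold L2Tendsto at *
  refine h.congr (fun n => ?_)
  refine eLpNorm_congr_ae ?_
  filter_upwards [hg] with x hx
  rw [hx]

/-- Oscillation estimate in the chart, uniform in all data. -/
theorem chart_osc {N : ℝ} (hN : 0 ≤ N) {ε : ℝ} (hε : 0 < ε) :
    ∃ ρ0 : ℝ, 0 < ρ0 ∧ ρ0 < 1 / 2 ∧ ∀ (Ω : Set ℂ) (f fx fy φ Ψ : ℂ → ℂ) (p : ℂ) (R R' : ℝ),
      LocDat Ω f fx fy φ p R R' → IsChart φ p R Ψ → φ p ≠ 0 → ‖φ p‖ ≤ 36 →
      (∫⁻ z in ball p R, ‖wz fx fy z‖ₑ ^ 2 ≤ ENNReal.ofReal (N * R ^ 2)) →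
      ∃ κ : ℂ, ∀ᵐ w ∂(volume.restrict (ball (0 : ℂ) ρ0)),
        ‖Complex.I * (tz fx fy Ψ R w - tzb fx fy Ψ R w) - κ‖ ≤ ε := by
  obtain ⟨ρ0, h0, h1, H⟩ := osc_r hN hε
  refine ⟨ρ0, h0, h1, ?_⟩
  intro Ω f fx fy φ Ψ p R R' D hc hp hp36 hE
  have hR := D.hR
  have hpn : 0 < ‖φ p‖ := norm_pos_iff.2 hp
  set l := Real.sqrt (‖φ p‖ / 36) with hl
  have hl0 : 0 < l := Real.sqrt_pos.2 (by positivity)
  have hl2 : l ^ 2 = ‖φ p‖ / 36 := Real.sq_sqrt (by positivity)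
  have hl1 : l ≤ 1 := by
    rw [hl, Real.sqrt_le_left (by norm_num), one_pow, div_le_one (by norm_num)]
    exact hp36
  set μ2 := volume.restrict (ball (0 : ℂ) 2) with hμ2
  have hrel := chart_rel D hc hl0 hl2
  have hm : AEStronglyMeasurable (tz fx fy Ψ R) μ2 := by
    unfold tz
    simp only [div_eq_mul_inv]
    exact ((chart_aesm hR hc D.mwz).mul
      (measurable_deriv Ψ).aestronglyMeasurable).mul_const _
  set ζ1 := hm.mk with hζ1
  have hζ1m : Measurable ζ1 := hm.stronglyMeasurable_mk.measurable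
  set ζ : ℂ → ℂ := fun w => if l ≤ ‖ζ1 w‖ then ζ1 w else (l : ℂ) with hζ
  have hζm : Measurable ζ := by
    refine Measurable.ite ?_ hζ1m measurable_const
    exact measurableSet_le measurable_const hζ1m.norm
  have hζge : ∀ w, l ≤ ‖ζ w‖ := by
    intro w
    simp only [hζ]
    split_ifs with h
    · exact h
    · rw [Complex.norm_real, Real.norm_eq_abs, abs_of_pos hl0]
  have hζae : ∀ᵐ w ∂μ2, ζ w = tz fx fy Ψ R w := by
    filter_upwards [hrel, hm.ae_eq_mk] with w h2 h3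
    simp only [hζ]
    rw [hζ1, ← h3, if_pos h2.1]
  have hbd : ∫⁻ z in ball (0 : ℂ) 2, ‖ζ z‖ₑ ^ 2 ≤ ENNReal.ofReal N := by
    calc ∫⁻ z in ball (0 : ℂ) 2, ‖ζ z‖ₑ ^ 2
        = ∫⁻ w in ball (0 : ℂ) 2, ENNReal.ofReal (‖deriv Ψ w‖ ^ 2 / R ^ 2) *
            ‖wz fx fy (Ψ w)‖ₑ ^ 2 := by
          refine lintegral_congr_ae ?_
          filter_upwards [hζae] with w h2
          rw [h2]
          unfold tz
          rw [← ofReal_norm, ← ofReal_norm, ← ENNReal.ofReal_pow (norm_nonneg _),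
            ← ENNReal.ofReal_pow (norm_nonneg _), ← ENNReal.ofReal_mul (by positivity)]
          congr 1
          rw [norm_div, norm_mul, Complex.norm_real, Real.norm_eq_abs, abs_of_pos hR]
          ring
      _ ≤ ENNReal.ofReal (1 / R ^ 2) * ∫⁻ z in ball p R, ‖wz fx fy z‖ₑ ^ 2 :=
          chart_lintegral hR hc (fun z => ‖wz fx fy z‖ₑ ^ 2)
      _ ≤ ENNReal.ofReal (1 / R ^ 2) * ENNReal.ofReal (N * R ^ 2) := mul_le_mul_right hE _
      _ = ENNReal.ofReal N := by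
          rw [← ENNReal.ofReal_mul (by positivity)]
          congr 1
          field_simp
  obtain ⟨g, hgs, hgx, hgy, -⟩ := exists_approx D.weak D.hRR' D.sub D.int D.mx D.my
  have hΨs : ContDiffOn ℝ 2 Ψ (ball 0 3) :=
    (hc.diff.contDiffOn isOpen_ball (n := 2)).restrict_scalars ℝ
  have hGs : ∀ n, ContDiffOn ℝ 2 (fun w => g n (Ψ w) / R) (ball 0 3) := by
    intro n
    have h2 : ContDiff ℝ 2 (g n) := contDiff_infty.1 (hgs n) 2
    simp only [div_eq_mul_inv]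
    exact (h2.comp_contDiffOn hΨs).mul contDiffOn_const
  choose F hF hFeq using fun n => exists_smooth_ext (hGs n)
  have hfd : ∀ n (e : ℂ), ∀ w ∈ ball (0 : ℂ) 2, fderiv ℝ (F n) w e =
      fderiv ℝ (g n) (Ψ w) (deriv Ψ w * e) / R := by
    intro n e w hw
    have h2 : F n =ᶠ[𝓝 w] fun w => g n (Ψ w) / R := by
      filter_upwards [isOpen_ball.mem_nhds hw] with z hz using hFeq n z hz
    have hw3 : w ∈ ball (0 : ℂ) 3 := ball_subset_ball (by norm_num) hw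
    have hd1 : DifferentiableAt ℝ (g n) (Ψ w) := (hgs n).differentiable (by norm_num) _
    have hd2 : DifferentiableAt ℂ Ψ w := (hc.diff w hw3).differentiableAt (isOpen_ball.mem_nhds hw3)
    have hd3 : DifferentiableAt ℝ (fun w => g n (Ψ w)) w :=
      DifferentiableAt.comp w hd1 (hd2.restrictScalars ℝ)
    rw [h2.fderiv_eq, ← fderiv_comp_holomorphic hd1 hd2]
    simp only [div_eq_mul_inv]
    rw [fderiv_mul_const hd3]
    simp [mul_comm]
  have D2 : Dat l N ζ F := by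
    refine ⟨hl0, hl1, hζm, hζge, hbd, hF, ?_, ?_⟩
    · have h2 := chart_conv D hc hgx hgy hgs (e := 1) (by simp) (H := fun n w => fderiv ℝ (F n) w 1)
        (fun n w hw => hfd n 1 w hw)
      refine h2.congr_right ?_
      filter_upwards [hrel, hζae] with w h3 h4
      unfold pf
      rw [h4, ← h3.2, map_one, mul_one, mul_one]
    · have h2 := chart_conv D hc hgx hgy hgs (e := Complex.I) (by simp)
        (H := fun n w => fderiv ℝ (F n) w Complex.I) (fun n w hw => hfd n Complex.I w hw)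
      refine h2.congr_right ?_
      filter_upwards [hrel, hζae] with w h3 h4
      unfold rf
      rw [h4, ← h3.2, Complex.conj_I]
      ring
  obtain ⟨κ, hκ⟩ := H l ζ F D2
  refine ⟨κ, ?_⟩
  have hsub : volume.restrict (ball (0 : ℂ) ρ0) ≤ μ2 :=
    Measure.restrict_mono (ball_subset_ball (by linarith)) le_rfl
  filter_upwards [hκ, ae_mono hsub hrel, ae_mono hsub hζae] with w h2 h3 h4
  unfold rf at h2
  rw [h4, ← h3.2] at h2
  exact h2

end Pool.Agent.H.MP_09f213_an
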