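import Mathlib

/-! The truncation function `T` with `T' (s) = min 1 (max s 0)`. -/

open MeasureTheory Set Filter Topology Metric
open scoped ContDiff ENNReal NNReal

namespace Pool.Agent.H.MP_09f213_an

/-- `k s = min 1 (max s 0)` -/
noncomputable def kf (s : ℝ) : ℝ := min 1 (max s 0)

/-- `T s = ∫₀ˢ k` -/
noncomputable def Tf (s : ℝ) : ℝ := ∫ x in (0 : ℝ)..s, kf x

lemma kf_continuous : Continuous kf := by unfold kf; fun_prop

lemma kf_nonneg (s : ℝ) : 0 ≤ kf s := le_min zero_le_one (le_max_right _ _)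

lemma kf_le_one (s : ℝ) : kf s ≤ 1 := min_le_left _ _

lemma kf_of_nonpos {s : ℝ} (h : s ≤ 0) : kf s = 0 := by
  unfold kf; rw [max_eq_right h]; norm_num

lemma kf_pos {s : ℝ} (h : 0 < s) : 0 < kf s := lt_min zero_lt_one (lt_max_of_lt_left h)

lemma kf_le_abs (s : ℝ) : kf s ≤ |s| :=
  (min_le_right _ _).trans (max_le (le_abs_self s) (abs_nonneg s))

lemma abs_kf_le_one (s : ℝ) : |kf s| ≤ 1 := by
  rw [abs_of_nonneg (kf_nonneg s)]; exact kf_le_one s

lemma kf_eq_zero_iff {s : ℝ} : kf s = 0 ↔ s ≤ 0 :=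
  ⟨fun h => by
    by_contra hs
    exact (kf_pos (not_le.1 hs)).ne' h, kf_of_nonpos⟩

lemma kf_mono : Monotone kf := fun a b h => by
  unfold kf; exact min_le_min le_rfl (max_le_max h le_rfl)

lemma kf_of_mem {s : ℝ} (h0 : 0 ≤ s) (h1 : s ≤ 1) : kf s = s := by
  unfold kf; rw [max_eq_left h0, min_eq_right h1]

lemma hasDerivAt_Tf (s : ℝ) : HasDerivAt Tf (kf s) s :=
  (kf_continuous.integral_hasStrictDerivAt 0 s).hasDerivAt

lemma Tf_zero : Tf 0 = 0 := by simp [Tf]

lemma Tf_mono : Monotone Tf :=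
  monotone_of_deriv_nonneg (fun s => (hasDerivAt_Tf s).differentiableAt)
    (fun s => by rw [(hasDerivAt_Tf s).deriv]; exact kf_nonneg s)

lemma Tf_of_nonpos {s : ℝ} (h : s ≤ 0) : Tf s = 0 := by
  unfold Tf
  have : ∫ x in (0 : ℝ)..s, kf x = ∫ x in (0 : ℝ)..s, (0 : ℝ) := by
    apply intervalIntegral.integral_congr
    intro x hx
    rw [uIcc_of_ge h] at hx
    exact kf_of_nonpos hx.2
  rw [this]; simp

lemma Tf_nonneg (s : ℝ) : 0 ≤ Tf s := by
  rcases le_total s 0 with h | h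
  · rw [Tf_of_nonpos h]
  · rw [← Tf_zero]; exact Tf_mono h

lemma contDiff_Tf : ContDiff ℝ 1 Tf := by
  rw [contDiff_one_iff_deriv]
  refine ⟨fun s => (hasDerivAt_Tf s).differentiableAt, ?_⟩
  have : deriv Tf = kf := funext fun s => (hasDerivAt_Tf s).deriv
  rw [this]; exact kf_continuous

lemma Tf_sub_ge {a b : ℝ} (ha : 0 ≤ a) (hab : a ≤ b) : Tf (b - a) ≤ Tf b - Tf a := by
  have key : Monotone (fun x : ℝ => Tf (x + a) - Tf x) := by
    have hd : ∀ x, HasDerivAt (fun x : ℝ => Tf (x + a) - Tf x) (kf (x + a) - kf x) x := by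
      intro x
      have h1 := (hasDerivAt_Tf (x + a)).comp_add_const x a
      exact h1.sub (hasDerivAt_Tf x)
    refine monotone_of_deriv_nonneg (fun x => (hd x).differentiableAt) (fun x => ?_)
    rw [(hd x).deriv]
    have := kf_mono (show x ≤ x + a by linarith)
    linarith
  have h := key (show (0 : ℝ) ≤ b - a by linarith)
  simp only [zero_add, Tf_zero, sub_zero, sub_add_cancel] at h
  linarith

lemma Tf_of_mem {s : ℝ} (h0 : 0 ≤ s) (h1 : s ≤ 1) : Tf s = s ^ 2 / 2 := by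
  unfold Tf
  have : ∫ x in (0 : ℝ)..s, kf x = ∫ x in (0 : ℝ)..s, x := by
    apply intervalIntegral.integral_congr
    intro x hx
    rw [uIcc_of_le h0] at hx
    exact kf_of_mem hx.1 (hx.2.trans h1)
  rw [this]; simp

/-- If `T s ≤ δ < 1/2` then `s ≤ √(2 δ)`. -/
lemma le_of_Tf_le {s δ : ℝ} (hδ : δ < 1 / 2) (h : Tf s ≤ δ) : s ≤ Real.sqrt (2 * δ) := by
  have hδ0 : 0 ≤ δ := (Tf_nonneg s).trans h
  rcases le_total s 0 with h0 | h0
  · exact h0.trans (Real.sqrt_nonneg _)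
  · rcases le_total s 1 with h1 | h1
    · rw [Tf_of_mem h0 h1] at h
      exact Real.le_sqrt_of_sq_le (by linarith)
    · have h2 := Tf_mono h1
      rw [Tf_of_mem zero_le_one le_rfl] at h2
      linarith

/-- Combining the bounds for `u` and `-u`. -/
lemma sub_le_of_Tf {a b δ : ℝ} (hδ : δ < 1 / 2) (hab : a < b) (h1 : Tf b - Tf a ≤ δ)
    (h2 : Tf (-a) - Tf (-b) ≤ δ) : b - a ≤ 2 * Real.sqrt (2 * δ) := by
  have hs := Real.sqrt_nonneg (2 * δ)
  rcases le_total 0 a with ha | ha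
  · have h3 := Tf_sub_ge ha hab.le
    have := le_of_Tf_le hδ (h3.trans h1)
    linarith
  · rcases le_total b 0 with hb | hb
    · have h3 := Tf_sub_ge (a := -b) (b := -a) (by linarith) (by linarith)
      have := le_of_Tf_le hδ (h3.trans h2)
      linarith
    · rw [Tf_of_nonpos ha] at h1
      rw [Tf_of_nonpos (s := -b) (by linarith)] at h2
      have e1 := le_of_Tf_le hδ (s := b) (by linarith)
      have e2 := le_of_Tf_le hδ (s := -a) (by linarith)
      linarith

end Pool.Agent.H.MP_09f213_an
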