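import Mathlib

/-! The null Lagrangian identity for smooth functions. -/

open MeasureTheory Set Filter Topology Metric
open scoped ContDiff ENNReal NNReal

namespace Pool.Agent.H.MP_09f213_an

lemma contDiff_fderiv_apply {Y : ℂ → ℝ} (hY : ContDiff ℝ 2 Y) (e : ℂ) :
    ContDiff ℝ 1 (fun z => fderiv ℝ Y z e) :=
  (hY.fderiv_right (m := 1) (by norm_num)).clm_apply contDiff_const

/-- `∫ (Φ_x Y_y - Φ_y Y_x) = 0` for `Φ ∈ C¹_c`, `Y ∈ C²`. -/
lemma integral_wedge_zero {Φ Y : ℂ → ℝ} (hΦ : ContDiff ℝ 1 Φ) (hc : HasCompactSupport Φ)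
    (hY : ContDiff ℝ 2 Y) :
    ∫ z, (fderiv ℝ Φ z 1 * fderiv ℝ Y z Complex.I - fderiv ℝ Φ z Complex.I * fderiv ℝ Y z 1) = 0 := by
  have hΦd : ∀ z, DifferentiableAt ℝ Φ z := fun z => hΦ.differentiable (by norm_num) z
  have hfc : ∀ e : ℂ, Continuous (fun z => fderiv ℝ Φ z e) := fun e =>
    (hΦ.continuous_fderiv (by norm_num)).clm_apply continuous_const
  have hfs : ∀ e : ℂ, HasCompactSupport (fun z => fderiv ℝ Φ z e) := fun e =>
    hc.fderiv_apply ℝ e
  have hYc : ∀ e : ℂ, ContDiff ℝ 1 (fun z => fderiv ℝ Y z e) := contDiff_fderiv_apply hY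
  -- integration by parts
  have ibp : ∀ e e' : ℂ, ∫ z, fderiv ℝ Φ z e * fderiv ℝ Y z e' =
      - ∫ z, Φ z * fderiv ℝ (fun w => fderiv ℝ Y w e') z e := by
    intro e e'
    have h := integral_mul_fderiv_eq_neg_fderiv_mul_of_integrable (μ := (volume : Measure ℂ))
      (f := fun z => fderiv ℝ Y z e') (g := Φ) (v := e) ?_ ?_ ?_
      (fun z _ => (hYc e').differentiable (by norm_num) z) (fun z _ => hΦd z)
    · calc ∫ z, fderiv ℝ Φ z e * fderiv ℝ Y z e' = ∫ z, fderiv ℝ Y z e' * fderiv ℝ Φ z e := by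
            congr 1; funext z; ring
        _ = _ := by
            rw [h]
            congr 2; funext z; ring
    · apply Continuous.integrable_of_hasCompactSupport
      · exact (((hYc e').continuous_fderiv (by norm_num)).clm_apply continuous_const).mul
          hΦ.continuous
      · exact hc.mul_left
    · apply Continuous.integrable_of_hasCompactSupport
      · exact (hYc e').continuous.mul (hfc e)
      · exact (hfs e).mul_left
    · apply Continuous.integrable_of_hasCompactSupport
      · exact (hYc e').continuous.mul hΦ.continuous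
      · exact hc.mul_left
  have hint : ∀ e e' : ℂ, Integrable (fun z => fderiv ℝ Φ z e * fderiv ℝ Y z e') := by
    intro e e'
    apply Continuous.integrable_of_hasCompactSupport
    · exact (hfc e).mul (hYc e').continuous
    · exact (hfs e).mul_right
  rw [integral_sub (hint _ _) (hint _ _), ibp, ibp]
  -- symmetry of second derivatives
  have hsymm : ∀ z, fderiv ℝ (fun w => fderiv ℝ Y w Complex.I) z 1 =
      fderiv ℝ (fun w => fderiv ℝ Y w 1) z Complex.I := by
    intro z
    have h1 : IsSymmSndFDerivAt ℝ Y z := (hY.contDiffAt).isSymmSndFDerivAt (by simp)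
    have hd : DifferentiableAt ℝ (fderiv ℝ Y) z :=
      (hY.fderiv_right (m := 1) (by norm_num)).differentiable (by norm_num) z
    have e1 : ∀ e e' : ℂ, fderiv ℝ (fun w => fderiv ℝ Y w e') z e =
        fderiv ℝ (fderiv ℝ Y) z e e' := by
      intro e e'
      have h2 := (hd.hasFDerivAt).clm_apply (hasFDerivAt_const e' z)
      rw [h2.fderiv]
      simp
    rw [e1, e1]
    exact h1 1 Complex.I
  have : (fun z => Φ z * fderiv ℝ (fun w => fderiv ℝ Y w Complex.I) z 1) =
      fun z => Φ z * fderiv ℝ (fun w => fderiv ℝ Y w 1) z Complex.I := by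
    funext z; rw [hsymm z]
  rw [this]; ring

end Pool.Agent.H.MP_09f213_an
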