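import Pool.Agent.H.MP_09f213_an.L2
import Pool.Agent.H.MP_09f213_an.TFun
import Pool.Agent.H.MP_09f213_an.Wedge

/-! The weak maximum principle for limits of smooth maps with nonnegative Jacobian. -/

open MeasureTheory Set Filter Topology Metric
open scoped ContDiff ENNReal NNReal

namespace Pool.Agent.H.MP_09f213_an

/-- Approximation data on `ball 0 R`: smooth maps `V n` tending to `v` in `L²` with derivatives
tending to `vx`, `vy` in `L²`. -/
structure Approx (R : ℝ) (V : ℕ → ℂ → ℂ) (v vx vy : ℂ → ℂ) : Prop where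
  smooth : ∀ n, ContDiff ℝ 2 (V n)
  mv : MemLp v 2 (volume.restrict (ball (0 : ℂ) R))
  mx : MemLp vx 2 (volume.restrict (ball (0 : ℂ) R))
  my : MemLp vy 2 (volume.restrict (ball (0 : ℂ) R))
  cv : L2Tendsto (volume.restrict (ball (0 : ℂ) R)) V v
  cx : L2Tendsto (volume.restrict (ball (0 : ℂ) R)) (fun n z => fderiv ℝ (V n) z 1) vx
  cy : L2Tendsto (volume.restrict (ball (0 : ℂ) R)) (fun n z => fderiv ℝ (V n) z Complex.I) vy

lemma Approx.comp {R : ℝ} {V : ℕ → ℂ → ℂ} {v vx vy : ℂ → ℂ} (h : Approx R V v vx vy)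
    {φ : ℕ → ℕ} (hφ : Tendsto φ atTop atTop) : Approx R (fun n => V (φ n)) v vx vy where
  smooth := fun n => h.smooth (φ n)
  mv := h.mv
  mx := h.mx
  my := h.my
  cv := h.cv.comp hφ
  cx := h.cx.comp hφ
  cy := h.cy.comp hφ

lemma Approx.mono {R R' : ℝ} {V : ℕ → ℂ → ℂ} {v vx vy : ℂ → ℂ} (h : Approx R V v vx vy)
    (hR : R' ≤ R) : Approx R' V v vx vy where
  smooth := h.smooth
  mv := h.mv.mono_measure (Measure.restrict_mono (ball_subset_ball hR) le_rfl)
  mx := h.mx.mono_measure (Measure.restrict_mono (ball_subset_ball hR) le_rfl)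
  my := h.my.mono_measure (Measure.restrict_mono (ball_subset_ball hR) le_rfl)
  cv := h.cv.mono_measure (Measure.restrict_mono (ball_subset_ball hR) le_rfl)
  cx := h.cx.mono_measure (Measure.restrict_mono (ball_subset_ball hR) le_rfl)
  cy := h.cy.mono_measure (Measure.restrict_mono (ball_subset_ball hR) le_rfl)

/-- Multiplication by a complex constant. -/
lemma Approx.const_mul {R : ℝ} {V : ℕ → ℂ → ℂ} {v vx vy : ℂ → ℂ} (h : Approx R V v vx vy)
    (c : ℂ) : Approx R (fun n z => c * V n z) (fun z => c * v z) (fun z => c * vx z)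
      (fun z => c * vy z) := by
  have hfd : ∀ n (z e : ℂ), fderiv ℝ (fun z => c * V n z) z e = c * fderiv ℝ (V n) z e := by
    intro n z e
    have hd : DifferentiableAt ℝ (V n) z := (h.smooth n).differentiable (by norm_num) z
    rw [fderiv_const_mul hd]
    simp
  refine ⟨fun n => contDiff_const.mul (h.smooth n), h.mv.const_mul c, h.mx.const_mul c,
    h.my.const_mul c, ?_, ?_, ?_⟩
  · refine h.cv.of_le (⟨‖c‖, norm_nonneg c⟩ : ℝ≥0) (fun n => .of_forall fun z => ?_)
    rw [← mul_sub, norm_mul]; rfl
  · refine h.cx.of_le (⟨‖c‖, norm_nonneg c⟩ : ℝ≥0) (fun n => .of_forall fun z => ?_)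
    rw [hfd, ← mul_sub, norm_mul]; rfl
  · refine h.cy.of_le (⟨‖c‖, norm_nonneg c⟩ : ℝ≥0) (fun n => .of_forall fun z => ?_)
    rw [hfd, ← mul_sub, norm_mul]; rfl

lemma Tf_lipschitz (a b : ℝ) : |Tf a - Tf b| ≤ |a - b| := by
  have h : LipschitzWith 1 Tf := by
    refine lipschitzWith_of_nnnorm_deriv_le (fun s => (hasDerivAt_Tf s).differentiableAt) ?_
    intro s
    rw [(hasDerivAt_Tf s).deriv]
    rw [← NNReal.coe_le_coe]
    simpa using abs_kf_le_one s
  have := h.dist_le_mul a b
  simpa [Real.dist_eq] using this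

lemma Tf_pos {s : ℝ} (h : 0 < s) : 0 < Tf s := by
  rcases le_total s 1 with h1 | h1
  · rw [Tf_of_mem h.le h1]; positivity
  · have := Tf_mono h1
    rw [Tf_of_mem zero_le_one le_rfl] at this
    linarith

lemma fderiv_re {V : ℂ → ℂ} {z : ℂ} (h : DifferentiableAt ℝ V z) (e : ℂ) :
    fderiv ℝ (fun w => (V w).re) z e = (fderiv ℝ V z e).re := by
  have := (Complex.reCLM.hasFDerivAt (x := V z)).comp z h.hasFDerivAt
  have h2 : fderiv ℝ (fun w => (V w).re) z = Complex.reCLM.comp (fderiv ℝ V z) := this.fderiv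
  rw [h2]; rfl

lemma fderiv_im {V : ℂ → ℂ} {z : ℂ} (h : DifferentiableAt ℝ V z) (e : ℂ) :
    fderiv ℝ (fun w => (V w).im) z e = (fderiv ℝ V z e).im := by
  have := (Complex.imCLM.hasFDerivAt (x := V z)).comp z h.hasFDerivAt
  have h2 : fderiv ℝ (fun w => (V w).im) z = Complex.imCLM.comp (fderiv ℝ V z) := this.fderiv
  rw [h2]; rfl

lemma L2Tendsto.re {α : Type*} [MeasurableSpace α] {μ : Measure α} {f : ℕ → α → ℂ} {g : α → ℂ}
    (h : L2Tendsto μ f g) : L2Tendsto μ (fun n x => (f n x).re) (fun x => (g x).re) := by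
  refine h.of_le 1 (fun n => .of_forall fun x => ?_)
  rw [← Complex.sub_re]
  simpa using Complex.abs_re_le_norm (f n x - g x)

lemma L2Tendsto.im {α : Type*} [MeasurableSpace α] {μ : Measure α} {f : ℕ → α → ℂ} {g : α → ℂ}
    (h : L2Tendsto μ f g) : L2Tendsto μ (fun n x => (f n x).im) (fun x => (g x).im) := by
  refine h.of_le 1 (fun n => .of_forall fun x => ?_)
  rw [← Complex.sub_im]
  simpa using Complex.abs_im_le_norm (f n x - g x)

lemma L2Tendsto_const {α : Type*} [MeasurableSpace α] {μ : Measure α} {E : Type*}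
    [NormedAddCommGroup E] (g : α → E) : L2Tendsto μ (fun _ => g) g := by
  unfold L2Tendsto
  simp

lemma integrableOn_ball_of_continuous {E : Type*} [NormedAddCommGroup E] {g : ℂ → E}
    (hg : Continuous g) (ρ : ℝ) : IntegrableOn g (ball (0 : ℂ) ρ) :=
  (hg.continuousOn.integrableOn_compact (isCompact_closedBall (0 : ℂ) ρ)).mono_set
    ball_subset_closedBall

lemma memLp_of_continuous {g : ℂ → ℝ} (hg : Continuous g) (ρ : ℝ) :
    MemLp g 2 (volume.restrict (ball (0 : ℂ) ρ)) := by
  obtain ⟨C, hC⟩ := (isCompact_closedBall (0 : ℂ) ρ).exists_bound_of_continuousOn hg.continuousOn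
  have hfin : IsFiniteMeasure (volume.restrict (ball (0 : ℂ) ρ)) := ⟨by
    rw [Measure.restrict_apply_univ]; exact measure_ball_lt_top⟩
  refine MemLp.of_bound hg.aestronglyMeasurable C ?_
  filter_upwards [ae_restrict_mem measurableSet_ball] with z hz
  exact hC z (ball_subset_closedBall hz)

/-- Weak maximum principle. -/
theorem max_principle {R : ℝ} {V : ℕ → ℂ → ℂ} {v vx vy : ℂ → ℂ} (hA : Approx R V v vx vy)
    (hae : ∀ᵐ z ∂(volume.restrict (ball (0 : ℂ) R)), Tendsto (fun n => V n z) atTop (𝓝 (v z)))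
    (hdet : ∀ᵐ z ∂(volume.restrict (ball (0 : ℂ) R)),
      0 ≤ (vx z).re * (vy z).im - (vy z).re * (vx z).im)
    (hdet0 : ∀ᵐ z ∂(volume.restrict (ball (0 : ℂ) R)),
      (vx z).re * (vy z).im - (vy z).re * (vx z).im = 0 → vy z = 0)
    {ρ b : ℝ} (hρ : ρ < R)
    (hlt : ∀ n, ∀ z ∈ sphere (0 : ℂ) ρ, (V n z).re < b) :
    ∀ᵐ z ∂(volume.restrict (ball (0 : ℂ) ρ)), (v z).re ≤ b := by
  set B : Set ℂ := ball (0 : ℂ) ρ with hB
  have hBR : B ⊆ ball (0 : ℂ) R := ball_subset_ball hρ.le
  have hμ : volume.restrict B ≤ volume.restrict (ball (0 : ℂ) R) := Measure.restrict_mono hBR le_rfl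
  have hA' : Approx ρ V v vx vy := hA.mono hρ.le
  have hae' := ae_mono hμ hae
  have hdet' := ae_mono hμ hdet
  have hdet0' := ae_mono hμ hdet0
  have hUd : ∀ n z, DifferentiableAt ℝ (V n) z := fun n z =>
    (hA.smooth n).differentiable (by norm_num) z
  have hUs : ∀ n, ContDiff ℝ 2 (fun z => (V n z).re) := fun n =>
    Complex.reCLM.contDiff.comp (hA.smooth n)
  have hYs : ∀ n, ContDiff ℝ 2 (fun z => (V n z).im) := fun n =>
    Complex.imCLM.contDiff.comp (hA.smooth n)
  -- the test function
  set Φ : ℕ → ℂ → ℝ := fun n => B.indicator (fun z => Tf ((V n z).re - b)) with hΦdef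
  have hTU : ∀ n, ContDiff ℝ 1 (fun z => Tf ((V n z).re - b)) := fun n =>
    contDiff_Tf.comp (((hUs n).of_le (by norm_num)).sub contDiff_const)
  -- near points outside the ball, Φ n vanishes
  have hout : ∀ n, ∀ z ∉ B, Φ n =ᶠ[𝓝 z] fun _ => 0 := by
    intro n z hz
    have hz1 : ρ ≤ ‖z‖ := by simpa [hB, mem_ball_zero_iff] using hz
    rcases hz1.lt_or_eq with h | h
    · have : ∀ᶠ w in 𝓝 z, ρ < ‖w‖ := (continuous_norm.tendsto z).eventually (lt_mem_nhds h)
      filter_upwards [this] with w hw
      have : w ∉ B := by simpa [hB, mem_ball_zero_iff] using hw.le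
      simp [hΦdef, this]
    · have h1 : (V n z).re < b := hlt n z (by simp [h])
      have hc : Continuous (fun w => (V n w).re) := (hUs n).continuous
      have : ∀ᶠ w in 𝓝 z, (V n w).re < b := (hc.tendsto z).eventually (gt_mem_nhds h1)
      filter_upwards [this] with w hw
      by_cases hwB : w ∈ B
      · simp only [hΦdef, indicator_of_mem hwB]
        exact Tf_of_nonpos (by linarith)
      · simp [hΦdef, hwB]
  have hin : ∀ n, ∀ z ∈ B, Φ n =ᶠ[𝓝 z] fun z => Tf ((V n z).re - b) := by
    intro n z hz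
    filter_upwards [isOpen_ball.mem_nhds hz] with w hw
    exact indicator_of_mem hw _
  have hΦs : ∀ n, ContDiff ℝ 1 (Φ n) := by
    intro n
    rw [contDiff_iff_contDiffAt]
    intro z
    by_cases hz : z ∈ B
    · exact ((hTU n).contDiffAt).congr_of_eventuallyEq (hin n z hz)
    · exact (contDiffAt_const).congr_of_eventuallyEq (hout n z hz)
  have hΦc : ∀ n, HasCompactSupport (Φ n) := by
    intro n
    refine HasCompactSupport.intro (isCompact_closedBall (0 : ℂ) ρ) (fun z hz => ?_)
    have : z ∉ B := fun h => hz (ball_subset_closedBall h)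
    simp [hΦdef, this]
  have hΦd : ∀ n z (e : ℂ), fderiv ℝ (Φ n) z e =
      B.indicator (fun z => kf ((V n z).re - b) * (fderiv ℝ (V n) z e).re) z := by
    intro n z e
    by_cases hz : z ∈ B
    · rw [(hin n z hz).fderiv_eq, indicator_of_mem hz]
      have h1 : HasFDerivAt (fun w => (V n w).re - b) (fderiv ℝ (fun w => (V n w).re) z) z :=
        (((hUs n).differentiable (by norm_num) z).hasFDerivAt).sub_const b
      have h2 := (hasDerivAt_Tf ((V n z).re - b)).comp_hasFDerivAt z h1
      have h3 : fderiv ℝ (fun w => Tf ((V n w).re - b)) z =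
          kf ((V n z).re - b) • fderiv ℝ (fun w => (V n w).re) z := h2.fderiv
      rw [h3]
      simp only [FunLike.coe_smul, Pi.smul_apply, smul_eq_mul]
      rw [fderiv_re (hUd n z)]
    · rw [(hout n z hz).fderiv_eq, indicator_of_notMem hz]
      simp
  -- the wedge identity
  have hcd : ∀ n (e : ℂ), Continuous (fun z => fderiv ℝ (V n) z e) := fun n e =>
    ((hA.smooth n).continuous_fderiv (by norm_num)).clm_apply continuous_const
  have hck : ∀ n, Continuous (fun z => kf ((V n z).re - b)) := fun n =>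
    kf_continuous.comp ((hUs n).continuous.sub continuous_const)
  have hid : ∀ n, (∫ z in B, ((kf ((V n z).re - b) * (fderiv ℝ (V n) z 1).re) *
      (fderiv ℝ (V n) z Complex.I).im)) - (∫ z in B, ((kf ((V n z).re - b) *
        (fderiv ℝ (V n) z Complex.I).re) * (fderiv ℝ (V n) z 1).im)) = 0 := by
    intro n
    have h0 := integral_wedge_zero (hΦs n) (hΦc n) (hYs n)
    rw [← integral_sub, ← integral_indicator measurableSet_ball]
    · rw [← h0]
      congr 1
      funext z
      rw [hΦd, hΦd, fderiv_im (hUd n z), fderiv_im (hUd n z)]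
      rw [← hB]
      by_cases hz : z ∈ B
      · simp only [indicator_of_mem hz]
      · simp [indicator_of_notMem hz]
    · exact integrableOn_ball_of_continuous (((hck n).mul (Complex.continuous_re.comp (hcd n 1))).mul
        (Complex.continuous_im.comp (hcd n _))) ρ
    · exact integrableOn_ball_of_continuous (((hck n).mul (Complex.continuous_re.comp (hcd n _))).mul
        (Complex.continuous_im.comp (hcd n 1))) ρ
  -- measurability and memLp
  have hmc : ∀ {g : ℂ → ℝ}, Continuous g → AEStronglyMeasurable g (volume.restrict B) :=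
    fun h => h.aestronglyMeasurable
  have hkm : ∀ n, AEStronglyMeasurable (fun z => kf ((V n z).re - b)) (volume.restrict B) :=
    fun n => hmc (hck n)
  have hkconv : ∀ᵐ z ∂(volume.restrict B), Tendsto (fun n => kf ((V n z).re - b)) atTop
      (𝓝 (kf ((v z).re - b))) := by
    filter_upwards [hae'] with z hz
    exact (kf_continuous.tendsto _).comp
      (((Complex.continuous_re.tendsto _).comp hz).sub_const b)
  have hxm : ∀ n (e : ℂ), AEStronglyMeasurable (fun z => (fderiv ℝ (V n) z e).re)
      (volume.restrict B) := fun n e => hmc (Complex.continuous_re.comp (hcd n e))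
  have hxm' : ∀ n (e : ℂ), AEStronglyMeasurable (fun z => (fderiv ℝ (V n) z e).im)
      (volume.restrict B) := fun n e => hmc (Complex.continuous_im.comp (hcd n e))
  have c1 := hA'.cx.re.bdd_mul (fun n => hxm n 1) hA'.mx.re hkm
    (fun n x => abs_kf_le_one _) hkconv
  have c2 := hA'.cy.re.bdd_mul (fun n => hxm n _) hA'.my.re hkm
    (fun n x => abs_kf_le_one _) hkconv
  have hkm' : AEStronglyMeasurable (fun z => kf ((v z).re - b)) (volume.restrict B) :=
    aestronglyMeasurable_of_tendsto_ae atTop hkm hkconv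
  have m1 : MemLp (fun z => kf ((v z).re - b) * (vx z).re) 2 (volume.restrict B) :=
    hA'.mx.re.mono (hkm'.mul hA'.mx.re.1) (.of_forall fun z => by
      rw [norm_mul]
      exact mul_le_of_le_one_left (norm_nonneg _) (by simpa using abs_kf_le_one _))
  have m2 : MemLp (fun z => kf ((v z).re - b) * (vy z).re) 2 (volume.restrict B) :=
    hA'.my.re.mono (hkm'.mul hA'.my.re.1) (.of_forall fun z => by
      rw [norm_mul]
      exact mul_le_of_le_one_left (norm_nonneg _) (by simpa using abs_kf_le_one _))
  have l1 := c1.integral_mul hA'.cy.im (fun n => (hkm n).mul (hxm n 1)) (fun n => hxm' n _)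
    m1 hA'.my.im
  have l2 := c2.integral_mul hA'.cx.im (fun n => (hkm n).mul (hxm n _)) (fun n => hxm' n 1)
    m2 hA'.mx.im
  have l3 := l1.sub l2
  have hzero : (∫ z in B, kf ((v z).re - b) * (vx z).re * (vy z).im) -
      (∫ z in B, kf ((v z).re - b) * (vy z).re * (vx z).im) = 0 :=
    tendsto_nhds_unique (l3.congr (fun n => hid n)) tendsto_const_nhds
  have i1 : Integrable (fun z => kf ((v z).re - b) * (vx z).re * (vy z).im) (volume.restrict B) :=
    m1.integrable_mul hA'.my.im
  have i2 : Integrable (fun z => kf ((v z).re - b) * (vy z).re * (vx z).im) (volume.restrict B) :=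
    m2.integrable_mul hA'.mx.im
  rw [← integral_sub i1 i2] at hzero
  have hnn : 0 ≤ᵐ[volume.restrict B] fun z => kf ((v z).re - b) * (vx z).re * (vy z).im -
      kf ((v z).re - b) * (vy z).re * (vx z).im := by
    filter_upwards [hdet'] with z hz
    have := mul_nonneg (kf_nonneg ((v z).re - b)) hz
    simp only [Pi.zero_apply]
    linarith
  rw [integral_eq_zero_iff_of_nonneg_ae hnn (i1.sub i2)] at hzero
  -- hence `k (v.re - b) * vy.re = 0` a.e.
  have hzero2 : ∀ᵐ z ∂(volume.restrict B), kf ((v z).re - b) * (vy z).re = 0 := by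
    filter_upwards [hzero, hdet0'] with z hz hd
    simp only [Pi.zero_apply] at hz
    have h1 : kf ((v z).re - b) * ((vx z).re * (vy z).im - (vy z).re * (vx z).im) = 0 := by
      linarith
    rcases mul_eq_zero.1 h1 with h2 | h2
    · rw [h2, zero_mul]
    · rw [hd h2]; simp
  -- the integral of `Φ n`
  have hΦint : ∀ n, ∫ z in B, Tf ((V n z).re - b) = - ∫ z in B, z.im *
      (kf ((V n z).re - b) * (fderiv ℝ (V n) z Complex.I).re) := by
    intro n
    have hcΦ : Continuous (Φ n) := (hΦs n).continuous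
    have hcdΦ : Continuous (fun z => fderiv ℝ (Φ n) z Complex.I) :=
      ((hΦs n).continuous_fderiv (by norm_num)).clm_apply continuous_const
    have him : ∀ z : ℂ, HasFDerivAt (fun w : ℂ => w.im) Complex.imCLM z := fun z =>
      Complex.imCLM.hasFDerivAt
    have h := integral_mul_fderiv_eq_neg_fderiv_mul_of_integrable (μ := (volume : Measure ℂ))
      (f := fun z : ℂ => z.im) (g := Φ n) (v := Complex.I) ?_ ?_ ?_
      (fun z _ => (him z).differentiableAt)
      (fun z _ => (hΦs n).differentiable (by norm_num) z)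
    · have h1 : ∀ z : ℂ, fderiv ℝ (fun w : ℂ => w.im) z Complex.I = 1 := by
        intro z; rw [(him z).fderiv]; simp
      simp only [h1, one_mul] at h
      have h2 : ∫ z, Φ n z = ∫ z in B, Tf ((V n z).re - b) :=
        integral_indicator measurableSet_ball
      have h3 : ∫ z : ℂ, z.im * fderiv ℝ (Φ n) z Complex.I = ∫ z in B, z.im *
          (kf ((V n z).re - b) * (fderiv ℝ (V n) z Complex.I).re) := by
        rw [← integral_indicator measurableSet_ball]
        congr 1
        funext z
        rw [hΦd, ← hB]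
        by_cases hz : z ∈ B
        · simp only [indicator_of_mem hz]
        · simp [indicator_of_notMem hz]
      rw [h2, h3] at h
      linarith
    · refine Continuous.integrable_of_hasCompactSupport ?_ (hΦc n).mul_left
      have h1 : ∀ z : ℂ, fderiv ℝ (fun w : ℂ => w.im) z Complex.I = 1 := by
        intro z; rw [(him z).fderiv]; simp
      simp only [h1]
      exact continuous_const.mul hcΦ
    · exact Continuous.integrable_of_hasCompactSupport (Complex.continuous_im.mul hcdΦ)
        ((hΦc n).fderiv_apply ℝ _).mul_left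
    · exact Continuous.integrable_of_hasCompactSupport (Complex.continuous_im.mul hcΦ)
        (hΦc n).mul_left
  -- limits
  have hfin : IsFiniteMeasure (volume.restrict B) := ⟨by
    rw [Measure.restrict_apply_univ]; exact measure_ball_lt_top⟩
  have himL : MemLp (fun z : ℂ => z.im) 2 (volume.restrict B) :=
    memLp_of_continuous Complex.continuous_im ρ
  have l4 := (L2Tendsto_const (μ := volume.restrict B) (fun z : ℂ => z.im)).integral_mul c2
    (fun _ => himL.1) (fun n => (hkm n).mul (hxm n _)) himL m2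
  have hlim0 : ∫ z in B, z.im * (kf ((v z).re - b) * (vy z).re) = 0 := by
    rw [integral_eq_zero_of_ae]
    filter_upwards [hzero2] with z hz
    simp [hz]
  rw [hlim0] at l4
  have c3 : L2Tendsto (volume.restrict B) (fun n z => Tf ((V n z).re - b))
      (fun z => Tf ((v z).re - b)) := by
    refine hA'.cv.re.of_le 1 (fun n => .of_forall fun z => ?_)
    have := Tf_lipschitz ((V n z).re - b) ((v z).re - b)
    simpa using this
  have m3 : MemLp (fun z => Tf ((v z).re - b)) 2 (volume.restrict B) := by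
    have hm : AEStronglyMeasurable (fun z => Tf ((v z).re - b)) (volume.restrict B) :=
      (contDiff_Tf.continuous.comp_aestronglyMeasurable (hA'.mv.re.1.sub
        aestronglyMeasurable_const))
    refine ((hA'.mv.re).sub (memLp_const b)).mono hm (.of_forall fun z => ?_)
    have := Tf_lipschitz ((v z).re - b) 0
    rw [Tf_zero] at this
    simpa using this
  have m1' : MemLp (fun _ : ℂ => (1 : ℝ)) 2 (volume.restrict B) := memLp_const 1
  have l5 := (L2Tendsto_const (μ := volume.restrict B) (fun _ : ℂ => (1 : ℝ))).integral_mul c3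
    (fun _ => m1'.1) (fun n => hmc (contDiff_Tf.continuous.comp
      ((hUs n).continuous.sub continuous_const))) m1' m3
  simp only [one_mul] at l5
  have l6 : Tendsto (fun n => ∫ z in B, Tf ((V n z).re - b)) atTop (𝓝 0) := by
    simp only [hΦint]
    simpa using l4.neg
  have hz3 : ∫ z in B, Tf ((v z).re - b) = 0 := tendsto_nhds_unique l5 l6
  rw [integral_eq_zero_iff_of_nonneg_ae (.of_forall fun z => Tf_nonneg _)
    (m3.integrable (by norm_num))] at hz3
  filter_upwards [hz3] with z hz
  by_contra hcon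
  have := Tf_pos (s := (v z).re - b) (by linarith)
  simp only [Pi.zero_apply] at hz
  linarith

end Pool.Agent.H.MP_09f213_an
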