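import Pool.Agent.H.MP_09f213_an.Energy2

/-! The uniform oscillation estimate in the normalised situation. -/

open MeasureTheory Set Filter Topology Metric
open scoped ContDiff ENNReal NNReal Real

namespace Pool.Agent.H.MP_09f213_an

lemma exists_const_of_osc {α : Type*} [MeasurableSpace α] {μ : Measure α} (hμ : μ ≠ 0)
    {u : α → ℝ} {ε : ℝ} (hε : 0 ≤ ε)
    (H : ∀ a b, a < b → (¬ ∀ᵐ z ∂μ, u z ≤ b) → (¬ ∀ᵐ z ∂μ, a ≤ u z) → b - a ≤ ε) :
    ∃ κ : ℝ, (∀ᵐ z ∂μ, κ ≤ u z) ∧ (∀ᵐ z ∂μ, u z ≤ κ + ε) := by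
  have hne : NeBot (ae μ) := ae_neBot.2 hμ
  set S : Set ℝ := {a | ¬ ∀ᵐ z ∂μ, a ≤ u z} with hS
  have hSne : S.Nonempty := by
    by_contra hcon
    rw [not_nonempty_iff_eq_empty] at hcon
    have h1 : ∀ n : ℕ, ∀ᵐ z ∂μ, (n : ℝ) ≤ u z := by
      intro n
      by_contra h2
      have : (n : ℝ) ∈ S := h2
      rw [hcon] at this
      exact this
    obtain ⟨z, hz⟩ := (ae_all_iff.2 h1).exists
    obtain ⟨n, hn⟩ := exists_nat_gt (u z)
    linarith [hz n]
  obtain ⟨b0, hb0⟩ : ∃ b0, ¬ ∀ᵐ z ∂μ, u z ≤ b0 := by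
    by_contra! hcon
    obtain ⟨z, hz⟩ := (ae_all_iff.2 (fun n : ℕ => hcon (-(n : ℝ)))).exists
    obtain ⟨n, hn⟩ := exists_nat_gt (-u z)
    linarith [hz n]
  have hbdd : BddBelow S := by
    refine ⟨b0 - ε, fun a ha => ?_⟩
    rcases lt_or_ge a b0 with h | h
    · have := H a b0 h hb0 ha
      linarith
    · linarith
  refine ⟨sInf S, ?_, ?_⟩
  · have h1 : ∀ n : ℕ, ∀ᵐ z ∂μ, sInf S - 1 / ((n : ℝ) + 1) ≤ u z := by
      intro n
      by_contra h2
      have h3 : sInf S - 1 / ((n : ℝ) + 1) ∈ S := h2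
      have h4 := csInf_le hbdd h3
      have : 0 < 1 / ((n : ℝ) + 1) := by positivity
      linarith
    filter_upwards [ae_all_iff.2 h1] with z hz
    have hl : Tendsto (fun n : ℕ => sInf S - 1 / ((n : ℝ) + 1)) atTop (𝓝 (sInf S - 0)) :=
      tendsto_const_nhds.sub tendsto_one_div_add_atTop_nhds_zero_nat
    rw [sub_zero] at hl
    exact le_of_tendsto' hl hz
  · have h1 : ∀ n : ℕ, ∀ᵐ z ∂μ, u z ≤ sInf S + ε + 1 / ((n : ℝ) + 1) := by
      intro n
      by_contra h2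
      have hpos : 0 < 1 / ((n : ℝ) + 1) := by positivity
      obtain ⟨a, haS, ha⟩ := exists_lt_of_csInf_lt hSne (lt_add_of_pos_right (sInf S) hpos)
      have := H _ _ (by linarith) h2 haS
      linarith
    filter_upwards [ae_all_iff.2 h1] with z hz
    have hl : Tendsto (fun n : ℕ => sInf S + ε + 1 / ((n : ℝ) + 1)) atTop
        (𝓝 (sInf S + ε + 0)) :=
      tendsto_const_nhds.add tendsto_one_div_add_atTop_nhds_zero_nat
    rw [add_zero] at hl
    exact ge_of_tendsto' hl hz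

lemma const_limit {α : Type*} [MeasurableSpace α] {μ : Measure α} (hμ : μ ≠ 0)
    {u : ℕ → α → ℂ} {v : α → ℂ} {ε : ℝ}
    (hu : ∀ᵐ z ∂μ, Tendsto (fun n => u n z) atTop (𝓝 (v z)))
    (H : ∀ n, ∃ κ : ℂ, ∀ᵐ z ∂μ, ‖u n z - κ‖ ≤ ε) : ∃ κ : ℂ, ∀ᵐ z ∂μ, ‖v z - κ‖ ≤ ε := by
  have hne : NeBot (ae μ) := ae_neBot.2 hμ
  choose κ hκ using H
  have hall := ae_all_iff.2 hκ
  obtain ⟨z0, hz0, hz1⟩ := (hu.and hall).exists
  have hb := (isBounded_range_of_tendsto _ hz0)
  obtain ⟨C, hC⟩ := hb.exists_norm_le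
  have hκb : ∀ n, κ n ∈ closedBall (0 : ℂ) (C + ε) := by
    intro n
    rw [mem_closedBall_zero_iff]
    have h1 := hC (u n z0) ⟨n, rfl⟩
    have h2 := hz1 n
    have h3 : κ n = u n z0 - (u n z0 - κ n) := by ring
    rw [h3]
    exact (norm_sub_le _ _).trans (add_le_add h1 h2)
  obtain ⟨k, -, φ, hφ, hk⟩ := (isCompact_closedBall (0 : ℂ) (C + ε)).tendsto_subseq hκb
  refine ⟨k, ?_⟩
  filter_upwards [hu, hall] with z h1 h2
  have h3 : Tendsto (fun n => ‖u (φ n) z - κ (φ n)‖) atTop (𝓝 ‖v z - k‖) :=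
    ((h1.comp hφ.tendsto_atTop).sub hk).norm
  exact le_of_tendsto' h3 (fun n => h2 _)

section osc

variable {l N : ℝ} {ζ : ℂ → ℂ} {F : ℕ → ℂ → ℂ} {η : ℂ → ℝ} {G : ℝ}

attribute [local irreducible] sh Pf rf pf mf vf

/-- The localised truncated energy bound. -/
lemma trunc_energy (D : Dat l N ζ F) (c : Cut η G) {M : ℝ} (hM0 : 0 ≤ M)
    (hEn : ∀ s s' : ℝ, 0 ≤ s → s ≤ s' → s' ≤ 1 →
      En l η ζ s s' ≤ ENNReal.ofReal (M * (s' - s) ^ 2))
    {h : ℝ} (h0 : 0 < h) (h1 : h ≤ 1) {om : ℂ} (hom : ‖om‖ = 1) :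
    ∫ w in ball (0 : ℂ) (1 / 2), kf ((om / h) * vf (fun z => rf l (ζ z)) 0 h w).re ^ 2 *
      (((om / h) * (pf l (ζ (sh h w)) - pf l (ζ (sh 0 w)))).re ^ 2 +
        ((om / h) * (rf l (ζ (sh h w)) - rf l (ζ (sh 0 w)))).re ^ 2) ≤ 139 * M := by
  set c0 : ℂ := om / h with hc0
  have hc0n : ‖c0‖ = 1 / h := by
    rw [hc0, norm_div, hom, Complex.norm_real, Real.norm_eq_abs, abs_of_pos h0]
  set v := vf (fun z => rf l (ζ z)) 0 h with hv
  set a : ℂ → ℂ := fun w => ζ (sh 0 w) with ha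
  set b : ℂ → ℂ := fun w => ζ (sh h w) with hb
  have hmv : Measurable v := measurable_vf D.measr h0.le
  have hmp : Measurable fun w => pf l (b w) - pf l (a w) :=
    (D.measp.comp (continuous_sh h).measurable).sub (D.measp.comp (continuous_sh 0).measurable)
  have hmr : Measurable fun w => rf l (b w) - rf l (a w) :=
    (D.measr.comp (continuous_sh h).measurable).sub (D.measr.comp (continuous_sh 0).measurable)
  set W : ℂ → ℝ := fun w => kf (c0 * v w).re ^ 2 *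
      ((c0 * (pf l (b w) - pf l (a w))).re ^ 2 + (c0 * (rf l (b w) - rf l (a w))).re ^ 2) with hW
  have hW0 : ∀ w, 0 ≤ W w := fun w => by simp only [hW]; positivity
  have hWm : Measurable W := by
    refine ((kf_continuous.measurable.comp (Complex.measurable_re.comp
      (hmv.const_mul c0))).pow_const 2).mul ?_
    exact ((Complex.measurable_re.comp (hmp.const_mul c0)).pow_const 2).add
      ((Complex.measurable_re.comp (hmr.const_mul c0)).pow_const 2)
  change ∫ w in ball (0 : ℂ) (1 / 2), W w ≤ 139 * M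
  rw [integral_eq_lintegral_of_nonneg_ae (.of_forall hW0) hWm.aestronglyMeasurable]
  refine ENNReal.toReal_le_of_le_ofReal (by positivity) ?_
  -- pointwise estimate
  have hpt : ∀ w ∈ ball (0 : ℂ) (1 / 2), ENNReal.ofReal (W w) ≤ ENNReal.ofReal (32 / 3 / h ^ 2) *
      ENNReal.ofReal (η w ^ 2 * Pf l (a w) (b w)) + ENNReal.ofReal (64 / h ^ 3) *
      (ENNReal.ofReal (η w ^ 2) * Jf l ζ 0 h w) := by
    intro w hw
    rw [c.one w hw]
    simp only [one_pow, one_mul, ENNReal.ofReal_one]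
    set Δ := ‖a w - b w‖ with hΔ
    have hΔ0 : 0 ≤ Δ := norm_nonneg _
    have q1 : (c0 * (pf l (b w) - pf l (a w))).re ^ 2 ≤ 4 / h ^ 2 * Δ ^ 2 := by
      have h2 := Complex.abs_re_le_norm (c0 * (pf l (b w) - pf l (a w)))
      rw [norm_mul, hc0n] at h2
      have h3 := norm_pf_sub_le D.lpos (D.ge (sh 0 w)) (D.ge (sh h w))
      have h4 : |(c0 * (pf l (b w) - pf l (a w))).re| ≤ 1 / h * (2 * Δ) :=
        h2.trans (mul_le_mul_of_nonneg_left h3 (by positivity))
      have h5 := pow_le_pow_left₀ (abs_nonneg _) h4 2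
      rw [sq_abs] at h5
      refine h5.trans (le_of_eq ?_)
      field_simp
      ring
    have q2 : (c0 * (rf l (b w) - rf l (a w))).re ^ 2 ≤ 4 / h ^ 2 * Δ ^ 2 := by
      have h2 := Complex.abs_re_le_norm (c0 * (rf l (b w) - rf l (a w)))
      rw [norm_mul, hc0n] at h2
      have h3 := norm_rf_sub_le D.lpos (D.ge (sh 0 w)) (D.ge (sh h w))
      have h4 : |(c0 * (rf l (b w) - rf l (a w))).re| ≤ 1 / h * (2 * Δ) :=
        h2.trans (mul_le_mul_of_nonneg_left h3 (by positivity))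
      have h5 := pow_le_pow_left₀ (abs_nonneg _) h4 2
      rw [sq_abs] at h5
      refine h5.trans (le_of_eq ?_)
      field_simp
      ring
    have hk0 := kf_nonneg (c0 * v w).re
    have hk1 := kf_le_one (c0 * v w).re
    have hk2 : kf (c0 * v w).re ^ 2 ≤ 1 := pow_le_one₀ hk0 hk1
    have hk3 : kf (c0 * v w).re ^ 2 ≤ ‖v w‖ / h := by
      have h2 : kf (c0 * v w).re ^ 2 ≤ kf (c0 * v w).re := by nlinarith
      refine h2.trans ((kf_le_abs _).trans ((Complex.abs_re_le_norm _).trans (le_of_eq ?_)))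
      rw [norm_mul, hc0n]; ring
    have hWle : W w ≤ kf (c0 * v w).re ^ 2 * (8 / h ^ 2 * Δ ^ 2) := by
      simp only [hW]
      refine mul_le_mul_of_nonneg_left ?_ (by positivity)
      refine (add_le_add q1 q2).trans (le_of_eq ?_)
      ring
    have hP : 0 ≤ Pf l (a w) (b w) := Pf_nonneg D.lpos (D.ge (sh 0 w)) (D.ge (sh h w))
    by_cases hcase : 2 ≤ ‖a w‖ ∨ 2 ≤ ‖b w‖
    · have h3 : Δ ^ 2 ≤ 4 / 3 * Pf l (a w) (b w) :=
        sq_le_Pf_of_large D.lpos D.lone (D.ge (sh 0 w)) (D.ge (sh h w)) hcase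
      have h4 : W w ≤ 32 / 3 / h ^ 2 * Pf l (a w) (b w) := by
        refine hWle.trans ?_
        calc kf (c0 * v w).re ^ 2 * (8 / h ^ 2 * Δ ^ 2) ≤ 1 * (8 / h ^ 2 * Δ ^ 2) :=
              mul_le_mul_of_nonneg_right hk2 (by positivity)
          _ ≤ 8 / h ^ 2 * (4 / 3 * Pf l (a w) (b w)) := by
              rw [one_mul]; exact mul_le_mul_of_nonneg_left h3 (by positivity)
          _ = _ := by ring
      refine (ENNReal.ofReal_le_ofReal h4).trans ?_
      rw [ENNReal.ofReal_mul (by positivity)]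
      exact le_self_add
    · push Not at hcase
      have h3 : ENNReal.ofReal (Δ ^ 2) * ‖v w‖ₑ ≤ 8 * Jf l ζ 0 h w :=
        ofReal_mul_enorm_vf_le D h0.le w hcase.1.le hcase.2.le
      have h4 : W w ≤ 8 / h ^ 3 * (Δ ^ 2 * ‖v w‖) := by
        refine hWle.trans ?_
        calc kf (c0 * v w).re ^ 2 * (8 / h ^ 2 * Δ ^ 2) ≤ ‖v w‖ / h * (8 / h ^ 2 * Δ ^ 2) :=
              mul_le_mul_of_nonneg_right hk3 (by positivity)
          _ = _ := by field_simp
      refine (ENNReal.ofReal_le_ofReal h4).trans ?_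
      rw [ENNReal.ofReal_mul (by positivity), ENNReal.ofReal_mul (by positivity), ofReal_norm]
      calc ENNReal.ofReal (8 / h ^ 3) * (ENNReal.ofReal (Δ ^ 2) * ‖v w‖ₑ)
          ≤ ENNReal.ofReal (8 / h ^ 3) * (8 * Jf l ζ 0 h w) := mul_le_mul_right h3 _
        _ = ENNReal.ofReal (64 / h ^ 3) * Jf l ζ 0 h w := by
            have : (8 : ℝ≥0∞) = ENNReal.ofReal 8 := by norm_num
            rw [this, ← mul_assoc, ← ENNReal.ofReal_mul (by positivity)]
            congr 2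
            ring
        _ ≤ _ := le_add_self
  have hη : Measurable η := c.smooth.continuous.measurable
  have m1 : Measurable fun w => ENNReal.ofReal (η w ^ 2 * Pf l (a w) (b w)) :=
    ((hη.pow_const 2).mul (meas_P0 D 0 h)).ennreal_ofReal
  calc ∫⁻ w in ball (0 : ℂ) (1 / 2), ENNReal.ofReal (W w)
      ≤ ∫⁻ w in ball (0 : ℂ) (1 / 2), (ENNReal.ofReal (32 / 3 / h ^ 2) *
      ENNReal.ofReal (η w ^ 2 * Pf l (a w) (b w)) + ENNReal.ofReal (64 / h ^ 3) *
      (ENNReal.ofReal (η w ^ 2) * Jf l ζ 0 h w)) := setLIntegral_mono' measurableSet_ball hpt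
    _ ≤ ∫⁻ w in ball (0 : ℂ) 1, (ENNReal.ofReal (32 / 3 / h ^ 2) *
      ENNReal.ofReal (η w ^ 2 * Pf l (a w) (b w)) + ENNReal.ofReal (64 / h ^ 3) *
      (ENNReal.ofReal (η w ^ 2) * Jf l ζ 0 h w)) :=
        lintegral_mono_set (ball_subset_ball (by norm_num))
    _ = ENNReal.ofReal (32 / 3 / h ^ 2) * (∫⁻ w in ball (0 : ℂ) 1,
      ENNReal.ofReal (η w ^ 2 * Pf l (a w) (b w))) + ENNReal.ofReal (64 / h ^ 3) *
      (∫⁻ w in ball (0 : ℂ) 1, ENNReal.ofReal (η w ^ 2) * Jf l ζ 0 h w) := by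
        rw [lintegral_add_left (m1.const_mul _), lintegral_const_mul _ m1,
          lintegral_const_mul' _ _ ENNReal.ofReal_ne_top]
    _ = ENNReal.ofReal (32 / 3 / h ^ 2) * En l η ζ 0 h + ENNReal.ofReal (64 / h ^ 3) *
      (∫⁻ t in Ioc 0 h, (En l η ζ 0 t + En l η ζ t h)) := by
        rw [lintegral_J D c]
        rfl
    _ ≤ ENNReal.ofReal (32 / 3 / h ^ 2) * ENNReal.ofReal (M * h ^ 2) +
        ENNReal.ofReal (64 / h ^ 3) * ENNReal.ofReal (2 * (M * h ^ 2) * h) := by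
        refine add_le_add (mul_le_mul_right ?_ _) (mul_le_mul_right ?_ _)
        · have := hEn 0 h le_rfl h0.le h1
          simpa using this
        · calc ∫⁻ t in Ioc 0 h, (En l η ζ 0 t + En l η ζ t h)
              ≤ ∫⁻ t in Ioc 0 h, ENNReal.ofReal (2 * (M * h ^ 2)) := by
                refine setLIntegral_mono' measurableSet_Ioc fun t ht => ?_
                have h2 := hEn 0 t le_rfl ht.1.le (ht.2.trans h1)
                have h3 := hEn t h ht.1.le ht.2 h1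
                have e1 : M * (t - 0) ^ 2 ≤ M * h ^ 2 :=
                  mul_le_mul_of_nonneg_left (pow_le_pow_left₀ (by linarith [ht.1])
                    (by linarith [ht.2]) 2) hM0
                have e2 : M * (h - t) ^ 2 ≤ M * h ^ 2 :=
                  mul_le_mul_of_nonneg_left (pow_le_pow_left₀ (by linarith [ht.2])
                    (by linarith [ht.1]) 2) hM0
                refine (add_le_add (h2.trans (ENNReal.ofReal_le_ofReal e1))
                  (h3.trans (ENNReal.ofReal_le_ofReal e2))).trans (le_of_eq ?_)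
                rw [← ENNReal.ofReal_add (by positivity) (by positivity)]
                congr 1
                ring
            _ = _ := by
                rw [lintegral_const, Measure.restrict_apply_univ, Real.volume_Ioc, sub_zero,
                  ← ENNReal.ofReal_mul (by positivity)]
    _ = ENNReal.ofReal (32 / 3 * M + 128 * M) := by
        rw [← ENNReal.ofReal_mul (by positivity), ← ENNReal.ofReal_mul (by positivity),
          ← ENNReal.ofReal_add (by positivity) (by positivity)]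
        congr 1
        field_simp
        ring
    _ ≤ ENNReal.ofReal (139 * M) := ENNReal.ofReal_le_ofReal (by linarith)

lemma det_const_mul (c x y : ℂ) : (c * x).re * (c * y).im - (c * y).re * (c * x).im =
    ‖c‖ ^ 2 * (x.re * y.im - y.re * x.im) := by
  rw [norm_sq_eq]
  simp only [Complex.mul_re, Complex.mul_im]
  ring

lemma level_bound (D : Dat l N ζ F) (c : Cut η G) {M : ℝ} (hM0 : 0 ≤ M)
    (hEn : ∀ s s' : ℝ, 0 ≤ s → s ≤ s' → s' ≤ 1 →
      En l η ζ s s' ≤ ENNReal.ofReal (M * (s' - s) ^ 2))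
    {h : ℝ} (h0 : 0 < h) (h1 : h ≤ 1) {om : ℂ} (hom : ‖om‖ = 1) {ρ0 : ℝ} (hρ0 : 0 < ρ0)
    (hρ1 : ρ0 < 1 / 2) {a b : ℝ} (hab : a < b)
    (hb : ¬ ∀ᵐ w ∂(volume.restrict (ball (0 : ℂ) ρ0)),
      ((om / h) * vf (fun z => rf l (ζ z)) 0 h w).re ≤ b)
    (ha : ¬ ∀ᵐ w ∂(volume.restrict (ball (0 : ℂ) ρ0)),
      a ≤ ((om / h) * vf (fun z => rf l (ζ z)) 0 h w).re) :
    (Tf b - Tf a) ^ 2 * Real.log (1 / 2 / ρ0) ≤ 2 * π * (139 * M) := by
  set c0 : ℂ := om / h with hc0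
  have hc0n : c0 ≠ 0 := by
    intro h2
    have h3 : ‖c0‖ = 1 / h := by
      rw [hc0, norm_div, hom, Complex.norm_real, Real.norm_eq_abs, abs_of_pos h0]
    rw [h2, norm_zero] at h3
    have : 0 < 1 / h := by positivity
    linarith
  have hA1 := ((D.approx le_rfl h0.le h1).const_mul c0).mono (R' := 1 / 2) (by norm_num)
  have hcont : ∀ n, Continuous (fun w => c0 * (F n (sh h w) - F n (sh 0 w))) := fun n =>
    (hA1.smooth n).continuous
  obtain ⟨φ, hφ, hae⟩ := hA1.cv.exists_subseq (fun n => (hcont n).aestronglyMeasurable) hA1.mv.1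
  have hA := hA1.comp hφ.tendsto_atTop
  have hdet : ∀ w, (c0 * (pf l (ζ (sh h w)) - pf l (ζ (sh 0 w)))).re *
      (c0 * (rf l (ζ (sh h w)) - rf l (ζ (sh 0 w)))).im -
      (c0 * (rf l (ζ (sh h w)) - rf l (ζ (sh 0 w)))).re *
      (c0 * (pf l (ζ (sh h w)) - pf l (ζ (sh 0 w)))).im =
      ‖c0‖ ^ 2 * Pf l (ζ (sh 0 w)) (ζ (sh h w)) := by
    intro w
    rw [det_const_mul, det_eq_Pf l (norm_pos_iff.1 (D.lpos.trans_le (D.ge _)))
      (norm_pos_iff.1 (D.lpos.trans_le (D.ge _)))]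
  have hCL := courant_lebesgue hA hae
    (.of_forall fun w => by
      rw [hdet]
      exact mul_nonneg (sq_nonneg _) (Pf_nonneg D.lpos (D.ge _) (D.ge _)))
    (.of_forall fun w hw => by
      rw [hdet] at hw
      have : ‖c0‖ ^ 2 ≠ 0 := by positivity
      have h2 := (mul_eq_zero.1 hw).resolve_left this
      rw [rf_eq_of_Pf_zero D.lpos (D.ge _) (D.ge _) h2, mul_zero])
    hρ0 hρ1 hab hb ha
  refine hCL.trans ?_
  exact mul_le_mul_of_nonneg_left (trunc_energy D c hM0 hEn h0 h1 hom) (by positivity)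

lemma comp_bound (D : Dat l N ζ F) (c : Cut η G) {M : ℝ} (hM0 : 0 < M)
    (hEn : ∀ s s' : ℝ, 0 ≤ s → s ≤ s' → s' ≤ 1 →
      En l η ζ s s' ≤ ENNReal.ofReal (M * (s' - s) ^ 2))
    {h : ℝ} (h0 : 0 < h) (h1 : h ≤ 1) {om : ℂ} (hom : ‖om‖ = 1) {ρ0 δ : ℝ} (hδ : 0 < δ)
    (hδ2 : δ < 1 / 2) (hρ0 : ρ0 = 1 / 2 * Real.exp (-(2 * π * (139 * M) / δ ^ 2))) :
    ∃ κ : ℝ, ∀ᵐ w ∂(volume.restrict (ball (0 : ℂ) ρ0)),
      |((om / h) * vf (fun z => rf l (ζ z)) 0 h w).re - κ| ≤ 2 * Real.sqrt (2 * δ) := by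
  set L := 2 * π * (139 * M) / δ ^ 2 with hL
  have hLpos : 0 < L := by positivity
  have hρpos : 0 < ρ0 := by rw [hρ0]; positivity
  have hρ1 : ρ0 < 1 / 2 := by
    rw [hρ0]
    have : Real.exp (-L) < 1 := by rw [Real.exp_lt_one_iff]; linarith
    linarith
  have hlog : Real.log (1 / 2 / ρ0) = L := by
    rw [hρ0, Real.exp_neg]
    have : (1 / 2 : ℝ) / (1 / 2 * (Real.exp L)⁻¹) = Real.exp L := by field_simp
    rw [this, Real.log_exp]
  have hμ : volume.restrict (ball (0 : ℂ) ρ0) ≠ 0 := by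
    rw [Ne, Measure.restrict_eq_zero]
    exact (measure_ball_pos _ _ hρpos).ne'
  have hle : ∀ x : ℝ, 0 ≤ x → x ^ 2 * L ≤ 2 * π * (139 * M) → x ≤ δ := by
    intro x hx hx2
    rw [hL, mul_div_assoc', div_le_iff₀ (by positivity)] at hx2
    have h3 : 0 < 2 * π * (139 * M) := by positivity
    have h4 : x ^ 2 ≤ δ ^ 2 := by
      have : x ^ 2 * (2 * π * (139 * M)) ≤ δ ^ 2 * (2 * π * (139 * M)) := by linarith
      exact le_of_mul_le_mul_right this h3
    exact (pow_le_pow_iff_left₀ hx hδ.le (by norm_num)).1 h4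
  obtain ⟨κ, h2, h3⟩ := exists_const_of_osc hμ
    (u := fun w => ((om / h) * vf (fun z => rf l (ζ z)) 0 h w).re)
    (ε := 2 * Real.sqrt (2 * δ)) (by positivity) (by
      intro a b hab hb ha
      refine sub_le_of_Tf hδ2 hab ?_ ?_
      · have h4 := level_bound D c hM0.le hEn h0 h1 hom hρpos hρ1 hab hb ha
        rw [hlog] at h4
        exact hle _ (sub_nonneg.2 (Tf_mono hab.le)) h4
      · have hneg : ∀ w, ((-om / h) * vf (fun z => rf l (ζ z)) 0 h w).re =
            -((om / h) * vf (fun z => rf l (ζ z)) 0 h w).re := by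
          intro w
          rw [← Complex.neg_re]
          congr 1
          ring
        have h4 := level_bound D c hM0.le hEn h0 h1 (om := -om) (by rw [norm_neg, hom]) hρpos hρ1
          (a := -b) (b := -a) (by linarith)
          (by
            intro h5
            refine ha ?_
            filter_upwards [h5] with w hw
            rw [hneg] at hw
            linarith)
          (by
            intro h5
            refine hb ?_
            filter_upwards [h5] with w hw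
            rw [hneg] at hw
            linarith)
        rw [hlog] at h4
        exact hle _ (sub_nonneg.2 (Tf_mono (by linarith))) h4)
  refine ⟨κ, ?_⟩
  filter_upwards [h2, h3] with w h4 h5
  have := Real.sqrt_nonneg (2 * δ)
  rw [abs_le]
  constructor
  · linarith
  · linarith

end osc

/-- Uniform oscillation bound for the difference quotients. -/
theorem osc_vf {N : ℝ} (hN : 0 ≤ N) {ε : ℝ} (hε : 0 < ε) :
    ∃ ρ0 : ℝ, 0 < ρ0 ∧ ρ0 < 1 / 2 ∧ ∀ (l : ℝ) (ζ : ℂ → ℂ) (F : ℕ → ℂ → ℂ), Dat l N ζ F →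
      ∀ h : ℝ, 0 < h → h ≤ 1 → ∃ κ : ℂ, ∀ᵐ w ∂(volume.restrict (ball (0 : ℂ) ρ0)),
        ‖(1 / h : ℂ) * vf (fun z => rf l (ζ z)) 0 h w - κ‖ ≤ ε := by
  obtain ⟨η, G, c⟩ := exists_cut
  have hG := c.G0
  set K := 8 * G + 1 with hK
  have hK0 : 0 < K := by positivity
  set M := 2 * (4 / 3 * K ^ 2 * N + 32 * K ^ 2 * ((π + N) / 2)) + K * (5 / 2 * N) with hM
  have hM0 : 0 < M := by positivity
  set δ := min (1 / 4) (ε ^ 2 / 32) with hδ
  have hδ0 : 0 < δ := by positivity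
  have hδ1 : δ < 1 / 2 := lt_of_le_of_lt (min_le_left _ _) (by norm_num)
  have hδ2 : 2 * Real.sqrt (2 * δ) ≤ ε / 2 := by
    have h1 : 2 * δ ≤ (ε / 4) ^ 2 := by
      have := min_le_right (1 / 4) (ε ^ 2 / 32)
      rw [← hδ] at this
      nlinarith
    have h2 := Real.sqrt_le_sqrt h1
    rw [Real.sqrt_sq (by positivity)] at h2
    linarith
  set ρ0 := 1 / 2 * Real.exp (-(2 * π * (139 * M) / δ ^ 2)) with hρ0
  have hρpos : 0 < ρ0 := by positivity
  have hρ1 : ρ0 < 1 / 2 := by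
    have h0 : 0 < 2 * π * (139 * M) / δ ^ 2 := by positivity
    have : Real.exp (-(2 * π * (139 * M) / δ ^ 2)) < 1 := by
      rw [Real.exp_lt_one_iff]; linarith
    linarith
  refine ⟨ρ0, hρpos, hρ1, ?_⟩
  intro l ζ F D h h0 h1
  have hEn : ∀ s s' : ℝ, 0 ≤ s → s ≤ s' → s' ≤ 1 →
      En l η ζ s s' ≤ ENNReal.ofReal (M * (s' - s) ^ 2) := fun s s' q1 q2 q3 =>
    En_quad D c hN (K := K) (M := M) (by linarith) hK0
      (by rw [hM]; have : 0 ≤ K * (5 / 2 * N) := by positivity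
          linarith)
      (by rw [hM]; have : 0 ≤ 2 * (4 / 3 * K ^ 2 * N + 32 * K ^ 2 * ((π + N) / 2)) := by positivity
          linarith) q1 q2 q3
  obtain ⟨κ1, hκ1⟩ := comp_bound D c hM0 hEn h0 h1 (om := 1) (by simp) hδ0 hδ1 hρ0
  obtain ⟨κ2, hκ2⟩ := comp_bound D c hM0 hEn h0 h1 (om := -Complex.I) (by simp) hδ0 hδ1 hρ0
  refine ⟨⟨κ1, κ2⟩, ?_⟩
  filter_upwards [hκ1, hκ2] with w h2 h3
  have e2 : ((-Complex.I / h) * vf (fun z => rf l (ζ z)) 0 h w).re =
      ((1 / h : ℂ) * vf (fun z => rf l (ζ z)) 0 h w).im := by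
    have : (-Complex.I / h) * vf (fun z => rf l (ζ z)) 0 h w =
      -Complex.I * ((1 / h : ℂ) * vf (fun z => rf l (ζ z)) 0 h w) := by ring
    rw [this]
    simp
  rw [e2] at h3
  refine (Complex.norm_le_abs_re_add_abs_im _).trans ?_
  rw [Complex.sub_re, Complex.sub_im]
  have := add_le_add h2 h3
  change |((1 / h : ℂ) * vf (fun z => rf l (ζ z)) 0 h w).re - κ1| +
    |((1 / h : ℂ) * vf (fun z => rf l (ζ z)) 0 h w).im - κ2| ≤ ε
  linarith

end Pool.Agent.H.MP_09f213_an
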