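import Pool.Agent.H.MP_09f213_an.Conv

/-! Weyl's lemma for the Cauchy-Riemann operator. -/

open MeasureTheory Set Filter Topology Metric
open scoped ContDiff ENNReal NNReal Real

namespace Pool.Agent.H.MP_09f213_an

/-- Cauchy integrals are holomorphic away from the support. -/
lemma differentiableOn_cauchy {k : ℂ → ℂ} (hk : Integrable k) {z0 : ℂ} {r d : ℝ} (hd : 0 < d)
    (hsupp : ∀ ξ, k ξ ≠ 0 → ∀ z ∈ ball z0 r, d ≤ ‖z - ξ‖) :
    DifferentiableOn ℂ (fun z => ∫ ξ, k ξ / (z - ξ)) (ball z0 r) := by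
  intro x hx
  have hmeas : ∀ z : ℂ, AEStronglyMeasurable (fun ξ => k ξ / (z - ξ)) volume := fun z => by
    have h1 : Measurable fun ξ : ℂ => (z - ξ)⁻¹ := (measurable_const.sub measurable_id).inv
    simp only [div_eq_mul_inv]
    exact hk.1.mul h1.aestronglyMeasurable
  have hmeas' : AEStronglyMeasurable (fun ξ => -(k ξ) / (x - ξ) ^ 2) volume := by
    have h1 : Measurable fun ξ : ℂ => ((x - ξ) ^ 2)⁻¹ :=
      ((measurable_const.sub measurable_id).pow_const 2).inv
    simp only [div_eq_mul_inv]
    exact hk.1.neg.mul h1.aestronglyMeasurable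
  have hb0 : ∀ z ∈ ball z0 r, ∀ ξ, ‖k ξ / (z - ξ)‖ ≤ ‖k ξ‖ / d := by
    intro z hz ξ
    by_cases h : k ξ = 0
    · simp [h]
    · rw [norm_div]
      exact div_le_div_of_nonneg_left (norm_nonneg _) hd (hsupp ξ h z hz)
  have hint : Integrable (fun ξ => k ξ / (x - ξ)) volume :=
    (hk.norm.div_const d).mono' (hmeas x) (.of_forall (hb0 x hx))
  have := hasDerivAt_integral_of_dominated_loc_of_deriv_le (μ := (volume : Measure ℂ)) (𝕜 := ℂ)
    (F := fun z ξ => k ξ / (z - ξ)) (F' := fun z ξ => -(k ξ) / (z - ξ) ^ 2) (x₀ := x)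
    (s := ball z0 r) (bound := fun ξ => ‖k ξ‖ / d ^ 2) (isOpen_ball.mem_nhds hx)
    (.of_forall hmeas) hint hmeas' ?_ (hk.norm.div_const _) ?_
  · exact this.2.differentiableAt.differentiableWithinAt
  · refine .of_forall fun ξ z hz => ?_
    by_cases h : k ξ = 0
    · simp [h]
    · rw [norm_div, norm_neg, norm_pow]
      exact div_le_div_of_nonneg_left (norm_nonneg _) (by positivity)
        (pow_le_pow_left₀ hd.le (hsupp ξ h z hz) 2)
  · refine .of_forall fun ξ z hz => ?_
    by_cases h : k ξ = 0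
    · simp only [h, zero_div, neg_zero]
      exact hasDerivAt_const z 0
    · have hne : z - ξ ≠ 0 := by
        rw [← norm_pos_iff]; exact hd.trans_le (hsupp ξ h z hz)
      have h1 : HasDerivAt (fun z => z - ξ) 1 z := (hasDerivAt_id z).sub_const ξ
      have h2 : HasDerivAt (fun z => k ξ / (z - ξ)) ((0 * (z - ξ) - k ξ * 1) / (z - ξ) ^ 2) z :=
        (hasDerivAt_const z (k ξ)).div h1 hne
      refine h2.congr_deriv ?_
      ring

lemma norm_mul_div_le (a b : ℂ) {c : ℂ} {d : ℝ} (hd : 0 < d) (h : d ≤ ‖c‖) :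
    ‖a * (b / c)‖ ≤ ‖a * b‖ * d⁻¹ := by
  rw [norm_mul, norm_div, norm_mul, mul_assoc, div_eq_mul_inv]
  have h3 : ‖c‖⁻¹ ≤ d⁻¹ := inv_anti₀ hd h
  gcongr

/-- Local form of Weyl's lemma. -/
theorem weyl_local {U : Set ℂ} (hU : IsOpen U) {g : ℂ → ℂ} (hg : LocallyIntegrableOn g U)
    (hw : ∀ φ : ℂ → ℂ, ContDiff ℝ ((⊤ : ℕ∞) : WithTop ℕ∞) φ → HasCompactSupport φ →
      tsupport φ ⊆ U → ∫ z, g z * dzb φ z = 0) {z0 : ℂ} (hz0 : z0 ∈ U) :
    ∃ r : ℝ, 0 < r ∧ ball z0 r ⊆ U ∧ ∃ G : ℂ → ℂ, DifferentiableOn ℂ G (ball z0 r) ∧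
      ∀ᵐ z ∂(volume.restrict (ball z0 r)), g z = G z := by
  obtain ⟨R, hR, hRU⟩ : ∃ R : ℝ, 0 < R ∧ closedBall z0 R ⊆ U := by
    obtain ⟨ε, hε, h⟩ := Metric.isOpen_iff.1 hU z0 hz0
    exact ⟨ε / 2, by positivity, (closedBall_subset_ball (by linarith)).trans h⟩
  let b : ContDiffBump z0 := ⟨R / 2, R, by positivity, by linarith⟩
  set χ : ℂ → ℂ := fun z => ((b z : ℝ) : ℂ) with hχ
  have hχs : ContDiff ℝ ((⊤ : ℕ∞) : WithTop ℕ∞) χ :=
    Complex.ofRealCLM.contDiff.comp b.contDiff
  have hχ1 : ContDiff ℝ 1 χ := hχs.of_le (by exact_mod_cast le_top)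
  have hsuppχ : tsupport χ ⊆ closedBall z0 R := by
    refine closure_minimal ?_ isClosed_closedBall
    intro z hz
    have h1 : b z ≠ 0 := by
      intro h0; apply hz; simp only [hχ]; rw [h0]; simp
    have h2 : z ∈ Function.support b := h1
    rw [b.support_eq] at h2
    exact ball_subset_closedBall h2
  have hχc : HasCompactSupport χ := (isCompact_closedBall z0 R).of_isClosed_subset
    (isClosed_tsupport _) hsuppχ
  have hχone : ∀ z ∈ ball z0 (R / 2), χ z = 1 := by
    intro z hz
    have : b z = 1 := b.one_of_mem_closedBall (ball_subset_closedBall hz)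
    simp only [hχ]; rw [this]; simp
  have hdχ0 : ∀ z ∈ ball z0 (R / 2), dzb χ z = 0 := by
    intro z hz
    have h1 : χ =ᶠ[𝓝 z] fun _ => (1 : ℂ) := by
      filter_upwards [isOpen_ball.mem_nhds hz] with w hw using hχone w hw
    unfold dzb
    rw [h1.fderiv_eq]
    simp
  -- the integrable density
  set k : ℂ → ℂ := fun ξ => g ξ * dzb χ ξ with hk
  have hgR : IntegrableOn g (closedBall z0 R) :=
    (hg.mono_set hRU).integrableOn_isCompact (isCompact_closedBall z0 R)
  have hkint : Integrable k := by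
    have h1 : Integrable (fun ξ => (closedBall z0 R).indicator g ξ * dzb χ ξ) := by
      obtain ⟨C, hC⟩ := (hasCompactSupport_dzb hχc).exists_bound_of_continuous (continuous_dzb hχ1)
      have h2 := (integrable_indicator_iff measurableSet_closedBall).2 hgR
      exact h2.mul_bdd (c := C) (continuous_dzb hχ1).aestronglyMeasurable (.of_forall hC)
    refine h1.congr (.of_forall fun ξ => ?_)
    simp only [hk]
    by_cases hξ : ξ ∈ closedBall z0 R
    · rw [indicator_of_mem hξ]
    · rw [dzb_eq_zero (fun h => hξ (hsuppχ h)), mul_zero, mul_zero]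
  have hksupp : ∀ ξ, k ξ ≠ 0 → ∀ z ∈ ball z0 (R / 4), R / 4 ≤ ‖z - ξ‖ := by
    intro ξ hξ z hz
    have h1 : ξ ∉ ball z0 (R / 2) := by
      intro h; apply hξ; simp only [hk]; rw [hdχ0 ξ h, mul_zero]
    rw [mem_ball, dist_eq_norm, not_lt] at h1
    rw [mem_ball, dist_eq_norm] at hz
    have h2 : ‖ξ - z0‖ ≤ ‖z - ξ‖ + ‖z - z0‖ := by
      have : ξ - z0 = -(z - ξ) + (z - z0) := by ring
      rw [this]
      exact (norm_add_le _ _).trans (by rw [norm_neg])
    linarith
  set H : ℂ → ℂ := fun z => (π : ℂ)⁻¹ * ∫ ξ, k ξ / (z - ξ) with hH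
  have hHd : DifferentiableOn ℂ H (ball z0 (R / 4)) :=
    (differentiableOn_cauchy hkint (by positivity) hksupp).const_mul _
  have hsub : ball z0 (R / 4) ⊆ U :=
    (ball_subset_closedBall.trans (closedBall_subset_closedBall (by linarith))).trans hRU
  refine ⟨R / 4, by positivity, hsub, H, hHd, ?_⟩
  have hgl : LocallyIntegrableOn g (ball z0 (R / 4)) := hg.mono_set hsub
  have hHl : LocallyIntegrableOn H (ball z0 (R / 4)) :=
    hHd.continuousOn.locallyIntegrableOn measurableSet_ball
  have key := isOpen_ball.ae_eq_zero_of_integral_contDiff_smul_eq_zero (μ := (volume : Measure ℂ))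
    (f := fun z => g z - H z) (hgl.sub hHl) ?_
  · rw [ae_restrict_iff' measurableSet_ball]
    filter_upwards [key] with z hz hmem
    exact sub_eq_zero.1 (hz hmem)
  intro ψr hψr hψrc hψrs
  set ψ : ℂ → ℂ := fun z => ((ψr z : ℝ) : ℂ) with hψdef
  have hψs : ContDiff ℝ ((⊤ : ℕ∞) : WithTop ℕ∞) ψ := Complex.ofRealCLM.contDiff.comp hψr
  have hψ0 : ∀ z ∉ ball z0 (R / 4), ψ z = 0 := by
    intro z hz
    simp only [hψdef]
    rw [image_eq_zero_of_notMem_tsupport (fun h => hz (hψrs h))]
    simp
  have hψc : HasCompactSupport ψ := HasCompactSupport.intro hψrc (fun z hz => by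
    simp only [hψdef]; rw [image_eq_zero_of_notMem_tsupport hz]; simp)
  have hψcont : Continuous ψ := hψs.continuous
  obtain ⟨η, hηs, hηd, hηf⟩ := cauchy_smooth hψs hψc
  have hη1 : ContDiff ℝ 1 η := hηs.of_le (by exact_mod_cast le_top)
  -- test with `χ η`
  have hts : tsupport (fun z => χ z * η z) ⊆ tsupport χ := tsupport_mul_subset_left
  have ht := hw (fun z => χ z * η z) (hχs.mul hηs) (hχc.mul_right) (hts.trans (hsuppχ.trans hRU))
  have hprod : ∀ z, g z * dzb (fun z => χ z * η z) z = g z * ψ z + k z * η z := by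
    intro z
    rw [dzb_mul (hχ1.differentiable (by norm_num) z) (hη1.differentiable (by norm_num) z), hηd]
    have : χ z * ψ z = ψ z := by
      by_cases hz : z ∈ ball z0 (R / 4)
      · rw [hχone z (ball_subset_ball (by linarith) hz), one_mul]
      · rw [hψ0 z hz, mul_zero]
    rw [this]
    simp only [hk]
    ring
  simp only [hprod] at ht
  have hgψ : Integrable fun z => g z * ψ z := by
    have h1 : Integrable (fun ξ => (closedBall z0 R).indicator g ξ * ψ ξ) := by
      obtain ⟨C, hC⟩ := hψc.exists_bound_of_continuous hψcont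
      have h2 := (integrable_indicator_iff measurableSet_closedBall).2 hgR
      exact h2.mul_bdd (c := C) hψcont.aestronglyMeasurable (.of_forall hC)
    refine h1.congr (.of_forall fun ξ => ?_)
    simp only
    by_cases hξ : ξ ∈ closedBall z0 R
    · rw [indicator_of_mem hξ]
    · rw [hψ0 ξ (fun h => hξ (ball_subset_closedBall (ball_subset_ball (by linarith) h))), mul_zero,
        mul_zero]
  have hηc : Continuous η := hηs.continuous
  have hkη : Integrable fun z => k z * η z := by
    -- `k` lives on the closed ball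
    obtain ⟨C, hC⟩ := (isCompact_closedBall z0 R).exists_bound_of_continuousOn hηc.continuousOn
    refine (hkint.norm.mul_const C).mono' (hkint.1.mul hηc.aestronglyMeasurable)
      (.of_forall fun z => ?_)
    rw [norm_mul]
    by_cases hz : z ∈ closedBall z0 R
    · exact mul_le_mul_of_nonneg_left (hC z hz) (norm_nonneg _)
    · have : k z = 0 := by
        simp only [hk]
        rw [dzb_eq_zero (fun h => hz (hsuppχ h)), mul_zero]
      simp [this]
  rw [integral_add hgψ hkη] at ht
  -- Fubini
  have hfub : ∫ z, k z * η z = -∫ z, H z * ψ z := by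
    have hintprod : Integrable (Function.uncurry fun ξ z : ℂ => k ξ * (ψ z / (ξ - z)))
        (volume.prod volume) := by
      have hψint : Integrable ψ := hψcont.integrable_of_hasCompactSupport hψc
      have h1 : Integrable (fun p : ℂ × ℂ => k p.1 * ψ p.2) (volume.prod volume) :=
        hkint.mul_prod hψint
      refine (h1.norm.mul_const (R / 4)⁻¹).mono' ?_ (.of_forall ?_)
      · have m1 : AEStronglyMeasurable (fun p : ℂ × ℂ => k p.1) (volume.prod volume) :=
          hkint.1.comp_fst
        have m2 : Measurable fun p : ℂ × ℂ => ψ p.2 / (p.1 - p.2) :=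
          (hψcont.measurable.comp measurable_snd).div (measurable_fst.sub measurable_snd)
        exact m1.mul m2.aestronglyMeasurable
      · rintro ⟨ξ, z⟩
        simp only [Function.uncurry]
        by_cases h0 : k ξ = 0
        · simp [h0]
        by_cases h1 : z ∈ ball z0 (R / 4)
        · have h2 := hksupp ξ h0 z h1
          rw [norm_sub_rev] at h2
          exact norm_mul_div_le (k ξ) (ψ z) (by positivity) h2
        · rw [hψ0 z h1]; simp
    calc ∫ ξ, k ξ * η ξ = ∫ ξ, (π : ℂ)⁻¹ * ∫ z, k ξ * (ψ z / (ξ - z)) := by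
          congr 1
          funext ξ
          rw [hηf, integral_const_mul]
          ring
      _ = (π : ℂ)⁻¹ * ∫ z, ∫ ξ, k ξ * (ψ z / (ξ - z)) := by
          rw [integral_const_mul, integral_integral_swap hintprod]
      _ = -∫ z, H z * ψ z := by
          rw [← integral_const_mul, ← integral_neg]
          congr 1
          funext z
          simp only [hH]
          have : ∀ ξ, k ξ * (ψ z / (ξ - z)) = -(ψ z) * (k ξ / (z - ξ)) := by
            intro ξ
            rw [← neg_sub z ξ, div_neg, div_eq_mul_inv, div_eq_mul_inv]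
            ring
          simp only [this]
          rw [integral_const_mul]
          ring
  rw [hfub] at ht
  have hHψ : Integrable fun z => H z * ψ z := by
    have h1 : ContinuousOn H (ball z0 (R / 4)) := hHd.continuousOn
    have h2 : Continuous fun z => H z * ψ z := by
      rw [continuous_iff_continuousAt]
      intro z
      by_cases hz : z ∈ tsupport ψr
      · exact (h1.continuousAt (isOpen_ball.mem_nhds (hψrs hz))).mul hψcont.continuousAt
      · have h3 : (fun z => H z * ψ z) =ᶠ[𝓝 z] fun _ => 0 := by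
          filter_upwards [(isClosed_tsupport ψr).isOpen_compl.mem_nhds hz] with w hw
          have : ψr w = 0 := image_eq_zero_of_notMem_tsupport hw
          simp only [hψdef, this]
          simp
        exact continuousAt_const.congr h3.symm
    exact h2.integrable_of_hasCompactSupport hψc.mul_left
  calc ∫ z, ψr z • (g z - H z) = ∫ z, (g z * ψ z - H z * ψ z) := by
        congr 1
        funext z
        simp only [hψdef, Complex.real_smul]
        ring
    _ = (∫ z, g z * ψ z) - ∫ z, H z * ψ z := integral_sub hgψ hHψ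
    _ = 0 := by rw [sub_eq_add_neg]; exact ht

end Pool.Agent.H.MP_09f213_an
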