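import Pool.Agent.H.MP_09f213_an.HypT

/-! Commutation of the Wirtinger derivatives and the holomorphic case. -/

open MeasureTheory Set Filter Topology Metric
open scoped ContDiff ENNReal NNReal Real

namespace Pool.Agent.H.MP_09f213_an

lemma contDiff_fderiv_apply_top {φ : ℂ → ℂ} (h1 : ContDiff ℝ ((⊤ : ℕ∞) : WithTop ℕ∞) φ) (e : ℂ) :
    ContDiff ℝ ((⊤ : ℕ∞) : WithTop ℕ∞) (fun z => fderiv ℝ φ z e) := by
  have h2 : ContDiff ℝ ((⊤ : ℕ∞) : WithTop ℕ∞) (fderiv ℝ φ) :=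
    h1.fderiv_right (by simp)
  exact h2.clm_apply contDiff_const

lemma contDiff_dzb {φ : ℂ → ℂ} (h1 : ContDiff ℝ ((⊤ : ℕ∞) : WithTop ℕ∞) φ) :
    ContDiff ℝ ((⊤ : ℕ∞) : WithTop ℕ∞) (dzb φ) := by
  unfold dzb
  exact ((contDiff_fderiv_apply_top h1 1).add
    (contDiff_const.mul (contDiff_fderiv_apply_top h1 Complex.I))).div_const 2

lemma contDiff_dz {φ : ℂ → ℂ} (h1 : ContDiff ℝ ((⊤ : ℕ∞) : WithTop ℕ∞) φ) :
    ContDiff ℝ ((⊤ : ℕ∞) : WithTop ℕ∞) (dz φ) := by
  unfold dz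
  exact ((contDiff_fderiv_apply_top h1 1).sub
    (contDiff_const.mul (contDiff_fderiv_apply_top h1 Complex.I))).div_const 2

lemma dz_eq_zero {ψ : ℂ → ℂ} {z : ℂ} (hz : z ∉ tsupport ψ) : dz ψ z = 0 := by
  have h : fderiv ℝ ψ z = 0 := by
    by_contra h
    exact hz (support_fderiv_subset ℝ h)
  unfold dz
  rw [h]
  simp

lemma tsupport_dz {ψ : ℂ → ℂ} : tsupport (dz ψ) ⊆ tsupport ψ := by
  refine closure_minimal ?_ (isClosed_tsupport _)
  intro z hz
  by_contra h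
  exact hz (dz_eq_zero h)

lemma tsupport_dzb {ψ : ℂ → ℂ} : tsupport (dzb ψ) ⊆ tsupport ψ := by
  refine closure_minimal ?_ (isClosed_tsupport _)
  intro z hz
  by_contra h
  exact hz (dzb_eq_zero h)

lemma hasCompactSupport_dz {ψ : ℂ → ℂ} (hc : HasCompactSupport ψ) :
    HasCompactSupport (dz ψ) :=
  hc.of_isClosed_subset (isClosed_tsupport _) tsupport_dz

lemma dz_dzb {φ : ℂ → ℂ} (h1 : ContDiff ℝ ((⊤ : ℕ∞) : WithTop ℕ∞) φ) (z : ℂ) :
    dz (dzb φ) z = dzb (dz φ) z := by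
  have h2 : ContDiff ℝ ((⊤ : ℕ∞) : WithTop ℕ∞) (fderiv ℝ φ) :=
    h1.fderiv_right (by simp)
  have hd : DifferentiableAt ℝ (fderiv ℝ φ) z :=
    (h2.differentiable (by simp)) z
  have hsymm : fderiv ℝ (fderiv ℝ φ) z 1 Complex.I = fderiv ℝ (fderiv ℝ φ) z Complex.I 1 := by
    have := (h1.contDiffAt (x := z)).isSymmSndFDerivAt
      (by rw [minSmoothness_of_isRCLikeNormedField]; exact_mod_cast ENat.LEInfty.out)
    exact this 1 Complex.I
  have hx : ∀ e : ℂ, HasFDerivAt (fun w => fderiv ℝ φ w e)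
      ((fderiv ℝ (fderiv ℝ φ) z).flip e) z := fun e => by
    have := hd.hasFDerivAt.clm_apply (hasFDerivAt_const e z)
    refine this.congr_fderiv ?_
    ext v
    simp
  have e1 : fderiv ℝ (dzb φ) z = (2 : ℂ)⁻¹ • ((fderiv ℝ (fderiv ℝ φ) z).flip 1 +
      Complex.I • (fderiv ℝ (fderiv ℝ φ) z).flip Complex.I) := by
    have h3 : HasFDerivAt (fun w => (2 : ℂ)⁻¹ • (fderiv ℝ φ w 1 + Complex.I • fderiv ℝ φ w Complex.I))
      ((2 : ℂ)⁻¹ • ((fderiv ℝ (fderiv ℝ φ) z).flip 1 +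
      Complex.I • (fderiv ℝ (fderiv ℝ φ) z).flip Complex.I)) z :=
      ((hx 1).add ((hx Complex.I).const_smul Complex.I)).const_smul (2 : ℂ)⁻¹
    rw [← h3.fderiv]
    congr 1
    funext w
    unfold dzb
    simp only [smul_eq_mul]
    ring
  have e2 : fderiv ℝ (dz φ) z = (2 : ℂ)⁻¹ • ((fderiv ℝ (fderiv ℝ φ) z).flip 1 -
      Complex.I • (fderiv ℝ (fderiv ℝ φ) z).flip Complex.I) := by
    have h3 : HasFDerivAt (fun w => (2 : ℂ)⁻¹ • (fderiv ℝ φ w 1 - Complex.I • fderiv ℝ φ w Complex.I))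
      ((2 : ℂ)⁻¹ • ((fderiv ℝ (fderiv ℝ φ) z).flip 1 -
      Complex.I • (fderiv ℝ (fderiv ℝ φ) z).flip Complex.I)) z :=
      ((hx 1).sub ((hx Complex.I).const_smul Complex.I)).const_smul (2 : ℂ)⁻¹
    rw [← h3.fderiv]
    congr 1
    funext w
    unfold dz
    simp only [smul_eq_mul]
    ring
  have e3 : dz (dzb φ) z = (fderiv ℝ (dzb φ) z 1 - Complex.I * fderiv ℝ (dzb φ) z Complex.I) / 2 :=
    rfl
  have e4 : dzb (dz φ) z = (fderiv ℝ (dz φ) z 1 + Complex.I * fderiv ℝ (dz φ) z Complex.I) / 2 :=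
    rfl
  rw [e3, e4, e1, e2]
  simp only [FunLike.coe_smul, FunLike.coe_add, FunLike.coe_sub, Pi.smul_apply, Pi.add_apply,
    Pi.sub_apply, smul_eq_mul, ContinuousLinearMap.flip_apply, hsymm]
  ring

section
variable {Ω : Set ℂ} {f fx fy : ℂ → ℂ}

lemma LocallyIntegrableOn.integrable_mul_test {U : Set ℂ} {g φ : ℂ → ℂ}
    (hg : LocallyIntegrableOn g U) (hc : Continuous φ) (hs : HasCompactSupport φ)
    (hsub : tsupport φ ⊆ U) : Integrable fun z => g z * φ z := by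
  have h1 : IntegrableOn (fun z => g z * φ z) (tsupport φ) :=
    (hg.integrableOn_compact_subset hsub hs).mul_continuousOn hc.continuousOn hs
  refine (integrableOn_iff_integrable_of_support_subset ?_).1 h1
  intro z hz
  by_contra h
  exact hz (by simp only; rw [image_eq_zero_of_notMem_tsupport h, mul_zero])

lemma Hyp.lix (H : Hyp Ω f fx fy) : LocallyIntegrableOn fx Ω := by
  intro z hz
  obtain ⟨r, hr, hrΩ⟩ := Metric.isOpen_iff.1 H.op z hz
  refine ⟨ball z r, mem_nhdsWithin_of_mem_nhds (ball_mem_nhds z hr), ?_⟩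
  have : IsFiniteMeasure ((volume : Measure ℂ).restrict (ball z r)) :=
    ⟨by rw [Measure.restrict_apply_univ]; exact measure_ball_lt_top⟩
  have h1 : MemLp fx 2 (volume.restrict (ball z r)) :=
    H.mx.mono_measure (Measure.restrict_mono hrΩ le_rfl)
  exact memLp_one_iff_integrable.1 (h1.mono_exponent (by norm_num))

lemma Hyp.liy (H : Hyp Ω f fx fy) : LocallyIntegrableOn fy Ω := by
  intro z hz
  obtain ⟨r, hr, hrΩ⟩ := Metric.isOpen_iff.1 H.op z hz
  refine ⟨ball z r, mem_nhdsWithin_of_mem_nhds (ball_mem_nhds z hr), ?_⟩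
  have : IsFiniteMeasure ((volume : Measure ℂ).restrict (ball z r)) :=
    ⟨by rw [Measure.restrict_apply_univ]; exact measure_ball_lt_top⟩
  have h1 : MemLp fy 2 (volume.restrict (ball z r)) :=
    H.my.mono_measure (Measure.restrict_mono hrΩ le_rfl)
  exact memLp_one_iff_integrable.1 (h1.mono_exponent (by norm_num))

/-- The weak `∂̄` equation. -/
lemma Hyp.weak_dzb (H : Hyp Ω f fx fy) {φ : ℂ → ℂ} (h1 : ContDiff ℝ ((⊤ : ℕ∞) : WithTop ℕ∞) φ)
    (h2 : HasCompactSupport φ) (h3 : tsupport φ ⊆ Ω) :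
    ∫ z, f z * dzb φ z = - ∫ z, wzb fx fy z * φ z := by
  obtain ⟨a, b⟩ := H.weak φ h1 h2 h3
  have hcx : ∀ e : ℂ, Continuous fun z => fderiv ℝ φ z e :=
    fun e => (contDiff_fderiv_apply_top h1 e).continuous
  have hsx : ∀ e : ℂ, HasCompactSupport fun z => fderiv ℝ φ z e := fun e => h2.fderiv_apply ℝ e
  have hts : ∀ e : ℂ, (tsupport fun z => fderiv ℝ φ z e) ⊆ Ω := fun e =>
    (tsupport_fderiv_apply_subset ℝ e).trans h3
  have i1 := LocallyIntegrableOn.integrable_mul_test H.li (hcx 1) (hsx 1) (hts 1)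
  have i2 := LocallyIntegrableOn.integrable_mul_test H.li (hcx Complex.I) (hsx Complex.I)
    (hts Complex.I)
  have i3 := LocallyIntegrableOn.integrable_mul_test H.lix h1.continuous h2 h3
  have i4 := LocallyIntegrableOn.integrable_mul_test H.liy h1.continuous h2 h3
  have e1 : ∀ z, f z * dzb φ z = (2 : ℂ)⁻¹ * (f z * fderiv ℝ φ z 1 + Complex.I *
      (f z * fderiv ℝ φ z Complex.I)) := fun z => by unfold dzb; ring
  have e2 : ∀ z, wzb fx fy z * φ z = (2 : ℂ)⁻¹ * (fx z * φ z + Complex.I * (fy z * φ z)) :=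
    fun z => by unfold wzb; ring
  simp only [e1, e2]
  rw [integral_const_mul, integral_const_mul, integral_add i1 (i2.const_mul _),
    integral_add i3 (i4.const_mul _), integral_const_mul, integral_const_mul, a, b]
  ring

/-- The weak `∂` equation. -/
lemma Hyp.weak_dz (H : Hyp Ω f fx fy) {φ : ℂ → ℂ} (h1 : ContDiff ℝ ((⊤ : ℕ∞) : WithTop ℕ∞) φ)
    (h2 : HasCompactSupport φ) (h3 : tsupport φ ⊆ Ω) :
    ∫ z, f z * dz φ z = - ∫ z, wz fx fy z * φ z := by
  obtain ⟨a, b⟩ := H.weak φ h1 h2 h3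
  have hcx : ∀ e : ℂ, Continuous fun z => fderiv ℝ φ z e :=
    fun e => (contDiff_fderiv_apply_top h1 e).continuous
  have hsx : ∀ e : ℂ, HasCompactSupport fun z => fderiv ℝ φ z e := fun e => h2.fderiv_apply ℝ e
  have hts : ∀ e : ℂ, (tsupport fun z => fderiv ℝ φ z e) ⊆ Ω := fun e =>
    (tsupport_fderiv_apply_subset ℝ e).trans h3
  have i1 := LocallyIntegrableOn.integrable_mul_test H.li (hcx 1) (hsx 1) (hts 1)
  have i2 := LocallyIntegrableOn.integrable_mul_test H.li (hcx Complex.I) (hsx Complex.I)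
    (hts Complex.I)
  have i3 := LocallyIntegrableOn.integrable_mul_test H.lix h1.continuous h2 h3
  have i4 := LocallyIntegrableOn.integrable_mul_test H.liy h1.continuous h2 h3
  have e1 : ∀ z, f z * dz φ z = (2 : ℂ)⁻¹ * (f z * fderiv ℝ φ z 1 - Complex.I *
      (f z * fderiv ℝ φ z Complex.I)) := fun z => by unfold dz; ring
  have e2 : ∀ z, wz fx fy z * φ z = (2 : ℂ)⁻¹ * (fx z * φ z - Complex.I * (fy z * φ z)) :=
    fun z => by unfold wz; ring
  simp only [e1, e2]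
  rw [integral_const_mul, integral_const_mul, integral_sub i1 (i2.const_mul _),
    integral_sub i3 (i4.const_mul _), integral_const_mul, integral_const_mul, a, b]
  ring

lemma Hyp.commute (H : Hyp Ω f fx fy) {φ : ℂ → ℂ} (h1 : ContDiff ℝ ((⊤ : ℕ∞) : WithTop ℕ∞) φ)
    (h2 : HasCompactSupport φ) (h3 : tsupport φ ⊆ Ω) :
    ∫ z, wz fx fy z * dzb φ z = ∫ z, wzb fx fy z * dz φ z := by
  have a := H.weak_dz (contDiff_dzb h1) (hasCompactSupport_dzb h2) (tsupport_dzb.trans h3)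
  have b := H.weak_dzb (contDiff_dz h1) (hasCompactSupport_dz h2) (tsupport_dz.trans h3)
  have c : ∫ z, f z * dz (dzb φ) z = ∫ z, f z * dzb (dz φ) z := by
    simp only [dz_dzb h1]
  rw [a, b] at c
  exact neg_injective c

/-- The holomorphic case. -/
theorem case_zero (H : Hyp Ω f fx fy) {z0 : ℂ} {r : ℝ} (hr : 0 < r) (hrΩ : ball z0 r ⊆ Ω)
    (hz : ∀ᵐ z ∂(volume.restrict (ball z0 r)), wzb fx fy z = 0) {ε : ℝ} (hε : 0 < ε) :
    ∃ s : ℝ, 0 < s ∧ ∃ κ : ℝ, ∀ᵐ z ∂(volume.restrict (ball z0 s)), |Dn fx fy z - κ| ≤ ε := by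
  have hli : LocallyIntegrableOn (wz fx fy) (ball z0 r) := by
    have h1 : LocallyIntegrableOn (wz fx fy) Ω := by
      intro z hz
      obtain ⟨s, hs, hi⟩ := H.lix z hz
      obtain ⟨t, ht, hj⟩ := H.liy z hz
      refine ⟨s ∩ t, inter_mem hs ht, ?_⟩
      have := ((hi.mono_set (inter_subset_left (t := t))).sub
        ((hj.mono_set (inter_subset_right (s := s))).const_mul Complex.I)).div_const 2
      exact this
    exact h1.mono_set hrΩ
  obtain ⟨s, hs, hsr, G, hG, hGe⟩ := weyl_local isOpen_ball hli (fun φ h1 h2 h3 => by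
    rw [H.commute h1 h2 (h3.trans hrΩ)]
    refine integral_eq_zero_of_ae ?_
    rw [ae_restrict_iff' measurableSet_ball] at hz
    filter_upwards [hz] with z hz'
    by_cases h : z ∈ ball z0 r
    · rw [hz' h]; simp
    · rw [dz_eq_zero (fun h' => h (h3 h'))]; simp) (mem_ball_self hr)
  have hGc : ContinuousAt (fun z => Real.sqrt (2 * ‖G z‖ ^ 2)) z0 := by
    have h1 : ContinuousAt G z0 := hG.continuousOn.continuousAt (ball_mem_nhds z0 hs)
    exact Real.continuous_sqrt.continuousAt.comp (continuousAt_const.mul (h1.norm.pow 2))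
  obtain ⟨d, hd, h2⟩ := Metric.continuousAt_iff.1 hGc ε hε
  refine ⟨min d s, lt_min hd hs, Real.sqrt (2 * ‖G z0‖ ^ 2), ?_⟩
  have k1 : volume.restrict (ball z0 (min d s)) ≤ volume.restrict (ball z0 s) :=
    Measure.restrict_mono (ball_subset_ball (min_le_right _ _)) le_rfl
  have k2 : volume.restrict (ball z0 (min d s)) ≤ volume.restrict (ball z0 r) :=
    Measure.restrict_mono ((ball_subset_ball (min_le_right _ _)).trans hsr) le_rfl
  filter_upwards [ae_mono k1 hGe, ae_mono k2 hz, ae_restrict_mem measurableSet_ball]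
    with z e1 e2 e3
  have h3 := h2 (mem_ball.1 (ball_subset_ball (min_le_left _ _) e3))
  rw [Real.dist_eq] at h3
  rw [Dn_eq, e1, e2]
  simp only [norm_zero]
  have : 2 * (‖G z‖ ^ 2 + 0 ^ 2) = 2 * ‖G z‖ ^ 2 := by ring
  rw [this]
  exact h3.le

end

end Pool.Agent.H.MP_09f213_an
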